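import Mathlib

/-!
[ST BX5] ONLY MATHLIB. Liouville's inequality in the form needed.

PLAN. `A` is a nonzero algebraic integer of `L`; its norm over `ℚ` is a nonzero integer, so
`1 ≤ ∏_σ ‖σ A‖` over all embeddings `L →+* ℂ` (`Algebra.norm_eq_prod_embeddings` for `L →ₐ[ℚ] ℂ`,
`RingHom.equivRatAlgHom`, `Algebra.isIntegral_norm`, or `NumberField.InfinitePlace.prod_eq_abs_norm`
together with `NumberField.InfinitePlace.one_le_of_lt_one`...). All factors are `≤ Y`, the number of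
factors is `finrank ℚ L ≤ d` and `1 ≤ Y`; so `1 ≤ ‖σ₀ A‖ * Y^(d-1)`.
-/

set_option autoImplicit false

namespace Pool.Agent.LibST91

theorem liouville {L : Type} [Field L] [NumberField L] (d : ℕ) (hd : Module.finrank ℚ L ≤ d)
    (σ₀ : L →+* ℂ) (A : L) (hA : A ≠ 0) (hint : IsIntegral ℤ A) (Y : ℝ) (hY : 1 ≤ Y)
    (hconj : ∀ σ : L →+* ℂ, ‖σ A‖ ≤ Y) : 1 ≤ ‖σ₀ A‖ * Y ^ (d - 1) := by
  classical
  have hnorm : algebraMap ℚ ℂ (Algebra.norm ℚ A) = ∏ σ : L →ₐ[ℚ] ℂ, σ A :=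
    Algebra.norm_eq_prod_embeddings ℚ ℂ A
  have hint' : IsIntegral ℤ (Algebra.norm ℚ A) := Algebra.isIntegral_norm ℚ hint
  obtain ⟨n, hn⟩ := IsIntegrallyClosed.isIntegral_iff.1 hint'
  have hn0 : n ≠ 0 := by
    rintro rfl
    rw [map_zero] at hn
    exact hA (Algebra.norm_eq_zero_iff.1 hn.symm)
  have h1 : (1 : ℝ) ≤ ‖algebraMap ℚ ℂ (Algebra.norm ℚ A)‖ := by
    rw [← hn]
    have : algebraMap ℚ ℂ (algebraMap ℤ ℚ n) = ((n : ℤ) : ℂ) := by simp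
    rw [this, Complex.norm_intCast]
    exact_mod_cast Int.one_le_abs hn0
  rw [hnorm, norm_prod] at h1
  set τ : L →ₐ[ℚ] ℂ := RingHom.equivRatAlgHom L ℂ σ₀ with hτ
  have hτA : τ A = σ₀ A := rfl
  rw [← Finset.mul_prod_erase Finset.univ (fun σ : L →ₐ[ℚ] ℂ => ‖σ A‖) (Finset.mem_univ τ)] at h1
  have hcard : (Finset.univ.erase τ).card ≤ d - 1 := by
    rw [Finset.card_erase_of_mem (Finset.mem_univ τ), Finset.card_univ, AlgHom.card ℚ L ℂ]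
    omega
  have h2 : ∏ σ ∈ Finset.univ.erase τ, ‖(σ : L →ₐ[ℚ] ℂ) A‖ ≤ Y ^ (d - 1) := by
    calc ∏ σ ∈ Finset.univ.erase τ, ‖(σ : L →ₐ[ℚ] ℂ) A‖
        ≤ ∏ _σ ∈ Finset.univ.erase τ, Y :=
          Finset.prod_le_prod (fun _ _ => norm_nonneg _) (fun σ _ => hconj (σ : L →+* ℂ))
      _ = Y ^ (Finset.univ.erase τ).card := by rw [Finset.prod_const]
      _ ≤ Y ^ (d - 1) := pow_le_pow_right₀ hY hcard
  calc (1 : ℝ) ≤ ‖τ A‖ * ∏ σ ∈ Finset.univ.erase τ, ‖(σ : L →ₐ[ℚ] ℂ) A‖ := h1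
    _ ≤ ‖τ A‖ * Y ^ (d - 1) := mul_le_mul_of_nonneg_left h2 (norm_nonneg _)
    _ = ‖σ₀ A‖ * Y ^ (d - 1) := by rw [hτA]

end Pool.Agent.LibST91
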