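import Mathlib

/-!
[ST TH6] ONLY MATHLIB. Solving the final inequality, and powers near 1.

PLAN. `solve_ineq`: `log (Y+2) ≤ log (A+2) + κ log (L + log (Y+2)) + c` from the hypothesis; since
`κ log t ≤ t/2 + c'`, one gets `log (Y+2) ≤ c'' (L + log (A+2))`, insert in the hypothesis.
`pow_near_one`: `β^q - 1 = (β-1) ∑_{i<q} β^i`, `‖β‖^i ≤ (1 + 1/q)^q ≤ e ≤ 3`.
-/

set_option autoImplicit false

namespace Pool.Agent.LibST91

theorem solve_ineq (κ : ℕ) : ∃ C : ℝ, 1 ≤ C ∧ ∀ A L Y : ℝ, 1 ≤ A → 1 ≤ L → 0 ≤ Y →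
    Y ≤ A * (L + Real.log (Y + 2)) ^ κ → Y ≤ C * A * (L + Real.log (A + 2)) ^ κ := by
  set c : ℝ := (κ:ℝ) * Real.log (2 * ((κ:ℝ) + 1)) with hc
  have hκ : (0:ℝ) ≤ (κ:ℝ) := Nat.cast_nonneg κ
  have hc0 : 0 ≤ c := mul_nonneg hκ (Real.log_nonneg (by linarith))
  refine ⟨(2 + 2 * c) ^ κ, one_le_pow₀ (by linarith), ?_⟩
  intro A L Y hA hL hY h
  set X := Real.log (Y + 2) with hX
  set a := Real.log (A + 2) with ha
  have hX0 : 0 ≤ X := Real.log_nonneg (by linarith)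
  have ha0 : 0 ≤ a := Real.log_nonneg (by linarith)
  set W := L + X with hW
  have hW1 : 1 ≤ W := by linarith
  have hWk : 1 ≤ W ^ κ := one_le_pow₀ hW1
  have h1 : Y + 2 ≤ (A + 2) * W ^ κ := by nlinarith
  have h2 : X ≤ a + (κ:ℝ) * Real.log W := by
    have := Real.log_le_log (by linarith : 0 < Y + 2) h1
    rw [Real.log_mul (by linarith) (by positivity), Real.log_pow] at this
    exact this
  have h3 : (κ:ℝ) * Real.log W ≤ W / 2 + c := by
    have hp : 0 < 2 * ((κ:ℝ) + 1) := by linarith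
    have h4 : Real.log (W / (2 * ((κ:ℝ) + 1))) ≤ W / (2 * ((κ:ℝ) + 1)) - 1 :=
      Real.log_le_sub_one_of_pos (by positivity)
    rw [Real.log_div (by linarith) hp.ne'] at h4
    have h5 : Real.log W ≤ W / (2 * ((κ:ℝ) + 1)) + Real.log (2 * ((κ:ℝ) + 1)) := by linarith
    have h6 := mul_le_mul_of_nonneg_left h5 hκ
    have h7 : (κ:ℝ) * (W / (2 * ((κ:ℝ) + 1))) ≤ W / 2 := by
      rw [mul_div_assoc', div_le_div_iff₀ hp (by norm_num)]
      nlinarith
    rw [mul_add] at h6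
    linarith
  have h8 : W ≤ (2 + 2 * c) * (L + a) := by
    have : X ≤ 2 * a + L + 2 * c := by linarith
    nlinarith
  calc Y ≤ A * W ^ κ := h
    _ ≤ A * ((2 + 2 * c) * (L + a)) ^ κ := by
        apply mul_le_mul_of_nonneg_left _ (by linarith)
        exact pow_le_pow_left₀ (by linarith) h8 κ
    _ = (2 + 2 * c) ^ κ * A * (L + a) ^ κ := by rw [mul_pow]; ring

theorem pow_near_one (β : ℂ) (q : ℕ) (hq : 0 < q) (hβ : ‖β - 1‖ ≤ 1 / q) :
    ‖β ^ q - 1‖ ≤ 3 * q * ‖β - 1‖ := by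
  have hq0 : (0:ℝ) < q := by exact_mod_cast hq
  have h1 : ‖β‖ ≤ 1 + 1 / q := by
    have : β = (β - 1) + 1 := by ring
    calc ‖β‖ = ‖(β - 1) + 1‖ := by rw [← this]
      _ ≤ ‖β - 1‖ + ‖(1:ℂ)‖ := norm_add_le _ _
      _ ≤ 1 + 1 / q := by rw [norm_one]; linarith
  have h2 : (1 + 1 / (q:ℝ)) ^ q ≤ 3 := by
    have h3 : 1 + 1 / (q:ℝ) ≤ Real.exp (1 / q) := by
      have := Real.add_one_le_exp (1 / (q:ℝ))
      linarith
    calc (1 + 1 / (q:ℝ)) ^ q ≤ Real.exp (1 / q) ^ q := pow_le_pow_left₀ (by positivity) h3 q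
      _ = Real.exp 1 := by
          rw [← Real.exp_nat_mul]
          congr 1
          field_simp
      _ ≤ 3 := by
          have := Real.exp_one_lt_d9
          linarith
  have h4 : ∀ i ∈ Finset.range q, ‖β ^ i‖ ≤ 3 := by
    intro i hi
    rw [norm_pow]
    calc ‖β‖ ^ i ≤ (1 + 1 / (q:ℝ)) ^ i := pow_le_pow_left₀ (norm_nonneg _) h1 i
      _ ≤ (1 + 1 / (q:ℝ)) ^ q := by
          apply pow_le_pow_right₀ _ (Finset.mem_range.1 hi).le
          have : (0:ℝ) ≤ 1 / q := by positivity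
          linarith
      _ ≤ 3 := h2
  have h5 : ‖∑ i ∈ Finset.range q, β ^ i‖ ≤ 3 * q := by
    refine (norm_sum_le_of_le _ h4).trans ?_
    rw [Finset.sum_const, Finset.card_range, nsmul_eq_mul, mul_comm]
  rw [← mul_geom_sum, norm_mul, mul_comm]
  exact mul_le_mul_of_nonneg_right h5 (norm_nonneg _)

end Pool.Agent.LibST91
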