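import Pool.Agent.LibST91.ND1

/-!
[ST ND2] Choice of the parameters in the nondegenerate case.

`P = ∏ h_i`, `l = log (B P) ≥ 1`, `c₂ = a t`, `c₁ = A (2 c₂)^n`, `c₃ = e^t`, `κ₁ = 2n(n+1)+1`, `U = c₃ l^κ₁ P`,
`L = ⌈c₁ l^n⌉₊`, `K = ⌊U/(c₂ l)⌋₊`, `ρ = U/L`.
-/

set_option autoImplicit false

namespace Pool.Agent.LibST91

open Filter Topology

private theorem nd2_ev (p : Polynomial ℝ) : ∀ᶠ t : ℝ in atTop, p.eval t ≤ Real.exp t := by
  have h := Polynomial.tendsto_div_exp_atTop p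
  have h1 : ∀ᶠ t : ℝ in atTop, p.eval t / Real.exp t < 1 := h.eventually (gt_mem_nhds zero_lt_one)
  filter_upwards [h1] with t ht
  rw [div_lt_one (Real.exp_pos t)] at ht
  exact ht.le

private theorem nd2_const (n : ℕ) (hn : 1 ≤ n) (A M : ℝ) (hA : 1 ≤ A) (κ : ℕ) :
    ∃ t c₁ c₂ c₃ : ℝ, 1 ≤ t ∧ c₃ = Real.exp t ∧ 1 ≤ c₁ ∧ 1 ≤ c₂ ∧ 1 ≤ c₃ ∧ c₁ = A * (2 * c₂) ^ n ∧
      n * (t + Real.log 2 + κ + 1) ≤ c₂ ∧ c₂ ≤ c₃ ∧ 8 * c₁ ^ 2 ≤ c₃ ∧ 2 * ((2 * n + 2).factorial : ℝ) ≤ c₃ ∧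
      2 * c₂ * (M * (16 * n * c₁ ^ 2) ^ (n + 1) * (6 * n * c₁ + n + t + κ + 2)) ≤ c₃ := by
  have hn' : (1 : ℝ) ≤ n := by exact_mod_cast hn
  set a : ℝ := n * (κ + 3) with ha
  have hκ : (0 : ℝ) ≤ κ := Nat.cast_nonneg κ
  have ha1 : 1 ≤ a := by
    rw [ha]
    calc (1 : ℝ) = 1 * 1 := by ring
      _ ≤ n * (κ + 3) := mul_le_mul hn' (by linarith) (by norm_num) (by linarith)
  let P2 : Polynomial ℝ := Polynomial.C a * Polynomial.X
  let P1 : Polynomial ℝ := Polynomial.C A * (2 * P2) ^ n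
  let P6 : Polynomial ℝ := 2 * P2 * (Polynomial.C M * (16 * (n : Polynomial ℝ) * P1 ^ 2) ^ (n + 1) *
    (6 * (n : Polynomial ℝ) * P1 + (n : Polynomial ℝ) + Polynomial.X + (κ : Polynomial ℝ) + 2))
  have e := (nd2_ev P2).and ((nd2_ev (8 * P1 ^ 2)).and ((nd2_ev (Polynomial.C (2 * ((2 * n + 2).factorial : ℝ)))).and
    ((nd2_ev P6).and (eventually_ge_atTop (1 : ℝ)))))
  obtain ⟨t, h2, h1, h5, h6, ht⟩ := e.exists
  have e2 : P2.eval t = a * t := by simp [P2]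
  have e1 : P1.eval t = A * (2 * (a * t)) ^ n := by simp [P1, P2]
  have hc2 : 1 ≤ a * t := one_le_mul_of_one_le_of_one_le ha1 ht
  have hc1 : 1 ≤ A * (2 * (a * t)) ^ n := by
    have : 1 ≤ (2 * (a * t)) ^ n := one_le_pow₀ (by linarith)
    exact one_le_mul_of_one_le_of_one_le hA this
  refine ⟨t, A * (2 * (a * t)) ^ n, a * t, Real.exp t, ht, rfl, hc1, hc2, ?_, rfl, ?_, ?_, ?_, ?_, ?_⟩
  · exact Real.one_le_exp (by linarith)
  · have hl2 : Real.log 2 ≤ 1 := by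
      have := Real.log_two_lt_d9
      linarith
    rw [ha]
    have : t + Real.log 2 + κ + 1 ≤ (κ + 3) * t := by
      have a1 : (κ : ℝ) ≤ κ * t := le_mul_of_one_le_right hκ ht
      have a2 : ((κ : ℝ) + 3) * t = κ * t + 3 * t := by ring
      rw [a2]
      linarith
    calc (n : ℝ) * (t + Real.log 2 + κ + 1) ≤ n * ((κ + 3) * t) := mul_le_mul_of_nonneg_left this (by linarith)
      _ = _ := by ring
  · rw [← e2]
    exact h2
  · have : (8 * P1 ^ 2 : Polynomial ℝ).eval t = 8 * (P1.eval t) ^ 2 := by simp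
    rw [← e1, ← this]
    exact h1
  · simpa using h5
  · have : P6.eval t = 2 * P2.eval t * (M * (16 * n * (P1.eval t) ^ 2) ^ (n + 1) * (6 * n * P1.eval t + n + t + κ + 2)) := by
      simp [P6]
    rw [← e1, ← e2, ← this]
    exact h6

private theorem nd2_prod {ι : Type*} (s : Finset ι) (h : ι → ℝ) (hh : ∀ i, 1 ≤ h i) : 1 ≤ ∏ i ∈ s, h i := by
  have h1 : ∏ i ∈ s, (1 : ℝ) ≤ ∏ i ∈ s, h i := Finset.prod_le_prod (fun _ _ => zero_le_one) fun i _ => hh i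
  rwa [Finset.prod_const_one] at h1

theorem nondegenerate (n : ℕ) (hn : 1 ≤ n) (d : ℕ) : ∃ C : ℝ, 1 ≤ C ∧ ∃ κ κ' : ℕ,
    ∀ (L : Type) [Field L] [NumberField L], Module.finrank ℚ L ≤ d →
      ∀ (σ₀ : L →+* ℂ) (α : Fin (n + 1) → L) (ℓ : Fin (n + 1) → ℂ) (h : Fin (n + 1) → ℝ),
      (∀ i, Adm σ₀ (α i) (ℓ i) (h i)) → (∃ i, ∀ m : ℕ, 0 < m → σ₀ (α i) ^ m ≠ 1) →
      ∀ (b : Fin (n + 1) → ℤ) (B : ℝ), 3 ≤ B → (∀ i, |(b i : ℝ)| ≤ B) → b (Fin.last n) ≠ 0 →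
      (∀ i, |(b i : ℝ)| * h i ≤ |(b (Fin.last n) : ℝ)| * h (Fin.last n)) →
      (∀ χ : Fin (n + 1) → ℤ, χ ≠ 0 → ∑ i, χ i * b i = 0 →
        ∃ i, C * Real.log (B * ∏ i, h i) ^ κ' * h i < |(χ i : ℝ)|) →
      Real.exp (-(C * (∏ i, h i) * Real.log (B * ∏ i, h i) ^ κ)) ≤ ‖∑ i, (b i : ℂ) * ℓ i‖ := by
  obtain ⟨A, M, hA, hM, H⟩ := nondeg_param n d
  obtain ⟨κ, hκ⟩ : ∃ κ : ℕ, κ = 2 * n * (n + 1) + 1 := ⟨_, rfl⟩
  obtain ⟨t, c₁, c₂, c₃, ht, hc3t, hc1, hc2, hc3, hc1e, k2, k3, k4, k5, k6⟩ := nd2_const n hn A M hA κ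
  have hn' : (1 : ℝ) ≤ n := by exact_mod_cast hn
  have hκ0 : (0 : ℝ) ≤ κ := Nat.cast_nonneg κ
  refine ⟨A * c₃ + 16 * n * M * c₁ ^ 2, ?_, κ, 2 * n, ?_⟩
  · have h1 : 1 ≤ A * c₃ := one_le_mul_of_one_le_of_one_le hA hc3
    have h2 : 0 ≤ 16 * (n : ℝ) * M * c₁ ^ 2 := by positivity
    linarith
  intro L' _ _ hL' σ₀ α ℓ h hadm hroot b B hB hbB hb0 hmax hrel
  have hh1 : ∀ i, 1 ≤ h i := fun i => (hadm i).one_le
  have hh0 : ∀ i, 0 < h i := fun i => lt_of_lt_of_le one_pos (hh1 i)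
  obtain ⟨P, hP⟩ : ∃ P, P = ∏ i, h i := ⟨_, rfl⟩
  rw [← hP] at hrel ⊢
  have hP1 : 1 ≤ P := by
    rw [hP]
    exact nd2_prod _ h hh1
  have hhP : ∀ i, h i ≤ P := by
    intro i
    rw [hP, ← Finset.mul_prod_erase Finset.univ h (Finset.mem_univ i)]
    exact le_mul_of_one_le_right (hh0 i).le (nd2_prod _ h hh1)
  have hB0 : 0 < B := by linarith
  obtain ⟨l, hl⟩ : ∃ l, l = Real.log (B * P) := ⟨_, rfl⟩
  rw [← hl] at hrel ⊢
  have hlB : Real.log B ≤ l := by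
    rw [hl]
    exact Real.log_le_log hB0 (le_mul_of_one_le_right hB0.le hP1)
  have hlP : Real.log P ≤ l := by
    rw [hl]
    exact Real.log_le_log (by linarith) (le_mul_of_one_le_left (by linarith) (by linarith))
  have hl1 : 1 ≤ l := by
    refine le_trans ?_ hlB
    rw [Real.le_log_iff_exp_le hB0]
    have := Real.exp_one_lt_d9
    linarith
  have hl0 : 0 < l := by linarith
  have hll : Real.log l ≤ l := by
    have := Real.log_le_sub_one_of_pos hl0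
    linarith
  have hlog3 : Real.log c₃ = t := by rw [hc3t, Real.log_exp]
  -- parameters
  obtain ⟨U, hU⟩ : ∃ U, U = c₃ * l ^ κ * P := ⟨_, rfl⟩
  have hlκ : 1 ≤ l ^ κ := one_le_pow₀ hl1
  have hUc : c₃ ≤ U := by
    rw [hU]
    calc c₃ = c₃ * 1 * 1 := by ring
      _ ≤ c₃ * l ^ κ * P := by gcongr
  have hU1 : 1 ≤ U := hc3.trans hUc
  have hU0 : 0 < U := by linarith
  have hlogU : Real.log U ≤ (t + κ + 1) * l := by
    rw [hU, Real.log_mul (by positivity) (by positivity), Real.log_mul (by positivity) (by positivity), Real.log_pow, hlog3]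
    have a1 : t ≤ t * l := le_mul_of_one_le_right (by linarith) hl1
    have a2 : κ * Real.log l ≤ κ * l := mul_le_mul_of_nonneg_left hll hκ0
    have a3 : (t + κ + 1) * l = t * l + κ * l + l := by ring
    rw [a3]
    linarith
  have hlog2U : Real.log (2 * U) ≤ (t + Real.log 2 + κ + 1) * l := by
    rw [Real.log_mul (by norm_num) hU0.ne']
    have h2 : 0 ≤ Real.log 2 := Real.log_nonneg (by norm_num)
    have a1 : Real.log 2 ≤ Real.log 2 * l := le_mul_of_one_le_right h2 hl1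
    have a3 : (t + Real.log 2 + κ + 1) * l = Real.log 2 * l + (t + κ + 1) * l := by ring
    rw [a3]
    linarith
  obtain ⟨N, hN⟩ : ∃ N : ℕ, N = ⌈c₁ * l ^ n⌉₊ := ⟨_, rfl⟩
  have hln1 : 1 ≤ l ^ n := one_le_pow₀ hl1
  have hcl : 1 ≤ c₁ * l ^ n := one_le_mul_of_one_le_of_one_le hc1 hln1
  have hN1 : c₁ * l ^ n ≤ N := by
    rw [hN]
    exact Nat.le_ceil _
  have hN2 : (N : ℝ) ≤ 2 * (c₁ * l ^ n) := by
    have := Nat.ceil_lt_add_one (show 0 ≤ c₁ * l ^ n by linarith)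
    rw [← hN] at this
    linarith
  have hNr : (1 : ℝ) ≤ N := hcl.trans hN1
  have hNn : 1 ≤ N := by exact_mod_cast hNr
  have hN0 : (0 : ℝ) < N := by linarith
  obtain ⟨K, hK⟩ : ∃ K : ℕ, K = ⌊U / (c₂ * l)⌋₊ := ⟨_, rfl⟩
  have hc2l : 0 < c₂ * l := by positivity
  have hx1 : 1 ≤ U / (c₂ * l) := by
    rw [le_div_iff₀ hc2l, one_mul, hU]
    calc c₂ * l ≤ c₃ * l ^ 1 := by
          rw [pow_one]
          exact mul_le_mul_of_nonneg_right k3 hl0.le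
      _ ≤ c₃ * l ^ κ := by
          refine mul_le_mul_of_nonneg_left (pow_le_pow_right₀ hl1 ?_) (by linarith)
          rw [hκ]
          omega
      _ ≤ c₃ * l ^ κ * P := le_mul_of_one_le_right (by positivity) hP1
  have hKu : (K : ℝ) ≤ U / (c₂ * l) := by
    rw [hK]
    exact Nat.floor_le (by linarith)
  have hKl : U / (c₂ * l) ≤ 2 * K := by
    have h1 := Nat.lt_floor_add_one (U / (c₂ * l))
    have h2 : 1 ≤ ⌊U / (c₂ * l)⌋₊ := Nat.le_floor (by exact_mod_cast hx1)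
    rw [← hK] at h1 h2
    have h3 : (1 : ℝ) ≤ K := by exact_mod_cast h2
    linarith
  have hK1 : 1 ≤ K := by
    rw [hK]
    exact Nat.le_floor (by exact_mod_cast hx1)
  have hKr : (1 : ℝ) ≤ K := by exact_mod_cast hK1
  have hcl1 : 1 ≤ c₂ * l := one_le_mul_of_one_le_of_one_le hc2 hl1
  have hKU : (K : ℝ) ≤ U := hKu.trans (div_le_self hU0.le hcl1)
  obtain ⟨ρ, hρ⟩ : ∃ ρ, ρ = U / N := ⟨_, rfl⟩
  have hρ0 : 0 < ρ := by
    rw [hρ]
    positivity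
  have hρU : ρ ≤ U := by
    rw [hρ]
    exact div_le_self hU0.le hNr
  have hNρ : N * ρ = U := by
    rw [hρ]
    field_simp
  have hN2s : (N : ℝ) ^ 2 ≤ 4 * c₁ ^ 2 * l ^ (2 * n) := by
    calc (N : ℝ) ^ 2 ≤ (2 * (c₁ * l ^ n)) ^ 2 := pow_le_pow_left₀ hN0.le hN2 2
      _ = 4 * c₁ ^ 2 * l ^ (2 * n) := by
        rw [mul_comm 2 n, pow_mul]
        ring
  have hκn : 2 * n ≤ κ := by
    rw [hκ]
    have : 2 * n ≤ 2 * n * (n + 1) := Nat.le_mul_of_pos_right _ (Nat.succ_pos n)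
    omega
  have g1 : ∀ i, 2 * N * h i ≤ ρ := by
    intro i
    rw [hρ, le_div_iff₀ hN0]
    calc 2 * N * h i * N = 2 * (N : ℝ) ^ 2 * h i := by ring
      _ ≤ 2 * (4 * c₁ ^ 2 * l ^ (2 * n)) * P := by
          refine mul_le_mul (mul_le_mul_of_nonneg_left hN2s (by norm_num)) (hhP i) (hh0 i).le (by positivity)
      _ = (8 * c₁ ^ 2) * l ^ (2 * n) * P := by ring
      _ ≤ c₃ * l ^ κ * P := by
          refine mul_le_mul_of_nonneg_right (mul_le_mul k4 (pow_le_pow_right₀ hl1 hκn) (by positivity) (by linarith))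
            (by linarith)
      _ = U := hU.symm
  have g2 : ∀ i, 2 * h i ≤ ρ := by
    intro i
    refine le_trans ?_ (g1 i)
    have h3 : 1 * h i ≤ N * h i := mul_le_mul_of_nonneg_right hNr (hh0 i).le
    have h4 : 2 * N * h i = 2 * (N * h i) := by ring
    rw [h4]
    linarith
  have g3 : (K : ℝ) ^ n * N ≤ Real.exp U := by
    have h1 : (K : ℝ) ^ n * N ≤ U ^ n * (2 * (c₁ * l ^ n)) :=
      mul_le_mul (pow_le_pow_left₀ (by linarith) hKU n) hN2 hN0.le (by positivity)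
    have h2 : c₁ ≤ U := by
      refine le_trans ?_ (k4.trans hUc)
      have h3 : c₁ * 1 ≤ c₁ * c₁ := mul_le_mul_of_nonneg_left hc1 (by linarith)
      have h4 : 8 * c₁ ^ 2 = 8 * (c₁ * c₁) := by ring
      rw [h4]
      linarith
    have h3 : l ≤ U := by
      rw [hU]
      calc l = 1 * l ^ 1 * 1 := by ring
        _ ≤ c₃ * l ^ κ * P := by
            refine mul_le_mul (mul_le_mul hc3 (pow_le_pow_right₀ hl1 ?_) (by positivity) (by linarith)) hP1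
              (by norm_num) (by positivity)
            rw [hκ]
            omega
    have h4 : U ^ n * (2 * (c₁ * l ^ n)) ≤ 2 * U ^ (2 * n + 1) := by
      calc U ^ n * (2 * (c₁ * l ^ n)) ≤ U ^ n * (2 * (U * U ^ n)) := by gcongr
        _ = 2 * U ^ (2 * n + 1) := by ring
    have h5 := Real.pow_div_factorial_le_exp U hU0.le (2 * n + 2)
    have h6 : 2 * U ^ (2 * n + 1) ≤ U ^ (2 * n + 2) / ((2 * n + 2).factorial : ℝ) := by
      rw [le_div_iff₀ (by positivity)]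
      have h7 : 2 * ((2 * n + 2).factorial : ℝ) ≤ U := k5.trans hUc
      calc 2 * U ^ (2 * n + 1) * ((2 * n + 2).factorial : ℝ) = (2 * ((2 * n + 2).factorial : ℝ)) * U ^ (2 * n + 1) := by ring
        _ ≤ U * U ^ (2 * n + 1) := by gcongr
        _ = U ^ (2 * n + 2) := by ring
    exact h1.trans (h4.trans (h6.trans h5))
  have hpow : ∀ (y X : ℝ), 0 < y → Real.log y ≤ X → 0 ≤ X → (n : ℝ) * (U / (c₂ * l)) * X ≤ U → y ^ (n * K) ≤ Real.exp U := by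
    intro y X hy hyX hX hXU
    rw [← Real.exp_log (pow_pos hy _), Real.log_pow]
    refine Real.exp_le_exp.2 (le_trans ?_ hXU)
    push_cast
    calc (n : ℝ) * K * Real.log y ≤ n * K * X := mul_le_mul_of_nonneg_left hyX (by positivity)
      _ ≤ n * (U / (c₂ * l)) * X := by gcongr
  have hX2 : (n : ℝ) * (U / (c₂ * l)) * ((t + Real.log 2 + κ + 1) * l) ≤ U := by
    have h1 : (n : ℝ) * (U / (c₂ * l)) * ((t + Real.log 2 + κ + 1) * l) = U * ((n * (t + Real.log 2 + κ + 1)) / c₂) := by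
      field_simp
    rw [h1]
    refine mul_le_of_le_one_right hU0.le ?_
    rw [div_le_one (by linarith)]
    exact k2
  have hlog2 : 0 ≤ Real.log 2 := Real.log_nonneg (by norm_num)
  have g4a : (2 * ρ) ^ (n * K) ≤ Real.exp U := by
    refine hpow (2 * ρ) _ (by positivity) ?_ (by positivity) hX2
    exact (Real.log_le_log (by positivity) (by linarith)).trans hlog2U
  have g4b : B ^ (n * K) ≤ Real.exp U := by
    refine hpow B _ hB0 ?_ (by positivity) hX2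
    refine hlB.trans (le_mul_of_one_le_left hl0.le ?_)
    linarith
  have g5 : A * U ^ n ≤ (K : ℝ) ^ n * N := by
    have h1 : (U / (c₂ * l) / 2) ^ n * (c₁ * l ^ n) ≤ (K : ℝ) ^ n * N :=
      mul_le_mul (pow_le_pow_left₀ (by positivity) (by linarith) n) hN1 (by positivity) (by positivity)
    refine le_trans (le_of_eq ?_) h1
    rw [hc1e, div_div, div_pow, mul_pow, mul_pow, mul_pow]
    field_simp
  -- the quotients
  obtain ⟨P₀, hP₀⟩ : ∃ P₀ : ℝ, P₀ = ((N * (n * K) : ℕ) : ℝ) := ⟨_, rfl⟩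
  have hP₀e : P₀ = N * (n * K) := by
    rw [hP₀]
    push_cast
    ring
  have hP₀1 : 1 ≤ P₀ := by
    rw [hP₀]
    have : 1 ≤ N * (n * K) := Nat.mul_pos hNn (Nat.mul_pos hn hK1)
    exact_mod_cast this
  have hq : ∀ i, P₀ / (⌊ρ / (2 * h i)⌋₊ : ℝ) ≤ 16 * n * c₁ ^ 2 * l ^ (2 * n) * h i := by
    intro i
    have hi0 := hh0 i
    have h1 : 1 ≤ ρ / (2 * h i) := by
      rw [le_div_iff₀ (by positivity), one_mul]
      exact g2 i
    have h2 : 1 ≤ ⌊ρ / (2 * h i)⌋₊ := Nat.le_floor (by exact_mod_cast h1)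
    have h3 : (1 : ℝ) ≤ (⌊ρ / (2 * h i)⌋₊ : ℝ) := by exact_mod_cast h2
    have h4 := Nat.lt_floor_add_one (ρ / (2 * h i))
    have h5 : ρ / (2 * h i) ≤ 2 * (⌊ρ / (2 * h i)⌋₊ : ℝ) := by linarith
    have h6 : ρ ≤ 4 * h i * (⌊ρ / (2 * h i)⌋₊ : ℝ) := by
      rw [div_le_iff₀ (by positivity)] at h5
      linarith
    rw [div_le_iff₀ (by linarith), hP₀e]
    have h7 : (K : ℝ) ≤ N * ρ := by rw [hNρ]; exact hKU
    calc (N : ℝ) * (n * K) ≤ N * (n * (N * (4 * h i * (⌊ρ / (2 * h i)⌋₊ : ℝ)))) := by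
          gcongr
          exact h7.trans (mul_le_mul_of_nonneg_left h6 hN0.le)
      _ = (N : ℝ) ^ 2 * (4 * n * h i * (⌊ρ / (2 * h i)⌋₊ : ℝ)) := by ring
      _ ≤ (4 * c₁ ^ 2 * l ^ (2 * n)) * (4 * n * h i * (⌊ρ / (2 * h i)⌋₊ : ℝ)) := by gcongr
      _ = _ := by ring
  have hq1 : ∀ i, 1 ≤ 16 * n * c₁ ^ 2 * l ^ (2 * n) * h i := by
    intro i
    have h1 : (1 : ℝ) ≤ c₁ ^ 2 := one_le_pow₀ hc1
    have h2 : (1 : ℝ) ≤ l ^ (2 * n) := one_le_pow₀ hl1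
    calc (1 : ℝ) ≤ 16 * 1 * 1 * 1 * 1 := by norm_num
      _ ≤ 16 * n * c₁ ^ 2 * l ^ (2 * n) * h i := by
          have := hh1 i
          gcongr
  have g6 : ∀ χ : Fin (n + 1) → ℤ, χ ≠ 0 → ∑ i, χ i * b i = 0 →
      ∃ i, M * ((N * (n * K) : ℕ) / (⌊ρ / (2 * h i)⌋₊ : ℝ)) < |(χ i : ℝ)| := by
    intro χ hχ hχb
    obtain ⟨i, hi⟩ := hrel χ hχ hχb
    refine ⟨i, lt_of_le_of_lt ?_ hi⟩
    rw [← hP₀]
    calc M * (P₀ / (⌊ρ / (2 * h i)⌋₊ : ℝ)) ≤ M * (16 * n * c₁ ^ 2 * l ^ (2 * n) * h i) :=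
          mul_le_mul_of_nonneg_left (hq i) (by linarith)
      _ = (16 * n * M * c₁ ^ 2) * l ^ (2 * n) * h i := by ring
      _ ≤ (A * c₃ + 16 * n * M * c₁ ^ 2) * l ^ (2 * n) * h i := by
          have := hh0 i
          gcongr
          have : 0 ≤ A * c₃ := by positivity
          linarith
  have hlogP : Real.log (P₀ * B + 2) ≤ (6 * n * c₁ + n + t + κ + 2) * l := by
    have h1 : P₀ * B + 2 ≤ 6 * n * c₁ * l ^ n * U * B := by
      have h2 : 1 ≤ P₀ * B := one_le_mul_of_one_le_of_one_le hP₀1 (by linarith)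
      have h3 : P₀ ≤ 2 * (c₁ * l ^ n) * (n * U) := by
        rw [hP₀e]
        gcongr
      calc P₀ * B + 2 ≤ 3 * (P₀ * B) := by linarith
        _ ≤ 3 * (2 * (c₁ * l ^ n) * (n * U) * B) := by gcongr
        _ = _ := by ring
    refine (Real.log_le_log (by positivity) h1).trans ?_
    rw [Real.log_mul (by positivity) hB0.ne', Real.log_mul (by positivity) hU0.ne', Real.log_mul (by positivity) (by positivity),
      Real.log_pow]
    have h4 : Real.log (6 * n * c₁) ≤ 6 * n * c₁ := by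
      have := Real.log_le_sub_one_of_pos (show 0 < 6 * n * c₁ by positivity)
      linarith
    have h5 : 6 * n * c₁ ≤ 6 * n * c₁ * l := le_mul_of_one_le_right (by positivity) hl1
    have h6 : n * Real.log l ≤ n * l := mul_le_mul_of_nonneg_left hll (by linarith)
    linarith
  have g7 : M * (∏ i, max 1 (((N * (n * K) : ℕ) : ℝ) / (⌊ρ / (2 * h i)⌋₊ : ℝ))) *
      Real.log ((N * (n * K) : ℕ) * B + 2) ≤ (N * (n * K) : ℕ) := by
    rw [← hP₀]
    have h1 : ∏ i, max 1 (P₀ / (⌊ρ / (2 * h i)⌋₊ : ℝ)) ≤ (16 * n * c₁ ^ 2 * l ^ (2 * n)) ^ (n + 1) * P := by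
      calc ∏ i, max 1 (P₀ / (⌊ρ / (2 * h i)⌋₊ : ℝ)) ≤ ∏ i, (16 * n * c₁ ^ 2 * l ^ (2 * n) * h i) := by
            refine Finset.prod_le_prod (fun i _ => by positivity) fun i _ => max_le (hq1 i) (hq i)
        _ = _ := by
            rw [Finset.prod_mul_distrib, Finset.prod_const, Finset.card_univ, Fintype.card_fin, hP]
    have h2 : P₀ ≥ U / (2 * c₂) := by
      have h3 : U / (c₂ * l) / 2 ≤ K := by linarith
      have h4 : l ≤ c₁ * l ^ n := by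
        calc l = 1 * l ^ 1 := by ring
          _ ≤ c₁ * l ^ n := by
              refine mul_le_mul hc1 (pow_le_pow_right₀ hl1 hn) (by positivity) (by linarith)
      calc U / (2 * c₂) = l * (1 * (U / (c₂ * l) / 2)) := by field_simp
        _ ≤ N * (n * K) := by
            refine mul_le_mul (h4.trans hN1) (mul_le_mul hn' h3 (by positivity) (by linarith)) (by positivity) hN0.le
        _ = P₀ := hP₀e.symm
    have h5 : (16 * n * c₁ ^ 2 * l ^ (2 * n)) ^ (n + 1) = (16 * n * c₁ ^ 2) ^ (n + 1) * l ^ (2 * n * (n + 1)) := by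
      rw [mul_pow, ← pow_mul]
    have hlog0 : 0 ≤ Real.log (P₀ * B + 2) := Real.log_nonneg (by
      have : 0 ≤ P₀ * B := by positivity
      linarith)
    calc M * (∏ i, max 1 (P₀ / (⌊ρ / (2 * h i)⌋₊ : ℝ))) * Real.log (P₀ * B + 2)
        ≤ M * ((16 * n * c₁ ^ 2 * l ^ (2 * n)) ^ (n + 1) * P) * ((6 * n * c₁ + n + t + κ + 2) * l) := by
          refine mul_le_mul (mul_le_mul_of_nonneg_left h1 (by linarith)) hlogP hlog0 (by positivity)
      _ = (2 * c₂ * (M * (16 * n * c₁ ^ 2) ^ (n + 1) * (6 * n * c₁ + n + t + κ + 2))) * l ^ κ * P / (2 * c₂) := by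
          rw [h5, hκ, pow_succ l (2 * n * (n + 1))]
          field_simp
      _ ≤ c₃ * l ^ κ * P / (2 * c₂) := by gcongr
      _ = U / (2 * c₂) := by rw [hU]
      _ ≤ P₀ := h2
  have hfin := H L' hL' σ₀ α ℓ h hadm hroot b B ρ U K N hb0 (by linarith) hbB hmax g1 g2 hU1 hK1 hKU hNn g3 g4a g4b
    (le_of_eq hNρ) g5 g6 g7
  refine le_trans (Real.exp_le_exp.2 (neg_le_neg ?_)) hfin
  rw [hU]
  have h1 : 0 ≤ 16 * (n : ℝ) * M * c₁ ^ 2 * P * l ^ κ := by positivity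
  have h2 : (A * c₃ + 16 * n * M * c₁ ^ 2) * P * l ^ κ = A * (c₃ * l ^ κ * P) + 16 * (n : ℝ) * M * c₁ ^ 2 * P * l ^ κ := by
    ring
  rw [h2]
  linarith

end Pool.Agent.LibST91
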