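import Pool.Agent.LibST91.DG3
import Pool.Agent.LibST91.ND2
import Pool.Agent.LibST91.BX5

/-!
[ST BK1] The lower bound for linear forms in logarithms, all `N`.

PLAN. `baker_root`: if every `σ₀ (α i)` is a root of unity: `ξ = ∏ α_i^(b_i)`, `exp Λ = σ₀ ξ`. If `ξ = 1`, then
`Λ ∈ 2πiℤ`, `Λ ≠ 0`, `‖Λ‖ ≥ 6`. If `ξ ≠ 1`: `ξ - 1` is a nonzero algebraic integer, all conjugates have
absolute value `≤ 2`, `liouville`: `1 ≤ ‖σ₀ ξ - 1‖ 2^(d-1)`, and `‖exp Λ - 1‖ ≤ ‖Λ‖ exp ‖Λ‖`, so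
`‖Λ‖ ≥ min 1 (2^(-(d+1)))`. `baker_one` (`N = 1`): `Λ = b ℓ`, `‖Λ‖ ≥ ‖ℓ‖`; if `α = 1`, `‖ℓ‖ ≥ 6`; else
`m (α - 1)` is a nonzero algebraic integer with conjugates `≤ e^h (e^h + 1)`, so
`‖exp ℓ - 1‖ ≥ exp (-(2h + 1) d)`, and as before.
`baker_all`: induction. `N = 0`: the sum is `0`, hypothesis false. `N = 1`: `baker_one`. `N + 1 ≥ 2`: take the
constants of `nondegenerate` (with `n = N`) and of `degenerate` with `M₀ = C`, `κ₀ = κ'`; `C` and `κ` maxima
(`log (B ∏ h) ≥ 1`). Given data: if all are roots of unity `baker_root`; if a relation exists: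
`degenerate`; else choose `i₁` with `|b_i| h_i` maximal (`Λ ≠ 0`, so `b i₁ ≠ 0`), permute by
`Equiv.swap i₁ (Fin.last N)` (all hypotheses and the conclusion are invariant) and use `nondegenerate`.
-/

set_option autoImplicit false

namespace Pool.Agent.LibST91

private theorem BK1_small {z : ℂ} (c : ℝ) (hc : 0 ≤ c) (h1 : Real.exp (-c) ≤ ‖Complex.exp z - 1‖) :
    Real.exp (-(c + 1)) ≤ ‖z‖ := by
  rcases le_or_gt ‖z‖ 1 with h | h
  · have h2 := Complex.norm_exp_sub_one_le h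
    have h3 : Real.exp (-(c + 1)) * 2 ≤ Real.exp (-c) := by
      have h4 : Real.exp (-1) * 2 ≤ 1 := by
        have h5 : Real.exp (-1) * Real.exp 1 = 1 := by
          rw [← Real.exp_add, neg_add_cancel, Real.exp_zero]
        have h6 := Real.add_one_le_exp (1 : ℝ)
        have h7 := Real.exp_pos (-1)
        nlinarith
      rw [show -(c + 1) = -c + -1 by ring, Real.exp_add, mul_assoc]
      exact mul_le_of_le_one_right (Real.exp_pos _).le h4
    linarith
  · have h2 : Real.exp (-(c + 1)) ≤ 1 := Real.exp_le_one_iff.2 (by linarith)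
    linarith

private theorem BK1_period {z : ℂ} (hz : z ≠ 0) (h : Complex.exp z = 1) : 1 ≤ ‖z‖ := by
  obtain ⟨n, hn⟩ := Complex.exp_eq_one_iff.1 h
  have hn0 : n ≠ 0 := by
    rintro rfl
    apply hz
    rw [hn]
    simp
  have h1 : (1 : ℝ) ≤ |(n : ℝ)| := by exact_mod_cast Int.one_le_abs hn0
  have h2 : ‖(2 * (Real.pi : ℂ) * Complex.I)‖ = 2 * Real.pi := by
    simp [abs_of_pos Real.pi_pos]
  rw [hn, norm_mul, Complex.norm_intCast, h2]
  have := Real.pi_gt_three
  nlinarith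

private theorem BK1_root (N d : ℕ) (L : Type) [Field L] [NumberField L] (hd : Module.finrank ℚ L ≤ d)
    (σ₀ : L →+* ℂ) (α : Fin N → L) (ℓ : Fin N → ℂ) (h : Fin N → ℝ)
    (hA : ∀ i, Adm σ₀ (α i) (ℓ i) (h i)) (b : Fin N → ℤ) (hΛ : (∑ i, (b i : ℂ) * ℓ i) ≠ 0)
    (hr : ∀ i, ∃ m : ℕ, 0 < m ∧ σ₀ (α i) ^ m = 1) :
    Real.exp (-((d : ℝ) + 1)) ≤ ‖∑ i, (b i : ℂ) * ℓ i‖ := by
  have hd0 : (0 : ℝ) ≤ d := Nat.cast_nonneg d
  set ξ : L := ∏ i, α i ^ b i with hξ
  have hexp : Complex.exp (∑ i, (b i : ℂ) * ℓ i) = σ₀ ξ := by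
    rw [Complex.exp_sum, hξ, map_prod]
    refine Finset.prod_congr rfl fun i _ => ?_
    rw [map_zpow₀, Complex.exp_int_mul, (hA i).exp_eq]
  by_cases h1 : ξ = 1
  · have h3 : Complex.exp (∑ i, (b i : ℂ) * ℓ i) = 1 := by rw [hexp, h1, map_one]
    have h2 := BK1_period hΛ h3
    have h4 : Real.exp (-((d : ℝ) + 1)) ≤ 1 := Real.exp_le_one_iff.2 (by linarith)
    linarith
  · choose m hm hm1 using hr
    have hone : ∀ i, α i ^ m i = 1 := fun i => σ₀.injective (by rw [map_pow, hm1, map_one])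
    have hξm : ξ ^ (∏ i, m i) = 1 := by
      rw [hξ, ← Finset.prod_pow]
      refine Finset.prod_eq_one fun i _ => ?_
      have h2 : (α i ^ b i) ^ m i = 1 := by
        rw [← zpow_natCast, ← zpow_mul, mul_comm, zpow_mul, zpow_natCast, hone, one_zpow]
      obtain ⟨k, hk⟩ : m i ∣ ∏ i, m i := Finset.dvd_prod_of_mem _ (Finset.mem_univ i)
      rw [hk, pow_mul, h2, one_pow]
    have hM : 0 < ∏ i, m i := Finset.prod_pos fun i _ => hm i
    have hint : IsIntegral ℤ (ξ - 1) := by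
      refine IsIntegral.sub ?_ isIntegral_one
      refine IsIntegral.of_pow hM ?_
      rw [hξm]
      exact isIntegral_one
    have hconj : ∀ σ : L →+* ℂ, ‖σ (ξ - 1)‖ ≤ 2 := by
      intro σ
      have h2 : ‖σ ξ‖ = 1 := by
        have h3 : (σ ξ) ^ (∏ i, m i) = 1 := by rw [← map_pow, hξm, map_one]
        exact Complex.norm_eq_one_of_pow_eq_one h3 hM.ne'
      rw [map_sub, map_one]
      calc ‖σ ξ - 1‖ ≤ ‖σ ξ‖ + ‖(1 : ℂ)‖ := norm_sub_le _ _
        _ = 2 := by
            rw [h2, norm_one]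
            norm_num
    have h4 := liouville d hd σ₀ (ξ - 1) (sub_ne_zero.2 h1) hint 2 one_le_two hconj
    rw [map_sub, map_one, ← hexp] at h4
    have h5 : Real.exp (-(d : ℝ)) ≤ ‖Complex.exp (∑ i, (b i : ℂ) * ℓ i) - 1‖ := by
      have h6 : (2 : ℝ) ^ (d - 1) ≤ Real.exp d := by
        calc (2 : ℝ) ^ (d - 1) ≤ 2 ^ d := pow_le_pow_right₀ one_le_two (Nat.sub_le _ _)
          _ ≤ (Real.exp 1) ^ d :=
              pow_le_pow_left₀ (by norm_num) (by linarith [Real.add_one_le_exp (1 : ℝ)]) _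
          _ = Real.exp d := by rw [← Real.exp_nat_mul, mul_one]
      rw [Real.exp_neg, inv_le_iff_one_le_mul₀ (Real.exp_pos _)]
      exact h4.trans (mul_le_mul_of_nonneg_left h6 (norm_nonneg _))
    exact BK1_small d hd0 h5

private theorem BK1_one : Baker 1 := by
  intro d
  refine ⟨4 * d + 1, by positivity, 0, ?_⟩
  intro L _ _ hd σ₀ α ℓ h hA b B hB hb hΛ
  rw [Fin.sum_univ_one] at hΛ ⊢
  rw [Fin.prod_univ_one, pow_zero, mul_one]
  have hA0 := hA 0
  have h0 : 1 ≤ h 0 := hA0.one_le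
  have hd1 : 1 ≤ d := le_trans (Module.finrank_pos (R := ℚ) (M := L)) hd
  have hd1' : (1 : ℝ) ≤ d := by exact_mod_cast hd1
  have hb0 : b 0 ≠ 0 := by
    intro hx
    apply hΛ
    rw [hx]
    simp
  have hl0 : ℓ 0 ≠ 0 := right_ne_zero_of_mul hΛ
  have hbb : (1 : ℝ) ≤ |(b 0 : ℝ)| := by exact_mod_cast Int.one_le_abs hb0
  have hstep : ‖ℓ 0‖ ≤ ‖(b 0 : ℂ) * ℓ 0‖ := by
    rw [norm_mul, Complex.norm_intCast]
    exact le_mul_of_one_le_left (norm_nonneg _) hbb
  refine le_trans ?_ hstep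
  by_cases hα : α 0 = 1
  · have h3 : Complex.exp (ℓ 0) = 1 := by rw [hA0.exp_eq, hα, map_one]
    have h4 := BK1_period hl0 h3
    have h5 : 0 ≤ (4 * (d : ℝ) + 1) * h 0 := by positivity
    have h6 : Real.exp (-((4 * (d : ℝ) + 1) * h 0)) ≤ 1 := Real.exp_le_one_iff.2 (by linarith)
    linarith
  · obtain ⟨m, hm, hlog, hi1, -⟩ := hA0.den
    have hm' : (0 : ℝ) < m := by exact_mod_cast hm
    have hme : (m : ℝ) ≤ Real.exp (h 0) := (Real.log_le_iff_le_exp hm').1 hlog
    have hAne : (m : L) * (α 0 - 1) ≠ 0 :=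
      mul_ne_zero (Nat.cast_ne_zero.2 hm.ne') (sub_ne_zero.2 hα)
    have hint : IsIntegral ℤ ((m : L) * (α 0 - 1)) := by
      rw [mul_sub, mul_one]
      refine IsIntegral.sub hi1 ?_
      have := isIntegral_algebraMap (R := ℤ) (A := L) (x := (m : ℤ))
      simpa using this
    have hE1 : 1 ≤ Real.exp (h 0) := Real.one_le_exp (by linarith)
    have hY : Real.exp (h 0) * (Real.exp (h 0) + 1) ≤ Real.exp (2 * h 0 + 1) := by
      rw [show 2 * h 0 + 1 = h 0 + h 0 + 1 by ring, Real.exp_add, Real.exp_add]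
      have h6 := Real.add_one_le_exp (1 : ℝ)
      have h7 : Real.exp (h 0) * (Real.exp (h 0) + 1) ≤ Real.exp (h 0) * Real.exp (h 0) * 2 := by nlinarith
      have h8 : 0 ≤ Real.exp (h 0) * Real.exp (h 0) := by positivity
      nlinarith
    have hconj : ∀ σ : L →+* ℂ, ‖σ ((m : L) * (α 0 - 1))‖ ≤ Real.exp (2 * h 0 + 1) := by
      intro σ
      have hσ : σ (α 0) ≠ 0 := by
        intro hx
        exact hA0.ne (σ.injective (by rw [hx, map_zero]))
      have h7 : ‖σ (α 0)‖ ≤ Real.exp (h 0) := by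
        have h8 := (abs_le.1 (hA0.conj σ)).2
        exact (Real.log_le_iff_le_exp (norm_pos_iff.2 hσ)).1 h8
      rw [map_mul, map_natCast, map_sub, map_one, norm_mul, Complex.norm_natCast]
      refine le_trans ?_ hY
      refine mul_le_mul hme ?_ (norm_nonneg _) (Real.exp_pos _).le
      calc ‖σ (α 0) - 1‖ ≤ ‖σ (α 0)‖ + ‖(1 : ℂ)‖ := norm_sub_le _ _
        _ ≤ Real.exp (h 0) + 1 := by
            rw [norm_one]
            linarith
    have hY1 : 1 ≤ Real.exp (2 * h 0 + 1) := Real.one_le_exp (by linarith)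
    have h9 := liouville d hd σ₀ ((m : L) * (α 0 - 1)) hAne hint (Real.exp (2 * h 0 + 1)) hY1 hconj
    rw [map_mul, map_natCast, map_sub, map_one, norm_mul, Complex.norm_natCast, ← hA0.exp_eq] at h9
    have h10 : Real.exp (-((2 * h 0 + 1) * d)) ≤ ‖Complex.exp (ℓ 0) - 1‖ := by
      rw [Real.exp_neg, inv_le_iff_one_le_mul₀ (Real.exp_pos _)]
      have h11 : Real.exp ((2 * h 0 + 1) * d) = Real.exp (2 * h 0 + 1) * Real.exp (2 * h 0 + 1) ^ (d - 1) := by
        rw [← pow_succ', Nat.sub_add_cancel hd1, ← Real.exp_nat_mul, mul_comm]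
      have h12 : (m : ℝ) ≤ Real.exp (2 * h 0 + 1) := hme.trans (Real.exp_le_exp.2 (by linarith))
      rw [h11]
      calc (1 : ℝ) ≤ (m : ℝ) * ‖Complex.exp (ℓ 0) - 1‖ * Real.exp (2 * h 0 + 1) ^ (d - 1) := h9
        _ ≤ Real.exp (2 * h 0 + 1) * ‖Complex.exp (ℓ 0) - 1‖ * Real.exp (2 * h 0 + 1) ^ (d - 1) := by
            refine mul_le_mul_of_nonneg_right ?_ (by positivity)
            exact mul_le_mul_of_nonneg_right h12 (norm_nonneg _)
        _ = ‖Complex.exp (ℓ 0) - 1‖ * (Real.exp (2 * h 0 + 1) * Real.exp (2 * h 0 + 1) ^ (d - 1)) := by ring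
    have h13 := BK1_small ((2 * h 0 + 1) * d) (by positivity) h10
    refine le_trans (Real.exp_le_exp.2 ?_) h13
    nlinarith

theorem baker_all : ∀ N : ℕ, Baker N := by
  intro N
  induction N with
  | zero =>
    intro d
    refine ⟨1, one_pos, 0, ?_⟩
    intro L _ _ hd σ₀ α ℓ h hA b B hB hb hΛ
    exact absurd (Finset.sum_eq_zero (fun i _ => i.elim0)) hΛ
  | succ N ih =>
    rcases Nat.eq_zero_or_pos N with hN0 | hN
    · subst hN0
      exact BK1_one
    intro d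
    obtain ⟨C1, hC1, κ1, κ', Hnd⟩ := nondegenerate N hN d
    obtain ⟨C2, hC2, κ2, Hdeg⟩ := degenerate N hN ih d C1 hC1 κ'
    have hd0 : (0 : ℝ) ≤ d := Nat.cast_nonneg d
    refine ⟨max (max C1 C2) (d + 1), lt_of_lt_of_le (by positivity) (le_max_right _ _), max κ1 κ2, ?_⟩
    intro L _ _ hd σ₀ α ℓ h hA b B hB hb hΛ
    have hP1 : 1 ≤ ∏ i, h i := by
      calc (1 : ℝ) = ∏ i : Fin (N + 1), (1 : ℝ) := by simp
        _ ≤ ∏ i, h i := Finset.prod_le_prod (fun _ _ => zero_le_one) (fun i _ => (hA i).one_le)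
    have hBP : 3 ≤ B * ∏ i, h i := by nlinarith
    have hl : 1 ≤ Real.log (B * ∏ i, h i) := by
      rw [Real.le_log_iff_exp_le (by linarith)]
      have := Real.exp_one_lt_d9
      linarith
    have hmono : ∀ (C' : ℝ) (κ'' : ℕ), C' ≤ max (max C1 C2) (d + 1) → 0 ≤ C' → κ'' ≤ max κ1 κ2 →
        Real.exp (-(max (max C1 C2) (d + 1) * (∏ i, h i) * Real.log (B * ∏ i, h i) ^ (max κ1 κ2))) ≤
          Real.exp (-(C' * (∏ i, h i) * Real.log (B * ∏ i, h i) ^ κ'')) := by
      intro C' κ'' h1 h2 h3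
      refine Real.exp_le_exp.2 (neg_le_neg ?_)
      have h4 : (0 : ℝ) ≤ max (max C1 C2) ((d : ℝ) + 1) := h2.trans h1
      refine mul_le_mul (mul_le_mul_of_nonneg_right h1 (by linarith)) (pow_le_pow_right₀ hl h3)
        (pow_nonneg (by linarith) _) (mul_nonneg h4 (by linarith))
    by_cases hroot : ∀ i, ∃ m : ℕ, 0 < m ∧ σ₀ (α i) ^ m = 1
    · have h1 := BK1_root (N + 1) d L hd σ₀ α ℓ h hA b hΛ hroot
      have h2 := hmono ((d : ℝ) + 1) 0 (le_max_right _ _) (by positivity) (Nat.zero_le _)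
      refine h2.trans (le_trans (Real.exp_le_exp.2 (neg_le_neg ?_)) h1)
      rw [pow_zero, mul_one]
      exact le_mul_of_one_le_right (by positivity) hP1
    by_cases hrel : ∃ χ : Fin (N + 1) → ℤ, χ ≠ 0 ∧ ∑ i, χ i * b i = 0 ∧
        ∀ i, |(χ i : ℝ)| ≤ C1 * Real.log (B * ∏ i, h i) ^ κ' * h i
    · have h1 := Hdeg L hd σ₀ α ℓ h hA b B hB hb hΛ hrel
      exact (hmono C2 κ2 ((le_max_right _ _).trans (le_max_left _ _)) hC2.le (le_max_right _ _)).trans h1
    -- the nondegenerate case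
    push Not at hroot
    obtain ⟨i0, hi0⟩ := hroot
    obtain ⟨i1, hi1⟩ := Finite.exists_max (fun i => |(b i : ℝ)| * h i)
    have hbi1 : b i1 ≠ 0 := by
      intro hx
      apply hΛ
      refine Finset.sum_eq_zero fun i _ => ?_
      have h1 := hi1 i
      rw [hx, Int.cast_zero, abs_zero, zero_mul] at h1
      have h2 := (hA i).one_le
      have h3 : |(b i : ℝ)| ≤ 0 := by
        by_contra h4
        push Not at h4
        have h5 : 0 < |(b i : ℝ)| * h i := mul_pos h4 (by linarith)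
        linarith
      have h6 : (b i : ℝ) = 0 := abs_eq_zero.1 (le_antisymm h3 (abs_nonneg _))
      have h7 : b i = 0 := by exact_mod_cast h6
      rw [h7, Int.cast_zero, zero_mul]
    set e : Equiv.Perm (Fin (N + 1)) := Equiv.swap i1 (Fin.last N) with he
    have hel : e (Fin.last N) = i1 := Equiv.swap_apply_right _ _
    have hprod : ∏ i, h (e i) = ∏ i, h i := Equiv.prod_comp e h
    have hsum : ∑ i, (b (e i) : ℂ) * ℓ (e i) = ∑ i, (b i : ℂ) * ℓ i :=
      Equiv.sum_comp e (fun i => (b i : ℂ) * ℓ i)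
    have h1 := Hnd L hd σ₀ (fun i => α (e i)) (fun i => ℓ (e i)) (fun i => h (e i)) (fun i => hA (e i))
      ⟨e.symm i0, fun m hm => by
        simp only [Equiv.apply_symm_apply]
        exact hi0 m hm⟩
      (fun i => b (e i)) B hB (fun i => hb (e i))
      (by
        show b (e (Fin.last N)) ≠ 0
        rw [hel]
        exact hbi1)
      (fun i => by
        show |(b (e i) : ℝ)| * h (e i) ≤ |(b (e (Fin.last N)) : ℝ)| * h (e (Fin.last N))
        rw [hel]
        exact hi1 (e i))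
      (fun χ' hχ' hχb => by
        by_contra hcon
        push Not at hcon
        apply hrel
        refine ⟨fun i => χ' (e.symm i), ?_, ?_, ?_⟩
        · intro hz
          apply hχ'
          funext i
          have h2 := congrFun hz (e i)
          simpa using h2
        · have h2 := Equiv.sum_comp e (fun i => χ' (e.symm i) * b i)
          rw [← h2]
          simpa using hχb
        · intro i
          have h2 := hcon (e.symm i)
          simp only [Equiv.apply_symm_apply] at h2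
          rw [hprod] at h2
          exact h2)
    rw [hprod, hsum] at h1
    exact (hmono C1 κ1 ((le_max_left _ _).trans (le_max_left _ _)) (by linarith) (le_max_left _ _)).trans h1

end Pool.Agent.LibST91
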