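import Pool.Agent.LibST91.AD2
import Pool.Agent.LibST91.BK1

/-!
[ST TH3] Multiplicative form of the lower bound.

PLAN. `ξ = ∏ α_i^(b_i) ≠ 1`. If `‖σ₀ ξ - 1‖ > 1/4` nothing to prove (the left side is `≤ exp (-C) ≤ 1/4` for `C ≥ 2`, since
`∏ h ≥ 1`, `log (B ∏ h) ≥ 1`). Else let `Λ₀ = Complex.log (σ₀ ξ)`, `‖Λ₀‖ ≤ 2 ‖σ₀ ξ - 1‖`
(`Complex.norm_log_one_add_half_le_self` or similar), `Λ₀ ≠ 0`. `exp Λ₀ = exp (∑ b_i ℓ_i)`, so `Λ₀ = ∑ b_i ℓ_i + k (2πi)`,
`|k| ≤ (∑ |b_i| h_i + 1)/6 ≤ B' := N B ∏ h + 3`. Apply `baker_all (N+1)` to `α, 1` (`Fin.snoc` or `Fin.cons`), `ℓ, 2πi`,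
`h, 7` (`adm_one`), `b, k`, `B'`; `∏ = 7 ∏ h`, `log (B' * 7 ∏ h) ≤ c log (B ∏ h)`.
-/

set_option autoImplicit false

namespace Pool.Agent.LibST91

private lemma TH3_one_le_prod {N : ℕ} (h : Fin N → ℝ) (h1 : ∀ i, 1 ≤ h i) : 1 ≤ ∏ i, h i := by
  have := Finset.prod_le_prod (s := Finset.univ) (f := fun _ : Fin N => (1 : ℝ)) (g := h)
    (fun i _ => zero_le_one) (fun i _ => h1 i)
  simpa using this

private lemma TH3_le_prod {N : ℕ} (h : Fin N → ℝ) (h1 : ∀ i, 1 ≤ h i) (j : Fin N) :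
    h j ≤ ∏ i, h i := by
  rw [← Finset.mul_prod_erase Finset.univ h (Finset.mem_univ j)]
  have h2 : 1 ≤ ∏ i ∈ Finset.univ.erase j, h i := by
    have := Finset.prod_le_prod (s := Finset.univ.erase j) (f := fun _ : Fin N => (1 : ℝ)) (g := h)
      (fun i _ => zero_le_one) (fun i _ => h1 i)
    simpa using this
  have h3 : 0 ≤ h j := le_trans zero_le_one (h1 j)
  nlinarith

private lemma TH3_exp_sum {N : ℕ} {L : Type} [Field L] [NumberField L] (σ₀ : L →+* ℂ)
    (α : Fin N → L) (ℓ : Fin N → ℂ) (hexp : ∀ i, Complex.exp (ℓ i) = σ₀ (α i)) (b : Fin N → ℤ) :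
    Complex.exp (∑ i, (b i : ℂ) * ℓ i) = σ₀ (∏ i, α i ^ b i) := by
  rw [Complex.exp_sum, map_prod]
  refine Finset.prod_congr rfl fun i _ => ?_
  rw [map_zpow₀, ← hexp i, ← Complex.exp_int_mul]

theorem baker_mult (N d : ℕ) : ∃ C : ℝ, 0 < C ∧ ∃ κ : ℕ,
    ∀ (L : Type) [Field L] [NumberField L], Module.finrank ℚ L ≤ d →
    ∀ (σ₀ : L →+* ℂ) (α : Fin N → L) (ℓ : Fin N → ℂ) (h : Fin N → ℝ),
    (∀ i, Adm σ₀ (α i) (ℓ i) (h i)) →
    ∀ (b : Fin N → ℤ) (B : ℝ), 3 ≤ B → (∀ i, |(b i : ℝ)| ≤ B) →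
    (∏ i, α i ^ b i) ≠ 1 →
    Real.exp (-(C * (∏ i, h i) * Real.log (B * ∏ i, h i) ^ κ)) ≤ ‖σ₀ (∏ i, α i ^ b i) - 1‖ := by
  obtain ⟨C₀, hC₀, κ, hb⟩ := baker_all (N + 1) d
  set c : ℝ := Real.log (7 * ((N : ℝ) + 1)) + 2 with hc
  have hN0 : (0 : ℝ) ≤ (N : ℝ) := Nat.cast_nonneg N
  have hlogc : 0 ≤ Real.log (7 * ((N : ℝ) + 1)) := Real.log_nonneg (by linarith)
  have hc0 : 0 ≤ c := by rw [hc]; linarith
  have hck : 0 ≤ c ^ κ := pow_nonneg hc0 κ
  have hCc : 0 ≤ 7 * C₀ * c ^ κ := by positivity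
  refine ⟨7 * C₀ * c ^ κ + 2, by linarith, κ, ?_⟩
  intro L _ _ hL σ₀ α ℓ h hadm b B hB hbB hne
  have h1 : ∀ i, 1 ≤ h i := fun i => (hadm i).one_le
  set P : ℝ := ∏ i, h i with hP
  have hP1 : 1 ≤ P := TH3_one_le_prod h h1
  have hBP : 3 ≤ B * P := by nlinarith
  have hlog1 : 1 ≤ Real.log (B * P) := by
    rw [Real.le_log_iff_exp_le (by linarith)]
    have := Real.exp_one_lt_d9
    linarith
  have hlogk : 1 ≤ Real.log (B * P) ^ κ := one_le_pow₀ hlog1
  have hX1 : 1 ≤ P * Real.log (B * P) ^ κ := by nlinarith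
  set X : ℝ := P * Real.log (B * P) ^ κ with hX
  have hgoal : (7 * C₀ * c ^ κ + 2) * P * Real.log (B * P) ^ κ = (7 * C₀ * c ^ κ + 2) * X := by
    rw [hX]; ring
  rw [hgoal]
  set ξ : L := ∏ i, α i ^ b i with hξ
  by_cases hbig : (1 : ℝ) / 4 < ‖σ₀ ξ - 1‖
  · have h2 : Real.exp (-((7 * C₀ * c ^ κ + 2) * X)) ≤ Real.exp (-2) := by
      apply Real.exp_le_exp.mpr
      nlinarith
    have h3 : Real.exp (-2) ≤ 1 / 4 := by
      have h4 : Real.exp (-2) = (Real.exp 1 * Real.exp 1)⁻¹ := by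
        rw [← Real.exp_add, Real.exp_neg]; norm_num
      have h5 := Real.exp_one_gt_d9
      rw [h4, one_div]
      apply inv_anti₀ (by norm_num)
      nlinarith
    linarith
  · have hz : ‖σ₀ ξ - 1‖ ≤ 1 / 4 := not_lt.mp hbig
    set z : ℂ := σ₀ ξ - 1 with hzdef
    have hz1 : σ₀ ξ = 1 + z := by rw [hzdef]; ring
    have hσne : σ₀ ξ ≠ 1 := by
      intro h2
      apply hne
      apply σ₀.injective
      rw [h2, map_one]
    have hσ0 : σ₀ ξ ≠ 0 := by
      intro h2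
      rw [h2] at hz1
      have : z = -1 := by linear_combination -hz1
      rw [this] at hz
      norm_num at hz
    set Λ : ℂ := Complex.log (1 + z) with hΛ
    have hexpΛ : Complex.exp Λ = σ₀ ξ := by
      rw [hΛ, ← hz1, Complex.exp_log hσ0]
    have hΛne : Λ ≠ 0 := by
      intro h2
      rw [h2, Complex.exp_zero] at hexpΛ
      exact hσne hexpΛ.symm
    have hΛle : ‖Λ‖ ≤ 3 / 2 * ‖z‖ := by
      rw [hΛ]
      exact Complex.norm_log_one_add_half_le_self (by linarith)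
    have hexpS : Complex.exp (∑ i, (b i : ℂ) * ℓ i) = σ₀ ξ :=
      TH3_exp_sum σ₀ α ℓ (fun i => (hadm i).exp_eq) b
    obtain ⟨k, hk⟩ := Complex.exp_eq_exp_iff_exists_int.mp (hexpΛ.trans hexpS.symm)
    -- bound for the sum
    have hS : ‖∑ i, (b i : ℂ) * ℓ i‖ ≤ N * (B * P) := by
      refine (norm_sum_le _ _).trans ?_
      have : ∀ i ∈ (Finset.univ : Finset (Fin N)), ‖(b i : ℂ) * ℓ i‖ ≤ B * P := by
        intro i _
        rw [norm_mul]
        have h2 : ‖(b i : ℂ)‖ = |(b i : ℝ)| := by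
          rw [Complex.norm_intCast]
        rw [h2]
        have h3 := hbB i
        have h4 : ‖ℓ i‖ ≤ P := (hadm i).norm_le.trans (TH3_le_prod h h1 i)
        exact mul_le_mul h3 h4 (norm_nonneg _) (by linarith)
      have h5 := Finset.sum_le_card_nsmul _ _ _ this
      simpa using h5
    have hkb : |(k : ℝ)| ≤ ((N : ℝ) + 1) * B * P := by
      have h2 : (k : ℂ) * (2 * Real.pi * Complex.I) = Λ - ∑ i, (b i : ℂ) * ℓ i := by
        rw [hk]; ring
      have h3 : ‖(k : ℂ) * (2 * Real.pi * Complex.I)‖ = |(k : ℝ)| * (2 * Real.pi) := by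
        rw [norm_mul, Complex.norm_intCast, norm_mul, norm_mul, Complex.norm_I]
        simp [abs_of_pos Real.pi_pos]
      have h4 : |(k : ℝ)| * (2 * Real.pi) ≤ ‖Λ‖ + ‖∑ i, (b i : ℂ) * ℓ i‖ := by
        rw [← h3, h2]
        exact norm_sub_le _ _
      have h5 : |(k : ℝ)| ≤ |(k : ℝ)| * (2 * Real.pi) := by
        have := Real.pi_gt_three
        have := abs_nonneg (k : ℝ)
        nlinarith
      nlinarith [norm_nonneg z]
    have hB'1 : B ≤ ((N : ℝ) + 1) * B * P := by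
      have h2 : B ≤ ((N : ℝ) + 1) * B := by nlinarith
      have h3 : 0 ≤ ((N : ℝ) + 1) * B := by nlinarith
      nlinarith
    have key := hb L hL σ₀ (Fin.cons (1 : L) α) (Fin.cons (2 * Real.pi * Complex.I) ℓ)
      (Fin.cons (7 : ℝ) h) (by
        intro i
        refine Fin.cases ?_ (fun j => ?_) i
        · simpa using adm_one σ₀
        · simpa using hadm j) (Fin.cons k b) (((N : ℝ) + 1) * B * P) (by linarith) (by
        intro i
        refine Fin.cases ?_ (fun j => ?_) i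
        · simpa using hkb
        · simpa using (hbB j).trans hB'1) (by
        rw [Fin.sum_univ_succ]
        simp only [Fin.cons_zero, Fin.cons_succ]
        intro h2
        apply hΛne
        rw [hk, ← h2]
        ring)
    rw [Fin.sum_univ_succ, Fin.prod_univ_succ] at key
    simp only [Fin.cons_zero, Fin.cons_succ] at key
    rw [← hP] at key
    have hsum : (k : ℂ) * (2 * Real.pi * Complex.I) + ∑ i, (b i : ℂ) * ℓ i = Λ := by
      rw [hk]; ring
    rw [hsum] at key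
    -- logarithm
    have hlog : Real.log (((N : ℝ) + 1) * B * P * (7 * P)) ≤ c * Real.log (B * P) := by
      have hPpos : 0 < P := by linarith
      have hBpos : 0 < B := by linarith
      have h2 : ((N : ℝ) + 1) * B * P * (7 * P) = (7 * ((N : ℝ) + 1)) * ((B * P) * P) := by ring
      have h4 : Real.log (B * P * P) = Real.log (B * P) + Real.log P :=
        Real.log_mul (by positivity) (by positivity)
      rw [h2, Real.log_mul (by positivity) (by positivity), h4]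
      have h3 : Real.log P ≤ Real.log (B * P) := Real.log_le_log hPpos (by nlinarith)
      have h5 : Real.log (7 * ((N : ℝ) + 1)) ≤ Real.log (7 * ((N : ℝ) + 1)) * Real.log (B * P) :=
        le_mul_of_one_le_right hlogc hlog1
      have h6 : c * Real.log (B * P) =
          Real.log (7 * ((N : ℝ) + 1)) * Real.log (B * P) + 2 * Real.log (B * P) := by
        rw [hc]; ring
      linarith
    have hlog0 : 0 ≤ Real.log (((N : ℝ) + 1) * B * P * (7 * P)) := by
      apply Real.log_nonneg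
      nlinarith
    have hpow : Real.log (((N : ℝ) + 1) * B * P * (7 * P)) ^ κ ≤ c ^ κ * Real.log (B * P) ^ κ := by
      rw [← mul_pow]
      exact pow_le_pow_left₀ hlog0 hlog κ
    have hexpo : C₀ * (7 * P) * Real.log (((N : ℝ) + 1) * B * P * (7 * P)) ^ κ ≤
        7 * C₀ * c ^ κ * X := by
      have h2 : 0 ≤ C₀ * (7 * P) := by positivity
      have h3 := mul_le_mul_of_nonneg_left hpow h2
      have h4 : C₀ * (7 * P) * (c ^ κ * Real.log (B * P) ^ κ) = 7 * C₀ * c ^ κ * X := by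
        rw [hX]; ring
      linarith
    have h6 : Real.exp (-(7 * C₀ * c ^ κ * X)) ≤ 3 / 2 * ‖z‖ := by
      refine le_trans ?_ (key.trans hΛle)
      apply Real.exp_le_exp.mpr
      linarith
    have h7 : Real.exp (-((7 * C₀ * c ^ κ + 2) * X)) ≤ Real.exp (-(7 * C₀ * c ^ κ * X)) *
        Real.exp (-1) := by
      rw [← Real.exp_add]
      apply Real.exp_le_exp.mpr
      nlinarith
    have h8 : Real.exp (-1) ≤ 2 / 3 := by
      have h9 := Real.exp_one_gt_d9
      rw [Real.exp_neg]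
      rw [show (2 : ℝ) / 3 = (3 / 2)⁻¹ by norm_num]
      apply inv_anti₀ (by norm_num)
      linarith
    have h11 : 0 ≤ Real.exp (-1) := (Real.exp_pos _).le
    have h12 : Real.exp (-(7 * C₀ * c ^ κ * X)) * Real.exp (-1) ≤ 3 / 2 * ‖z‖ * Real.exp (-1) :=
      mul_le_mul_of_nonneg_right h6 h11
    have h13 : 3 / 2 * ‖z‖ * Real.exp (-1) ≤ 3 / 2 * ‖z‖ * (2 / 3) :=
      mul_le_mul_of_nonneg_left h8 (by positivity)
    have h14 : 3 / 2 * ‖z‖ * (2 / 3) = ‖z‖ := by ring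
    linarith

end Pool.Agent.LibST91
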