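import Pool.Agent.LibST91.GN1

/-!
[ST GN2] Minkowski's second theorem from a counting bound.

PLAN. Greedy choice: `v 0` of minimal `ν` among the nonzero elements, `v i` of minimal `ν` among the elements
`x` with `¬ Sat v i x` (exists: the sets `{ν ≤ ρ}` are finite); it exists for `i < N`: if all elements
were in `Sat v i` with `i < N`, then by `count_le` `ρ^N / V ≤ C ρ^i` for all large `ρ`, impossible.
`lam i = ν (v i)` is increasing, positive; `Indep v N`. Conclusion: if `lam (N-1) ≥ 2` take `ρ = lam (N-1)/2 ≥ 1`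
in `hcount`: all `x` with `ν x ≤ ρ < lam (N-1)` are in `Sat v (N-1)`, so by `count_le`
`ρ^N/V ≤ ∏_{i<N-1} max 1 (4ρ/lam i) ≤ ∏_{i<N-1} 4 lam (N-1)/lam i`, that is
`∏_{i<N} lam i ≤ 2^N 4^(N-1) V ≤ 8^N V`. If `lam (N-1) < 2`: the product is `≤ 2^N ≤ 8^N V`.
-/

set_option autoImplicit false

namespace Pool.Agent.LibST91

theorem GN2_sat_congr {A : Type} [AddCommGroup A] {v v' : ℕ → A} {i : ℕ}
    (h : ∀ j < i, v j = v' j) {x : A} (hx : Sat v i x) : Sat v' i x := by
  obtain ⟨k, c, hk, hc⟩ := hx
  refine ⟨k, c, hk, ?_⟩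
  rw [hc]
  exact Finset.sum_congr rfl fun j hj => by rw [h j (Finset.mem_range.1 hj)]

/-- `¬ Sat v i (v i)` for all `i < m` gives independence. -/
theorem GN2_indep {A : Type} [AddCommGroup A] (v : ℕ → A) (m : ℕ)
    (h : ∀ i < m, ¬ Sat v i (v i)) : Indep v m := by
  classical
  intro c hc
  by_contra hcon
  push Not at hcon
  obtain ⟨j0, hj0, hcj0⟩ := hcon
  let S := (Finset.range m).filter fun i => c i ≠ 0
  have hS : S.Nonempty := ⟨j0, by simp [S, hj0, hcj0]⟩
  have hi := S.max'_mem hS
  set i := S.max' hS with hidef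
  have him : i < m := by
    have := (Finset.mem_filter.1 hi).1
    exact Finset.mem_range.1 this
  have hci : c i ≠ 0 := (Finset.mem_filter.1 hi).2
  have hmax : ∀ j, i < j → j < m → c j = 0 := by
    intro j hj hjm
    by_contra hcon
    have : j ∈ S := by simp [S, hjm, hcon]
    exact absurd (S.le_max' j this) (not_le.2 hj)
  have h1 : ∑ j ∈ Finset.range (i + 1), c j • v j = 0 := by
    rw [← hc]
    refine Finset.sum_subset (Finset.range_mono (Nat.succ_le_of_lt him)) ?_
    intro j hj hj'
    have hj1 : i < j := by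
      have := Finset.mem_range.not.1 hj'
      omega
    rw [hmax j hj1 (Finset.mem_range.1 hj), zero_smul]
  rw [Finset.sum_range_succ] at h1
  have h2 : c i • v i = (-1 : ℤ) • ∑ j ∈ Finset.range i, c j • v j := by
    have := eq_neg_of_add_eq_zero_right h1
    rw [this]; simp
  have h3 : Sat v i (c i • v i) := by
    rw [h2]
    refine GN1_sat_zsmul ⟨1, c, one_pos, by simp⟩ _
  exact h i him (GN1_sat_of_smul hci h3)

theorem minkowski_two {A : Type} [AddCommGroup A] (ν : A → ℝ) (hν : NormLike ν) (N : ℕ) (hN : 1 ≤ N)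
    (V : ℝ) (hV : 1 ≤ V) (hfin : ∀ ρ : ℝ, {x : A | ν x ≤ ρ}.Finite)
    (hcount : ∀ ρ : ℝ, 1 ≤ ρ → ρ ^ N / V ≤ ({x : A | ν x ≤ ρ}.ncard : ℝ)) :
    ∃ v : Fin N → A, LinearIndependent ℤ v ∧ (∀ i, 0 < ν (v i)) ∧ ∏ i, ν (v i) ≤ 8 ^ N * V := by
  classical
  have h0 : ν 0 = 0 := by simpa using hν.nsmul 0 0
  have hVpos : 0 < V := lt_of_lt_of_le one_pos hV
  -- the greedy choice
  have key : ∀ m ≤ N, ∃ v : ℕ → A, (∀ i < m, ¬ Sat v i (v i)) ∧
      ∀ i < m, ∀ y : A, ¬ Sat v i y → ν (v i) ≤ ν y := by
    intro m
    induction m with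
    | zero => exact fun _ => ⟨fun _ => 0, fun i hi => absurd hi (Nat.not_lt_zero i),
        fun i hi => absurd hi (Nat.not_lt_zero i)⟩
    | succ m ih =>
      intro hm
      obtain ⟨v, hv1, hv2⟩ := ih (by omega)
      have hind := GN2_indep v m hv1
      have hpos : ∀ i < m, 0 < ν (v i) := by
        intro i hi
        refine lt_of_le_of_ne (hν.nonneg _) fun h => ?_
        have h1 := hν.eq_zero _ h.symm
        apply hv1 i hi
        rw [h1]
        exact GN1_sat_zero v i
      have hmono : ∀ i j, i ≤ j → j < m → ν (v i) ≤ ν (v j) := by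
        intro i j hij hj
        exact hv2 i (lt_of_le_of_lt hij hj) _ fun h => hv1 j hj (GN1_sat_mono hij h)
      -- there is an element outside the saturation
      have hex : ∃ x : A, ¬ Sat v m x := by
        by_contra hcon
        push Not at hcon
        set C : ℝ := ∏ i ∈ Finset.range m, max 1 (4 / ν (v i)) with hC
        have hC1 : 1 ≤ C := by
          rw [hC]
          calc (1 : ℝ) = ∏ i ∈ Finset.range m, (1 : ℝ) := by simp
            _ ≤ _ := Finset.prod_le_prod (fun i _ => zero_le_one) fun i _ => le_max_left _ _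
        set ρ : ℝ := C * V + 1 with hρdef
        have hρ1 : 1 ≤ ρ := by
          have : 0 ≤ C * V := by positivity
          linarith
        have h1 := hcount ρ hρ1
        have h2 : ({x : A | ν x ≤ ρ}.ncard : ℝ) ≤
            ∏ i ∈ Finset.range m, max 1 (4 * ρ / ν (v i)) := by
          have hf := hfin ρ
          rw [Set.ncard_eq_toFinset_card _ hf]
          exact count_le ν hν v m hind (fun i => ν (v i)) hpos hmono hv2 ρ (by linarith) hf.toFinset
            (fun z _ => hcon z) (fun z hz => by simpa using hz)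
        have h3 : ∏ i ∈ Finset.range m, max 1 (4 * ρ / ν (v i)) ≤ C * ρ ^ m := by
          have : ∏ i ∈ Finset.range m, max 1 (4 * ρ / ν (v i)) ≤
              ∏ i ∈ Finset.range m, (max 1 (4 / ν (v i)) * ρ) := by
            refine Finset.prod_le_prod (fun i _ => le_trans zero_le_one (le_max_left _ _)) ?_
            intro i hi
            have hp := hpos i (Finset.mem_range.1 hi)
            refine max_le ?_ ?_
            · calc (1 : ℝ) ≤ 1 * ρ := by linarith
                _ ≤ _ := mul_le_mul_of_nonneg_right (le_max_left _ _) (by linarith)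
            · calc 4 * ρ / ν (v i) = (4 / ν (v i)) * ρ := by ring
                _ ≤ _ := mul_le_mul_of_nonneg_right (le_max_right _ _) (by linarith)
          refine this.trans (le_of_eq ?_)
          rw [Finset.prod_mul_distrib, Finset.prod_const, Finset.card_range]
        have h4 : ρ ^ N ≤ C * ρ ^ m * V := by
          have := h1.trans (h2.trans h3)
          rwa [div_le_iff₀ hVpos] at this
        have h5 : ρ ^ (m + 1) ≤ ρ ^ N := pow_le_pow_right₀ hρ1 hm
        have h6 : ρ ^ m * ρ ≤ ρ ^ m * (C * V) := by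
          rw [← pow_succ]
          calc ρ ^ (m + 1) ≤ C * ρ ^ m * V := h5.trans h4
            _ = ρ ^ m * (C * V) := by ring
        have h7 : ρ ≤ C * V := le_of_mul_le_mul_left h6 (by positivity)
        linarith
      obtain ⟨x0, hx0⟩ := hex
      -- minimal element
      have hfin2 : {x : A | ν x ≤ ν x0 ∧ ¬ Sat v m x}.Finite :=
        (hfin (ν x0)).subset fun x hx => hx.1
      obtain ⟨x1, hx1, hmin⟩ := Set.exists_min_image _ ν hfin2 ⟨x0, le_rfl, hx0⟩
      have hmin' : ∀ y : A, ¬ Sat v m y → ν x1 ≤ ν y := by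
        intro y hy
        by_cases h : ν y ≤ ν x0
        · exact hmin y ⟨h, hy⟩
        · exact hx1.1.trans (le_of_lt (not_le.1 h))
      refine ⟨fun i => if i < m then v i else x1, ?_, ?_⟩
      · intro i hi hs
        have hs' : Sat v i (if i < m then v i else x1) := by
          refine GN2_sat_congr (fun j hj => ?_) hs
          show (if j < m then v j else x1) = v j
          rw [if_pos (by omega)]
        rcases Nat.lt_succ_iff_lt_or_eq.1 hi with h | h
        · rw [if_pos h] at hs'; exact hv1 i h hs'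
        · rw [if_neg (by omega), h] at hs'
          exact hx1.2 hs'
      · intro i hi y hy
        have hy' : ¬ Sat v i y := by
          intro hs
          apply hy
          refine GN2_sat_congr (fun j hj => ?_) hs
          show v j = if j < m then v j else x1
          rw [if_pos (by omega)]
        show ν (if i < m then v i else x1) ≤ ν y
        rcases Nat.lt_succ_iff_lt_or_eq.1 hi with h | h
        · rw [if_pos h]; exact hv2 i h y hy'
        · rw [if_neg (by omega)]
          rw [h] at hy'
          exact hmin' y hy'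
  obtain ⟨v, hv1, hv2⟩ := key N le_rfl
  have hind := GN2_indep v N hv1
  have hpos : ∀ i < N, 0 < ν (v i) := by
    intro i hi
    refine lt_of_le_of_ne (hν.nonneg _) fun h => ?_
    have h1 := hν.eq_zero _ h.symm
    apply hv1 i hi
    rw [h1]
    exact GN1_sat_zero v i
  have hmono : ∀ i j, i ≤ j → j < N → ν (v i) ≤ ν (v j) := by
    intro i j hij hj
    exact hv2 i (lt_of_le_of_lt hij hj) _ fun h => hv1 j hj (GN1_sat_mono hij h)
  refine ⟨fun i => v i, ?_, fun i => hpos i i.2, ?_⟩
  · rw [Fintype.linearIndependent_iff]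
    intro g hg i
    have h1 := hind (fun j => if h : j < N then g ⟨j, h⟩ else 0) (by
      rw [Finset.sum_range]
      rw [← hg]
      refine Finset.sum_congr rfl fun j _ => ?_
      show (if h : (j : ℕ) < N then g ⟨j, h⟩ else 0) • v j = g j • v j
      rw [dif_pos j.2]) i i.2
    simpa using h1
  · obtain ⟨M, rfl⟩ : ∃ M, N = M + 1 := ⟨N - 1, by omega⟩
    have hprod : ∏ i : Fin (M + 1), ν (v i) = ∏ i ∈ Finset.range (M + 1), ν (v i) := by
      rw [Finset.prod_range]
    rw [hprod, Finset.prod_range_succ]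
    set Λ := ν (v M) with hΛ
    have hΛpos : 0 < Λ := hpos M (Nat.lt_succ_self M)
    set P := ∏ i ∈ Finset.range M, ν (v i) with hP
    have hPpos : 0 < P := Finset.prod_pos fun i hi => hpos i
      (lt_trans (Finset.mem_range.1 hi) (Nat.lt_succ_self M))
    rcases lt_or_ge Λ 2 with h | h
    · have h1 : P ≤ 2 ^ M := by
        calc P ≤ ∏ i ∈ Finset.range M, (2 : ℝ) := by
              refine Finset.prod_le_prod (fun i _ => hν.nonneg _) fun i hi => ?_
              exact (hmono i M (le_of_lt (Finset.mem_range.1 hi)) (Nat.lt_succ_self M)).trans h.le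
          _ = 2 ^ M := by simp
      calc P * Λ ≤ 2 ^ M * 2 := by
            exact mul_le_mul h1 h.le hΛpos.le (by positivity)
        _ = 2 ^ (M + 1) := by ring
        _ ≤ 8 ^ (M + 1) := pow_le_pow_left₀ (by norm_num) (by norm_num) _
        _ ≤ 8 ^ (M + 1) * V := le_mul_of_one_le_right (by positivity) hV
    · have h1 := hcount (Λ / 2) (by linarith)
      have h2 : ({x : A | ν x ≤ Λ / 2}.ncard : ℝ) ≤
          ∏ i ∈ Finset.range M, max 1 (4 * (Λ / 2) / ν (v i)) := by
        have hf := hfin (Λ / 2)
        rw [Set.ncard_eq_toFinset_card _ hf]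
        refine count_le ν hν v M (GN2_indep v M fun i hi => hv1 i (by omega)) (fun i => ν (v i))
          (fun i hi => hpos i (by omega)) (fun i j hij hj => hmono i j hij (by omega))
          (fun i hi => hv2 i (by omega)) (Λ / 2) (by linarith) hf.toFinset ?_
          (fun z hz => by simpa using hz)
        intro z hz
        by_contra hns
        have h3 := hv2 M (Nat.lt_succ_self M) z hns
        have h4 : ν z ≤ Λ / 2 := by simpa using hz
        linarith
      have h3 : ∏ i ∈ Finset.range M, max 1 (4 * (Λ / 2) / ν (v i)) = (2 * Λ) ^ M / P := by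
        rw [hP, ← Finset.card_range M, ← Finset.prod_const, Finset.card_range,
          ← Finset.prod_div_distrib]
        refine Finset.prod_congr rfl fun i hi => ?_
        have hi' := Finset.mem_range.1 hi
        have hp := hpos i (by omega)
        have hle := hmono i M hi'.le (Nat.lt_succ_self M)
        rw [max_eq_right]
        · ring
        · rw [le_div_iff₀ hp]
          linarith
      have h4 : (Λ / 2) ^ (M + 1) * P ≤ (2 * Λ) ^ M * V := by
        have h5 := h1.trans (h2.trans (le_of_eq h3))
        rw [div_le_iff₀ hVpos, div_mul_eq_mul_div, le_div_iff₀ hPpos] at h5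
        exact h5
      have h5 : Λ ^ M * (P * Λ) ≤ Λ ^ M * (8 ^ (M + 1) * V) := by
        have e1 : Λ ^ M * (P * Λ) = 2 ^ (M + 1) * ((Λ / 2) ^ (M + 1) * P) := by
          have e0 : (2 : ℝ) ^ (M + 1) * (Λ / 2) ^ (M + 1) = Λ ^ (M + 1) := by
            rw [← mul_pow]; congr 1; ring
          calc Λ ^ M * (P * Λ) = Λ ^ (M + 1) * P := by ring
            _ = (2 ^ (M + 1) * (Λ / 2) ^ (M + 1)) * P := by rw [e0]
            _ = 2 ^ (M + 1) * ((Λ / 2) ^ (M + 1) * P) := by rw [mul_assoc]
        have e2 : (2 : ℝ) ^ (M + 1) * ((2 * Λ) ^ M * V) = Λ ^ M * ((2 ^ (M + 1) * 2 ^ M) * V) := by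
          rw [mul_pow]; ring
        rw [e1]
        calc (2 : ℝ) ^ (M + 1) * ((Λ / 2) ^ (M + 1) * P) ≤ 2 ^ (M + 1) * ((2 * Λ) ^ M * V) :=
              mul_le_mul_of_nonneg_left h4 (by positivity)
          _ = Λ ^ M * ((2 ^ (M + 1) * 2 ^ M) * V) := e2
          _ ≤ Λ ^ M * (8 ^ (M + 1) * V) := by
              refine mul_le_mul_of_nonneg_left ?_ (by positivity)
              refine mul_le_mul_of_nonneg_right ?_ hVpos.le
              calc (2 : ℝ) ^ (M + 1) * 2 ^ M ≤ 2 ^ (M + 1) * 4 ^ (M + 1) := by
                    refine mul_le_mul_of_nonneg_left ?_ (by positivity)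
                    calc (2 : ℝ) ^ M ≤ 4 ^ M := pow_le_pow_left₀ (by norm_num) (by norm_num) _
                      _ ≤ 4 ^ (M + 1) := pow_le_pow_right₀ (by norm_num) (Nat.le_succ M)
                _ = 8 ^ (M + 1) := by rw [← mul_pow]; norm_num
      exact le_of_mul_le_mul_left h5 (by positivity)

end Pool.Agent.LibST91
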