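import Pool.Agent.LibST91.NFDefs

/-!
[ST NF4] `gnorm` behaves like a norm; upper bound for the number of elements of `Gam`.

PLAN. `gnorm_normLike`: clear (`gη ≥ 1`, so `gnorm a = 0` implies both components are 0).
`count_upper`: (1) `gnorm a ≤ 1`: the second component `j` is `0` or `|j| = 1`, `gη = 1`; it is enough to count the
elements with `gnorm a < 1` or to treat `j` separately: for each fixed `j` the differences of two elements
have `j = 0` and are logarithmic vectors of units `u`. The number of units (up to roots of unity, that is of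
logarithmic vectors) with `|log |u|_v| ≤ 2` for all `v` is `≤ C_d`: `u` is a root of its characteristic
polynomial, monic of degree `d` with integer coefficients `≤ 2^d e^(2d)`, at most `(2^(d+1) e^(2d) + 1)^d`
polynomials with at most `d` roots each (`NumberField.Embeddings.coeff_bdd_of_norm_le`, `Algebra.charpoly`/`minpoly`).
(2) General `ρ`: for fixed `j` (at most `2ρ + 1` values) map `a` to the integer parts of `d * a_v`, `v ≠ v₀`
(at most `(2dρ + 2)^(s-1)` values); two elements with the same image and the same `j` differ by the vector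
of a unit with `|x_v| ≤ 1/d` for `v ≠ v₀` and, by the product formula `∑ mult x = 0`, `|x_{v₀}| ≤ 2`; so at most `C_d`
elements in each class.
-/

set_option autoImplicit false

namespace Pool.Agent.LibST91

open NumberField

private lemma NF4_gη_one_le {K : Type} [Field K] [NumberField K] (η : 𝓞 K) : 1 ≤ gη η :=
  le_max_left _ _

private lemma NF4_fiber {α β : Type} (S : Set α) (f : α → β) (T : Finset β) (N : ℕ)
    (hmem : ∀ a ∈ S, f a ∈ T)
    (hN : ∀ t ∈ T, {a : α | a ∈ S ∧ f a = t}.Finite ∧ {a : α | a ∈ S ∧ f a = t}.ncard ≤ N) :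
    S.Finite ∧ S.ncard ≤ N * T.card := by
  classical
  have hS : S.Finite := by
    have h1 : S ⊆ ⋃ t ∈ T, {a : α | a ∈ S ∧ f a = t} := by
      intro a ha
      simp only [Set.mem_iUnion]
      exact ⟨f a, hmem a ha, ha, rfl⟩
    refine Set.Finite.subset ?_ h1
    exact Set.Finite.biUnion (Finset.finite_toSet T) (fun t ht => (hN t (by simpa using ht)).1)
  refine ⟨hS, ?_⟩
  rw [Set.ncard_eq_toFinset_card S hS]
  refine Finset.card_le_mul_card_image_of_maps_to (f := f) (fun a ha => hmem a (by simpa using ha)) N ?_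
  intro t ht
  have h2 := (hN t ht).2
  rw [Set.ncard_eq_toFinset_card _ (hN t ht).1] at h2
  refine le_trans (Finset.card_le_card ?_) h2
  intro a ha
  simp only [Finset.mem_filter, Set.Finite.mem_toFinset] at ha
  rw [Set.Finite.mem_toFinset]
  exact ha

/-- The algebraic integers of bounded size: the number is bounded in terms of the degree. -/
private lemma NF4_small (d : ℕ) : ∃ N : ℕ, 1 ≤ N ∧ ∀ (K : Type) [Field K] [NumberField K],
    Module.finrank ℚ K = d →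
      {x : K | IsIntegral ℤ x ∧ ∀ φ : K →+* ℂ, ‖φ x‖ ≤ Real.exp 1}.Finite ∧
      {x : K | IsIntegral ℤ x ∧ ∀ φ : K →+* ℂ, ‖φ x‖ ≤ Real.exp 1}.ncard ≤ N := by
  classical
  obtain ⟨M, hM⟩ : ∃ M : ℕ, M = Nat.ceil (max (Real.exp 1) 1 ^ d * (d.choose (d / 2) : ℝ)) := ⟨_, rfl⟩
  refine ⟨(Fintype.piFinset (fun _ : Fin (d + 1) => Finset.Icc (-(M : ℤ)) M)).card * d + 1,
    by omega, ?_⟩
  intro K _ _ hK
  have hfin := NumberField.Embeddings.finite_of_norm_le K ℂ (Real.exp 1)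
  refine ⟨hfin, ?_⟩
  obtain ⟨P, hP⟩ : ∃ P : (Fin (d + 1) → ℤ) → Polynomial ℤ,
    P = fun c => ∑ i : Fin (d + 1), Polynomial.C (c i) * Polynomial.X ^ (i : ℕ) := ⟨_, rfl⟩
  have hdeg : ∀ c, (P c).natDegree ≤ d := by
    intro c
    rw [hP]
    refine Polynomial.natDegree_sum_le_of_forall_le _ _ (fun i _ => ?_)
    exact (Polynomial.natDegree_C_mul_X_pow_le _ _).trans (by have := i.2; omega)
  have hsub : {x : K | IsIntegral ℤ x ∧ ∀ φ : K →+* ℂ, ‖φ x‖ ≤ Real.exp 1} ⊆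
      ((Fintype.piFinset (fun _ : Fin (d + 1) => Finset.Icc (-(M : ℤ)) M)).biUnion
        (fun c => ((P c).map (Int.castRingHom K)).roots.toFinset) : Finset K) := by
    intro x hx
    obtain ⟨hx1, hx2⟩ := hx
    have hmp := minpoly.isIntegrallyClosed_eq_field_fractions' ℚ hx1
    have hnd : (minpoly ℤ x).natDegree ≤ d := by
      rw [← (minpoly.monic hx1).natDegree_map (algebraMap ℤ ℚ), ← hmp, ← hK]
      exact minpoly.natDegree_le x
    have hPx : P (fun i => (minpoly ℤ x).coeff i) = minpoly ℤ x := by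
      rw [hP]
      simp only
      rw [Fin.sum_univ_eq_sum_range (fun i => Polynomial.C ((minpoly ℤ x).coeff i) * Polynomial.X ^ i) (d + 1)]
      exact ((minpoly ℤ x).as_sum_range_C_mul_X_pow' (by omega)).symm
    rw [Finset.mem_coe, Finset.mem_biUnion]
    refine ⟨fun i => (minpoly ℤ x).coeff i, ?_, ?_⟩
    · rw [Fintype.mem_piFinset]
      intro i
      rw [Finset.mem_Icc, ← abs_le, ← @Int.cast_le ℝ]
      have h3 := NumberField.Embeddings.coeff_bdd_of_norm_le (A := ℂ) hx2 (i : ℕ)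
      rw [hK] at h3
      rw [hM]
      refine (Eq.trans_le ?_ h3).trans (by exact_mod_cast Nat.le_ceil _)
      rw [hmp, Polynomial.coeff_map, eq_intCast, Int.norm_cast_rat, Int.norm_eq_abs, Int.cast_abs]
    · rw [hPx, Multiset.mem_toFinset, Polynomial.mem_roots']
      refine ⟨((minpoly.monic hx1).map _).ne_zero, ?_⟩
      have h4 := minpoly.aeval ℤ x
      rw [Polynomial.aeval_def, Polynomial.eval₂_eq_eval_map] at h4
      exact h4
  have h5 : {x : K | IsIntegral ℤ x ∧ ∀ φ : K →+* ℂ, ‖φ x‖ ≤ Real.exp 1}.ncard ≤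
      ((Fintype.piFinset (fun _ : Fin (d + 1) => Finset.Icc (-(M : ℤ)) M)).biUnion
        (fun c => ((P c).map (Int.castRingHom K)).roots.toFinset)).card := by
    rw [← Set.ncard_coe_finset]
    exact Set.ncard_le_ncard hsub (Finset.finite_toSet _)
  refine h5.trans (le_trans (Finset.card_biUnion_le_card_mul _ _ d (fun c _ => ?_)) (by omega))
  refine (Multiset.toFinset_card_le _).trans ((Polynomial.card_roots' _).trans ?_)
  exact (Polynomial.natDegree_map_le).trans (hdeg c)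

theorem gnorm_normLike {K : Type} [Field K] [NumberField K] (η : 𝓞 K) (hη : η ≠ 0) :
    NormLike (fun a : Gam η hη => gnorm a) := by
  have hg := NF4_gη_one_le η
  constructor
  · intro x
    unfold gnorm
    have h1 : 0 ≤ ∑ v : InfinitePlace K, |(x : (InfinitePlace K → ℝ) × ℤ).1 v| :=
      Finset.sum_nonneg fun v _ => abs_nonneg _
    have h2 := mul_nonneg (abs_nonneg (((x : (InfinitePlace K → ℝ) × ℤ).2 : ℤ) : ℝ)) (by linarith : 0 ≤ gη η)
    linarith
  · intro x hx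
    unfold gnorm at hx
    have h1 : 0 ≤ ∑ v : InfinitePlace K, |(x : (InfinitePlace K → ℝ) × ℤ).1 v| :=
      Finset.sum_nonneg fun v _ => abs_nonneg _
    have h2 := mul_nonneg (abs_nonneg (((x : (InfinitePlace K → ℝ) × ℤ).2 : ℤ) : ℝ)) (by linarith : 0 ≤ gη η)
    have h3 : ∑ v : InfinitePlace K, |(x : (InfinitePlace K → ℝ) × ℤ).1 v| = 0 := by linarith
    have h4 : |(((x : (InfinitePlace K → ℝ) × ℤ).2 : ℤ) : ℝ)| * gη η = 0 := by linarith
    have h5 : (x : (InfinitePlace K → ℝ) × ℤ).2 = 0 := by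
      rcases mul_eq_zero.1 h4 with h | h
      · exact_mod_cast abs_eq_zero.1 h
      · linarith
    have h6 : (x : (InfinitePlace K → ℝ) × ℤ).1 = 0 := by
      funext v
      have := (Finset.sum_eq_zero_iff_of_nonneg (fun v _ => abs_nonneg _)).1 h3 v (Finset.mem_univ v)
      exact abs_eq_zero.1 this
    exact Subtype.ext (Prod.ext h6 h5)
  · intro x
    unfold gnorm
    simp
  · intro x y
    unfold gnorm
    have h1 : ∑ v : InfinitePlace K, |((x + y : Gam η hη) : (InfinitePlace K → ℝ) × ℤ).1 v| ≤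
        ∑ v : InfinitePlace K, |(x : (InfinitePlace K → ℝ) × ℤ).1 v| +
        ∑ v : InfinitePlace K, |(y : (InfinitePlace K → ℝ) × ℤ).1 v| := by
      rw [← Finset.sum_add_distrib]
      refine Finset.sum_le_sum fun v _ => ?_
      exact abs_add_le _ _
    have h2 : |((((x + y : Gam η hη) : (InfinitePlace K → ℝ) × ℤ).2 : ℤ) : ℝ)| ≤
        |(((x : (InfinitePlace K → ℝ) × ℤ).2 : ℤ) : ℝ)| + |(((y : (InfinitePlace K → ℝ) × ℤ).2 : ℤ) : ℝ)| := by
      have h3 : ((((x + y : Gam η hη) : (InfinitePlace K → ℝ) × ℤ).2 : ℤ) : ℝ) =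
          (((x : (InfinitePlace K → ℝ) × ℤ).2 : ℤ) : ℝ) + (((y : (InfinitePlace K → ℝ) × ℤ).2 : ℤ) : ℝ) := by
        push_cast [AddSubgroup.coe_add, Prod.snd_add]
        ring
      rw [h3]
      exact abs_add_le _ _
    nlinarith [mul_le_mul_of_nonneg_right h2 (by linarith : 0 ≤ gη η)]
  · intro n x
    unfold gnorm
    have h1 : ∑ v : InfinitePlace K, |((n • x : Gam η hη) : (InfinitePlace K → ℝ) × ℤ).1 v| =
        n * ∑ v : InfinitePlace K, |(x : (InfinitePlace K → ℝ) × ℤ).1 v| := by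
      rw [Finset.mul_sum]
      refine Finset.sum_congr rfl fun v _ => ?_
      have h2 : ((n • x : Gam η hη) : (InfinitePlace K → ℝ) × ℤ).1 v =
          n * (x : (InfinitePlace K → ℝ) × ℤ).1 v := by
        simp
      rw [h2, abs_mul, Nat.abs_cast]
    have h3 : ((((n • x : Gam η hη) : (InfinitePlace K → ℝ) × ℤ).2 : ℤ) : ℝ) =
        n * (((x : (InfinitePlace K → ℝ) × ℤ).2 : ℤ) : ℝ) := by
      simp
    rw [h1, h3, abs_mul, Nat.abs_cast]
    ring

private lemma NF4_units (d : ℕ) : ∃ N : ℕ, 1 ≤ N ∧ ∀ (K : Type) [Field K] [NumberField K],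
    Module.finrank ℚ K = d →
      {x : InfinitePlace K → ℝ | (∃ u : (𝓞 K)ˣ, x = logv (((u : (𝓞 K)ˣ) : 𝓞 K) : K)) ∧ ∀ v, |x v| ≤ 1}.Finite ∧
      {x : InfinitePlace K → ℝ | (∃ u : (𝓞 K)ˣ, x = logv (((u : (𝓞 K)ˣ) : 𝓞 K) : K)) ∧ ∀ v, |x v| ≤ 1}.ncard ≤ N := by
  obtain ⟨N, hN1, hN⟩ := NF4_small d
  refine ⟨N, hN1, ?_⟩
  intro K _ _ hK
  obtain ⟨h1, h2⟩ := hN K hK
  have hsub : {x : InfinitePlace K → ℝ | (∃ u : (𝓞 K)ˣ, x = logv (((u : (𝓞 K)ˣ) : 𝓞 K) : K)) ∧ ∀ v, |x v| ≤ 1} ⊆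
      (fun x : K => logv x) '' {x : K | IsIntegral ℤ x ∧ ∀ φ : K →+* ℂ, ‖φ x‖ ≤ Real.exp 1} := by
    rintro x ⟨⟨u, rfl⟩, hx⟩
    refine ⟨(((u : (𝓞 K)ˣ) : 𝓞 K) : K), ⟨?_, ?_⟩, rfl⟩
    · exact RingOfIntegers.isIntegral_coe _
    · intro φ
      have h3 := hx (InfinitePlace.mk φ)
      simp only [logv] at h3
      rw [InfinitePlace.apply] at h3
      have h4 : 0 < ‖φ (((u : (𝓞 K)ˣ) : 𝓞 K) : K)‖ := by
        rw [norm_pos_iff, map_ne_zero]
        simp
      rw [← Real.log_le_iff_le_exp h4]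
      exact (abs_le.1 h3).2
  exact ⟨(h1.image _).subset hsub, (Set.ncard_le_ncard hsub (h1.image _)).trans ((Set.ncard_image_le h1).trans h2)⟩

private lemma NF4_class {K : Type} [Field K] [NumberField K] {η : 𝓞 K} {hη : η ≠ 0} (v₀ : InfinitePlace K)
    {d : ℕ} (hd : Module.finrank ℚ K = d) {a b : Gam η hη}
    (h2 : (a : (InfinitePlace K → ℝ) × ℤ).2 = (b : (InfinitePlace K → ℝ) × ℤ).2)
    (h1 : ∀ v, v ≠ v₀ → ⌊(d : ℝ) * (a : (InfinitePlace K → ℝ) × ℤ).1 v⌋ = ⌊(d : ℝ) * (b : (InfinitePlace K → ℝ) × ℤ).1 v⌋) :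
    (∃ u : (𝓞 K)ˣ, (fun v => (a : (InfinitePlace K → ℝ) × ℤ).1 v - (b : (InfinitePlace K → ℝ) × ℤ).1 v) =
      logv (((u : (𝓞 K)ˣ) : 𝓞 K) : K)) ∧
    ∀ v, |(a : (InfinitePlace K → ℝ) × ℤ).1 v - (b : (InfinitePlace K → ℝ) × ℤ).1 v| ≤ 1 := by
  have hmem : ∃ u : (𝓞 K)ˣ, ((a : (InfinitePlace K → ℝ) × ℤ) - (b : (InfinitePlace K → ℝ) × ℤ)).1 =
      logv (gel η u ((a : (InfinitePlace K → ℝ) × ℤ) - (b : (InfinitePlace K → ℝ) × ℤ)).2) :=
    (Gam η hη).sub_mem a.2 b.2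
  obtain ⟨u, hu⟩ := hmem
  have hu1 : (fun v => (a : (InfinitePlace K → ℝ) × ℤ).1 v - (b : (InfinitePlace K → ℝ) × ℤ).1 v) =
      logv (((u : (𝓞 K)ˣ) : 𝓞 K) : K) := by
    have h3 : ((a : (InfinitePlace K → ℝ) × ℤ) - (b : (InfinitePlace K → ℝ) × ℤ)).2 = 0 := by
      rw [Prod.snd_sub, h2, sub_self]
    rw [h3] at hu
    simp only [gel, zpow_zero, mul_one] at hu
    rw [← hu]
    rfl
  refine ⟨⟨u, hu1⟩, ?_⟩
  have hd0 : 0 < d := hd ▸ Module.finrank_pos
  have hd1 : (0 : ℝ) < d := by exact_mod_cast hd0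
  have hd2 : (1 : ℝ) ≤ d := by exact_mod_cast hd0
  obtain ⟨x, hx⟩ : ∃ x : InfinitePlace K → ℝ,
    x = fun v => (a : (InfinitePlace K → ℝ) × ℤ).1 v - (b : (InfinitePlace K → ℝ) × ℤ).1 v := ⟨_, rfl⟩
  have hsmall : ∀ v, v ≠ v₀ → |x v| ≤ 1 / d := by
    intro v hv
    have h4 := Int.abs_sub_lt_one_of_floor_eq_floor (h1 v hv)
    rw [← mul_sub, abs_mul, abs_of_pos hd1] at h4
    rw [hx, le_div_iff₀ hd1]
    simp only
    linarith [mul_comm (d : ℝ) |(a : (InfinitePlace K → ℝ) × ℤ).1 v - (b : (InfinitePlace K → ℝ) × ℤ).1 v|]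
  have hprod : ∑ v : InfinitePlace K, (v.mult : ℝ) * x v = 0 := by
    have h5 := NumberField.Units.sum_mult_mul_log u
    rw [hx, hu1]
    exact h5
  have hsum : ∑ v : InfinitePlace K, (v.mult : ℝ) = d := by
    rw [← Nat.cast_sum, InfinitePlace.sum_mult_eq, hd]
  intro v
  have hgoal : |x v| ≤ 1 := by
    by_cases hv : v = v₀
    · subst hv
      classical
      rw [← Finset.add_sum_erase _ _ (Finset.mem_univ v)] at hprod hsum
      have h6 : |(v.mult : ℝ) * x v| ≤ ∑ w ∈ Finset.univ.erase v, (w.mult : ℝ) * (1 / d) := by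
        have h7 : (v.mult : ℝ) * x v = -∑ w ∈ Finset.univ.erase v, (w.mult : ℝ) * x w := by linarith
        rw [h7, abs_neg]
        refine (Finset.abs_sum_le_sum_abs _ _).trans (Finset.sum_le_sum fun w hw => ?_)
        rw [abs_mul, Nat.abs_cast]
        exact mul_le_mul_of_nonneg_left (hsmall w (Finset.ne_of_mem_erase hw)) (Nat.cast_nonneg _)
      rw [← Finset.sum_mul, abs_mul, Nat.abs_cast] at h6
      have h8 : (1 : ℝ) ≤ v.mult := InfinitePlace.one_le_mult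
      have h9 : |x v| ≤ (v.mult : ℝ) * |x v| := le_mul_of_one_le_left (abs_nonneg _) h8
      have h10 : (∑ w ∈ Finset.univ.erase v, (w.mult : ℝ)) * (1 / d) ≤ 1 := by
        rw [mul_one_div, div_le_one hd1]
        linarith
      linarith
    · refine (hsmall v hv).trans ?_
      rw [div_le_one hd1]
      exact hd2
  rw [hx] at hgoal
  exact hgoal

theorem count_upper (d : ℕ) : ∃ C : ℝ, 1 ≤ C ∧ ∀ (K : Type) [Field K] [NumberField K],
    Module.finrank ℚ K = d → ∀ (η : 𝓞 K) (hη : η ≠ 0) (ρ : ℝ), 0 ≤ ρ →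
      {a : Gam η hη | gnorm a ≤ ρ}.Finite ∧
      ({a : Gam η hη | gnorm a ≤ ρ}.ncard : ℝ) ≤ C * (1 + ρ) ^ (Fintype.card (InfinitePlace K)) := by
  classical
  obtain ⟨N, hN1, hN⟩ := NF4_units d
  refine ⟨max 1 (N * (2 * (3 * (d : ℝ)) ^ d)), le_max_left _ _, ?_⟩
  intro K _ _ hK η hη ρ hρ
  obtain ⟨hU1, hU2⟩ := hN K hK
  have hd0 : 0 < d := hK ▸ Module.finrank_pos
  have hd1 : (0 : ℝ) < d := by exact_mod_cast hd0
  have hd2 : (1 : ℝ) ≤ d := by exact_mod_cast hd0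
  have hg := NF4_gη_one_le η
  obtain ⟨v₀⟩ : Nonempty (InfinitePlace K) := inferInstance
  obtain ⟨M, hM⟩ : ∃ M : ℤ, M = ⌈(d : ℝ) * ρ⌉ := ⟨_, rfl⟩
  have hdρ : 0 ≤ (d : ℝ) * ρ := by positivity
  have hM0 : 0 ≤ M := by rw [hM]; exact Int.ceil_nonneg hdρ
  obtain ⟨T, hT⟩ : ∃ T : Finset (ℤ × (InfinitePlace K → ℤ)),
    T = Finset.Icc (-⌊ρ⌋) ⌊ρ⌋ ×ˢ Fintype.piFinset (fun v => if v = v₀ then {(0 : ℤ)} else Finset.Icc (-M) M) := ⟨_, rfl⟩
  obtain ⟨f, hf⟩ : ∃ f : Gam η hη → ℤ × (InfinitePlace K → ℤ),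
    f = fun a : Gam η hη => ((a : (InfinitePlace K → ℝ) × ℤ).2,
      fun v => if v = v₀ then 0 else ⌊(d : ℝ) * (a : (InfinitePlace K → ℝ) × ℤ).1 v⌋) := ⟨_, rfl⟩
  have hb : ∀ a : Gam η hη, gnorm a ≤ ρ → (∀ v, |(a : (InfinitePlace K → ℝ) × ℤ).1 v| ≤ ρ) ∧
      |(((a : (InfinitePlace K → ℝ) × ℤ).2 : ℤ) : ℝ)| ≤ ρ := by
    intro a ha
    unfold gnorm at ha
    have h1 : 0 ≤ ∑ v : InfinitePlace K, |(a : (InfinitePlace K → ℝ) × ℤ).1 v| :=
      Finset.sum_nonneg fun v _ => abs_nonneg _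
    have h2 : |(((a : (InfinitePlace K → ℝ) × ℤ).2 : ℤ) : ℝ)| ≤
        |(((a : (InfinitePlace K → ℝ) × ℤ).2 : ℤ) : ℝ)| * gη η := le_mul_of_one_le_right (abs_nonneg _) hg
    have h3 := abs_nonneg (((a : (InfinitePlace K → ℝ) × ℤ).2 : ℤ) : ℝ)
    refine ⟨fun v => ?_, by linarith⟩
    have h4 : |(a : (InfinitePlace K → ℝ) × ℤ).1 v| ≤ ∑ v : InfinitePlace K, |(a : (InfinitePlace K → ℝ) × ℤ).1 v| :=
      Finset.single_le_sum (f := fun v => |(a : (InfinitePlace K → ℝ) × ℤ).1 v|) (fun v _ => abs_nonneg _) (Finset.mem_univ v)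
    linarith
  have hmain := NF4_fiber {a : Gam η hη | gnorm a ≤ ρ} f T N (fun a ha => ?_) (fun t ht => ?_)
  · refine ⟨hmain.1, ?_⟩
    have hc : (T.card : ℝ) ≤ 2 * (3 * (d : ℝ)) ^ d * (1 + ρ) ^ (Fintype.card (InfinitePlace K)) := by
      have hs0 : 0 < Fintype.card (InfinitePlace K) := Fintype.card_pos
      have hsd : Fintype.card (InfinitePlace K) ≤ d := by
        have h1 : ∑ v : InfinitePlace K, v.mult = d := by rw [InfinitePlace.sum_mult_eq, hK]
        rw [← h1, Fintype.card_eq_sum_ones]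
        exact Finset.sum_le_sum fun v _ => InfinitePlace.mult_pos
      obtain ⟨s, hs⟩ : ∃ s, Fintype.card (InfinitePlace K) = s + 1 := ⟨Fintype.card (InfinitePlace K) - 1, by omega⟩
      have hT1 : T.card = (Finset.Icc (-⌊ρ⌋) ⌊ρ⌋).card * (Finset.Icc (-M) M).card ^ s := by
        rw [hT, Finset.card_product, Fintype.card_piFinset, ← Finset.mul_prod_erase _ _ (Finset.mem_univ v₀)]
        congr 1
        rw [if_pos rfl, Finset.card_singleton, one_mul]
        rw [Finset.prod_congr rfl (g := fun _ => (Finset.Icc (-M) M).card)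
          (fun v hv => by rw [if_neg (Finset.ne_of_mem_erase hv)])]
        rw [Finset.prod_const, Finset.card_erase_of_mem (Finset.mem_univ _), Finset.card_univ, hs]
        rfl
      have hJ : ((Finset.Icc (-⌊ρ⌋) ⌊ρ⌋).card : ℝ) ≤ 2 * (1 + ρ) := by
        rw [Int.card_Icc]
        have h1 : 0 ≤ ⌊ρ⌋ := Int.floor_nonneg.2 hρ
        have h2 : (((⌊ρ⌋ + 1 - -⌊ρ⌋).toNat : ℕ) : ℤ) = 2 * ⌊ρ⌋ + 1 := by omega
        have h3 : (((⌊ρ⌋ + 1 - -⌊ρ⌋).toNat : ℕ) : ℝ) = 2 * (⌊ρ⌋ : ℝ) + 1 := by exact_mod_cast h2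
        rw [h3]
        have := Int.floor_le ρ
        linarith
      have hMc : ((Finset.Icc (-M) M).card : ℝ) ≤ 3 * d * (1 + ρ) := by
        rw [Int.card_Icc]
        have h2 : (((M + 1 - -M).toNat : ℕ) : ℤ) = 2 * M + 1 := by omega
        have h3 : (((M + 1 - -M).toNat : ℕ) : ℝ) = 2 * (M : ℝ) + 1 := by exact_mod_cast h2
        rw [h3, hM]
        have := (Int.ceil_lt_add_one ((d : ℝ) * ρ)).le
        nlinarith
      have h3d : (1 : ℝ) ≤ 3 * d := by linarith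
      have h1ρ : (1 : ℝ) ≤ 1 + ρ := by linarith
      calc (T.card : ℝ) = ((Finset.Icc (-⌊ρ⌋) ⌊ρ⌋).card : ℝ) * ((Finset.Icc (-M) M).card : ℝ) ^ s := by
            rw [hT1]; push_cast; ring
        _ ≤ (2 * (1 + ρ)) * (3 * d * (1 + ρ)) ^ s := by
            gcongr
        _ = 2 * (3 * (d : ℝ)) ^ s * (1 + ρ) ^ (s + 1) := by rw [mul_pow]; ring
        _ ≤ 2 * (3 * (d : ℝ)) ^ d * (1 + ρ) ^ (s + 1) := by
            have : (3 * (d : ℝ)) ^ s ≤ (3 * (d : ℝ)) ^ d := pow_le_pow_right₀ h3d (by omega)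
            gcongr
        _ = _ := by rw [hs]
    have h1 : (({a : Gam η hη | gnorm a ≤ ρ}.ncard : ℕ) : ℝ) ≤ N * (T.card : ℝ) := by exact_mod_cast hmain.2
    have h2 : (0 : ℝ) ≤ (1 + ρ) ^ (Fintype.card (InfinitePlace K)) := by positivity
    calc (({a : Gam η hη | gnorm a ≤ ρ}.ncard : ℕ) : ℝ) ≤ N * (T.card : ℝ) := h1
      _ ≤ N * (2 * (3 * (d : ℝ)) ^ d * (1 + ρ) ^ (Fintype.card (InfinitePlace K))) := by gcongr
      _ = (N * (2 * (3 * (d : ℝ)) ^ d)) * (1 + ρ) ^ (Fintype.card (InfinitePlace K)) := by ring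
      _ ≤ _ := mul_le_mul_of_nonneg_right (le_max_right _ _) h2
  · obtain ⟨h1, h2⟩ := hb a ha
    rw [hT, hf]
    simp only [Finset.mem_product, Finset.mem_Icc, Fintype.mem_piFinset]
    refine ⟨?_, ?_⟩
    · rw [← abs_le, Int.le_floor]
      push_cast
      exact h2
    · intro v
      by_cases hv : v = v₀
      · simp [hv]
      · rw [if_neg hv, if_neg hv, Finset.mem_Icc]
        have h3 : |(d : ℝ) * (a : (InfinitePlace K → ℝ) × ℤ).1 v| ≤ M := by
          rw [abs_mul, abs_of_pos hd1, hM]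
          exact (mul_le_mul_of_nonneg_left (h1 v) hd1.le).trans (Int.le_ceil _)
        obtain ⟨h4, h5⟩ := abs_le.1 h3
        constructor
        · rw [Int.le_floor]
          push_cast
          exact h4
        · have h6 := (Int.floor_le ((d : ℝ) * (a : (InfinitePlace K → ℝ) × ℤ).1 v)).trans h5
          exact_mod_cast h6
  · by_cases hne : {a : Gam η hη | a ∈ {a : Gam η hη | gnorm a ≤ ρ} ∧ f a = t} = ∅
    · rw [hne]
      exact ⟨Set.finite_empty, by simp⟩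
    · obtain ⟨b, hbm, hbt⟩ := Set.nonempty_iff_ne_empty.2 hne
      have hmaps : ∀ a ∈ {a : Gam η hη | a ∈ {a : Gam η hη | gnorm a ≤ ρ} ∧ f a = t},
          (fun (a : Gam η hη) (v : InfinitePlace K) => (a : (InfinitePlace K → ℝ) × ℤ).1 v - (b : (InfinitePlace K → ℝ) × ℤ).1 v) a ∈
          {x : InfinitePlace K → ℝ | (∃ u : (𝓞 K)ˣ, x = logv (((u : (𝓞 K)ˣ) : 𝓞 K) : K)) ∧ ∀ v, |x v| ≤ 1} := by
        rintro a ⟨-, hat⟩
        have hab : f a = f b := by rw [hat, hbt]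
        rw [hf] at hab
        simp only [Prod.mk.injEq] at hab
        obtain ⟨hab1, hab2⟩ := hab
        refine NF4_class v₀ hK hab1 (fun v hv => ?_)
        have := congrFun hab2 v
        simpa only [if_neg hv] using this
      have hinj : Set.InjOn (fun (a : Gam η hη) (v : InfinitePlace K) =>
          (a : (InfinitePlace K → ℝ) × ℤ).1 v - (b : (InfinitePlace K → ℝ) × ℤ).1 v)
          {a : Gam η hη | a ∈ {a : Gam η hη | gnorm a ≤ ρ} ∧ f a = t} := by
        rintro a ⟨-, hat⟩ a' ⟨-, hat'⟩ haa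
        have hab : f a = f a' := by rw [hat, hat']
        rw [hf] at hab
        simp only [Prod.mk.injEq] at hab
        refine Subtype.ext (Prod.ext ?_ hab.1)
        funext v
        have := congrFun haa v
        simp only at this
        linarith
      exact ⟨Set.Finite.of_injOn hmaps hinj hU1, (Set.ncard_le_ncard_of_injOn _ hmaps hinj hU1).trans hU2⟩

end Pool.Agent.LibST91
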