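import Pool.Agent.LibST91.Defs

/-!
[ST NF5] A relation with small coefficients by the box principle.

PLAN. `σ = ∑ ν (v i)`, `Q = ⌈C (2+σ)^N⌉₊`, `M = Q * (⌈ν a⌉₊ + 1) ≥ 1`. The `(Q+1)(M+1)^N` combinations
`k • a + ∑ m_i • v_i`, `0 ≤ k ≤ Q`, `0 ≤ m_i ≤ M`, have `ν ≤ Q ν a + M σ ≤ M (1+σ)`, and there are at most
`C (1 + M(1+σ))^N ≤ C M^N (2+σ)^N < (Q+1)(M+1)^N` elements with this bound. So two are equal; the difference is
a relation with `k ≠ 0` (independence). `Q ≤ 2 C (2+σ)^N`, `M ≤ 2 C (2+σ)^N (ν a + 2)`.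
-/

set_option autoImplicit false

namespace Pool.Agent.LibST91

private theorem NF5_sum {A : Type} [AddCommGroup A] {ν : A → ℝ} (hν : NormLike ν) {ι : Type}
    (s : Finset ι) (f : ι → A) : ν (∑ i ∈ s, f i) ≤ ∑ i ∈ s, ν (f i) := by
  classical
  induction s using Finset.induction_on with
  | empty =>
    have h := hν.nsmul 0 (0 : A)
    rw [zero_nsmul, Nat.cast_zero, zero_mul] at h
    rw [Finset.sum_empty, Finset.sum_empty, h]
  | insert a s ha ih =>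
    rw [Finset.sum_insert ha, Finset.sum_insert ha]
    exact (hν.add_le _ _).trans (add_le_add le_rfl ih)

private theorem NF5_rel {A : Type} [AddCommGroup A] {N Q M : ℕ} {v : Fin N → A} {a : A}
    {k k' : ℕ} {m m' : Fin N → ℕ} (hk : k ≤ Q) (hkk : k' < k) (hm : ∀ i, m i ≤ M)
    (hm' : ∀ i, m' i ≤ M) (h : k • a + ∑ i, m i • v i = k' • a + ∑ i, m' i • v i) :
    ∃ (q : ℕ) (c : Fin N → ℤ), 0 < q ∧ q • a = ∑ i, c i • v i ∧ q ≤ Q ∧
      ∀ i, |(c i : ℝ)| ≤ M := by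
  refine ⟨k - k', fun i => (m' i : ℤ) - m i, Nat.sub_pos_of_lt hkk, ?_, by omega, fun i => ?_⟩
  · have h1 : k • a = (k - k') • a + k' • a := by
      rw [← add_nsmul, Nat.sub_add_cancel hkk.le]
    rw [h1] at h
    have h2 : ∑ i, ((m' i : ℤ) - m i) • v i = ∑ i, m' i • v i - ∑ i, m i • v i := by
      rw [← Finset.sum_sub_distrib]
      refine Finset.sum_congr rfl fun i _ => ?_
      rw [sub_smul, natCast_zsmul, natCast_zsmul]
    rw [h2, eq_sub_iff_add_eq]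
    have h3 : ((k - k') • a + ∑ i, m i • v i) + k' • a = ∑ i, m' i • v i + k' • a := by
      rw [add_comm (∑ i, m' i • v i), ← h]
      abel
    exact add_right_cancel h3
  · push_cast
    have h1 : (m i : ℝ) ≤ M := by exact_mod_cast hm i
    have h2 : (m' i : ℝ) ≤ M := by exact_mod_cast hm' i
    have h3 : (0 : ℝ) ≤ m i := Nat.cast_nonneg _
    have h4 : (0 : ℝ) ≤ m' i := Nat.cast_nonneg _
    rw [abs_le]
    constructor <;> linarith

theorem small_relation {A : Type} [AddCommGroup A] (ν : A → ℝ) (hν : NormLike ν) (N : ℕ) (C : ℝ)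
    (hC : 1 ≤ C) (hcard : ∀ ρ : ℝ, 0 ≤ ρ → {x : A | ν x ≤ ρ}.Finite ∧
      ({x : A | ν x ≤ ρ}.ncard : ℝ) ≤ C * (1 + ρ) ^ N)
    (v : Fin N → A) (hv : LinearIndependent ℤ v) (a : A) :
    ∃ (q : ℕ) (c : Fin N → ℤ), 0 < q ∧ q • a = ∑ i, c i • v i ∧
      (q : ℝ) ≤ 2 * C * (2 + ∑ i, ν (v i)) ^ N ∧
      ∀ i, |(c i : ℝ)| ≤ 2 * C * (2 + ∑ i, ν (v i)) ^ N * (ν a + 2) := by
  classical
  obtain ⟨σ, hσ⟩ : ∃ σ : ℝ, σ = ∑ i, ν (v i) := ⟨_, rfl⟩
  have hσ0 : 0 ≤ σ := by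
    rw [hσ]
    exact Finset.sum_nonneg fun i _ => hν.nonneg _
  rw [← hσ]
  obtain ⟨Y, hY⟩ : ∃ Y : ℝ, Y = C * (2 + σ) ^ N := ⟨_, rfl⟩
  have hpow : (1 : ℝ) ≤ (2 + σ) ^ N := one_le_pow₀ (by linarith)
  have hY1 : 1 ≤ Y := by
    rw [hY]
    nlinarith
  obtain ⟨Q, hQ⟩ : ∃ Q : ℕ, Q = ⌈Y⌉₊ := ⟨_, rfl⟩
  obtain ⟨R, hR⟩ : ∃ R : ℕ, R = ⌈ν a⌉₊ + 1 := ⟨_, rfl⟩
  have hQY : Y ≤ Q := by
    rw [hQ]
    exact Nat.le_ceil Y
  have hQY2 : (Q : ℝ) ≤ 2 * Y := by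
    have := Nat.ceil_lt_add_one (a := Y) (by linarith)
    rw [hQ]
    linarith
  have hQ1 : 1 ≤ Q := by
    have : (1 : ℝ) ≤ Q := hY1.trans hQY
    exact_mod_cast this
  have hRa : ν a ≤ R := by
    rw [hR]
    push_cast
    linarith [Nat.le_ceil (ν a)]
  have hRa2 : (R : ℝ) ≤ ν a + 2 := by
    have := Nat.ceil_lt_add_one (hν.nonneg a)
    rw [hR]
    push_cast
    linarith
  have hR1 : 1 ≤ R := by omega
  obtain ⟨M, hM⟩ : ∃ M : ℕ, M = Q * R := ⟨_, rfl⟩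
  have hM1 : 1 ≤ M := by
    rw [hM]
    exact Nat.mul_pos hQ1 hR1
  have hM1' : (1 : ℝ) ≤ M := by exact_mod_cast hM1
  have hMr : (M : ℝ) = Q * R := by
    rw [hM]
    push_cast
    rfl
  have hρ0 : (0 : ℝ) ≤ M * (1 + σ) := by positivity
  obtain ⟨hfin, hcd⟩ := hcard (M * (1 + σ)) hρ0
  have hcount : hfin.toFinset.card <
      (Finset.univ : Finset (Fin (Q + 1) × (Fin N → Fin (M + 1)))).card := by
    rw [Finset.card_univ, Fintype.card_prod, Fintype.card_fin, Fintype.card_fun, Fintype.card_fin,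
      Fintype.card_fin, ← Set.ncard_eq_toFinset_card _ hfin]
    have h1 : ({x : A | ν x ≤ M * (1 + σ)}.ncard : ℝ) ≤ (Q : ℝ) * (M : ℝ) ^ N := by
      refine hcd.trans ?_
      have h2 : (1 + M * (1 + σ)) ^ N ≤ (M * (2 + σ)) ^ N := by
        refine pow_le_pow_left₀ (by positivity) ?_ N
        linarith
      calc C * (1 + M * (1 + σ)) ^ N ≤ C * (M * (2 + σ)) ^ N :=
            mul_le_mul_of_nonneg_left h2 (by linarith)
        _ = Y * (M : ℝ) ^ N := by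
            rw [hY, mul_pow]
            ring
        _ ≤ Q * (M : ℝ) ^ N := mul_le_mul_of_nonneg_right hQY (by positivity)
    have h3 : {x : A | ν x ≤ M * (1 + σ)}.ncard ≤ Q * M ^ N := by exact_mod_cast h1
    refine lt_of_le_of_lt h3 ?_
    have h4 : M ^ N ≤ (M + 1) ^ N := Nat.pow_le_pow_left (Nat.le_succ M) N
    have h5 : 0 < (M + 1) ^ N := Nat.pow_pos (Nat.succ_pos M)
    calc Q * M ^ N ≤ Q * (M + 1) ^ N := Nat.mul_le_mul_left _ h4
      _ < (Q + 1) * (M + 1) ^ N := Nat.mul_lt_mul_of_pos_right (Nat.lt_succ_self Q) h5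
  have hmaps : ∀ z ∈ (Finset.univ : Finset (Fin (Q + 1) × (Fin N → Fin (M + 1)))),
      ((z.1 : ℕ) • a + ∑ i, ((z.2 i : ℕ)) • v i) ∈ hfin.toFinset := by
    rintro ⟨k, m⟩ -
    rw [Set.Finite.mem_toFinset]
    change ν ((k : ℕ) • a + ∑ i, ((m i : ℕ)) • v i) ≤ M * (1 + σ)
    have hk : ((k : ℕ) : ℝ) ≤ Q := by exact_mod_cast Nat.lt_succ_iff.1 k.2
    have h1 : ν ((k : ℕ) • a) ≤ M := by
      rw [hν.nsmul, hMr]
      exact mul_le_mul hk hRa (hν.nonneg a) (Nat.cast_nonneg Q)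
    have h2 : ν (∑ i, ((m i : ℕ)) • v i) ≤ M * σ := by
      refine (NF5_sum hν _ _).trans ?_
      rw [hσ, Finset.mul_sum]
      refine Finset.sum_le_sum fun i _ => ?_
      rw [hν.nsmul]
      refine mul_le_mul_of_nonneg_right ?_ (hν.nonneg _)
      exact_mod_cast Nat.lt_succ_iff.1 (m i).2
    have h3 := hν.add_le ((k : ℕ) • a) (∑ i, ((m i : ℕ)) • v i)
    linarith
  obtain ⟨z, -, z', -, hne, heq⟩ := Finset.exists_ne_map_eq_of_card_lt_of_maps_to hcount hmaps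
  obtain ⟨k, m⟩ := z
  obtain ⟨k', m'⟩ := z'
  simp only at heq
  have hbd : ∃ (q : ℕ) (c : Fin N → ℤ), 0 < q ∧ q • a = ∑ i, c i • v i ∧ q ≤ Q ∧
      ∀ i, |(c i : ℝ)| ≤ M := by
    rcases lt_trichotomy (k : ℕ) (k' : ℕ) with h | h | h
    · exact NF5_rel (m := fun i => (m' i : ℕ)) (m' := fun i => (m i : ℕ))
        (Nat.lt_succ_iff.1 k'.2) h (fun i => Nat.lt_succ_iff.1 (m' i).2)
        (fun i => Nat.lt_succ_iff.1 (m i).2) heq.symm
    · exfalso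
      rw [h] at heq
      have h1 := add_left_cancel heq
      have h2 : ∑ i, (((m i : ℕ) : ℤ) - ((m' i : ℕ) : ℤ)) • v i = 0 := by
        have h3 : ∑ i, (((m i : ℕ) : ℤ) - ((m' i : ℕ) : ℤ)) • v i =
            ∑ i, ((m i : ℕ)) • v i - ∑ i, ((m' i : ℕ)) • v i := by
          rw [← Finset.sum_sub_distrib]
          refine Finset.sum_congr rfl fun i _ => ?_
          rw [sub_smul, natCast_zsmul, natCast_zsmul]
        rw [h3, h1, sub_self]
      have h4 := Fintype.linearIndependent_iff.1 hv _ h2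
      apply hne
      have h5 : m = m' := by
        funext i
        have h6 := h4 i
        apply Fin.ext
        omega
      rw [h5, Fin.ext h]
    · exact NF5_rel (m := fun i => (m i : ℕ)) (m' := fun i => (m' i : ℕ))
        (Nat.lt_succ_iff.1 k.2) h (fun i => Nat.lt_succ_iff.1 (m i).2)
        (fun i => Nat.lt_succ_iff.1 (m' i).2) heq
  obtain ⟨q, c, hq, hqa, hqQ, hc⟩ := hbd
  refine ⟨q, c, hq, hqa, ?_, fun i => ?_⟩
  · have h1 : (q : ℝ) ≤ Q := by exact_mod_cast hqQ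
    rw [mul_assoc, ← hY]
    linarith
  · refine (hc i).trans ?_
    rw [hMr, mul_assoc 2 C, ← hY]
    exact mul_le_mul hQY2 hRa2 (Nat.cast_nonneg R) (by linarith)

end Pool.Agent.LibST91
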