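import Pool.Agent.LibST91.NF3
import Pool.Agent.LibST91.NF4
import Pool.Agent.LibST91.NF5
import Pool.Agent.LibST91.GN2

/-!
[ST NF6] Main theorem of the number field block.

PLAN. `s` = number of infinite places `≤ d`. `V = C √|D| (log 3|D|)^κ gη ≥ 1` of `count_lower`; `minkowski_two`
(with `gnorm_normLike`, `count_upper`, `count_lower`) gives independent `v_i ∈ Gam`, `∏ gnorm (v_i) ≤ 8^s V`. By
`count_upper` at `ρ = 1` every nonzero `v` has `gnorm v ≥ 1/(2^(s+1) C')` (multiples `k v`, `k ≤ 1/gnorm v`, are different),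
so `H_i = max 1 (gnorm v_i) ≤ 2^(s+1) C' gnorm v_i` and `∏ H_i ≤ C'' V`. `u_i, j_i` from `v_i ∈ Gam` (second
component `j_i`). `small_relation` for `a = (logv (gel η 1 1), 1)`: `q • a = ∑ c_i v_i`; second components:
`q = ∑ c_i j_i`; so `ζ = η^q / ∏ (u_i η^(j_i))^(c_i) = ∏ u_i^(-c_i)` is a unit, all `log v(ζ) = 0`, so
`ζ` is a root of unity (`NumberField.Units.mem_torsion`). `gnorm a = Gη η`; `∑ gnorm v_i ≤ s ∏ H_i`; bounds
of `q, c_i` by `(C |D| Gη)^κ` (note `√|D| ≤ |D|`, `log (3|D|) ≤ 3|D|`, `gη ≤ Gη`, `1 ≤ Gη`).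
-/

set_option autoImplicit false

namespace Pool.Agent.LibST91

open NumberField

private theorem NF6_min {A : Type} [AddCommGroup A] (ν : A → ℝ) (hν : NormLike ν) (N : ℕ) (C : ℝ)
    (hfin : {x : A | ν x ≤ 1}.Finite) (hcard : ({x : A | ν x ≤ 1}.ncard : ℝ) ≤ C * 2 ^ N)
    (x : A) (hx : 0 < ν x) : 1 ≤ C * 2 ^ N * ν x := by
  classical
  have h0 : ν 0 = 0 := by simpa using hν.nsmul 0 0
  have hinj : ∀ k l : ℕ, k < l → k • x = l • x → False := by
    intro k l hkl h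
    have h1 : (l - k) • x = 0 := by
      have h2 : (l - k) • x + k • x = l • x := by
        rw [← add_smul, Nat.sub_add_cancel hkl.le]
      rw [← h] at h2
      exact left_eq_add.1 (by rw [add_comm]; exact h2.symm)
    have h3 := hν.nsmul (l - k) x
    rw [h1, h0] at h3
    have h4 : (0 : ℝ) < ((l - k : ℕ) : ℝ) := by exact_mod_cast Nat.sub_pos_of_lt hkl
    have h5 : 0 < ((l - k : ℕ) : ℝ) * ν x := mul_pos h4 hx
    linarith
  have h1 : (Finset.range (⌊1 / ν x⌋₊ + 1)).card ≤ {x : A | ν x ≤ 1}.ncard := by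
    rw [Set.ncard_eq_toFinset_card _ hfin]
    refine Finset.card_le_card_of_injOn (fun k => k • x) ?_ ?_
    · intro k hk
      have hk' : k ≤ ⌊1 / ν x⌋₊ := by
        have := Finset.mem_range.1 (Finset.mem_coe.1 hk)
        omega
      have hk2 : (k : ℝ) ≤ 1 / ν x := (Nat.le_floor_iff (by positivity)).1 hk'
      rw [le_div_iff₀ hx] at hk2
      simp only [Set.Finite.coe_toFinset, Set.mem_ofPred_eq]
      rw [hν.nsmul]
      exact hk2
    · intro k _ l _ hkl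
      rcases lt_trichotomy k l with h | h | h
      · exact (hinj k l h hkl).elim
      · exact h
      · exact (hinj l k h hkl.symm).elim
  rw [Finset.card_range] at h1
  have h2 : 1 / ν x < (⌊1 / ν x⌋₊ : ℝ) + 1 := Nat.lt_floor_add_one _
  have h3 : ((⌊1 / ν x⌋₊ + 1 : ℕ) : ℝ) ≤ C * 2 ^ N :=
    (by exact_mod_cast h1 : ((⌊1 / ν x⌋₊ + 1 : ℕ) : ℝ) ≤ ({x : A | ν x ≤ 1}.ncard : ℝ)).trans hcard
  push_cast at h3
  have h4 : 1 / ν x ≤ C * 2 ^ N := by linarith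
  rwa [div_le_iff₀ hx] at h4

private theorem NF6_prod {s : ℕ} (H : Fin s → ℝ) (hH : ∀ i, 1 ≤ H i) (i : Fin s) :
    H i ≤ ∏ j, H j := by
  classical
  rw [← Finset.mul_prod_erase Finset.univ H (Finset.mem_univ i)]
  have h1 : 1 ≤ ∏ j ∈ Finset.univ.erase i, H j := by
    calc (1 : ℝ) = ∏ j ∈ Finset.univ.erase i, (1 : ℝ) := by simp
      _ ≤ _ := Finset.prod_le_prod (fun _ _ => zero_le_one) fun j _ => hH j
  have h2 : 0 ≤ H i := le_trans zero_le_one (hH i)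
  exact le_mul_of_one_le_right h2 h1

private theorem NF6_sum {s : ℕ} (H : Fin s → ℝ) (hH : ∀ i, 1 ≤ H i) :
    ∑ i, H i ≤ s * ∏ j, H j := by
  calc ∑ i, H i ≤ ∑ _i : Fin s, ∏ j, H j := Finset.sum_le_sum fun i _ => NF6_prod H hH i
    _ = s * ∏ j, H j := by simp

private theorem NF6_zpow {F : Type} [CommGroup F] (a : F) {s : ℕ} (f : Fin s → ℤ) :
    ∏ i, a ^ f i = a ^ ∑ i, f i := by
  classical
  have h : ∀ t : Finset (Fin s), ∏ i ∈ t, a ^ f i = a ^ ∑ i ∈ t, f i := by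
    intro t
    induction t using Finset.induction_on with
    | empty => simp
    | insert b t hb ih => rw [Finset.prod_insert hb, Finset.sum_insert hb, zpow_add, ih]
  exact h Finset.univ

private theorem NF6_r1 {X g Y G P C3 σ : ℝ} {s d κ : ℕ} (hX : 1 ≤ X) (hg : 1 ≤ g) (hgY : g ≤ Y)
    (hG : 0 ≤ G) (hGX : G ≤ 3 * X) (hC3 : 1 ≤ C3) (hP0 : 0 ≤ P) (hP : P ≤ C3 * √X * G ^ κ * g)
    (hσ : σ ≤ s * P) (hsd : s ≤ d) :
    2 + σ ≤ ((2 + d * C3 * 3 ^ κ) * X * Y) ^ (κ + 1) := by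
  have hX0 : 0 ≤ X := by linarith
  have hY : 1 ≤ Y := hg.trans hgY
  have hsq : √X ≤ X := (Real.sqrt_le_left hX0).2 (by nlinarith)
  have hGp : G ^ κ ≤ (3 * X) ^ κ := pow_le_pow_left₀ hG hGX κ
  have h1 : P ≤ C3 * X * (3 * X) ^ κ * Y := by
    refine hP.trans ?_
    gcongr
  have h2 : σ ≤ (d : ℝ) * (C3 * X * (3 * X) ^ κ * Y) := by
    refine hσ.trans ?_
    have : (s : ℝ) ≤ d := by exact_mod_cast hsd
    gcongr
  have hXκ : 1 ≤ X ^ (κ + 1) := one_le_pow₀ hX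
  have h3 : 2 + σ ≤ (2 + d * C3 * 3 ^ κ) * (X ^ (κ + 1) * Y) := by
    have e1 : (d : ℝ) * (C3 * X * (3 * X) ^ κ * Y) = (d * C3 * 3 ^ κ) * (X ^ (κ + 1) * Y) := by
      rw [mul_pow]
      ring
    have h4 : 1 ≤ X ^ (κ + 1) * Y := by nlinarith
    rw [add_mul, ← e1]
    linarith
  have hC4 : 1 ≤ 2 + d * C3 * 3 ^ κ := by
    have : 0 ≤ d * C3 * 3 ^ κ := by positivity
    linarith
  have h5 : 2 + (d : ℝ) * C3 * 3 ^ κ ≤ (2 + d * C3 * 3 ^ κ) ^ (κ + 1) :=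
    le_self_pow₀ hC4 (Nat.succ_ne_zero κ)
  have h6 : Y ≤ Y ^ (κ + 1) := le_self_pow₀ hY (Nat.succ_ne_zero κ)
  rw [mul_pow, mul_pow, mul_assoc]
  refine h3.trans ?_
  refine mul_le_mul h5 (mul_le_mul_of_nonneg_left h6 (by positivity)) (by positivity)
    (by positivity)

private theorem NF6_r2 {X Y C2 C4 C T : ℝ} {s d κ : ℕ} (hX : 1 ≤ X) (hY : 1 ≤ Y) (hC2 : 1 ≤ C2)
    (hC4 : 1 ≤ C4) (hC : C4 ≤ C) (hC' : 6 * C2 ≤ C) (hT0 : 0 ≤ T) (hsd : s ≤ d)
    (hT : T ≤ (C4 * X * Y) ^ (κ + 1)) :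
    2 * C2 * T ^ s ≤ (C * X * Y) ^ ((κ + 1) * d + 1 + κ) ∧
      2 * C2 * T ^ s * (Y + 2) ≤ (C * X * Y) ^ ((κ + 1) * d + 1 + κ) := by
  have hX0 : 0 < X := by linarith
  have hY0 : 0 < Y := by linarith
  have hC41 : 0 < C4 := by linarith
  have hCl : 1 ≤ C := hC4.trans hC
  have hC0 : 0 < C := by linarith
  have hCXY : 1 ≤ C * X * Y := by
    have h1 : 1 ≤ C * X := by nlinarith
    nlinarith
  have hT1 : T ^ s ≤ (C * X * Y) ^ ((κ + 1) * d) := by
    have h1 : T ≤ (C * X * Y) ^ (κ + 1) := by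
      refine hT.trans (pow_le_pow_left₀ (by positivity) ?_ _)
      gcongr
    calc T ^ s ≤ ((C * X * Y) ^ (κ + 1)) ^ s := pow_le_pow_left₀ hT0 h1 s
      _ ≤ ((C * X * Y) ^ (κ + 1)) ^ d := pow_le_pow_right₀ (one_le_pow₀ hCXY) hsd
      _ = (C * X * Y) ^ ((κ + 1) * d) := by rw [← pow_mul]
  have h2 : 2 * C2 * (Y + 2) ≤ C * X * Y := by
    have h3 : 2 * C2 * (Y + 2) ≤ 2 * C2 * (3 * Y) := by
      refine mul_le_mul_of_nonneg_left ?_ (by positivity)
      linarith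
    have h4 : 6 * C2 * Y ≤ C * Y := mul_le_mul_of_nonneg_right hC' hY0.le
    have h5 : C * Y ≤ C * X * Y := by
      have : C * Y * 1 ≤ C * Y * X := mul_le_mul_of_nonneg_left hX (by positivity)
      linarith [mul_right_comm C Y X]
    linarith
  have h6 : 2 * C2 * T ^ s * (Y + 2) ≤ (C * X * Y) ^ ((κ + 1) * d + 1 + κ) := by
    calc 2 * C2 * T ^ s * (Y + 2) = T ^ s * (2 * C2 * (Y + 2)) := by ring
      _ ≤ (C * X * Y) ^ ((κ + 1) * d) * (C * X * Y) :=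
          mul_le_mul hT1 h2 (by positivity) (by positivity)
      _ = (C * X * Y) ^ ((κ + 1) * d + 1) := (pow_succ _ _).symm
      _ ≤ (C * X * Y) ^ ((κ + 1) * d + 1 + κ) := pow_le_pow_right₀ hCXY (Nat.le_add_right _ _)
  refine ⟨?_, h6⟩
  refine le_trans ?_ h6
  have h7 : 0 ≤ 2 * C2 * T ^ s := by positivity
  exact le_mul_of_one_le_right h7 (by linarith)

private theorem NF6_gmem {K : Type} [Field K] [NumberField K] (η : 𝓞 K) (hη : η ≠ 0) :
    ((logv (gel η 1 1), (1 : ℤ)) : (InfinitePlace K → ℝ) × ℤ) ∈ Gam η hη := ⟨1, rfl⟩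

/-- The relation gives the root of unity. -/
private theorem NF6_alg {K : Type} [Field K] [NumberField K] (η : 𝓞 K) (hη : η ≠ 0) {s : ℕ}
    (u : Fin s → (𝓞 K)ˣ) (j : Fin s → ℤ) (q : ℕ) (c : Fin s → ℤ)
    (h2 : (q : ℤ) = ∑ i, c i * j i)
    (h1 : ∀ w : InfinitePlace K, (q : ℝ) * Real.log (w (gel η 1 1)) =
      ∑ i, (c i : ℝ) * Real.log (w (gel η (u i) (j i)))) :
    ∃ ζ : (𝓞 K)ˣ, (∃ m : ℕ, 0 < m ∧ ζ ^ m = 1) ∧
      (η : K) ^ q = ((ζ : 𝓞 K) : K) * ∏ i, gel η (u i) (j i) ^ c i := by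
  classical
  have hη' : ((η : 𝓞 K) : K) ≠ 0 := by simpa using hη
  let φ : (𝓞 K)ˣ →* Kˣ := Units.map (algebraMap (𝓞 K) K).toMonoidHom
  have hφ : ∀ x : (𝓞 K)ˣ, ((φ x : Kˣ) : K) = ((x : 𝓞 K) : K) := fun x => rfl
  let e : Kˣ := Units.mk0 ((η : 𝓞 K) : K) hη'
  have hgel : ∀ i, ((φ (u i) * e ^ j i : Kˣ) : K) = gel η (u i) (j i) := by
    intro i
    rw [Units.val_mul, Units.val_zpow_eq_zpow_val, hφ]
    rfl
  set ζ : (𝓞 K)ˣ := (∏ i, u i ^ c i)⁻¹ with hζ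
  have hid : e ^ q = φ ζ * ∏ i, (φ (u i) * e ^ j i) ^ c i := by
    have e1 : ∏ i, (φ (u i) * e ^ j i) ^ c i = φ (∏ i, u i ^ c i) * e ^ (∑ i, c i * j i) := by
      rw [map_prod, ← NF6_zpow, ← Finset.prod_mul_distrib]
      refine Finset.prod_congr rfl fun i _ => ?_
      rw [mul_zpow, map_zpow, ← zpow_mul, mul_comm (j i) (c i)]
    rw [e1, hζ, map_inv, inv_mul_cancel_left, ← h2, zpow_natCast]
  have hidK : (η : K) ^ q = ((ζ : 𝓞 K) : K) * ∏ i, gel η (u i) (j i) ^ c i := by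
    have h3 := congrArg (fun x : Kˣ => (x : K)) hid
    simp only [Units.val_mul, Units.val_pow_eq_pow_val, Units.coe_prod,
      Units.val_zpow_eq_zpow_val] at h3
    rw [hφ] at h3
    rw [show ((e : Kˣ) : K) = ((η : 𝓞 K) : K) from rfl] at h3
    rw [h3]
    congr 1
  refine ⟨ζ, ?_, hidK⟩
  have htor : ζ ∈ NumberField.Units.torsion K := by
    rw [NumberField.Units.mem_torsion]
    intro w
    have hζ0 : w ((ζ : 𝓞 K) : K) ≠ 0 := by
      rw [map_ne_zero]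
      simp
    have hg0 : ∀ i, w (gel η (u i) (j i)) ≠ 0 := by
      intro i
      rw [map_ne_zero, ← hgel i]
      exact Units.ne_zero _
    have h4 := congrArg (fun x : K => Real.log (w x)) hidK
    simp only [map_pow, map_mul, map_prod, map_zpow₀] at h4
    rw [Real.log_pow, Real.log_mul hζ0 (Finset.prod_ne_zero_iff.2 fun i _ =>
      zpow_ne_zero _ (hg0 i)), Real.log_prod fun i _ => zpow_ne_zero _ (hg0 i)] at h4
    simp only [Real.log_zpow] at h4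
    have h5 := h1 w
    have h6 : gel η 1 1 = ((η : 𝓞 K) : K) := by
      simp [gel]
    rw [h6] at h5
    have h7 : Real.log (w ((ζ : 𝓞 K) : K)) = 0 := by linarith
    have h8 : 0 < w ((ζ : 𝓞 K) : K) := lt_of_le_of_ne (apply_nonneg w _) hζ0.symm
    rw [← Real.exp_log h8, h7, Real.exp_zero]
  have hfo : IsOfFinOrder ζ := (CommGroup.mem_torsion ζ).1 htor
  obtain ⟨m, hm, hm'⟩ := isOfFinOrder_iff_pow_eq_one.1 hfo
  exact ⟨m, hm, hm'⟩

theorem nf_main (d : ℕ) : ∃ C : ℝ, 1 ≤ C ∧ ∃ κ : ℕ, ∀ (K : Type) [Field K] [NumberField K],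
    Module.finrank ℚ K = d → ∀ η : 𝓞 K, η ≠ 0 →
    ∃ s : ℕ, s ≤ d ∧ ∃ (u : Fin s → (𝓞 K)ˣ) (j : Fin s → ℤ) (H : Fin s → ℝ) (q : ℕ)
      (c : Fin s → ℤ) (ζ : (𝓞 K)ˣ), 0 < q ∧ (∃ m : ℕ, 0 < m ∧ ζ ^ m = 1) ∧
      (η : K) ^ q = ((ζ : 𝓞 K) : K) * ∏ i, gel η (u i) (j i) ^ c i ∧
      (∀ i, 1 ≤ H i) ∧
      (∀ (i : Fin s) (v : InfinitePlace K), |Real.log (v (gel η (u i) (j i)))| ≤ H i) ∧
      (∀ i, |(j i : ℝ)| * gη η ≤ H i) ∧
      ∏ i, H i ≤ C * √|(discr K : ℝ)| * Real.log (3 * |(discr K : ℝ)|) ^ κ * gη η ∧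
      (q : ℝ) ≤ (C * |(discr K : ℝ)| * Gη η) ^ κ ∧
      ∀ i, |(c i : ℝ)| ≤ (C * |(discr K : ℝ)| * Gη η) ^ κ := by
  classical
  obtain ⟨C1, hC1, κ1, H1⟩ := count_lower d
  obtain ⟨C2, hC2, H2⟩ := count_upper d
  have hC2d : 1 ≤ C2 * 2 ^ d := by
    have : (1 : ℝ) ≤ 2 ^ d := one_le_pow₀ (by norm_num)
    nlinarith
  have hC3 : 1 ≤ (C2 * 2 ^ d) ^ d * 8 ^ d * C1 := by
    have h1 : 1 ≤ (C2 * 2 ^ d) ^ d := one_le_pow₀ hC2d
    have h2 : (1 : ℝ) ≤ 8 ^ d := one_le_pow₀ (by norm_num)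
    have h3 : 1 ≤ (C2 * 2 ^ d) ^ d * 8 ^ d := one_le_mul_of_one_le_of_one_le h1 h2
    exact one_le_mul_of_one_le_of_one_le h3 hC1
  set C3 : ℝ := (C2 * 2 ^ d) ^ d * 8 ^ d * C1 with hC3def
  have hC4 : 1 ≤ 2 + d * C3 * 3 ^ κ1 := by
    have : 0 ≤ d * C3 * 3 ^ κ1 := by positivity
    linarith
  set C4 : ℝ := 2 + d * C3 * 3 ^ κ1 with hC4def
  have h6C2 : 1 ≤ 6 * C2 := by linarith
  set C : ℝ := C3 * C4 * (6 * C2) with hCdef
  have hC34 : 1 ≤ C3 * C4 := one_le_mul_of_one_le_of_one_le hC3 hC4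
  have hCC : 1 ≤ C := one_le_mul_of_one_le_of_one_le hC34 h6C2
  have hCC3 : C3 ≤ C := by
    rw [hCdef, mul_assoc]
    exact le_mul_of_one_le_right (by linarith) (one_le_mul_of_one_le_of_one_le hC4 h6C2)
  have hCC4 : C4 ≤ C := by
    rw [hCdef, mul_comm C3 C4, mul_assoc]
    exact le_mul_of_one_le_right (by linarith) (one_le_mul_of_one_le_of_one_le hC3 h6C2)
  have hCC2 : 6 * C2 ≤ C := by
    rw [hCdef]
    exact le_mul_of_one_le_left (by linarith) hC34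
  refine ⟨C, hCC, (κ1 + 1) * d + 1 + κ1, ?_⟩
  intro K _ _ hK η hη
  have hsd : Fintype.card (InfinitePlace K) ≤ d := by
    have h1 := InfinitePlace.card_eq_nrRealPlaces_add_nrComplexPlaces (K := K)
    have h2 := InfinitePlace.card_add_two_mul_card_eq_rank K
    omega
  have hs1 : 1 ≤ Fintype.card (InfinitePlace K) := Fintype.card_pos
  have hX : (1 : ℝ) ≤ |(discr K : ℝ)| := by
    have h1 : discr K ≠ 0 := discr_ne_zero K
    have h2 : (1 : ℤ) ≤ |discr K| := Int.one_le_abs h1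
    exact_mod_cast h2
  have hg : 1 ≤ gη η := le_max_left _ _
  have hlog1 : 1 ≤ Real.log (3 * |(discr K : ℝ)|) := by
    rw [Real.le_log_iff_exp_le (by linarith)]
    have := Real.exp_one_lt_d9
    linarith
  have hlogX : Real.log (3 * |(discr K : ℝ)|) ≤ 3 * |(discr K : ℝ)| := Real.log_le_self (by linarith)
  have hsqrt1 : 1 ≤ √|(discr K : ℝ)| := Real.one_le_sqrt.2 hX
  have hgY : gη η ≤ Gη η := by
    unfold Gη
    have : 0 ≤ ∑ v : InfinitePlace K, |Real.log (v (η : K))| :=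
      Finset.sum_nonneg fun v _ => abs_nonneg _
    linarith
  have hV : 1 ≤ C1 * √|(discr K : ℝ)| * Real.log (3 * |(discr K : ℝ)|) ^ κ1 * gη η :=
    one_le_mul_of_one_le_of_one_le (one_le_mul_of_one_le_of_one_le
      (one_le_mul_of_one_le_of_one_le hC1 hsqrt1) (one_le_pow₀ hlog1)) hg
  have hν := gnorm_normLike η hη
  have hfin : ∀ ρ : ℝ, {a : Gam η hη | gnorm a ≤ ρ}.Finite := by
    intro ρ
    refine (H2 K hK η hη (max ρ 0) (le_max_right _ _)).1.subset fun a ha => ?_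
    exact le_trans (show gnorm a ≤ ρ from ha) (le_max_left ρ 0)
  have hcount := H1 K hK η hη (hfin 1) hfin
  obtain ⟨v, hvli, hvpos, hvprod⟩ := minkowski_two (fun a : Gam η hη => gnorm a) hν
    (Fintype.card (InfinitePlace K)) hs1 _ hV hfin hcount
  have hcard1 : ({a : Gam η hη | gnorm a ≤ 1}.ncard : ℝ) ≤
      C2 * 2 ^ (Fintype.card (InfinitePlace K)) := by
    have := (H2 K hK η hη 1 zero_le_one).2
    rwa [show (1 : ℝ) + 1 = 2 by norm_num] at this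
  have hmin : ∀ i, 1 ≤ C2 * 2 ^ (Fintype.card (InfinitePlace K)) * gnorm (v i) := fun i =>
    NF6_min (fun a : Gam η hη => gnorm a) hν _ C2 (hfin 1) hcard1 (v i) (hvpos i)
  have hmin' : ∀ i, 1 ≤ C2 * 2 ^ d * gnorm (v i) := by
    intro i
    refine (hmin i).trans ?_
    refine mul_le_mul_of_nonneg_right ?_ (hvpos i).le
    refine mul_le_mul_of_nonneg_left ?_ (by linarith)
    exact pow_le_pow_right₀ (by norm_num) hsd
  have hH : ∀ i, max 1 (gnorm (v i)) ≤ C2 * 2 ^ d * gnorm (v i) := fun i =>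
    max_le (hmin' i) (le_mul_of_one_le_left (hvpos i).le hC2d)
  have hH1 : ∀ i, 1 ≤ max 1 (gnorm (v i)) := fun i => le_max_left _ _
  have hPr : ∏ i, max 1 (gnorm (v i)) ≤
      C3 * √|(discr K : ℝ)| * Real.log (3 * |(discr K : ℝ)|) ^ κ1 * gη η := by
    calc ∏ i, max 1 (gnorm (v i)) ≤ ∏ i, (C2 * 2 ^ d * gnorm (v i)) :=
          Finset.prod_le_prod (fun i _ => le_trans zero_le_one (hH1 i)) fun i _ => hH i
      _ = (C2 * 2 ^ d) ^ (Fintype.card (InfinitePlace K)) * ∏ i, gnorm (v i) := by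
          rw [Finset.prod_mul_distrib, Finset.prod_const, Finset.card_univ, Fintype.card_fin]
      _ ≤ (C2 * 2 ^ d) ^ d * (8 ^ d * (C1 * √|(discr K : ℝ)| *
            Real.log (3 * |(discr K : ℝ)|) ^ κ1 * gη η)) := by
          refine mul_le_mul (pow_le_pow_right₀ hC2d hsd) ?_
            (Finset.prod_nonneg fun i _ => (hvpos i).le) (by positivity)
          refine hvprod.trans ?_
          refine mul_le_mul_of_nonneg_right ?_ (by linarith)
          exact pow_le_pow_right₀ (by norm_num) hsd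
      _ = C3 * √|(discr K : ℝ)| * Real.log (3 * |(discr K : ℝ)|) ^ κ1 * gη η := by
          rw [hC3def]
          ring
  have hmem : ∀ i, ∃ u : (𝓞 K)ˣ, ((v i : Gam η hη) : (InfinitePlace K → ℝ) × ℤ).1 =
      logv (gel η u ((v i : Gam η hη) : (InfinitePlace K → ℝ) × ℤ).2) := fun i => (v i).2
  choose u hu using hmem
  have hcard2 : ∀ ρ : ℝ, 0 ≤ ρ → {x : Gam η hη | (fun a : Gam η hη => gnorm a) x ≤ ρ}.Finite ∧
      ({x : Gam η hη | (fun a : Gam η hη => gnorm a) x ≤ ρ}.ncard : ℝ) ≤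
        C2 * (1 + ρ) ^ (Fintype.card (InfinitePlace K)) := fun ρ hρ => H2 K hK η hη ρ hρ
  obtain ⟨q, c, hq, hrel, hqb, hcb⟩ := small_relation (fun a : Gam η hη => gnorm a) hν
    (Fintype.card (InfinitePlace K)) C2 hC2 hcard2 v hvli ⟨_, NF6_gmem η hη⟩
  have hga : gnorm (⟨_, NF6_gmem η hη⟩ : Gam η hη) = Gη η := by
    unfold gnorm Gη
    simp [logv, gel]
  -- the two components of the relation
  have hsnd : (q : ℤ) = ∑ i, c i * ((v i : Gam η hη) : (InfinitePlace K → ℝ) × ℤ).2 := by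
    have h1 := congrArg ((AddMonoidHom.snd (InfinitePlace K → ℝ) ℤ).comp (Gam η hη).subtype) hrel
    rw [map_nsmul, map_sum] at h1
    simp only [map_zsmul, AddMonoidHom.comp_apply, AddMonoidHom.coe_snd,
      AddSubgroup.subtype_apply] at h1
    simpa using h1
  have hfst : ∀ w : InfinitePlace K, (q : ℝ) * Real.log (w (gel η 1 1)) =
      ∑ i, (c i : ℝ) * Real.log (w (gel η (u i)
        ((v i : Gam η hη) : (InfinitePlace K → ℝ) × ℤ).2)) := by
    intro w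
    have h1 := congrArg (((Pi.evalAddMonoidHom (fun _ : InfinitePlace K => ℝ) w).comp
      (AddMonoidHom.fst (InfinitePlace K → ℝ) ℤ)).comp (Gam η hη).subtype) hrel
    rw [map_nsmul, map_sum] at h1
    simp only [map_zsmul, AddMonoidHom.comp_apply, AddMonoidHom.coe_fst,
      AddSubgroup.subtype_apply, Pi.evalAddMonoidHom_apply] at h1
    rw [nsmul_eq_mul] at h1
    have h2 : (q : ℝ) * Real.log (w (gel η 1 1)) =
        ∑ i, c i • ((v i : Gam η hη) : (InfinitePlace K → ℝ) × ℤ).1 w := h1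
    rw [h2]
    refine Finset.sum_congr rfl fun i _ => ?_
    rw [hu i, zsmul_eq_mul]
    rfl
  obtain ⟨ζ, hζ, hid⟩ := NF6_alg η hη u
    (fun i => ((v i : Gam η hη) : (InfinitePlace K → ℝ) × ℤ).2) q c hsnd hfst
  have hP0 : 0 ≤ ∏ i, max 1 (gnorm (v i)) :=
    Finset.prod_nonneg fun i _ => le_trans zero_le_one (hH1 i)
  have hσ : ∑ i, gnorm (v i) ≤ (Fintype.card (InfinitePlace K) : ℝ) *
      ∏ i, max 1 (gnorm (v i)) :=
    (Finset.sum_le_sum fun i _ => le_max_right 1 (gnorm (v i))).trans (NF6_sum _ hH1)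
  have hT := NF6_r1 (κ := κ1) hX hg hgY (by linarith) hlogX hC3 hP0 hPr hσ hsd
  have hσ0 : 0 ≤ ∑ i, gnorm (v i) := Finset.sum_nonneg fun i _ => (hvpos i).le
  obtain ⟨hb1, hb2⟩ := NF6_r2 (C2 := C2) (C := C) (κ := κ1) hX (hg.trans hgY) hC2 hC4 hCC4 hCC2
    (by linarith) hsd hT
  refine ⟨Fintype.card (InfinitePlace K), hsd, u,
    fun i => ((v i : Gam η hη) : (InfinitePlace K → ℝ) × ℤ).2, fun i => max 1 (gnorm (v i)),
    q, c, ζ, hq, hζ, hid, hH1, ?_, ?_, ?_, ?_, ?_⟩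
  · intro i w
    refine le_trans ?_ (le_max_right _ _)
    have h1 : Real.log (w (gel η (u i) ((v i : Gam η hη) : (InfinitePlace K → ℝ) × ℤ).2)) =
        ((v i : Gam η hη) : (InfinitePlace K → ℝ) × ℤ).1 w := by
      rw [hu i]
      rfl
    rw [h1]
    unfold gnorm
    have h2 := Finset.single_le_sum
      (f := fun w : InfinitePlace K => |((v i : Gam η hη) : (InfinitePlace K → ℝ) × ℤ).1 w|)
      (fun w _ => abs_nonneg _) (Finset.mem_univ w)
    have h3 : 0 ≤ |((((v i : Gam η hη) : (InfinitePlace K → ℝ) × ℤ).2 : ℤ) : ℝ)| * gη η := by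
      have : 0 ≤ gη η := by linarith
      positivity
    linarith
  · intro i
    refine le_trans ?_ (le_max_right _ _)
    unfold gnorm
    have h2 : 0 ≤ ∑ w : InfinitePlace K, |((v i : Gam η hη) : (InfinitePlace K → ℝ) × ℤ).1 w| :=
      Finset.sum_nonneg fun w _ => abs_nonneg _
    linarith
  · refine hPr.trans ?_
    have h1 : Real.log (3 * |(discr K : ℝ)|) ^ κ1 ≤
        Real.log (3 * |(discr K : ℝ)|) ^ ((κ1 + 1) * d + 1 + κ1) :=
      pow_le_pow_right₀ hlog1 (by omega)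
    have h2 : 0 ≤ gη η := by linarith
    have h3 : 0 ≤ Real.log (3 * |(discr K : ℝ)|) := by linarith
    gcongr
  · exact hqb.trans hb1
  · intro i
    have h1 := hcb i
    rw [hga] at h1
    exact h1.trans hb2

end Pool.Agent.LibST91
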