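import Mathlib

/-!
# Definitions for the lower bound for linear forms in logarithms and for the bound of the integral
points by the square root of the discriminant
-/

set_option autoImplicit false

namespace Pool.Agent.LibST91

open scoped BigOperators

/-- Admissible data: `α` is a nonzero element of the number field `L` with `exp ℓ = σ₀ α`, and
`h ≥ 1` is a bound for `|ℓ|`, for the logarithms of the absolute values of all conjugates of `α`
and for the logarithm of a common denominator of `α` and `α⁻¹`. -/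
structure Adm {L : Type} [Field L] [NumberField L] (σ₀ : L →+* ℂ) (α : L) (ℓ : ℂ) (h : ℝ) :
    Prop where
  ne : α ≠ 0
  exp_eq : Complex.exp ℓ = σ₀ α
  one_le : 1 ≤ h
  norm_le : ‖ℓ‖ ≤ h
  conj : ∀ σ : L →+* ℂ, |Real.log ‖σ α‖| ≤ h
  den : ∃ m : ℕ, 0 < m ∧ Real.log (m : ℝ) ≤ h ∧ IsIntegral ℤ ((m : L) * α) ∧
    IsIntegral ℤ ((m : L) * α⁻¹)

/-- The lower bound for linear forms in `N` logarithms. -/
def Baker (N : ℕ) : Prop := ∀ d : ℕ, ∃ C : ℝ, 0 < C ∧ ∃ κ : ℕ,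
  ∀ (L : Type) [Field L] [NumberField L], Module.finrank ℚ L ≤ d →
  ∀ (σ₀ : L →+* ℂ) (α : Fin N → L) (ℓ : Fin N → ℂ) (h : Fin N → ℝ),
  (∀ i, Adm σ₀ (α i) (ℓ i) (h i)) →
  ∀ (b : Fin N → ℤ) (B : ℝ), 3 ≤ B → (∀ i, |(b i : ℝ)| ≤ B) →
  (∑ i, (b i : ℂ) * ℓ i) ≠ 0 →
  Real.exp (-(C * (∏ i, h i) * Real.log (B * ∏ i, h i) ^ κ)) ≤ ‖∑ i, (b i : ℂ) * ℓ i‖

/-- A function which behaves like the restriction of a norm to a subgroup. -/
structure NormLike {A : Type} [AddCommGroup A] (ν : A → ℝ) : Prop where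
  nonneg : ∀ x, 0 ≤ ν x
  eq_zero : ∀ x, ν x = 0 → x = 0
  neg : ∀ x, ν (-x) = ν x
  add_le : ∀ x y, ν (x + y) ≤ ν x + ν y
  nsmul : ∀ (n : ℕ) (x : A), ν (n • x) = n * ν x

/-- The weighted sum of the absolute values of the coefficients. -/
noncomputable def mnorm {n : ℕ} (r : Fin n → ℝ) (P : MvPolynomial (Fin n) ℂ) : ℝ :=
  ∑ ν ∈ P.support, ‖P.coeff ν‖ * ∏ i, r i ^ ν i

/-- The index set of the unknown coefficients. -/
abbrev Idx (n K L : ℕ) : Type := (Fin n → Fin K) × Fin L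

/-- The auxiliary function. -/
noncomputable def auxF {n K L : ℕ} (ℓ : Fin n → ℂ) (p : Idx n K L → ℤ) (z : Fin n → ℂ) : ℂ :=
  ∑ a : Idx n K L, (p a : ℂ) * (∏ i, z i ^ (a.1 i : ℕ)) *
    Complex.exp (((a.2 : ℕ) : ℂ) * ∑ i, z i * ℓ i)

/-- The points: the projection of `s` along `b` (the last coordinate of `b` is not zero). -/
noncomputable def zpt {n : ℕ} (F : Type) [Field F] (b : Fin (n + 1) → ℤ) (s : Fin (n + 1) → ℤ)
    (i : Fin n) : F :=
  (s i.castSucc : F) - (s (Fin.last n) : F) * (b i.castSucc : F) / (b (Fin.last n) : F)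

/-- The algebraic numbers of the construction. -/
noncomputable def auxA {n K L : ℕ} {F : Type} [Field F] (α : Fin (n + 1) → F)
    (b : Fin (n + 1) → ℤ) (p : Idx n K L → ℤ) (s : Fin (n + 1) → ℤ) : F :=
  ∑ a : Idx n K L, (p a : F) * (∏ i, zpt F b s i ^ (a.1 i : ℕ)) *
    (∏ i, α i ^ s i) ^ (a.2 : ℕ)

end Pool.Agent.LibST91
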