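import Pool.Agent.LibST91.NFDefs

/-!
[ST TH2] Admissible data for quotients of conjugates of `u η^j`.

PLAN. `γ = gel η u j`, `α = τ γ / τ' γ`, `ℓ = Complex.log (σ₀ α)`. For every embedding `σ` of `L`: `|log ‖σ (τ γ)‖| ≤ H`
(`σ.comp τ` is an embedding of `K`, its absolute value is the place `InfinitePlace.mk`), so `|log ‖σ α‖| ≤ 2H`;
`‖ℓ‖ ≤ |log ‖σ₀ α‖| + |arg| ≤ 2H + π ≤ 6H`. Denominator `m = |N η|^|j|` (`log m ≤ |j| gη ≤ H`): `N η = η * η'` with
`η' ∈ 𝓞 K` (up to sign; the norm is divisible by the element, e.g. `Ideal.absNorm_mem`/`Algebra.norm`), so both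
`m^(..) * γ` and `m * γ⁻¹` are integral: for `j ≥ 0` `γ` is integral and `m γ⁻¹ = ± u⁻¹ η'^j`; for `j < 0` the other way
round; in each case `m * τ γ * (τ' γ)⁻¹` is integral.
`adm_inv`-type facts are not needed. `adm_root`: for `ζ^m = 1`: all absolute values are 1, `ζ` and `ζ⁻¹` integral.
`adm_one`: `α = 1`, `ℓ = 2πi`, `h = 7`.
-/

set_option autoImplicit false

namespace Pool.Agent.LibST91

open NumberField

private theorem TH2_log {L : Type} [Field L] (σ₀ : L →+* ℂ) {α : L} (hα : α ≠ 0) {R : ℝ}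
    (hR : |Real.log ‖σ₀ α‖| ≤ R) : Complex.exp (Complex.log (σ₀ α)) = σ₀ α ∧
      ‖Complex.log (σ₀ α)‖ ≤ R + 4 := by
  have h0 : σ₀ α ≠ 0 := by
    rw [ne_eq, map_eq_zero]
    exact hα
  refine ⟨Complex.exp_log h0, ?_⟩
  have h1 := Complex.norm_le_abs_re_add_abs_im (Complex.log (σ₀ α))
  rw [Complex.log_re, Complex.log_im] at h1
  have h2 := Complex.abs_arg_le_pi (σ₀ α)
  have h3 := Real.pi_le_four
  linarith

private theorem TH2_dvd {K : Type} [Field K] [NumberField K] (η : 𝓞 K) :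
    ∃ η' : 𝓞 K, (((Algebra.norm ℤ η).natAbs : ℕ) : 𝓞 K) = η * η' := by
  have h1 := Ideal.absNorm_mem (Ideal.span {η})
  rw [Ideal.absNorm_span_singleton] at h1
  exact Ideal.mem_span_singleton.1 h1

private theorem TH2_den {K : Type} [Field K] [NumberField K] (η : 𝓞 K) (hη : η ≠ 0)
    (u : (𝓞 K)ˣ) (k : ℕ) :
    IsIntegral ℤ (((u : 𝓞 K) : K) * ((η : 𝓞 K) : K) ^ k) ∧
      IsIntegral ℤ (((((Algebra.norm ℤ η).natAbs ^ k : ℕ) : K)) *
        (((u : 𝓞 K) : K) * ((η : 𝓞 K) : K) ^ k)⁻¹) := by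
  have hη' : ((η : 𝓞 K) : K) ≠ 0 := by simpa using hη
  obtain ⟨η', h⟩ := TH2_dvd η
  have hK : (((Algebra.norm ℤ η).natAbs : ℕ) : K) = ((η : 𝓞 K) : K) * ((η' : 𝓞 K) : K) := by
    have := congrArg (fun x : 𝓞 K => (x : K)) h
    push_cast at this
    exact this
  have hu : (((u : 𝓞 K) : K))⁻¹ = (((u⁻¹ : (𝓞 K)ˣ) : 𝓞 K) : K) := by
    symm
    apply eq_inv_of_mul_eq_one_left
    rw [← map_mul, ← Units.val_mul, inv_mul_cancel]
    simp
  constructor
  · have : ((u : 𝓞 K) : K) * ((η : 𝓞 K) : K) ^ k = (((u : 𝓞 K) * η ^ k : 𝓞 K) : K) := by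
      push_cast
      rfl
    rw [this]
    exact RingOfIntegers.isIntegral_coe _
  · have : ((((Algebra.norm ℤ η).natAbs ^ k : ℕ) : K)) *
        (((u : 𝓞 K) : K) * ((η : 𝓞 K) : K) ^ k)⁻¹ =
        (((((u⁻¹ : (𝓞 K)ˣ) : 𝓞 K)) * η' ^ k : 𝓞 K) : K) := by
      rw [mul_inv, hu]
      push_cast
      rw [hK, mul_pow]
      field_simp
    rw [this]
    exact RingOfIntegers.isIntegral_coe _

theorem adm_gel {K : Type} [Field K] [NumberField K] {L : Type} [Field L] [NumberField L]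
    (σ₀ : L →+* ℂ) (τ τ' : K →+* L) (η : 𝓞 K) (hη : η ≠ 0) (u : (𝓞 K)ˣ) (j : ℤ) (H : ℝ)
    (hH : 1 ≤ H) (hv : ∀ v : InfinitePlace K, |Real.log (v (gel η u j))| ≤ H)
    (hj : |(j : ℝ)| * gη η ≤ H) :
    ∃ ℓ : ℂ, Adm σ₀ (τ (gel η u j) / τ' (gel η u j)) ℓ (6 * H) := by
  have hη' : ((η : 𝓞 K) : K) ≠ 0 := by simpa using hη
  have hu' : ((u : 𝓞 K) : K) ≠ 0 := by simp
  have hγ : gel η u j ≠ 0 := mul_ne_zero hu' (zpow_ne_zero _ hη')
  have hτ : τ (gel η u j) ≠ 0 := by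
    rw [ne_eq, map_eq_zero]
    exact hγ
  have hτ' : τ' (gel η u j) ≠ 0 := by
    rw [ne_eq, map_eq_zero]
    exact hγ
  have hα : τ (gel η u j) / τ' (gel η u j) ≠ 0 := div_ne_zero hτ hτ'
  -- absolute values
  have habs : ∀ (σ : L →+* ℂ) (ρ : K →+* L), |Real.log ‖σ (ρ (gel η u j))‖| ≤ H := by
    intro σ ρ
    have h1 := hv (InfinitePlace.mk (σ.comp ρ))
    rw [InfinitePlace.apply] at h1
    exact h1
  have hconj : ∀ σ : L →+* ℂ, |Real.log ‖σ (τ (gel η u j) / τ' (gel η u j))‖| ≤ 2 * H := by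
    intro σ
    rw [map_div₀, norm_div, Real.log_div]
    · have h1 := habs σ τ
      have h2 := habs σ τ'
      rw [abs_le] at h1 h2 ⊢
      constructor <;> linarith [h1.1, h1.2, h2.1, h2.2]
    · rw [norm_ne_zero_iff, ne_eq, map_eq_zero]
      exact hτ
    · rw [norm_ne_zero_iff, ne_eq, map_eq_zero]
      exact hτ'
  obtain ⟨hexp, hnorm⟩ := TH2_log σ₀ hα (hconj σ₀)
  -- denominator
  set m : ℕ := (Algebra.norm ℤ η).natAbs ^ j.natAbs with hm
  have hN0 : 0 < (Algebra.norm ℤ η).natAbs := by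
    rw [Int.natAbs_pos]
    rw [ne_eq, Algebra.norm_eq_zero_iff]
    exact hη
  have hm0 : 0 < m := pow_pos hN0 _
  have hlogm : Real.log (m : ℝ) ≤ H := by
    rw [hm]
    push_cast
    rw [Real.log_pow]
    refine le_trans ?_ hj
    have h1 : ((j.natAbs : ℕ) : ℝ) = |(j : ℝ)| := by
      rw [Nat.cast_natAbs]
      push_cast
      rfl
    rw [h1]
    refine mul_le_mul_of_nonneg_left ?_ (abs_nonneg _)
    unfold gη
    refine le_trans (le_of_eq ?_) (le_max_right _ _)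
    first
      | rfl
      | (congr 1; rw [Nat.cast_natAbs]; push_cast; rfl)
  have hmap : ∀ (ρ : K →+* L) {x : K}, IsIntegral ℤ x → IsIntegral ℤ (ρ x) := by
    intro ρ x hx
    exact map_isIntegral_int ρ hx
  have hcast : ∀ ρ : K →+* L, ρ (m : K) = (m : L) := fun ρ => map_natCast ρ m
  have hden : ∀ ρ ρ' : K →+* L,
      IsIntegral ℤ ((m : L) * (ρ (gel η u j) / ρ' (gel η u j))) := by
    intro ρ ρ'
    rcases Int.natAbs_eq j with hj' | hj'
    · have hg : gel η u j = ((u : 𝓞 K) : K) * ((η : 𝓞 K) : K) ^ j.natAbs := by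
        unfold gel
        conv_lhs => rw [hj']
        rw [zpow_natCast]
      obtain ⟨h1, h2⟩ := TH2_den η hη u j.natAbs
      rw [← hg] at h1 h2
      have h3 := (hmap ρ h1).mul (hmap ρ' h2)
      have h4 : ρ (gel η u j) * ρ' ((((Algebra.norm ℤ η).natAbs ^ j.natAbs : ℕ) : K) *
          (gel η u j)⁻¹) = (m : L) * (ρ (gel η u j) / ρ' (gel η u j)) := by
        rw [map_mul, map_inv₀, map_natCast]
        rw [div_eq_mul_inv]
        ring
      rw [h4] at h3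
      exact h3
    · have hg : (gel η u j)⁻¹ = (((u⁻¹ : (𝓞 K)ˣ) : 𝓞 K) : K) * ((η : 𝓞 K) : K) ^ j.natAbs := by
        unfold gel
        conv_lhs => rw [hj']
        rw [mul_inv, zpow_neg, inv_inv, zpow_natCast]
        congr 1
        symm
        apply eq_inv_of_mul_eq_one_left
        rw [← map_mul, ← Units.val_mul, inv_mul_cancel]
        simp
      obtain ⟨h1, h2⟩ := TH2_den η hη u⁻¹ j.natAbs
      rw [← hg, inv_inv] at h2
      rw [← hg] at h1
      have h3 := (hmap ρ' h1).mul (hmap ρ h2)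
      have h4 : ρ' (gel η u j)⁻¹ * ρ ((((Algebra.norm ℤ η).natAbs ^ j.natAbs : ℕ) : K) *
          gel η u j) = (m : L) * (ρ (gel η u j) / ρ' (gel η u j)) := by
        rw [map_mul, map_inv₀, map_natCast]
        rw [div_eq_mul_inv]
        ring
      rw [h4] at h3
      exact h3
  refine ⟨Complex.log (σ₀ (τ (gel η u j) / τ' (gel η u j))), hα, hexp, by linarith,
    by linarith, fun σ => (hconj σ).trans (by linarith), m, hm0, by linarith, hden τ τ', ?_⟩
  rw [inv_div]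
  exact hden τ' τ

theorem adm_root {L : Type} [Field L] [NumberField L] (σ₀ : L →+* ℂ) (ζ : L)
    (hζ : ∃ m : ℕ, 0 < m ∧ ζ ^ m = 1) : ∃ ℓ : ℂ, Adm σ₀ ζ ℓ 7 := by
  obtain ⟨m, hm, h1⟩ := hζ
  have hζ0 : ζ ≠ 0 := by
    rintro rfl
    rw [zero_pow hm.ne'] at h1
    exact zero_ne_one h1
  have hnorm : ∀ σ : L →+* ℂ, ‖σ ζ‖ = 1 := by
    intro σ
    refine Complex.norm_eq_one_of_pow_eq_one (n := m) ?_ hm.ne'
    rw [← map_pow, h1, map_one]
  have hconj : ∀ σ : L →+* ℂ, |Real.log ‖σ ζ‖| ≤ 0 := by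
    intro σ
    rw [hnorm σ, Real.log_one, abs_zero]
  obtain ⟨hexp, hn⟩ := TH2_log σ₀ hζ0 (hconj σ₀)
  have hint : ∀ x : L, x ^ m = 1 → IsIntegral ℤ x := by
    intro x hx
    refine IsIntegral.of_pow hm ?_
    rw [hx]
    exact isIntegral_one
  refine ⟨Complex.log (σ₀ ζ), hζ0, hexp, by norm_num, by linarith,
    fun σ => (hconj σ).trans (by norm_num), 1, one_pos, by norm_num, ?_, ?_⟩
  · rw [Nat.cast_one, one_mul]
    exact hint ζ h1
  · rw [Nat.cast_one, one_mul]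
    exact hint ζ⁻¹ (by rw [inv_pow, h1, inv_one])

theorem adm_one {L : Type} [Field L] [NumberField L] (σ₀ : L →+* ℂ) :
    Adm σ₀ (1 : L) (2 * Real.pi * Complex.I) 7 := by
  refine ⟨one_ne_zero, ?_, by norm_num, ?_, ?_, 1, one_pos, by norm_num, ?_, ?_⟩
  · rw [Complex.exp_two_pi_mul_I, map_one]
  · rw [norm_mul, norm_mul, Complex.norm_I, mul_one, Complex.norm_ofNat, Complex.norm_real,
      Real.norm_eq_abs, abs_of_pos Real.pi_pos]
    have := Real.pi_lt_d2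
    linarith
  · intro σ
    rw [map_one, norm_one, Real.log_one, abs_zero]
    norm_num
  · rw [Nat.cast_one, one_mul]
    exact isIntegral_one
  · rw [Nat.cast_one, one_mul, inv_one]
    exact isIntegral_one

end Pool.Agent.LibST91
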