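import Pool.Agent.LibST91.Defs
import Pool.Agent.LibST91A.Assem

/-!
[ST BX8] All numbers `auxA` vanish if `Λ` is very small (parameters in terms of `U`).
Deduced from `Pool.LibST91A.analytic_step`.
-/

set_option autoImplicit false

namespace Pool.Agent.LibST91

theorem vanish (n d : ℕ) : ∃ A : ℝ, 1 ≤ A ∧ ∀ (L' : Type) [Field L'] [NumberField L'],
    Module.finrank ℚ L' ≤ d → ∀ (σ₀ : L' →+* ℂ) (α : Fin (n + 1) → L') (ℓ : Fin (n + 1) → ℂ)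
    (h : Fin (n + 1) → ℝ), (∀ i, Adm σ₀ (α i) (ℓ i) (h i)) →
    ∀ (b : Fin (n + 1) → ℤ) (B ρ U : ℝ) (K L : ℕ), b (Fin.last n) ≠ 0 →
    |(b (Fin.last n) : ℝ)| ≤ B →
    (∀ i, |(b i : ℝ)| * h i ≤ |(b (Fin.last n) : ℝ)| * h (Fin.last n)) →
    (∀ i, h i ≤ ρ) → 1 ≤ U → 1 ≤ K → (K : ℝ) ≤ U → 1 ≤ L → (K : ℝ) ^ n * L ≤ Real.exp U →
    (2 * ρ) ^ (n * K) ≤ Real.exp U → B ^ (n * K) ≤ Real.exp U → L * ρ ≤ U →
    A * U ^ n ≤ (K : ℝ) ^ n * L → ‖∑ i, (b i : ℂ) * ℓ i‖ ≤ Real.exp (-(A * U)) →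
    ∃ p : Idx n K L → ℤ, p ≠ 0 ∧
      ∀ s : Fin (n + 1) → ℤ, (∀ i, |(s i : ℝ)| * h i ≤ ρ) → auxA α b p s = 0 := by
  classical
  obtain ⟨c, hc1, hc2⟩ : ∃ c : ℝ, (2 * n + 3 : ℝ) ≤ c ∧
      (4 * d + 2 * d * (n + 1) + 2 : ℝ) ≤ c :=
    ⟨max (2 * n + 3) (4 * d + 2 * d * (n + 1) + 2), le_max_left _ _, le_max_right _ _⟩
  obtain ⟨A2, hA2⟩ : ∃ A2 : ℝ, A2 = 2 * c + 2 * n + 18 := ⟨_, rfl⟩
  obtain ⟨A4, hA4⟩ : ∃ A4 : ℝ, A4 = A2 + 2 := ⟨_, rfl⟩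
  obtain ⟨c1, hc1'⟩ : ∃ c1 : ℝ, c1 = c + n * A4 + 3 := ⟨_, rfl⟩
  obtain ⟨A, hAA, hAc, hA1⟩ : ∃ A : ℝ, 2 * (c + c1 + 2) * A4 ^ n ≤ A ∧ 2 * c + 4 ≤ A ∧ 1 ≤ A :=
    ⟨max (2 * (c + c1 + 2) * A4 ^ n) (max (2 * c + 4) 1), le_max_left _ _,
      le_trans (le_max_left _ _) (le_max_right _ _), le_trans (le_max_right _ _) (le_max_right _ _)⟩
  refine ⟨A, hA1, ?_⟩
  intro F _ _ hd σ₀ α ℓ h hAdm b B ρ U K L hb0 hbB hbmax hρ hU1 hK1 hKU hL1 hKL hρK hBK hLρ hAU hΛ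
  obtain ⟨p, hp, hv⟩ := Pool.LibST91A.vanish_aux n d c c1 A2 A4 A hc1 hc2 hA2 hA4 hc1' hAA hAc hd
    σ₀ α ℓ h hAdm b B ρ U K L hb0 hbB hbmax hρ hU1 hK1 hKU hL1 hKL hρK hBK hLρ hAU hΛ
  refine ⟨fun a => p a.1 a.2, ?_, ?_⟩
  · intro h0
    apply hp
    funext k l
    exact congrFun h0 (k, l)
  · intro s hs
    have hsj : ∀ i : Fin (n + 1), |s i| ≤ ((⌊ρ / h i⌋₊ : ℕ) : ℤ) := by
      intro i
      have h0 : 0 < h i := by linarith [(hAdm i).one_le]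
      have h1 : |(s i : ℝ)| ≤ ρ / h i := (le_div_iff₀ h0).mpr (hs i)
      have h2 : ((s i).natAbs : ℝ) ≤ ρ / h i := by
        rw [Nat.cast_natAbs, Int.cast_abs]
        exact h1
      have h3 : (s i).natAbs ≤ ⌊ρ / h i⌋₊ := Nat.le_floor h2
      rw [Int.abs_eq_natAbs]
      exact_mod_cast h3
    have hval := hv (fun j => s j.castSucc) (s (Fin.last n)) (fun j => hsj _) (hsj _)
    have hσ : σ₀ (auxA α b (fun a : Idx n K L => p a.1 a.2) s) = 0 := by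
      rw [← hval]
      unfold auxA zpt
      rw [map_sum, Fintype.sum_prod_type]
      refine Finset.sum_congr rfl fun k _ => Finset.sum_congr rfl fun l _ => ?_
      rw [map_mul, map_mul, map_intCast, map_prod, map_pow, map_prod, Fin.prod_univ_castSucc]
      simp only [map_pow, map_sub, map_div₀, map_mul, map_intCast, map_zpow₀]
    exact (map_eq_zero σ₀).mp hσ

end Pool.Agent.LibST91
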