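import Pool.Agent.LibST91.Defs

/-!
[ST TH1] A number field containing three conjugates of `K`.

PLAN. `L` = the compositum in `ℂ` of the ranges of the three embeddings (intermediate fields of `ℂ/ℚ`,
`IntermediateField.finrank_sup_le`, `AlgHom.fieldRange`, embeddings `K →+* ℂ` are `ℚ`-algebra maps by
`RingHom.equivRatAlgHom`), `σ₀` the inclusion, `τ i` the corestrictions.
-/

set_option autoImplicit false

namespace Pool.Agent.LibST91

theorem exists_compositum (d : ℕ) (K : Type) [Field K] [NumberField K] (hd : Module.finrank ℚ K = d)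
    (σ : Fin 3 → K →+* ℂ) : ∃ (L : Type) (_ : Field L) (_ : NumberField L),
      Module.finrank ℚ L ≤ d ^ 3 ∧ ∃ (σ₀ : L →+* ℂ) (τ : Fin 3 → K →+* L), ∀ i, σ₀.comp (τ i) = σ i := by
  classical
  let φ : Fin 3 → K →ₐ[ℚ] ℂ := fun i => (σ i).toRatAlgHom
  have hφ : ∀ i x, φ i x = σ i x := fun i x => rfl
  let E : Fin 3 → IntermediateField ℚ ℂ := fun i => (φ i).fieldRange
  have hE : ∀ i, Module.finrank ℚ (E i) = d := by
    intro i
    rw [← hd]
    exact (AlgEquiv.ofInjectiveField (φ i)).toLinearEquiv.finrank_eq.symm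
  have hfd : ∀ i, FiniteDimensional ℚ (E i) := by
    intro i
    exact Module.Finite.equiv (AlgEquiv.ofInjectiveField (φ i)).toLinearEquiv
  have hf0 := hfd 0
  have hf1 := hfd 1
  have hf2 := hfd 2
  let F : IntermediateField ℚ ℂ := E 0 ⊔ E 1 ⊔ E 2
  have hF01 : FiniteDimensional ℚ (E 0 ⊔ E 1 : IntermediateField ℚ ℂ) :=
    IntermediateField.finiteDimensional_sup (E 0) (E 1)
  have hF : FiniteDimensional ℚ F := IntermediateField.finiteDimensional_sup (E 0 ⊔ E 1) (E 2)
  have hle : ∀ i, E i ≤ F := by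
    intro i
    fin_cases i
    · exact le_sup_left.trans le_sup_left
    · exact le_sup_right.trans le_sup_left
    · exact le_sup_right
  have hmem : ∀ i x, σ i x ∈ F := fun i x => hle i ⟨x, hφ i x⟩
  have hnf : NumberField F := { to_charZero := inferInstance, to_finiteDimensional := hF }
  refine ⟨F, inferInstance, hnf, ?_, algebraMap F ℂ, fun i => (σ i).codRestrict F (hmem i), ?_⟩
  · have h1 : Module.finrank ℚ F ≤ Module.finrank ℚ (E 0 ⊔ E 1 : IntermediateField ℚ ℂ) *
        Module.finrank ℚ (E 2) := IntermediateField.finrank_sup_le (E 0 ⊔ E 1) (E 2)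
    have h2 : Module.finrank ℚ (E 0 ⊔ E 1 : IntermediateField ℚ ℂ) ≤
        Module.finrank ℚ (E 0) * Module.finrank ℚ (E 1) := IntermediateField.finrank_sup_le (E 0) (E 1)
    rw [hE 0, hE 1] at h2
    rw [hE 2] at h1
    calc Module.finrank ℚ F ≤ Module.finrank ℚ (E 0 ⊔ E 1 : IntermediateField ℚ ℂ) * d := h1
      _ ≤ d * d * d := Nat.mul_le_mul_right d h2
      _ = d ^ 3 := by ring
  · intro i
    rfl

end Pool.Agent.LibST91
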