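import Pool.Agent.LibST91.GN2

/-!
[ST DG1] Independent small solutions of one linear equation.

PLAN. `A` = the subgroup `{v : ∑ χ_i v_i = 0}` of `Fin (N+1) → ℤ`, `ν v = ∑ |v_i| h_i`. `NormLike`: clear.
Finite: `|v_i| ≤ ρ`. Count: for `ρ ≥ 2` the box `|v_i| ≤ ρ/(2(N+1)h_i)` has at least
`∏ ρ/(2(N+1)h_i)` points (`2⌊t⌋+1 ≥ t`), all with `ν ≤ ρ/2`; `|χ·v| ≤ M ν v ≤ Mρ/2`, so `χ·v` takes at most
`Mρ + 1 ≤ 2Mρ` values; a value taken at least `.../(2Mρ)` times, differences: `ν ≤ ρ`. So the count is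
`≥ ρ^N / V` with `V = 2M (2(N+1))^(N+1) ∏ h_i`; for `1 ≤ ρ < 2` it is `≥ 1 ≥ ρ^N/V` as `V ≥ 2^N`. `minkowski_two`.
-/

set_option autoImplicit false

namespace Pool.Agent.LibST91

private noncomputable def DG1_nu {n : ℕ} (h : Fin n → ℝ) (v : Fin n → ℤ) : ℝ :=
  ∑ i, |(v i : ℝ)| * h i

private def DG1_A {n : ℕ} (χ : Fin n → ℤ) : AddSubgroup (Fin n → ℤ) where
  carrier := {v | ∑ i, χ i * v i = 0}
  zero_mem' := by simp
  add_mem' := by
    intro a b ha hb
    simp only [Set.mem_ofPred_eq, Pi.add_apply] at *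
    simp_rw [mul_add]
    rw [Finset.sum_add_distrib, ha, hb, add_zero]
  neg_mem' := by
    intro a ha
    simp only [Set.mem_ofPred_eq, Pi.neg_apply] at *
    simp_rw [mul_neg]
    rw [Finset.sum_neg_distrib, ha, neg_zero]

private theorem DG1_nu_nonneg {n : ℕ} (h : Fin n → ℝ) (hh : ∀ i, 1 ≤ h i) (v : Fin n → ℤ) :
    0 ≤ DG1_nu h v :=
  Finset.sum_nonneg fun i _ => mul_nonneg (abs_nonneg _) (le_trans zero_le_one (hh i))

private theorem DG1_le_nu {n : ℕ} (h : Fin n → ℝ) (hh : ∀ i, 1 ≤ h i) (v : Fin n → ℤ)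
    (i : Fin n) : |(v i : ℝ)| ≤ DG1_nu h v := by
  calc |(v i : ℝ)| ≤ |(v i : ℝ)| * h i := le_mul_of_one_le_right (abs_nonneg _) (hh i)
    _ ≤ DG1_nu h v := Finset.single_le_sum (f := fun i => |(v i : ℝ)| * h i)
        (fun j _ => mul_nonneg (abs_nonneg _) (le_trans zero_le_one (hh j))) (Finset.mem_univ i)

private theorem DG1_nu_add {n : ℕ} (h : Fin n → ℝ) (hh : ∀ i, 1 ≤ h i) (v w : Fin n → ℤ) :
    DG1_nu h (v + w) ≤ DG1_nu h v + DG1_nu h w := by
  unfold DG1_nu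
  rw [← Finset.sum_add_distrib]
  apply Finset.sum_le_sum
  intro i _
  rw [← add_mul]
  apply mul_le_mul_of_nonneg_right _ (le_trans zero_le_one (hh i))
  simp only [Pi.add_apply, Int.cast_add]
  exact abs_add_le _ _

private theorem DG1_nu_neg {n : ℕ} (h : Fin n → ℝ) (v : Fin n → ℤ) :
    DG1_nu h (-v) = DG1_nu h v := by
  unfold DG1_nu
  simp

private theorem DG1_nu_sub {n : ℕ} (h : Fin n → ℝ) (hh : ∀ i, 1 ≤ h i) (v w : Fin n → ℤ) :
    DG1_nu h (v - w) ≤ DG1_nu h v + DG1_nu h w := by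
  rw [sub_eq_add_neg]
  refine le_trans (DG1_nu_add h hh _ _) ?_
  rw [DG1_nu_neg]

private theorem DG1_finite {n : ℕ} (h : Fin n → ℝ) (hh : ∀ i, 1 ≤ h i) (ρ : ℝ) :
    {v : Fin n → ℤ | DG1_nu h v ≤ ρ}.Finite := by
  apply (Set.finite_Icc (fun _ : Fin n => -⌈ρ⌉) (fun _ : Fin n => ⌈ρ⌉)).subset
  intro v hv
  have hv' : DG1_nu h v ≤ ρ := hv
  have h1 : ∀ i, |(v i : ℝ)| ≤ (⌈ρ⌉ : ℝ) := fun i =>
    le_trans (DG1_le_nu h hh v i) (le_trans hv' (Int.le_ceil ρ))
  constructor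
  · intro i
    have := (abs_le.mp (h1 i)).1
    have h2 : ((-⌈ρ⌉ : ℤ) : ℝ) ≤ (v i : ℝ) := by push_cast; exact this
    exact_mod_cast h2
  · intro i
    have := (abs_le.mp (h1 i)).2
    exact_mod_cast this

private theorem DG1_count (N : ℕ) (χ : Fin (N + 1) → ℤ)
    (h : Fin (N + 1) → ℝ) (hh : ∀ i, 1 ≤ h i) (M : ℝ) (hM : 1 ≤ M)
    (hχM : ∀ i, |(χ i : ℝ)| ≤ M * h i) (ρ : ℝ) (hρ : 2 ≤ ρ) :
    ρ ^ N / (2 * M * (2 * (N + 1)) ^ (N + 1) * ∏ i, h i) ≤
      ({v : Fin (N + 1) → ℤ | (∑ i, χ i * v i = 0) ∧ DG1_nu h v ≤ ρ}.ncard : ℝ) := by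
  classical
  have hpos : ∀ i, 0 < h i := fun i => lt_of_lt_of_le one_pos (hh i)
  set t : Fin (N + 1) → ℝ := fun i => ρ / (2 * (N + 1) * h i) with ht
  have htpos : ∀ i, 0 < t i := fun i => by
    have := hpos i
    have : (0:ℝ) < 2 * (N + 1) * h i := by positivity
    exact div_pos (by linarith) this
  set P : Finset (Fin (N + 1) → ℤ) := Fintype.piFinset fun i => Finset.Icc (-⌊t i⌋) ⌊t i⌋ with hP
  have hPcard : ∏ i, t i ≤ (P.card : ℝ) := by
    rw [hP, Fintype.card_piFinset]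
    push_cast
    apply Finset.prod_le_prod
    · intro i _; exact (htpos i).le
    · intro i _
      have h0 : 0 ≤ ⌊t i⌋ := Int.floor_nonneg.mpr (htpos i).le
      rw [Int.card_Icc]
      have e : (((⌊t i⌋ + 1 - -⌊t i⌋).toNat : ℕ) : ℝ) = 2 * (⌊t i⌋ : ℝ) + 1 := by
        have e1 : (((⌊t i⌋ + 1 - -⌊t i⌋).toNat : ℕ) : ℤ) = 2 * ⌊t i⌋ + 1 := by
          rw [Int.toNat_of_nonneg (by linarith)]; ring
        have e2 : ((((⌊t i⌋ + 1 - -⌊t i⌋).toNat : ℕ) : ℤ) : ℝ) = ((2 * ⌊t i⌋ + 1 : ℤ) : ℝ) := by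
          rw [e1]
        push_cast at e2
        exact e2
      rw [e]
      have h1 := (Int.lt_floor_add_one (t i)).le
      have h2 : (0 : ℝ) ≤ (⌊t i⌋ : ℝ) := by exact_mod_cast h0
      linarith
  have hPnu : ∀ v ∈ P, DG1_nu h v ≤ ρ / 2 := by
    intro v hv
    rw [hP, Fintype.mem_piFinset] at hv
    unfold DG1_nu
    calc ∑ i, |(v i : ℝ)| * h i ≤ ∑ _i : Fin (N + 1), ρ / (2 * (N + 1)) := by
          apply Finset.sum_le_sum
          intro i _
          have h1 := Finset.mem_Icc.mp (hv i)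
          have h2 : |(v i : ℝ)| ≤ t i := by
            rw [abs_le]
            have h3 : ((-⌊t i⌋ : ℤ) : ℝ) ≤ (v i : ℝ) := by exact_mod_cast h1.1
            have h4 : (v i : ℝ) ≤ (⌊t i⌋ : ℝ) := by exact_mod_cast h1.2
            have h5 := Int.floor_le (t i)
            push_cast at h3
            constructor <;> linarith
          calc |(v i : ℝ)| * h i ≤ t i * h i := mul_le_mul_of_nonneg_right h2 (hpos i).le
            _ = ρ / (2 * (N + 1)) := by
                rw [ht]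
                have := (hpos i).ne'
                field_simp
      _ = ρ / 2 := by
          rw [Finset.sum_const, Finset.card_univ, Fintype.card_fin, nsmul_eq_mul]
          push_cast
          field_simp
  set S : Set (Fin (N + 1) → ℤ) := {v | (∑ i, χ i * v i = 0) ∧ DG1_nu h v ≤ ρ} with hS
  have hSfin : S.Finite := (DG1_finite h hh ρ).subset fun v hv => hv.2
  set f : (Fin (N + 1) → ℤ) → ℤ := fun v => ∑ i, χ i * v i with hf
  have hfib : ∀ a ∈ P.image f, (P.filter fun x => f x = a).card ≤ S.ncard := by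
    intro a ha
    obtain ⟨w, hw, rfl⟩ := Finset.mem_image.mp ha
    rw [← Set.ncard_coe_finset]
    refine Set.ncard_le_ncard_of_injOn (fun x => x - w) ?_ ?_ hSfin
    · intro x hx
      have hx' := Finset.mem_filter.mp (Finset.mem_coe.mp hx)
      refine ⟨?_, ?_⟩
      · simp only [Pi.sub_apply, mul_sub, Finset.sum_sub_distrib]
        have := hx'.2
        simp only [hf] at this
        linarith
      · have := DG1_nu_sub h hh x w
        have h1 := hPnu x hx'.1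
        have h2 := hPnu w hw
        show DG1_nu h (x - w) ≤ ρ
        linarith
    · intro x _ y _ hxy
      exact sub_left_injective hxy
  have hcard := Finset.card_le_mul_card_image (f := f) P S.ncard hfib
  have himg : ((P.image f).card : ℝ) ≤ 2 * M * ρ := by
    have hsub : P.image f ⊆ Finset.Icc (-⌊M * ρ / 2⌋) ⌊M * ρ / 2⌋ := by
      intro a ha
      obtain ⟨w, hw, rfl⟩ := Finset.mem_image.mp ha
      have h1 : |((f w : ℤ) : ℝ)| ≤ M * ρ / 2 := by
        simp only [hf]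
        push_cast
        calc |∑ i, (χ i : ℝ) * (w i : ℝ)| ≤ ∑ i, |(χ i : ℝ) * (w i : ℝ)| :=
              Finset.abs_sum_le_sum_abs _ _
          _ ≤ ∑ i, M * (|(w i : ℝ)| * h i) := by
              apply Finset.sum_le_sum
              intro i _
              rw [abs_mul]
              calc |(χ i : ℝ)| * |(w i : ℝ)| ≤ (M * h i) * |(w i : ℝ)| :=
                    mul_le_mul_of_nonneg_right (hχM i) (abs_nonneg _)
                _ = M * (|(w i : ℝ)| * h i) := by ring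
          _ = M * DG1_nu h w := by rw [← Finset.mul_sum]; rfl
          _ ≤ M * (ρ / 2) := mul_le_mul_of_nonneg_left (hPnu w hw) (by linarith)
          _ = M * ρ / 2 := by ring
      have h2 := abs_le.mp h1
      rw [Finset.mem_Icc]
      constructor
      · rw [neg_le]
        apply Int.le_floor.mpr
        push_cast
        linarith [h2.1]
      · exact Int.le_floor.mpr h2.2
    have h3 := Finset.card_le_card hsub
    rw [Int.card_Icc] at h3
    have h0 : 0 ≤ ⌊M * ρ / 2⌋ := Int.floor_nonneg.mpr (by positivity)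
    have e : (((⌊M * ρ / 2⌋ + 1 - -⌊M * ρ / 2⌋).toNat : ℕ) : ℝ) = 2 * (⌊M * ρ / 2⌋ : ℝ) + 1 := by
      have e1 : (((⌊M * ρ / 2⌋ + 1 - -⌊M * ρ / 2⌋).toNat : ℕ) : ℤ) = 2 * ⌊M * ρ / 2⌋ + 1 := by
        rw [Int.toNat_of_nonneg (by linarith)]; ring
      have e2 : ((((⌊M * ρ / 2⌋ + 1 - -⌊M * ρ / 2⌋).toNat : ℕ) : ℤ) : ℝ) =
          ((2 * ⌊M * ρ / 2⌋ + 1 : ℤ) : ℝ) := by
        rw [e1]
      push_cast at e2
      exact e2
    have h4 : ((P.image f).card : ℝ) ≤ 2 * (⌊M * ρ / 2⌋ : ℝ) + 1 := by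
      rw [← e]; exact_mod_cast h3
    have h5 := Int.floor_le (M * ρ / 2)
    have h6 : 1 ≤ M * ρ := by nlinarith
    linarith
  have hfinal : ∏ i, t i ≤ (S.ncard : ℝ) * (2 * M * ρ) := by
    refine le_trans hPcard ?_
    have : (P.card : ℝ) ≤ (S.ncard : ℝ) * ((P.image f).card : ℝ) := by exact_mod_cast hcard
    refine le_trans this ?_
    exact mul_le_mul_of_nonneg_left himg (by positivity)
  have hprod : ∏ i, t i = ρ ^ (N + 1) / ((2 * (N + 1)) ^ (N + 1) * ∏ i, h i) := by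
    simp only [ht]
    rw [Finset.prod_div_distrib, Finset.prod_mul_distrib]
    simp
  rw [hprod] at hfinal
  have hH : 0 < ∏ i, h i := Finset.prod_pos fun i _ => hpos i
  rw [div_le_iff₀ (by positivity)] at hfinal ⊢
  have hρpos : 0 < ρ := by linarith
  have : ρ ^ N * ρ ≤ ((S.ncard : ℝ) * (2 * M * (2 * (N + 1)) ^ (N + 1) * ∏ i, h i)) * ρ := by
    calc ρ ^ N * ρ = ρ ^ (N + 1) := by ring
      _ ≤ _ := hfinal
      _ = _ := by ring
  exact le_of_mul_le_mul_right this hρpos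

theorem small_solutions (N : ℕ) (hN : 1 ≤ N) (χ : Fin (N + 1) → ℤ) (hχ : χ ≠ 0)
    (h : Fin (N + 1) → ℝ) (hh : ∀ i, 1 ≤ h i) (M : ℝ) (hM : 1 ≤ M)
    (hχM : ∀ i, |(χ i : ℝ)| ≤ M * h i) :
    ∃ v : Fin N → Fin (N + 1) → ℤ, LinearIndependent ℤ v ∧ (∀ j, ∑ i, χ i * v j i = 0) ∧
      (∀ j, v j ≠ 0) ∧
      ∏ j, (∑ i, |(v j i : ℝ)| * h i) ≤ 8 ^ N * (2 * M * (2 * (N + 1)) ^ (N + 1) * ∏ i, h i) := by
  classical
  have hpos : ∀ i, 0 < h i := fun i => lt_of_lt_of_le one_pos (hh i)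
  have hH : 1 ≤ ∏ i, h i := by
    calc (1 : ℝ) = ∏ _i : Fin (N + 1), (1 : ℝ) := by simp
      _ ≤ ∏ i, h i := Finset.prod_le_prod (fun _ _ => zero_le_one) fun i _ => hh i
  set V : ℝ := 2 * M * (2 * (N + 1)) ^ (N + 1) * ∏ i, h i with hV
  have hpow : (2 : ℝ) ^ N ≤ (2 * (N + 1)) ^ (N + 1) := by
    calc (2 : ℝ) ^ N ≤ (2 * (N + 1)) ^ N := by
          apply pow_le_pow_left₀ (by norm_num)
          have : (0 : ℝ) ≤ N := Nat.cast_nonneg N
          linarith
      _ ≤ (2 * (N + 1)) ^ (N + 1) := by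
          apply pow_le_pow_right₀ _ (Nat.le_succ N)
          have : (0 : ℝ) ≤ N := Nat.cast_nonneg N
          linarith
  have hVge : (2 : ℝ) ^ N ≤ V := by
    rw [hV]
    calc (2 : ℝ) ^ N ≤ (2 * (N + 1)) ^ (N + 1) := hpow
      _ = 1 * (2 * (N + 1)) ^ (N + 1) * 1 := by ring
      _ ≤ 2 * M * (2 * (N + 1)) ^ (N + 1) * ∏ i, h i := by
          apply mul_le_mul _ hH (by norm_num) (by positivity)
          apply mul_le_mul_of_nonneg_right _ (by positivity)
          linarith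
  have hV1 : 1 ≤ V := le_trans (one_le_pow₀ (by norm_num)) hVge
  have hnorm : NormLike (fun x : DG1_A χ => DG1_nu h (x : Fin (N + 1) → ℤ)) := by
    constructor
    · intro x; exact DG1_nu_nonneg h hh _
    · intro x hx
      apply Subtype.ext
      funext i
      have h1 := DG1_le_nu h hh (x : Fin (N + 1) → ℤ) i
      have h2 : |((x : Fin (N + 1) → ℤ) i : ℝ)| ≤ 0 := by
        rw [hx] at h1; exact h1
      have h3 := abs_nonpos_iff.mp h2
      simpa using h3
    · intro x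
      simp only [AddSubgroup.coe_neg]
      exact DG1_nu_neg h _
    · intro x y
      simp only [AddSubgroup.coe_add]
      exact DG1_nu_add h hh _ _
    · intro n x
      simp only [AddSubgroup.coe_nsmul]
      unfold DG1_nu
      rw [Finset.mul_sum]
      apply Finset.sum_congr rfl
      intro i _
      simp only [Pi.smul_apply, nsmul_eq_mul]
      push_cast
      rw [abs_mul, Nat.abs_cast]
      ring
  have hfin : ∀ ρ : ℝ, {x : DG1_A χ | DG1_nu h (x : Fin (N + 1) → ℤ) ≤ ρ}.Finite := by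
    intro ρ
    exact Set.Finite.preimage (Subtype.val_injective.injOn) (DG1_finite h hh ρ)
  have hcount : ∀ ρ : ℝ, 1 ≤ ρ → ρ ^ N / V ≤
      ({x : DG1_A χ | DG1_nu h (x : Fin (N + 1) → ℤ) ≤ ρ}.ncard : ℝ) := by
    intro ρ hρ
    rcases lt_or_ge ρ 2 with h2 | h2
    · have h1 : 1 ≤ {x : DG1_A χ | DG1_nu h (x : Fin (N + 1) → ℤ) ≤ ρ}.ncard := by
        rw [Nat.one_le_iff_ne_zero]
        intro h0
        rw [Set.ncard_eq_zero (hfin ρ)] at h0
        have : (0 : DG1_A χ) ∈ {x : DG1_A χ | DG1_nu h (x : Fin (N + 1) → ℤ) ≤ ρ} := by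
          simp only [Set.mem_ofPred_eq, AddSubgroup.coe_zero]
          unfold DG1_nu
          simp only [Pi.zero_apply, Int.cast_zero, abs_zero, zero_mul, Finset.sum_const_zero]
          linarith
        rw [h0] at this
        exact this
      have h3 : ρ ^ N / V ≤ 1 := by
        rw [div_le_one (by linarith)]
        refine le_trans ?_ hVge
        exact pow_le_pow_left₀ (by linarith) h2.le _
      refine le_trans h3 ?_
      exact_mod_cast h1
    · have hc := DG1_count N χ h hh M hM hχM ρ h2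
      refine le_trans hc ?_
      have e : {v : Fin (N + 1) → ℤ | (∑ i, χ i * v i = 0) ∧ DG1_nu h v ≤ ρ} =
          (Subtype.val : DG1_A χ → (Fin (N + 1) → ℤ)) ''
            {x : DG1_A χ | DG1_nu h (x : Fin (N + 1) → ℤ) ≤ ρ} := by
        ext v
        constructor
        · rintro ⟨hv1, hv2⟩
          exact ⟨⟨v, hv1⟩, hv2, rfl⟩
        · rintro ⟨x, hx, rfl⟩
          exact ⟨x.2, hx⟩
      rw [e, Set.ncard_image_of_injective _ Subtype.val_injective]
  obtain ⟨v, hli, hvpos, hprod⟩ := minkowski_two _ hnorm N hN V hV1 hfin hcount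
  refine ⟨fun j => (v j : Fin (N + 1) → ℤ), ?_, fun j => (v j).2, ?_, ?_⟩
  · exact hli.map' ((DG1_A χ).subtype.toIntLinearMap)
      (LinearMap.ker_eq_bot.mpr Subtype.val_injective)
  · intro j hj
    have h1 := hvpos j
    simp only at hj h1
    rw [hj] at h1
    unfold DG1_nu at h1
    simp at h1
  · exact hprod

end Pool.Agent.LibST91
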