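import Mathlib

/-!
[ST DG2] ONLY MATHLIB. Cramer's rule for vectors orthogonal to `χ`.

PLAN. The `N+1` vectors `b, v_1, .., v_N` lie in the hyperplane `χ^⊥` of dimension `N`. The matrix with rows
`v_j` has rank `N`; choose `N` columns with nonzero minor `q = det`; Cramer's rule expresses `q b` in these
columns: `q b_i = ∑ c_j v_j i` with `c_j` = minor with row `j` replaced by `b`; the vector
`q b - ∑ c_j v_j` vanishes in these `N` columns and is orthogonal to `χ`. The remaining coordinate: choose the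
column `i₁` to be left out with `χ i₁ ≠ 0` (the minor without column `i₁` is not zero: otherwise a
nontrivial combination of the `v_j` is supported in coordinate `i₁`, and orthogonal to `χ`, so it is 0).
Bounds: Leibniz formula, `|det| ≤ N! * ∏ (entries)`.
-/

set_option autoImplicit false

namespace Pool.Agent.LibST91

/-- Leibniz bound for a determinant with bounded rows. -/
private lemma DG2_det_le {N : ℕ} (M : Matrix (Fin N) (Fin N) ℝ) (f : Fin N → ℝ)
    (hM : ∀ i k, |M i k| ≤ f i) : |M.det| ≤ N.factorial * ∏ i, f i := by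
  rw [Matrix.det_apply]
  refine (Finset.abs_sum_le_sum_abs _ _).trans ?_
  have h1 : ∀ σ ∈ (Finset.univ : Finset (Equiv.Perm (Fin N))),
      |Equiv.Perm.sign σ • ∏ i, M (σ i) i| ≤ ∏ i, f i := by
    intro σ _
    have h2 : |Equiv.Perm.sign σ • ∏ i, M (σ i) i| = |∏ i, M (σ i) i| := by
      rcases Int.units_eq_one_or (Equiv.Perm.sign σ) with h | h
      · rw [h, one_smul]
      · rw [h, Units.neg_smul, one_smul, abs_neg]
    rw [h2, Finset.abs_prod]
    calc ∏ i, |M (σ i) i| ≤ ∏ i, f (σ i) :=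
          Finset.prod_le_prod (fun i _ => abs_nonneg _) fun i _ => hM _ _
      _ = ∏ i, f i := Equiv.prod_comp σ f
  refine (Finset.sum_le_card_nsmul _ _ _ h1).trans (le_of_eq ?_)
  rw [Finset.card_univ, Fintype.card_perm, Fintype.card_fin, nsmul_eq_mul]

/-- A vector orthogonal to `χ` that vanishes outside `i₁` vanishes. -/
private lemma DG2_zero {N : ℕ} {χ w : Fin (N + 1) → ℤ} {i₁ : Fin (N + 1)} (h1 : χ i₁ ≠ 0)
    (hw : ∑ i, χ i * w i = 0) (h0 : ∀ k, w (i₁.succAbove k) = 0) : ∀ i, w i = 0 := by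
  rw [Fin.sum_univ_succAbove _ i₁] at hw
  have h2 : ∑ k, χ (i₁.succAbove k) * w (i₁.succAbove k) = 0 :=
    Finset.sum_eq_zero fun k _ => by rw [h0 k, mul_zero]
  rw [h2, add_zero] at hw
  have h3 : w i₁ = 0 := (mul_eq_zero.mp hw).resolve_left h1
  intro i
  rcases Fin.eq_self_or_eq_succAbove i₁ i with h | ⟨k, h⟩
  · rw [h, h3]
  · rw [h, h0 k]

theorem cramer_int (N : ℕ) (χ b : Fin (N + 1) → ℤ) (hχ : χ ≠ 0) (hb : ∑ i, χ i * b i = 0)
    (v : Fin N → Fin (N + 1) → ℤ) (hv : ∀ j, ∑ i, χ i * v j i = 0)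
    (hind : LinearIndependent ℤ v) (H B : ℝ) (hH : 1 ≤ H) (hvH : ∀ j i, |(v j i : ℝ)| ≤ H)
    (hB : 1 ≤ B) (hbB : ∀ i, |(b i : ℝ)| ≤ B) :
    ∃ (q : ℤ) (c : Fin N → ℤ), q ≠ 0 ∧ (∀ i, q * b i = ∑ j, c j * v j i) ∧
      |(q : ℝ)| ≤ N.factorial * H ^ N ∧ ∀ j, |(c j : ℝ)| ≤ N.factorial * (H ^ N * B) := by
  obtain ⟨i₁, hi₁⟩ := Function.ne_iff.mp hχ
  simp only [Pi.zero_apply] at hi₁
  obtain ⟨A, hA⟩ : ∃ A : Matrix (Fin N) (Fin N) ℤ, A = Matrix.of fun j k => v j (i₁.succAbove k) :=
    ⟨_, rfl⟩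
  have hAe : ∀ j k, A j k = v j (i₁.succAbove k) := fun j k => by rw [hA]; rfl
  obtain ⟨b', hb'⟩ : ∃ b' : Fin N → ℤ, b' = fun k => b (i₁.succAbove k) := ⟨_, rfl⟩
  -- orthogonality of combinations
  have hcomb : ∀ c : Fin N → ℤ, ∑ i, χ i * ∑ j, c j * v j i = 0 := by
    intro c
    calc ∑ i, χ i * ∑ j, c j * v j i = ∑ i, ∑ j, c j * (χ i * v j i) := by
          refine Finset.sum_congr rfl fun i _ => ?_
          rw [Finset.mul_sum]
          exact Finset.sum_congr rfl fun j _ => by ring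
      _ = ∑ j, c j * ∑ i, χ i * v j i := by
          rw [Finset.sum_comm]
          exact Finset.sum_congr rfl fun j _ => by rw [Finset.mul_sum]
      _ = 0 := Finset.sum_eq_zero fun j _ => by rw [hv j, mul_zero]
  have hq : A.det ≠ 0 := by
    intro hdet
    obtain ⟨w, hw0, hw⟩ := Matrix.exists_vecMul_eq_zero_iff.mpr hdet
    apply hw0
    have h1 : ∀ k, ∑ j, w j * v j (i₁.succAbove k) = 0 := by
      intro k
      have h2 := congrFun hw k
      simp only [Matrix.vecMul, dotProduct, Pi.zero_apply, hAe] at h2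
      exact h2
    have h3 : ∀ i, ∑ j, w j * v j i = 0 := DG2_zero hi₁ (hcomb w) h1
    have h4 : ∑ j, w j • v j = 0 := by
      funext i
      simp only [Finset.sum_apply, Pi.smul_apply, smul_eq_mul, Pi.zero_apply]
      exact h3 i
    have h5 := Fintype.linearIndependent_iff.mp hind w h4
    funext j
    exact h5 j
  obtain ⟨c, hc⟩ : ∃ c : Fin N → ℤ, c = Matrix.cramer A.transpose b' := ⟨_, rfl⟩
  have hcr : ∀ k, ∑ j, c j * v j (i₁.succAbove k) = A.det * b (i₁.succAbove k) := by
    intro k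
    have h1 := congrFun (Matrix.mulVec_cramer A.transpose b') k
    rw [← hc] at h1
    simp only [Matrix.mulVec, dotProduct, Matrix.transpose_apply, Pi.smul_apply, smul_eq_mul,
      Matrix.det_transpose, hAe] at h1
    rw [hb'] at h1
    rw [← h1]
    exact Finset.sum_congr rfl fun j _ => mul_comm _ _
  refine ⟨A.det, c, hq, ?_, ?_, ?_⟩
  · have h1 : ∀ i, (A.det * b i - ∑ j, c j * v j i) = 0 := by
      apply DG2_zero (χ := χ) hi₁
      · calc ∑ i, χ i * (A.det * b i - ∑ j, c j * v j i) =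
            A.det * (∑ i, χ i * b i) - ∑ i, χ i * ∑ j, c j * v j i := by
              rw [Finset.mul_sum, ← Finset.sum_sub_distrib]
              exact Finset.sum_congr rfl fun i _ => by ring
          _ = 0 := by rw [hb, hcomb c]; ring
      · intro k
        rw [hcr k]
        ring
    intro i
    exact sub_eq_zero.mp (h1 i)
  · have h1 : ((A.det : ℤ) : ℝ) = (A.map (Int.cast : ℤ → ℝ)).det := by
      have := RingHom.map_det (Int.castRingHom ℝ) A
      simpa using this
    rw [h1]
    refine (DG2_det_le _ (fun _ => H) fun i k => ?_).trans (le_of_eq ?_)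
    · rw [Matrix.map_apply, hAe]
      exact hvH _ _
    · simp
  · intro j
    have h0 : c j = (A.updateRow j b').det := by
      rw [hc, Matrix.cramer_transpose_apply]
    have h1 : ((c j : ℤ) : ℝ) = ((A.updateRow j b').map (Int.cast : ℤ → ℝ)).det := by
      rw [h0]
      have := RingHom.map_det (Int.castRingHom ℝ) (A.updateRow j b')
      simpa using this
    rw [h1]
    refine (DG2_det_le _ (fun i => (if i = j then B else 1) * H) fun i k => ?_).trans (le_of_eq ?_)
    · rw [Matrix.map_apply, Matrix.updateRow_apply]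
      by_cases hij : i = j
      · rw [if_pos hij, if_pos hij, hb']
        have h2 := hbB (i₁.succAbove k)
        nlinarith
      · rw [if_neg hij, if_neg hij, hAe, one_mul]
        exact hvH _ _
    · rw [Finset.prod_mul_distrib, Finset.prod_ite_eq' Finset.univ j (fun _ => B)]
      simp [mul_comm]

end Pool.Agent.LibST91
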