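import Pool.Agent.LibST91.Defs
import Pool.Agent.LibST91.DG1
import Pool.Agent.LibST91.DG2

/-!
[ST DG3] The degenerate case: a small relation reduces the number of logarithms by one.
-/

set_option autoImplicit false

namespace Pool.Agent.LibST91

open scoped BigOperators

private theorem DG3_one_le_prod {ι : Type} (s : Finset ι) (f : ι → ℝ) (hf : ∀ i ∈ s, 1 ≤ f i) :
    1 ≤ ∏ i ∈ s, f i := by
  calc (1 : ℝ) = ∏ _i ∈ s, (1 : ℝ) := by simp
    _ ≤ _ := Finset.prod_le_prod (fun _ _ => zero_le_one) hf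

/-- Admissible data for a product of powers. -/
theorem DG3_adm_prod {n : ℕ} {L : Type} [Field L] [NumberField L] (σ₀ : L →+* ℂ) (α : Fin n → L)
    (ℓ : Fin n → ℂ) (h : Fin n → ℝ) (hA : ∀ i, Adm σ₀ (α i) (ℓ i) (h i)) (v : Fin n → ℤ)
    (hv : v ≠ 0) :
    Adm σ₀ (∏ i, α i ^ v i) (∑ i, (v i : ℂ) * ℓ i) (∑ i, |(v i : ℝ)| * h i) := by
  have hh0 : ∀ i, 0 ≤ h i := fun i => zero_le_one.trans (hA i).one_le
  have hterm0 : ∀ i, 0 ≤ |(v i : ℝ)| * h i := fun i => mul_nonneg (abs_nonneg _) (hh0 i)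
  refine ⟨?_, ?_, ?_, ?_, ?_, ?_⟩
  · exact Finset.prod_ne_zero_iff.mpr fun i _ => zpow_ne_zero _ (hA i).ne
  · rw [Complex.exp_sum, map_prod]
    refine Finset.prod_congr rfl fun i _ => ?_
    rw [Complex.exp_int_mul, (hA i).exp_eq, map_zpow₀]
  · obtain ⟨i, hi⟩ := Function.ne_iff.mp hv
    have h1 : (1 : ℝ) ≤ |(v i : ℝ)| := by
      rw [← Int.cast_abs]
      exact_mod_cast Int.one_le_abs hi
    calc (1 : ℝ) ≤ |(v i : ℝ)| * h i := one_le_mul_of_one_le_of_one_le h1 (hA i).one_le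
      _ ≤ _ := Finset.single_le_sum (f := fun i => |(v i : ℝ)| * h i)
          (fun j _ => hterm0 j) (Finset.mem_univ i)
  · refine (norm_sum_le _ _).trans (Finset.sum_le_sum fun i _ => ?_)
    rw [norm_mul, Complex.norm_intCast]
    exact mul_le_mul_of_nonneg_left (hA i).norm_le (abs_nonneg _)
  · intro σ
    have h1 : Real.log ‖σ (∏ i, α i ^ v i)‖ = ∑ i, (v i : ℝ) * Real.log ‖σ (α i)‖ := by
      rw [map_prod, norm_prod, Real.log_prod]
      · refine Finset.sum_congr rfl fun i _ => ?_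
        rw [map_zpow₀, norm_zpow, Real.log_zpow]
      · intro i _
        have : σ (α i ^ v i) ≠ 0 := by
          rw [map_zpow₀]
          exact zpow_ne_zero _ ((map_ne_zero σ).mpr (hA i).ne)
        exact norm_ne_zero_iff.mpr this
    rw [h1]
    refine (Finset.abs_sum_le_sum_abs _ _).trans (Finset.sum_le_sum fun i _ => ?_)
    rw [abs_mul]
    exact mul_le_mul_of_nonneg_left ((hA i).conj σ) (abs_nonneg _)
  · choose m hm0 hmh hm1 hm2 using fun i => (hA i).den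
    refine ⟨∏ i, m i ^ (v i).natAbs, Finset.prod_pos fun i _ => pow_pos (hm0 i) _, ?_, ?_, ?_⟩
    · push_cast
      rw [Real.log_prod]
      · refine Finset.sum_le_sum fun i _ => ?_
        rw [Real.log_pow]
        have : ((v i).natAbs : ℝ) = |(v i : ℝ)| := by
          rw [Nat.cast_natAbs, Int.cast_abs]
        rw [this]
        exact mul_le_mul_of_nonneg_left (hmh i) (abs_nonneg _)
      · intro i _
        exact pow_ne_zero _ (by exact_mod_cast (hm0 i).ne')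
    · push_cast
      rw [← Finset.prod_mul_distrib]
      refine IsIntegral.prod _ fun i _ => ?_
      rcases Int.natAbs_eq (v i) with hvi | hvi
      · rw [hvi, zpow_natCast, Int.natAbs_natCast, ← mul_pow]
        exact (hm1 i).pow _
      · rw [hvi, zpow_neg, zpow_natCast, Int.natAbs_neg, Int.natAbs_natCast, ← inv_pow, ← mul_pow]
        exact (hm2 i).pow _
    · push_cast
      rw [← Finset.prod_inv_distrib, ← Finset.prod_mul_distrib]
      refine IsIntegral.prod _ fun i _ => ?_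
      rcases Int.natAbs_eq (v i) with hvi | hvi
      · rw [hvi, zpow_natCast, Int.natAbs_natCast, ← inv_pow, ← mul_pow]
        exact (hm2 i).pow _
      · rw [hvi, zpow_neg, zpow_natCast, Int.natAbs_neg, Int.natAbs_natCast, inv_inv, ← mul_pow]
        exact (hm1 i).pow _

theorem degenerate (N : ℕ) (hN : 1 ≤ N) (hBaker : Baker N) (d : ℕ) (M₀ : ℝ) (hM₀ : 1 ≤ M₀) (κ₀ : ℕ) :
    ∃ C : ℝ, 0 < C ∧ ∃ κ : ℕ, ∀ (L : Type) [Field L] [NumberField L], Module.finrank ℚ L ≤ d →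
      ∀ (σ₀ : L →+* ℂ) (α : Fin (N + 1) → L) (ℓ : Fin (N + 1) → ℂ) (h : Fin (N + 1) → ℝ),
      (∀ i, Adm σ₀ (α i) (ℓ i) (h i)) →
      ∀ (b : Fin (N + 1) → ℤ) (B : ℝ), 3 ≤ B → (∀ i, |(b i : ℝ)| ≤ B) →
      (∑ i, (b i : ℂ) * ℓ i) ≠ 0 →
      (∃ χ : Fin (N + 1) → ℤ, χ ≠ 0 ∧ ∑ i, χ i * b i = 0 ∧
        ∀ i, |(χ i : ℝ)| ≤ M₀ * Real.log (B * ∏ i, h i) ^ κ₀ * h i) →
      Real.exp (-(C * (∏ i, h i) * Real.log (B * ∏ i, h i) ^ κ)) ≤ ‖∑ i, (b i : ℂ) * ℓ i‖ := by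
  obtain ⟨C, hC, κ, hBk⟩ := hBaker d
  set C₁ : ℝ := 8 ^ N * (2 * (2 * ((N : ℝ) + 1)) ^ (N + 1)) with hC₁
  have hC₁1 : 1 ≤ C₁ := by
    have h8 : (1 : ℝ) ≤ 8 ^ N := one_le_pow₀ (by norm_num)
    have h2 : (1 : ℝ) ≤ (2 * ((N : ℝ) + 1)) ^ (N + 1) := one_le_pow₀ (by
      have : (0 : ℝ) ≤ N := Nat.cast_nonneg N
      linarith)
    exact one_le_mul_of_one_le_of_one_le h8 (by linarith)
  set F : ℝ := (N.factorial : ℝ) with hF
  have hF1 : 1 ≤ F := by
    rw [hF]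
    exact_mod_cast Nat.one_le_iff_ne_zero.mpr (Nat.factorial_ne_zero N)
  have hlF : 0 ≤ Real.log F := Real.log_nonneg hF1
  have hlC : 0 ≤ Real.log C₁ := Real.log_nonneg hC₁1
  have hlM : 0 ≤ Real.log M₀ := Real.log_nonneg hM₀
  set C₃ : ℝ := Real.log F + (N + 1) * (Real.log C₁ + Real.log M₀ + κ₀ + 1) + 1 with hC₃
  have hC₃1 : 1 ≤ C₃ := by
    have : 0 ≤ ((N : ℝ) + 1) * (Real.log C₁ + Real.log M₀ + κ₀ + 1) := by positivity
    rw [hC₃]
    linarith
  refine ⟨C * C₁ * M₀ * C₃ ^ κ + C₃, by positivity, κ₀ + κ + 1, ?_⟩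
  intro L _ _ hd σ₀ α ℓ h hA b B hB hbB hne ⟨χ, hχ0, hχb, hχM⟩
  set P : ℝ := ∏ i, h i with hP
  have hh1 : ∀ i, 1 ≤ h i := fun i => (hA i).one_le
  have hP1 : 1 ≤ P := DG3_one_le_prod _ _ (fun i _ => hh1 i)
  set l : ℝ := Real.log (B * P) with hl
  have hB0 : (0 : ℝ) < B := by linarith
  have hP0 : (0 : ℝ) < P := by linarith
  have hlBP : l = Real.log B + Real.log P := by
    rw [hl, Real.log_mul hB0.ne' hP0.ne']
  have hlB1 : 1 ≤ Real.log B := by
    rw [Real.le_log_iff_exp_le hB0]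
    exact (Real.exp_one_lt_d9.le.trans (by norm_num)).trans hB
  have hlP0 : 0 ≤ Real.log P := Real.log_nonneg hP1
  have hl1 : 1 ≤ l := by linarith
  set M : ℝ := M₀ * l ^ κ₀ with hM
  have hlk : 1 ≤ l ^ κ₀ := one_le_pow₀ hl1
  have hM1 : 1 ≤ M := one_le_mul_of_one_le_of_one_le hM₀ hlk
  obtain ⟨v, hvind, hvχ, hv0, hvprod⟩ := small_solutions N hN χ hχ0 h hh1 M hM1 hχM
  have hAj : ∀ j, Adm σ₀ (∏ i, α i ^ v j i) (∑ i, (v j i : ℂ) * ℓ i)
      (∑ i, |(v j i : ℝ)| * h i) := fun j => DG3_adm_prod σ₀ α ℓ h hA (v j) (hv0 j)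
  set P' : ℝ := ∏ j, (∑ i, |(v j i : ℝ)| * h i) with hP'
  set H : ℝ := C₁ * M * P with hH
  have hP'H : P' ≤ H := by
    refine hvprod.trans (le_of_eq ?_)
    rw [hH, hC₁, hP]
    ring
  have hP'1 : 1 ≤ P' := DG3_one_le_prod _ _ (fun j _ => (hAj j).one_le)
  have hH1 : 1 ≤ H := hP'1.trans hP'H
  have hvH : ∀ j i, |(v j i : ℝ)| ≤ H := by
    intro j i
    have h1 : |(v j i : ℝ)| ≤ ∑ i, |(v j i : ℝ)| * h i := by
      calc |(v j i : ℝ)| ≤ |(v j i : ℝ)| * h i := le_mul_of_one_le_right (abs_nonneg _) (hh1 i)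
        _ ≤ _ := Finset.single_le_sum (f := fun i => |(v j i : ℝ)| * h i)
            (fun k _ => mul_nonneg (abs_nonneg _) (zero_le_one.trans (hh1 k))) (Finset.mem_univ i)
    have h2 : (∑ i, |(v j i : ℝ)| * h i) ≤ P' := by
      rw [hP', ← Finset.mul_prod_erase Finset.univ (fun j => ∑ i, |(v j i : ℝ)| * h i)
        (Finset.mem_univ j)]
      exact le_mul_of_one_le_right (zero_le_one.trans (hAj j).one_le)
        (DG3_one_le_prod _ _ (fun j _ => (hAj j).one_le))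
    exact h1.trans (h2.trans hP'H)
  obtain ⟨q, c, hq0, hqc, hqH, hcH⟩ := cramer_int N χ b hχ0 hχb v hvχ hvind H B hH1 hvH
    (by linarith) hbB
  have hHN1 : 1 ≤ H ^ N := one_le_pow₀ hH1
  set B' : ℝ := F * (H ^ N * B) with hB'
  have hBB' : B ≤ B' := by
    have h1 : B ≤ H ^ N * B := le_mul_of_one_le_left hB0.le hHN1
    exact h1.trans (le_mul_of_one_le_left (hB0.le.trans h1) hF1)
  have hB'3 : 3 ≤ B' := hB.trans hBB'
  have hqB' : |(q : ℝ)| ≤ B' := by
    refine hqH.trans ?_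
    rw [hB', ← mul_assoc]
    exact le_mul_of_one_le_right (by positivity) (by linarith)
  have hsum : (∑ j, (c j : ℂ) * ∑ i, (v j i : ℂ) * ℓ i) = (q : ℂ) * ∑ i, (b i : ℂ) * ℓ i := by
    simp_rw [Finset.mul_sum]
    rw [Finset.sum_comm]
    refine Finset.sum_congr rfl fun i _ => ?_
    have h1 : (q : ℂ) * (b i : ℂ) = ∑ j, (c j : ℂ) * (v j i : ℂ) := by
      exact_mod_cast hqc i
    rw [← mul_assoc, h1, Finset.sum_mul]
    exact Finset.sum_congr rfl fun j _ => by ring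
  have hqC : (q : ℂ) ≠ 0 := by exact_mod_cast hq0
  have hne' : (∑ j, (c j : ℂ) * ∑ i, (v j i : ℂ) * ℓ i) ≠ 0 := by
    rw [hsum]
    exact mul_ne_zero hqC hne
  have key := hBk L hd σ₀ (fun j => ∏ i, α i ^ v j i) (fun j => ∑ i, (v j i : ℂ) * ℓ i)
    (fun j => ∑ i, |(v j i : ℝ)| * h i) hAj c B' hB'3 hcH hne'
  rw [hsum, norm_mul, Complex.norm_intCast] at key
  have hq0' : 0 < |(q : ℝ)| := abs_pos.mpr (by exact_mod_cast hq0)
  -- the logarithm of the new bound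
  have hH0 : 0 < H := by linarith
  have hF0 : 0 < F := by linarith
  have hB'0 : 0 < B' := by linarith
  have hP'0 : 0 < P' := by linarith
  have hlogH : Real.log H ≤ (Real.log C₁ + Real.log M₀ + κ₀ + 1) * l := by
    have hM0 : 0 < M := by linarith
    have hC0 : 0 < C₁ := by linarith
    have h1 : Real.log H = Real.log C₁ + (Real.log M₀ + κ₀ * Real.log l) + Real.log P := by
      rw [hH, Real.log_mul (mul_pos hC0 hM0).ne' hP0.ne', Real.log_mul hC0.ne' hM0.ne', hM,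
        Real.log_mul (by linarith : (0 : ℝ) < M₀).ne' (by positivity), Real.log_pow]
    have h2 : Real.log l ≤ l := (Real.log_le_sub_one_of_pos (by linarith)).trans (by linarith)
    have h3 : Real.log C₁ ≤ Real.log C₁ * l := le_mul_of_one_le_right hlC hl1
    have h4 : Real.log M₀ ≤ Real.log M₀ * l := le_mul_of_one_le_right hlM hl1
    have h5 : (κ₀ : ℝ) * Real.log l ≤ κ₀ * l := mul_le_mul_of_nonneg_left h2 (Nat.cast_nonneg _)
    have h6 : Real.log P ≤ l := by linarith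
    rw [h1]
    nlinarith
  have hlogB' : Real.log (B' * P') ≤ C₃ * l := by
    have h1 : B' * P' ≤ F * (H ^ N * B) * H := mul_le_mul_of_nonneg_left hP'H hB'0.le
    have h2 : Real.log (F * (H ^ N * B) * H) =
        Real.log F + (N * Real.log H + Real.log B) + Real.log H := by
      rw [Real.log_mul (by positivity) hH0.ne', Real.log_mul hF0.ne' (by positivity),
        Real.log_mul (by positivity) hB0.ne', Real.log_pow]
    have h3 : Real.log (B' * P') ≤ Real.log (F * (H ^ N * B) * H) :=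
      Real.log_le_log (by positivity) h1
    have h4 : ((N : ℝ) + 1) * Real.log H ≤
        (N + 1) * ((Real.log C₁ + Real.log M₀ + κ₀ + 1) * l) :=
      mul_le_mul_of_nonneg_left hlogH (by positivity)
    have h5 : Real.log F ≤ Real.log F * l := le_mul_of_one_le_right hlF hl1
    have h6 : Real.log B ≤ l := by linarith
    rw [h2] at h3
    rw [hC₃]
    nlinarith
  have hlB'P'0 : 0 ≤ Real.log (B' * P') := Real.log_nonneg (by nlinarith)
  have hlogq : Real.log |(q : ℝ)| ≤ C₃ * l := by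
    refine (Real.log_le_log hq0' ?_).trans hlogB'
    exact hqB'.trans (le_mul_of_one_le_right hB'0.le hP'1)
  -- the two terms
  have hpow : Real.log (B' * P') ^ κ ≤ C₃ ^ κ * l ^ κ := by
    rw [← mul_pow]
    exact pow_le_pow_left₀ hlB'P'0 hlogB' κ
  have hterm1 : C * P' * Real.log (B' * P') ^ κ ≤ C * C₁ * M₀ * C₃ ^ κ * P * l ^ (κ₀ + κ + 1) := by
    have h1 : C * P' * Real.log (B' * P') ^ κ ≤ C * H * (C₃ ^ κ * l ^ κ) := by
      apply mul_le_mul (mul_le_mul_of_nonneg_left hP'H hC.le) hpow (pow_nonneg hlB'P'0 _)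
      positivity
    have h2 : C * H * (C₃ ^ κ * l ^ κ) = C * C₁ * M₀ * C₃ ^ κ * P * l ^ (κ₀ + κ) := by
      rw [hH, hM]
      ring
    have h3 : l ^ (κ₀ + κ) ≤ l ^ (κ₀ + κ + 1) := pow_le_pow_right₀ hl1 (Nat.le_succ _)
    rw [h2] at h1
    refine h1.trans (mul_le_mul_of_nonneg_left h3 ?_)
    positivity
  have hterm2 : C₃ * l ≤ C₃ * P * l ^ (κ₀ + κ + 1) := by
    have h1 : l ≤ l ^ (κ₀ + κ + 1) := le_self_pow₀ hl1 (Nat.succ_ne_zero _)
    have h2 : C₃ ≤ C₃ * P := le_mul_of_one_le_right (by linarith) hP1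
    exact mul_le_mul h2 h1 (by linarith) (by positivity)
  have hfin : Real.exp (-((C * C₁ * M₀ * C₃ ^ κ + C₃) * P * l ^ (κ₀ + κ + 1))) * |(q : ℝ)| ≤
      |(q : ℝ)| * ‖∑ i, (b i : ℂ) * ℓ i‖ := by
    refine le_trans ?_ key
    have hq2 : |(q : ℝ)| = Real.exp (Real.log |(q : ℝ)|) := (Real.exp_log hq0').symm
    rw [hq2, ← Real.exp_add]
    apply Real.exp_le_exp.mpr
    have h1 : (C * C₁ * M₀ * C₃ ^ κ + C₃) * P * l ^ (κ₀ + κ + 1) =
        C * C₁ * M₀ * C₃ ^ κ * P * l ^ (κ₀ + κ + 1) + C₃ * P * l ^ (κ₀ + κ + 1) := by ring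
    linarith
  rw [mul_comm] at hfin
  exact le_of_mul_le_mul_left hfin hq0'

end Pool.Agent.LibST91
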