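import Pool.Agent.LibST91.ZEFro

/-!
# Elimination of the exponential variable
-/

set_option autoImplicit false

namespace Pool.Agent.LibST91

open MvPolynomial

theorem elimination {n L D : ℕ} (P : Fin L → MvPolynomial (Fin n) ℂ) (hP : ∃ l, P l ≠ 0)
    (hD : ∀ l, (P l).totalDegree ≤ D) (ζ : Fin n → ℂ) (β : ℂ) (hβ0 : β ≠ 0)
    (hβ : ∀ m : ℕ, 0 < m → β ^ m ≠ 1) :
    ∃ Δ : MvPolynomial (Fin n) ℂ, Δ ≠ 0 ∧ Δ.totalDegree ≤ L * D ∧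
      ∀ (z : Fin n → ℂ) (y : ℂ), y ≠ 0 →
        (∀ j : ℕ, j < L → ∑ l, eval (fun i => z i + j * ζ i) (P l) * (β ^ j * y) ^ (l : ℕ) = 0) →
        eval z Δ = 0 :=
  Pool.Agent.LibST91Z.elimination_fro P hP hD ζ β hβ0 hβ

end Pool.Agent.LibST91
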