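import Pool.Agent.LibST91.Defs

/-!
[ST GN1] Generators adapted to a flag, and the counting bound.

`Sat v i x` : some positive multiple of `x` is an integer combination of the `v j`, `j < i`.

PLAN of `adapted`: induction on `m`. For `Z ⊆ Sat v m` finite: every `z ∈ Z` has `k z = ∑_{j<m} c_j v_j`,
the `(m-1)`-th coordinate `c_{m-1}/k ∈ ℚ` is well defined (independence) and additive on `Sat v m`. The
subgroup of `ℚ` generated by the coordinates of the `z ∈ Z` is cyclic (finitely generated subgroup of `ℚ`: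
common denominator, then a subgroup of `ℤ`); if it is 0, then `Z ⊆ Sat v (m-1)` (put `e (m-1) := v (m-1)`,
`n z (m-1) := 0`); else let `e (m-1)` be an integer combination of elements of `Z` whose coordinate is
a generator. Subtract: `z - n_{m-1}(z) e_{m-1} ∈ Sat v (m-1)`, induction for this finite set.

PLAN of `count_le`: let `q i` be the least power of 2 with `2ρ < q i * lam i`
(so `q i ≤ max 1 (4ρ/lam i)` and `q` is decreasing, `q j ∣ q i` for `i ≤ j`). Take the `e, n` of `adapted` for `Z`.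
If `z ≠ w` in `Z` have `n z i ≡ n w i mod q i` for all `i < m`, let `i` be the largest index with
`n z i ≠ n w i`; then `z - w = q i • y` with `y = ∑_{j ≤ i} ((n z j - n w j)/q i) e j`, `y ∈ Sat v (i+1)`,
`y ∉ Sat v i` (else the coordinate of `e i` would vanish), so `lam i ≤ ν y` by `hlam`, and
`2ρ ≥ ν z + ν w ≥ ν (z - w) = q i ν y ≥ q i lam i > 2ρ`, a contradiction. So `Z.card ≤ ∏ q i`.
-/

set_option autoImplicit false

namespace Pool.Agent.LibST91

/-- The saturation of the group generated by the `v j`, `j < i`. -/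
def Sat {A : Type} [AddCommGroup A] (v : ℕ → A) (i : ℕ) (x : A) : Prop :=
  ∃ (k : ℕ) (c : ℕ → ℤ), 0 < k ∧ k • x = ∑ j ∈ Finset.range i, c j • v j

/-- Independence of the `v j`, `j < m`. -/
def Indep {A : Type} [AddCommGroup A] (v : ℕ → A) (m : ℕ) : Prop :=
  ∀ c : ℕ → ℤ, ∑ j ∈ Finset.range m, c j • v j = 0 → ∀ j < m, c j = 0

theorem GN1_sat_zero {A : Type} [AddCommGroup A] (v : ℕ → A) (i : ℕ) : Sat v i 0 :=
  ⟨1, fun _ => 0, one_pos, by simp⟩

theorem GN1_sat_add {A : Type} [AddCommGroup A] {v : ℕ → A} {i : ℕ} {x y : A}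
    (hx : Sat v i x) (hy : Sat v i y) : Sat v i (x + y) := by
  obtain ⟨k, c, hk, h⟩ := hx
  obtain ⟨l, d, hl, h'⟩ := hy
  refine ⟨k * l, fun j => (l : ℤ) * c j + (k : ℤ) * d j, Nat.mul_pos hk hl, ?_⟩
  have e1 : (k * l) • x = (l : ℤ) • ∑ j ∈ Finset.range i, c j • v j := by
    rw [← h, mul_comm, mul_smul]; simp
  have e2 : (k * l) • y = (k : ℤ) • ∑ j ∈ Finset.range i, d j • v j := by
    rw [← h', mul_smul]; simp
  rw [smul_add, e1, e2, Finset.smul_sum, Finset.smul_sum, ← Finset.sum_add_distrib]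
  refine Finset.sum_congr rfl fun j _ => ?_
  rw [add_smul, mul_smul, mul_smul]

theorem GN1_sat_zsmul {A : Type} [AddCommGroup A] {v : ℕ → A} {i : ℕ} {x : A}
    (hx : Sat v i x) (t : ℤ) : Sat v i (t • x) := by
  obtain ⟨k, c, hk, h⟩ := hx
  refine ⟨k, fun j => t * c j, hk, ?_⟩
  rw [smul_comm, h, Finset.smul_sum]
  exact Finset.sum_congr rfl fun j _ => by rw [mul_smul]

theorem GN1_sat_sum {A : Type} [AddCommGroup A] {v : ℕ → A} {i : ℕ} {ι : Type} (s : Finset ι)
    (f : ι → A) (h : ∀ a ∈ s, Sat v i (f a)) : Sat v i (∑ a ∈ s, f a) := by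
  classical
  induction s using Finset.induction_on with
  | empty => simpa using GN1_sat_zero v i
  | insert a s ha ih =>
    rw [Finset.sum_insert ha]
    exact GN1_sat_add (h a (Finset.mem_insert_self a s))
      (ih fun b hb => h b (Finset.mem_insert_of_mem hb))

theorem GN1_sat_mono {A : Type} [AddCommGroup A] {v : ℕ → A} {i j : ℕ} (hij : i ≤ j) {x : A}
    (hx : Sat v i x) : Sat v j x := by
  obtain ⟨k, c, hk, h⟩ := hx
  refine ⟨k, fun l => if l < i then c l else 0, hk, ?_⟩
  rw [h, ← Finset.sum_subset (Finset.range_mono hij)]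
  · refine Finset.sum_congr rfl fun l hl => ?_
    show c l • v l = (if l < i then c l else 0) • v l
    rw [if_pos (Finset.mem_range.1 hl)]
  · intro l _ hl
    show (if l < i then c l else 0) • v l = 0
    rw [if_neg (fun h => hl (Finset.mem_range.2 h)), zero_smul]

theorem GN1_sat_of_smul {A : Type} [AddCommGroup A] {v : ℕ → A} {i : ℕ} {x : A} {t : ℤ}
    (ht : t ≠ 0) (hx : Sat v i (t • x)) : Sat v i x := by
  obtain ⟨k, c, hk, h⟩ := hx
  refine ⟨k * t.natAbs, fun j => t.sign * c j, Nat.mul_pos hk (Int.natAbs_pos.2 ht), ?_⟩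
  have e1 : (k * t.natAbs) • x = t.sign • (k • (t • x)) := by
    have e2 : (k * t.natAbs) • x = ((k * t.natAbs : ℕ) : ℤ) • x := by rw [natCast_zsmul]
    have e3 : k • (t • x) = ((k : ℤ) * t) • x := by rw [mul_smul, natCast_zsmul]
    rw [e2, e3, ← mul_smul]
    congr 1
    push_cast
    have := Int.sign_mul_self_eq_abs t
    calc (k : ℤ) * |t| = (k : ℤ) * (t.sign * t) := by rw [Int.sign_mul_self_eq_abs t]
      _ = t.sign * ((k : ℤ) * t) := by ring
  rw [e1, h, Finset.smul_sum]
  exact Finset.sum_congr rfl fun j _ => by rw [mul_smul]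

theorem GN1_denom {A : Type} [AddCommGroup A] (v : ℕ → A) (i : ℕ) (Z : Finset A)
    (hZ : ∀ z ∈ Z, Sat v i z) :
    ∃ D : ℕ, 0 < D ∧ ∀ z ∈ Z, ∃ c : ℕ → ℤ, D • z = ∑ j ∈ Finset.range i, c j • v j := by
  classical
  induction Z using Finset.induction_on with
  | empty => exact ⟨1, one_pos, by simp⟩
  | insert a s ha ih =>
    obtain ⟨D, hD, h⟩ := ih fun z hz => hZ z (Finset.mem_insert_of_mem hz)
    obtain ⟨k, c, hk, hc⟩ := hZ a (Finset.mem_insert_self a s)
    refine ⟨k * D, Nat.mul_pos hk hD, fun z hz => ?_⟩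
    rcases Finset.mem_insert.1 hz with rfl | hz
    · refine ⟨fun j => (D : ℤ) * c j, ?_⟩
      rw [mul_comm, mul_smul, hc, Finset.smul_sum]
      refine Finset.sum_congr rfl fun j _ => ?_
      rw [mul_smul, natCast_zsmul]
    · obtain ⟨d, hd⟩ := h z hz
      refine ⟨fun j => (k : ℤ) * d j, ?_⟩
      rw [mul_smul, hd, Finset.smul_sum]
      refine Finset.sum_congr rfl fun j _ => ?_
      rw [mul_smul, natCast_zsmul]

theorem adapted {A : Type} [AddCommGroup A] (htf : ∀ (k : ℕ) (x : A), 0 < k → k • x = 0 → x = 0)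
    (v : ℕ → A) (m : ℕ) (hv : Indep v m) (Z : Finset A) (hZ : ∀ z ∈ Z, Sat v m z) :
    ∃ (e : ℕ → A) (n : A → ℕ → ℤ), (∀ i < m, Sat v (i + 1) (e i) ∧ ¬ Sat v i (e i)) ∧
      ∀ z ∈ Z, z = ∑ i ∈ Finset.range m, n z i • e i := by
  classical
  induction m generalizing Z with
  | zero =>
    refine ⟨v, fun _ _ => 0, fun i hi => absurd hi (Nat.not_lt_zero i), fun z hz => ?_⟩
    obtain ⟨k, c, hk, h⟩ := hZ z hz
    simpa using htf k z hk (by simpa using h)
  | succ m ih =>
    have hv' : Indep v m := by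
      intro c hc j hj
      have := hv (fun l => if l < m then c l else 0) (by
        rw [Finset.sum_range_succ, if_neg (lt_irrefl m), zero_smul, add_zero, ← hc]
        exact Finset.sum_congr rfl fun l hl => by rw [if_pos (Finset.mem_range.1 hl)]) j
        (Nat.lt_succ_of_lt hj)
      simpa [hj] using this
    obtain ⟨D, hD, hDZ⟩ := GN1_denom v (m + 1) Z hZ
    let H : AddSubgroup (A × ℤ) :=
      { carrier := {p | ∃ c : ℕ → ℤ, D • p.1 = ∑ j ∈ Finset.range m, c j • v j + p.2 • v m}
        zero_mem' := ⟨fun _ => 0, by simp⟩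
        add_mem' := by
          rintro p q ⟨c, hc⟩ ⟨d, hd⟩
          refine ⟨fun j => c j + d j, ?_⟩
          simp only [Prod.fst_add, Prod.snd_add, smul_add, hc, hd, add_smul, Finset.sum_add_distrib]
          abel
        neg_mem' := by
          rintro p ⟨c, hc⟩
          refine ⟨fun j => - c j, ?_⟩
          simp only [Prod.fst_neg, Prod.snd_neg, smul_neg, hc, neg_smul, Finset.sum_neg_distrib]
          abel }
    obtain ⟨g, hg⟩ := Int.subgroup_cyclic (H.map (AddMonoidHom.snd A ℤ))
    have hmem : ∀ p ∈ H, g ∣ p.2 := by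
      intro p hp
      have h1 : p.2 ∈ H.map (AddMonoidHom.snd A ℤ) := ⟨p, hp, rfl⟩
      rw [hg] at h1
      obtain ⟨t, ht⟩ := AddSubgroup.mem_closure_singleton.1 h1
      exact ⟨t, by rw [← ht]; simp [mul_comm]⟩
    have hgmem : g ∈ H.map (AddMonoidHom.snd A ℤ) := by
      rw [hg]; exact AddSubgroup.subset_closure rfl
    obtain ⟨⟨x, g'⟩, hxH, hxg⟩ := hgmem
    have hxg' : g' = g := hxg
    subst hxg'
    have hg0 : g' ≠ 0 := by
      intro h0
      have h1 : ((v m, (D : ℤ)) : A × ℤ) ∈ H := ⟨fun _ => 0, by simp⟩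
      have h2 := hmem _ h1
      rw [h0] at h2
      have h3 : (D : ℤ) = 0 := by simpa using h2
      exact absurd (by exact_mod_cast h3) hD.ne'
    obtain ⟨cx, hcx⟩ := hxH
    have hcx' : D • x = ∑ j ∈ Finset.range m, cx j • v j + g' • v m := hcx
    -- coordinates
    have hco : ∀ z ∈ Z, ∃ t : ℤ, Sat v m (z - t • x) := by
      intro z hz
      obtain ⟨c, hc⟩ := hDZ z hz
      rw [Finset.sum_range_succ] at hc
      have h1 : ((z, c m) : A × ℤ) ∈ H := ⟨c, hc⟩
      obtain ⟨t, ht⟩ := hmem _ h1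
      have ht' : c m = g' * t := ht
      refine ⟨t, D, fun j => c j - t * cx j, hD, ?_⟩
      rw [smul_sub, hc, smul_comm, hcx', smul_add, Finset.smul_sum, ht']
      simp only [sub_smul, Finset.sum_sub_distrib, mul_smul]
      rw [smul_comm g' t]
      abel
    choose! t ht using hco
    obtain ⟨e, n, he, hn⟩ := ih hv' (Z.image fun z => z - t z • x) (by
      intro w hw
      obtain ⟨z, hz, rfl⟩ := Finset.mem_image.1 hw
      exact ht z hz)
    refine ⟨fun i => if i < m then e i else x,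
      fun z i => if i < m then n (z - t z • x) i else t z, ?_, ?_⟩
    · intro i hi
      rcases Nat.lt_succ_iff_lt_or_eq.1 hi with h | h
      · simp only [if_pos h]; exact he i h
      · subst h
        simp only [if_neg (lt_irrefl i)]
        refine ⟨⟨D, fun j => if j < i then cx j else g', hD, ?_⟩, ?_⟩
        · rw [Finset.sum_range_succ, hcx']
          show _ = ∑ l ∈ Finset.range i, (if l < i then cx l else g') • v l +
            (if i < i then cx i else g') • v i
          rw [if_neg (lt_irrefl i)]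
          congr 1
          exact Finset.sum_congr rfl fun l hl => by rw [if_pos (Finset.mem_range.1 hl)]
        · rintro ⟨k, c, hk, hc⟩
          have h1 : (k : ℤ) • (∑ j ∈ Finset.range i, cx j • v j + g' • v i) =
              (D : ℤ) • ∑ j ∈ Finset.range i, c j • v j := by
            rw [← hcx', ← hc, natCast_zsmul, natCast_zsmul, smul_comm]
          have h2 := hv (fun j => if j < i then (k : ℤ) * cx j - (D : ℤ) * c j else (k : ℤ) * g') (by
            rw [Finset.sum_range_succ, if_neg (lt_irrefl i)]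
            have h3 : ∑ j ∈ Finset.range i,
                (if j < i then (k : ℤ) * cx j - (D : ℤ) * c j else (k : ℤ) * g') • v j =
                (k : ℤ) • ∑ j ∈ Finset.range i, cx j • v j -
                (D : ℤ) • ∑ j ∈ Finset.range i, c j • v j := by
              rw [Finset.smul_sum, Finset.smul_sum, ← Finset.sum_sub_distrib]
              refine Finset.sum_congr rfl fun l hl => ?_
              rw [if_pos (Finset.mem_range.1 hl), sub_smul, mul_smul, mul_smul]
            rw [h3, ← h1, smul_add, mul_smul]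
            abel) i (Nat.lt_succ_self i)
          simp only [if_neg (lt_irrefl i)] at h2
          rcases mul_eq_zero.1 h2 with h | h
          · exact hk.ne' (by exact_mod_cast h)
          · exact hg0 h
    · intro z hz
      have h1 := hn (z - t z • x) (Finset.mem_image_of_mem _ hz)
      rw [Finset.sum_range_succ]
      simp only [if_neg (lt_irrefl m)]
      have h2 : ∑ i ∈ Finset.range m, (if i < m then n (z - t z • x) i else t z) •
          (if i < m then e i else x) = ∑ i ∈ Finset.range m, n (z - t z • x) i • e i := by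
        refine Finset.sum_congr rfl fun l hl => ?_
        rw [if_pos (Finset.mem_range.1 hl), if_pos (Finset.mem_range.1 hl)]
      rw [h2, ← h1]
      abel

/-- The least power of two. -/
theorem GN1_pow (ρ lam : ℝ) (hρ : 0 ≤ ρ) (hl : 0 < lam) :
    ∃ r : ℕ, 2 * ρ < 2 ^ r * lam ∧ ((2 : ℝ) ^ r ≤ max 1 (4 * ρ / lam)) ∧
      ∀ s : ℕ, 2 * ρ < 2 ^ s * lam → r ≤ s := by
  classical
  have hex : ∃ r : ℕ, 2 * ρ < 2 ^ r * lam := by
    obtain ⟨r, hr⟩ := pow_unbounded_of_one_lt (2 * ρ / lam) (one_lt_two)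
    exact ⟨r, by rwa [div_lt_iff₀ hl] at hr⟩
  refine ⟨Nat.find hex, Nat.find_spec hex, ?_, fun s hs => Nat.find_min' hex hs⟩
  rcases Nat.eq_zero_or_pos (Nat.find hex) with h | h
  · rw [h]; simp
  · obtain ⟨k, hk⟩ : ∃ k, Nat.find hex = k + 1 := ⟨Nat.find hex - 1, by omega⟩
    have h1 : ¬ (2 * ρ < 2 ^ k * lam) := Nat.find_min hex (by omega)
    rw [hk]
    refine le_max_of_le_right ?_
    rw [le_div_iff₀ hl, pow_succ]
    push Not at h1
    nlinarith

theorem count_le {A : Type} [AddCommGroup A] (ν : A → ℝ) (hν : NormLike ν) (v : ℕ → A) (m : ℕ)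
    (hv : Indep v m) (lam : ℕ → ℝ) (hpos : ∀ i < m, 0 < lam i)
    (hmono : ∀ i j, i ≤ j → j < m → lam i ≤ lam j)
    (hlam : ∀ i < m, ∀ y : A, ¬ Sat v i y → lam i ≤ ν y)
    (ρ : ℝ) (hρ : 0 ≤ ρ) (Z : Finset A) (hZ : ∀ z ∈ Z, Sat v m z) (hZρ : ∀ z ∈ Z, ν z ≤ ρ) :
    (Z.card : ℝ) ≤ ∏ i ∈ Finset.range m, max 1 (4 * ρ / lam i) := by
  classical
  have h0 : ν 0 = 0 := by simpa using hν.nsmul 0 0
  have htf : ∀ (k : ℕ) (x : A), 0 < k → k • x = 0 → x = 0 := by
    intro k x hk hx
    refine hν.eq_zero x ?_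
    have h1 := hν.nsmul k x
    rw [hx, h0] at h1
    rcases mul_eq_zero.1 h1.symm with h | h
    · exact absurd (by exact_mod_cast h) hk.ne'
    · exact h
  obtain ⟨e, n, he, hn⟩ := adapted htf v m hv Z hZ
  have hq : ∀ i : ℕ, ∃ r : ℕ, i < m → (2 * ρ < 2 ^ r * lam i ∧
      ((2 : ℝ) ^ r ≤ max 1 (4 * ρ / lam i)) ∧ ∀ s : ℕ, 2 * ρ < 2 ^ s * lam i → r ≤ s) := by
    intro i
    by_cases hi : i < m
    · obtain ⟨r, hr⟩ := GN1_pow ρ (lam i) hρ (hpos i hi)
      exact ⟨r, fun _ => hr⟩
    · exact ⟨0, fun h => absurd h hi⟩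
  choose r hr using hq
  have hdvd : ∀ i j, i ≤ j → j < m → ((2 : ℤ) ^ r j) ∣ (2 : ℤ) ^ r i := by
    intro i j hij hj
    refine pow_dvd_pow _ ((hr j hj).2.2 _ (lt_of_lt_of_le (hr i (lt_of_le_of_lt hij hj)).1 ?_))
    exact mul_le_mul_of_nonneg_left (hmono i j hij hj) (by positivity)
  -- the residues
  let f : A → (Fin m → ℤ) := fun z i => n z i % (2 ^ r i : ℤ)
  have hmaps : ∀ z ∈ Z, f z ∈ Fintype.piFinset (fun i : Fin m => Finset.Ico (0 : ℤ) (2 ^ r i)) := by
    intro z _
    rw [Fintype.mem_piFinset]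
    intro i
    rw [Finset.mem_Ico]
    exact ⟨Int.emod_nonneg _ (by positivity), Int.emod_lt_of_pos _ (by positivity)⟩
  have hinj : ∀ z ∈ Z, ∀ w ∈ Z, f z = f w → z = w := by
    intro z hz w hw hfw
    by_contra hne
    have hex : ∃ i, i < m ∧ n z i ≠ n w i := by
      by_contra hcon
      push Not at hcon
      apply hne
      rw [hn z hz, hn w hw]
      exact Finset.sum_congr rfl fun i hi => by rw [hcon i (Finset.mem_range.1 hi)]
    obtain ⟨i, ⟨him, hi⟩, hmax⟩ : ∃ i, (i < m ∧ n z i ≠ n w i) ∧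
        ∀ j, i < j → j < m → n z j = n w j := by
      let S := (Finset.range m).filter fun i => n z i ≠ n w i
      have hS : S.Nonempty := by
        obtain ⟨i, hi, hi'⟩ := hex
        exact ⟨i, by simp [S, hi, hi']⟩
      refine ⟨S.max' hS, ?_, ?_⟩
      · have := S.max'_mem hS
        simpa [S] using this
      · intro j hj hjm
        by_contra hcon
        have : j ∈ S := by simp [S, hjm, hcon]
        exact absurd (S.le_max' j this) (not_le.2 hj)
    have hdiv : ∀ j ≤ i, ((2 : ℤ) ^ r i) ∣ (n z j - n w j) := by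
      intro j hj
      have hjm : j < m := lt_of_le_of_lt hj him
      have h1 := congrFun hfw ⟨j, hjm⟩
      have h2 : n z j % (2 ^ r j : ℤ) = n w j % (2 ^ r j : ℤ) := h1
      exact dvd_trans (hdvd j i hj him) (Int.ModEq.dvd (Int.ModEq.symm h2))
    have hquot : ∀ j, ∃ t : ℤ, j ≤ i → n z j - n w j = 2 ^ r i * t := by
      intro j
      by_cases hj : j ≤ i
      · obtain ⟨t, ht⟩ := hdiv j hj
        exact ⟨t, fun _ => ht⟩
      · exact ⟨0, fun h => absurd h hj⟩
    choose t ht using hquot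
    set y : A := ∑ j ∈ Finset.range (i + 1), t j • e j with hy
    have hzw : z - w = (2 ^ r i : ℕ) • y := by
      have e1 : z - w = ∑ j ∈ Finset.range m, (n z j - n w j) • e j := by
        conv_lhs => rw [hn z hz, hn w hw]
        rw [← Finset.sum_sub_distrib]
        exact Finset.sum_congr rfl fun j _ => by rw [sub_smul]
      rw [e1, ← Finset.sum_subset (Finset.range_mono (Nat.succ_le_of_lt him))]
      · rw [hy, Finset.smul_sum]
        refine Finset.sum_congr rfl fun j hj => ?_
        rw [ht j (Nat.lt_succ_iff.1 (Finset.mem_range.1 hj)), mul_smul]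
        rw [← natCast_zsmul]
        push_cast
        rfl
      · intro j hj hj'
        have hj1 : i < j := by
          have := Finset.mem_range.not.1 hj'
          omega
        rw [hmax j hj1 (Finset.mem_range.1 hj), sub_self, zero_smul]
    have hynot : ¬ Sat v i y := by
      intro hsat
      have h1 : Sat v i (t i • e i) := by
        have h2 : t i • e i = y + (-1 : ℤ) • ∑ j ∈ Finset.range i, t j • e j := by
          rw [hy, Finset.sum_range_succ]
          simp
        rw [h2]
        refine GN1_sat_add hsat (GN1_sat_zsmul (GN1_sat_sum _ _ fun j hj => ?_) _)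
        have hj' := Finset.mem_range.1 hj
        exact GN1_sat_zsmul (GN1_sat_mono (Nat.succ_le_of_lt hj')
          (he j (lt_trans hj' him)).1) _
      have hti : t i ≠ 0 := by
        intro h
        have := ht i le_rfl
        rw [h, mul_zero, sub_eq_zero] at this
        exact hi this
      exact (he i him).2 (GN1_sat_of_smul hti h1)
    have h3 := hlam i him y hynot
    have h4 : ν (z - w) = (2 : ℝ) ^ r i * ν y := by
      rw [hzw, hν.nsmul]; push_cast; rfl
    have h5 : ν (z - w) ≤ 2 * ρ := by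
      have := hν.add_le z (-w)
      rw [hν.neg, ← sub_eq_add_neg] at this
      linarith [hZρ z hz, hZρ w hw]
    have h6 := (hr i him).1
    have h7 : (2 : ℝ) ^ r i * lam i ≤ 2 ^ r i * ν y := mul_le_mul_of_nonneg_left h3 (by positivity)
    linarith
  have hcard : Z.card ≤ (Fintype.piFinset (fun i : Fin m => Finset.Ico (0 : ℤ) (2 ^ r i))).card :=
    Finset.card_le_card_of_injOn f hmaps (fun z hz w hw h => hinj z hz w hw h)
  rw [Fintype.card_piFinset] at hcard
  have hc2 : ∏ i : Fin m, (Finset.Ico (0 : ℤ) (2 ^ r i)).card = ∏ i : Fin m, 2 ^ r (i : ℕ) := by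
    refine Finset.prod_congr rfl fun i _ => ?_
    rw [Int.card_Ico, sub_zero]
    have : ((2 : ℤ) ^ r (i : ℕ)) = ((2 ^ r (i : ℕ) : ℕ) : ℤ) := by push_cast; rfl
    rw [this, Int.toNat_natCast]
  rw [hc2] at hcard
  calc (Z.card : ℝ) ≤ ((∏ i : Fin m, 2 ^ r (i : ℕ) : ℕ) : ℝ) := by exact_mod_cast hcard
    _ = ∏ i : Fin m, (2 : ℝ) ^ r (i : ℕ) := by push_cast; rfl
    _ ≤ ∏ i : Fin m, max 1 (4 * ρ / lam i) :=
        Finset.prod_le_prod (fun i _ => by positivity) fun i _ => (hr i i.2).2.1
    _ = ∏ i ∈ Finset.range m, max 1 (4 * ρ / lam i) := by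
        rw [Finset.prod_range]

end Pool.Agent.LibST91
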