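import Mathlib

/-! # ST91, zero estimate: elimination of `Y` by a determinant (helper74) -/

set_option autoImplicit false

namespace Pool.Agent.LibST91Z

open Finset

/-- coefficient of a product with degree bounds -/
theorem coeff_prod {ι : Type} (s : Finset ι) (f : ι → Polynomial ℂ) (e : ι → ℕ) (h : ∀ i ∈ s, (f i).natDegree ≤ e i) :
    (∏ i ∈ s, f i).natDegree ≤ ∑ i ∈ s, e i ∧ (∏ i ∈ s, f i).coeff (∑ i ∈ s, e i) = ∏ i ∈ s, (f i).coeff (e i) := by
  classical
  induction s using Finset.induction_on with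
  | empty => simp
  | insert a s ha ih =>
    obtain ⟨h1, h2⟩ := ih fun i hi => h i (Finset.mem_insert_of_mem hi)
    have h3 := h a (Finset.mem_insert_self a s)
    rw [Finset.prod_insert ha, Finset.sum_insert ha, Finset.prod_insert ha]
    exact ⟨Polynomial.natDegree_mul_le.trans (Nat.add_le_add h3 h1), by
      rw [Polynomial.coeff_mul_add_eq_of_natDegree_le h3 h1, h2]⟩

/-- coefficient of a determinant with degree bounds on the columns -/
theorem coeff_det {a : ℕ} (M : Matrix (Fin a) (Fin a) (Polynomial ℂ)) (e : Fin a → ℕ) (h : ∀ j c, (M j c).natDegree ≤ e c) :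
    M.det.coeff (∑ c, e c) = (Matrix.of fun j c => (M j c).coeff (e c)).det := by
  rw [Matrix.det_apply', Matrix.det_apply', Polynomial.finsetSum_coeff]
  refine Finset.sum_congr rfl fun σ _ => ?_
  rw [Polynomial.coeff_intCast_mul]
  congr 1
  rw [(coeff_prod Finset.univ (fun c => M (σ c) c) e fun c _ => h _ c).2]
  rfl

/-- the polynomial `P_l(z + j v)` -/
noncomputable def PP {n K L : ℕ} (P : (Fin n → Fin K) → Fin L → ℂ) (v : Fin n → ℂ) (j : ℕ) (l : Fin L) :
    MvPolynomial (Fin n) ℂ :=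
  ∑ k, MvPolynomial.C (P k l) * ∏ i, (MvPolynomial.X i + MvPolynomial.C ((j : ℂ) * v i)) ^ (k i : ℕ)

theorem PP_eval {n K L : ℕ} (P : (Fin n → Fin K) → Fin L → ℂ) (v : Fin n → ℂ) (j : ℕ) (l : Fin L) (z : Fin n → ℂ) :
    MvPolynomial.eval z (PP P v j l) = ∑ k, P k l * ∏ i, (z i + j * v i) ^ (k i : ℕ) := by
  unfold PP
  simp only [map_sum, map_mul, map_prod, map_pow, map_add, MvPolynomial.eval_C, MvPolynomial.eval_X]

theorem PP_deg {n K L : ℕ} (P : (Fin n → Fin K) → Fin L → ℂ) (v : Fin n → ℂ) (j : ℕ) (l : Fin L) (i : Fin n) :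
    (PP P v j l).degreeOf i ≤ K - 1 := by
  classical
  unfold PP
  refine (MvPolynomial.degreeOf_sum_le i _ _).trans (Finset.sup_le fun k _ => ?_)
  refine (MvPolynomial.degreeOf_C_mul_le _ i _).trans ?_
  refine (MvPolynomial.degreeOf_prod_le i _ _).trans ?_
  have h1 : ∀ i' : Fin n, MvPolynomial.degreeOf i ((MvPolynomial.X i' + MvPolynomial.C ((j : ℂ) * v i')) ^ (k i' : ℕ) :
      MvPolynomial (Fin n) ℂ) ≤ if i' = i then (k i : ℕ) else 0 := by
    intro i'
    refine (MvPolynomial.degreeOf_pow_le i _ _).trans ?_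
    have h2 : MvPolynomial.degreeOf i (MvPolynomial.X i' + MvPolynomial.C ((j : ℂ) * v i') : MvPolynomial (Fin n) ℂ) ≤
        if i' = i then 1 else 0 := by
      refine (MvPolynomial.degreeOf_add_le i _ _).trans ?_
      rw [MvPolynomial.degreeOf_C, MvPolynomial.degreeOf_X]
      split_ifs with h3 h4 h4
      · simp
      · exact absurd h3.symm h4
      · simp
      · simp
    split_ifs at h2 ⊢ with h3
    · subst h3
      calc (k i' : ℕ) * _ ≤ (k i' : ℕ) * 1 := Nat.mul_le_mul_left _ h2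
        _ = k i' := mul_one _
    · calc (k i' : ℕ) * _ ≤ (k i' : ℕ) * 0 := Nat.mul_le_mul_left _ h2
        _ = 0 := mul_zero _
  refine (Finset.sum_le_sum fun i' _ => h1 i').trans ?_
  rw [Finset.sum_ite_eq' Finset.univ i, if_pos (Finset.mem_univ i)]
  have := (k i).2
  omega

theorem PP_tdeg {n K L : ℕ} (P : (Fin n → Fin K) → Fin L → ℂ) (v : Fin n → ℂ) (j : ℕ) (l : Fin L) (T : ℕ)
    (hT : ∀ k, P k l ≠ 0 → ∑ i, (k i : ℕ) ≤ T) : (PP P v j l).totalDegree ≤ T := by
  unfold PP
  refine MvPolynomial.totalDegree_finsetSum_le fun k _ => ?_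
  by_cases h : P k l = 0
  · rw [h, map_zero, zero_mul, MvPolynomial.totalDegree_zero]
    exact Nat.zero_le _
  · refine (MvPolynomial.totalDegree_mul _ _).trans ?_
    rw [MvPolynomial.totalDegree_C, zero_add]
    refine (MvPolynomial.totalDegree_finsetProd _ _).trans ?_
    refine le_trans (Finset.sum_le_sum fun i _ => ?_) (hT k h)
    refine (MvPolynomial.totalDegree_pow _ _).trans ?_
    refine (Nat.mul_le_mul_left _ ((MvPolynomial.totalDegree_add _ _).trans ?_)).trans (by rw [mul_one])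
    rw [MvPolynomial.totalDegree_X, MvPolynomial.totalDegree_C]
    simp

/-- the substitution `z_i = t^(K^i)` -/
noncomputable def sub {n : ℕ} (K : ℕ) : MvPolynomial (Fin n) ℂ →+* Polynomial ℂ :=
  MvPolynomial.eval₂Hom Polynomial.C fun i : Fin n => Polynomial.X ^ (K ^ (i : ℕ))

theorem sub_PP {n K L : ℕ} (P : (Fin n → Fin K) → Fin L → ℂ) (v : Fin n → ℂ) (j : ℕ) (l : Fin L) :
    sub K (PP P v j l) = ∑ k, Polynomial.C (P k l) * ∏ i : Fin n, (Polynomial.X ^ (K ^ (i : ℕ)) + Polynomial.C ((j : ℂ) * v i)) ^ (k i : ℕ) := by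
  unfold sub PP
  simp only [map_sum, map_mul, map_prod, map_pow, map_add, MvPolynomial.coe_eval₂Hom, MvPolynomial.eval₂_C,
    MvPolynomial.eval₂_X]

theorem monic_term {n K : ℕ} (hK : 1 ≤ K) (w : Fin n → ℂ) (k : Fin n → Fin K) :
    (∏ i : Fin n, (Polynomial.X ^ (K ^ (i : ℕ)) + Polynomial.C (w i)) ^ (k i : ℕ) : Polynomial ℂ).Monic ∧
    (∏ i : Fin n, (Polynomial.X ^ (K ^ (i : ℕ)) + Polynomial.C (w i)) ^ (k i : ℕ) : Polynomial ℂ).natDegree =
      (finFunctionFinEquiv k : ℕ) := by
  have h1 : ∀ i : Fin n, (Polynomial.X ^ (K ^ (i : ℕ)) + Polynomial.C (w i) : Polynomial ℂ).Monic := fun i =>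
    Polynomial.monic_X_pow_add_C _ (pow_ne_zero _ (by omega))
  constructor
  · exact Polynomial.monic_prod_of_monic _ _ fun i _ => (h1 i).pow _
  · rw [Polynomial.natDegree_prod_of_monic _ _ fun i _ => (h1 i).pow _, finFunctionFinEquiv_apply]
    refine Finset.sum_congr rfl fun i _ => ?_
    rw [(h1 i).natDegree_pow, Polynomial.natDegree_X_pow_add_C]

/-- leading term of `P_l(z + j v)` after the substitution: it does not depend on `j` -/
theorem lead {n K L : ℕ} (hK : 1 ≤ K) (P : (Fin n → Fin K) → Fin L → ℂ) (v : Fin n → ℂ) (l : Fin L) (hl : ∃ k, P k l ≠ 0) :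
    ∃ (e : ℕ) (c : ℂ), c ≠ 0 ∧ ∀ j : ℕ, (sub K (PP P v j l)).natDegree ≤ e ∧ (sub K (PP P v j l)).coeff e = c := by
  classical
  set A := (Finset.univ : Finset (Fin n → Fin K)).filter (fun k => P k l ≠ 0) with hA
  obtain ⟨k0, hk0⟩ := hl
  have hne : A.Nonempty := ⟨k0, by rw [hA, Finset.mem_filter]; exact ⟨Finset.mem_univ _, hk0⟩⟩
  obtain ⟨k1, hk1, hmax⟩ := Finset.exists_max_image A (fun k => (finFunctionFinEquiv k : ℕ)) hne
  have hk1' : P k1 l ≠ 0 := (Finset.mem_filter.mp hk1).2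
  refine ⟨(finFunctionFinEquiv k1 : ℕ), P k1 l, hk1', fun j => ?_⟩
  rw [sub_PP]
  have hterm : ∀ k : Fin n → Fin K, (Polynomial.C (P k l) *
      ∏ i : Fin n, (Polynomial.X ^ (K ^ (i : ℕ)) + Polynomial.C ((j : ℂ) * v i)) ^ (k i : ℕ) : Polynomial ℂ).natDegree ≤
      (finFunctionFinEquiv k1 : ℕ) := by
    intro k
    by_cases h : P k l = 0
    · rw [h, Polynomial.C_0, zero_mul, Polynomial.natDegree_zero]
      exact Nat.zero_le _
    · refine (Polynomial.natDegree_C_mul_le _ _).trans ?_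
      rw [(monic_term hK (fun i => (j : ℂ) * v i) k).2]
      exact hmax k (by rw [hA, Finset.mem_filter]; exact ⟨Finset.mem_univ _, h⟩)
  constructor
  · exact Polynomial.natDegree_sum_le_of_forall_le _ _ fun k _ => hterm k
  · rw [Polynomial.finsetSum_coeff, Finset.sum_eq_single_of_mem k1 (Finset.mem_univ _)]
    · rw [Polynomial.coeff_C_mul]
      have h1 := monic_term hK (fun i => (j : ℂ) * v i) k1
      have h2 := h1.1.coeff_natDegree
      rw [h1.2] at h2
      rw [h2, mul_one]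
    · intro k _ hk
      rw [Polynomial.coeff_C_mul]
      by_cases h : P k l = 0
      · rw [h, zero_mul]
      · rw [Polynomial.coeff_eq_zero_of_natDegree_lt, mul_zero]
        rw [(monic_term hK (fun i => (j : ℂ) * v i) k).2]
        refine lt_of_le_of_ne (hmax k (by rw [hA, Finset.mem_filter]; exact ⟨Finset.mem_univ _, h⟩)) fun h' => hk ?_
        exact finFunctionFinEquiv.injective (Fin.ext h')

/-- **Elimination.** -/
theorem elim {n K L : ℕ} (hK : 1 ≤ K) (hL : 1 ≤ L) (P : (Fin n → Fin K) → Fin L → ℂ) (hP : ∃ k l, P k l ≠ 0) (β : ℂ)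
    (hβ : ∀ a c : ℕ, a < L → c < L → β ^ a = β ^ c → a = c) (v : Fin n → ℂ) :
    ∃ D : MvPolynomial (Fin n) ℂ, D ≠ 0 ∧ (∀ i, D.degreeOf i < K * L) ∧
      (∀ T : ℕ, (∀ k l, P k l ≠ 0 → ∑ i, (k i : ℕ) ≤ T) → D.totalDegree ≤ L * T) ∧
      ∀ (z : Fin n → ℂ) (y : ℂ), y ≠ 0 →
        (∀ j : ℕ, j < L → ∑ k, ∑ l : Fin L, P k l * (∏ i, (z i + j * v i) ^ (k i : ℕ)) * (y * β ^ j) ^ (l : ℕ) = 0) →
        MvPolynomial.eval z D = 0 := by
  classical
  set A := (Finset.univ : Finset (Fin L)).filter (fun l => ∃ k, P k l ≠ 0) with hA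
  set a := A.card with ha
  have haL : a ≤ L := by
    rw [ha]
    refine (Finset.card_le_univ _).trans ?_
    rw [Fintype.card_fin]
  have ha0 : 0 < a := by
    obtain ⟨k, l, h⟩ := hP
    rw [ha, Finset.card_pos]
    exact ⟨l, by rw [hA, Finset.mem_filter]; exact ⟨Finset.mem_univ _, k, h⟩⟩
  set o : Fin a → Fin L := fun c => A.orderEmbOfFin ha.symm c with ho
  have hoinj : Function.Injective o := (A.orderEmbOfFin ha.symm).injective
  have homem : ∀ c, ∃ k, P k (o c) ≠ 0 := fun c =>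
    (Finset.mem_filter.mp (Finset.orderEmbOfFin_mem A ha.symm c)).2
  have horange : ∀ l ∈ A, ∃ c, o c = l := by
    intro l hl
    have : l ∈ Set.range (A.orderEmbOfFin ha.symm) := by
      rw [Finset.range_orderEmbOfFin]
      exact hl
    exact this
  set M : Matrix (Fin a) (Fin a) (MvPolynomial (Fin n) ℂ) :=
    Matrix.of fun j c => PP P v j (o c) * MvPolynomial.C (β ^ ((j : ℕ) * (o c : ℕ))) with hM
  refine ⟨M.det, ?_, ?_, ?_, ?_⟩
  · -- nonzero
    intro hdet
    choose e c he hec using fun c : Fin a => lead hK P v (o c) (homem c)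
    have h1 : (sub K M.det) = 0 := by rw [hdet, map_zero]
    rw [RingHom.map_det] at h1
    have h2 := coeff_det ((sub K).mapMatrix M) e (by
      intro j c'
      rw [RingHom.mapMatrix_apply, Matrix.map_apply, hM, Matrix.of_apply, map_mul]
      have : (sub (n := n) K (MvPolynomial.C (β ^ ((j : ℕ) * (o c' : ℕ)))) : Polynomial ℂ) = Polynomial.C (β ^ ((j : ℕ) * (o c' : ℕ))) := by
        unfold sub
        rw [MvPolynomial.coe_eval₂Hom, MvPolynomial.eval₂_C]
      rw [this]
      exact (Polynomial.natDegree_mul_C_le _ _).trans (hec c' j).1)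
    rw [h1, Polynomial.coeff_zero] at h2
    have h3 : (Matrix.of fun (j : Fin a) (c' : Fin a) => (((sub K).mapMatrix M) j c').coeff (e c')) =
        Matrix.of fun (j : Fin a) (c' : Fin a) => c c' * (Matrix.vandermonde fun c'' => β ^ (o c'' : ℕ)).transpose j c' := by
      ext j c'
      rw [Matrix.of_apply, Matrix.of_apply, RingHom.mapMatrix_apply, Matrix.map_apply, hM, Matrix.of_apply, map_mul]
      have : (sub (n := n) K (MvPolynomial.C (β ^ ((j : ℕ) * (o c' : ℕ)))) : Polynomial ℂ) = Polynomial.C (β ^ ((j : ℕ) * (o c' : ℕ))) := by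
        unfold sub
        rw [MvPolynomial.coe_eval₂Hom, MvPolynomial.eval₂_C]
      rw [this, Polynomial.coeff_mul_C, (hec c' j).2, Matrix.transpose_apply, Matrix.vandermonde_apply, ← pow_mul,
        mul_comm (j : ℕ)]
    rw [h3, Matrix.det_mul_row, Matrix.det_transpose] at h2
    have h4 : (Matrix.vandermonde fun c'' => β ^ (o c'' : ℕ)).det ≠ 0 := by
      rw [Matrix.det_vandermonde_ne_zero_iff]
      intro c1 c2 h
      exact hoinj (Fin.ext (hβ _ _ (o c1).2 (o c2).2 h))
    exact (mul_ne_zero (Finset.prod_ne_zero_iff.mpr fun c' _ => he c') h4) h2.symm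
  · -- degree
    intro i
    rw [Matrix.det_apply']
    refine lt_of_le_of_lt (MvPolynomial.degreeOf_sum_le i _ _) ?_
    have hKL : 0 < K * L := Nat.mul_pos hK hL
    rw [Finset.sup_lt_iff hKL]
    intro σ _
    have h1 : MvPolynomial.degreeOf i (((Equiv.Perm.sign σ : ℤ) : MvPolynomial (Fin n) ℂ) * ∏ c, M (σ c) c) ≤ a * (K - 1) := by
      have h2 : (((Equiv.Perm.sign σ : ℤ) : MvPolynomial (Fin n) ℂ)) = MvPolynomial.C ((Equiv.Perm.sign σ : ℤ) : ℂ) := by
        simp
      rw [h2]
      refine (MvPolynomial.degreeOf_C_mul_le _ i _).trans ?_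
      refine (MvPolynomial.degreeOf_prod_le i _ _).trans ?_
      refine (Finset.sum_le_card_nsmul _ _ (K - 1) fun c _ => ?_).trans (by rw [Finset.card_univ, Fintype.card_fin, smul_eq_mul])
      rw [hM, Matrix.of_apply, mul_comm]
      exact (MvPolynomial.degreeOf_C_mul_le _ i _).trans (PP_deg P v _ _ i)
    refine lt_of_le_of_lt h1 ?_
    calc a * (K - 1) ≤ L * (K - 1) := Nat.mul_le_mul_right _ haL
      _ < L * K := Nat.mul_lt_mul_of_pos_left (by omega) (by omega)
      _ = K * L := mul_comm _ _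
  · -- total degree
    intro T hT
    rw [Matrix.det_apply']
    refine MvPolynomial.totalDegree_finsetSum_le fun σ _ => ?_
    have h2 : (((Equiv.Perm.sign σ : ℤ) : MvPolynomial (Fin n) ℂ)) = MvPolynomial.C ((Equiv.Perm.sign σ : ℤ) : ℂ) := by
      simp
    rw [h2]
    refine (MvPolynomial.totalDegree_mul _ _).trans ?_
    rw [MvPolynomial.totalDegree_C, zero_add]
    refine (MvPolynomial.totalDegree_finsetProd _ _).trans ?_
    have h3 : ∀ c ∈ (Finset.univ : Finset (Fin a)), (M (σ c) c).totalDegree ≤ T := by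
      intro c _
      rw [hM, Matrix.of_apply]
      refine (MvPolynomial.totalDegree_mul _ _).trans ?_
      rw [MvPolynomial.totalDegree_C, add_zero]
      exact PP_tdeg P v _ _ T (fun k => hT k _)
    refine (Finset.sum_le_card_nsmul _ _ T h3).trans ?_
    rw [Finset.card_univ, Fintype.card_fin, smul_eq_mul]
    exact Nat.mul_le_mul_right _ haL
  · -- vanishing
    intro z y hy hvan
    rw [RingHom.map_det]
    rw [← Matrix.exists_mulVec_eq_zero_iff]
    refine ⟨fun c => y ^ (o c : ℕ), ?_, ?_⟩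
    · intro h
      have := congrFun h ⟨0, ha0⟩
      simp only [Pi.zero_apply] at this
      exact pow_ne_zero _ hy this
    · ext j
      have hj : (j : ℕ) < L := lt_of_lt_of_le j.2 haL
      rw [Matrix.mulVec, dotProduct, Pi.zero_apply, ← hvan j hj, Finset.sum_comm]
      have h1 : ∀ l : Fin L, ∑ k, P k l * (∏ i, (z i + (j : ℕ) * v i) ^ (k i : ℕ)) * (y * β ^ (j : ℕ)) ^ (l : ℕ) =
          MvPolynomial.eval z (PP P v j l) * β ^ ((j : ℕ) * (l : ℕ)) * y ^ (l : ℕ) := by
        intro l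
        rw [PP_eval, ← Finset.sum_mul, mul_pow, ← pow_mul]
        ring
      simp_rw [h1]
      have h2 : ∑ l : Fin L, MvPolynomial.eval z (PP P v j l) * β ^ ((j : ℕ) * (l : ℕ)) * y ^ (l : ℕ) =
          ∑ l ∈ A, MvPolynomial.eval z (PP P v j l) * β ^ ((j : ℕ) * (l : ℕ)) * y ^ (l : ℕ) := by
        symm
        refine Finset.sum_subset (Finset.subset_univ _) fun l _ hl => ?_
        have : ∀ k, P k l = 0 := by
          intro k
          by_contra h
          exact hl (by rw [hA, Finset.mem_filter]; exact ⟨Finset.mem_univ _, k, h⟩)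
        rw [PP_eval]
        simp [this]
      rw [h2]
      have h3 : A = Finset.univ.image o := by
        ext l
        rw [Finset.mem_image]
        constructor
        · intro hl
          obtain ⟨c, hc⟩ := horange l hl
          exact ⟨c, Finset.mem_univ _, hc⟩
        · rintro ⟨c, _, rfl⟩
          exact Finset.orderEmbOfFin_mem A ha.symm c
      rw [h3, Finset.sum_image fun c _ c' _ h => hoinj h]
      refine Finset.sum_congr rfl fun c _ => ?_
      rw [RingHom.mapMatrix_apply, Matrix.map_apply, hM, Matrix.of_apply, map_mul, MvPolynomial.eval_C]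

end Pool.Agent.LibST91Z
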