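import Mathlib

/-! # ST91, zero estimate: reduction of a complex polynomial modulo a prime (helper74) -/

set_option autoImplicit false

namespace Pool.Agent.LibST91Z

open Finset MvPolynomial

/-- A complex polynomial with degrees `< p` that vanishes at the rational points of a box meeting every class is zero. -/
theorem red {n : ℕ} (p : ℕ) [Fact p.Prime] (b : Fin n → ℤ) (b0 : ℤ) (hpb : ¬ (p : ℤ) ∣ b0) (D : MvPolynomial (Fin n) ℂ)
    (hdeg : ∀ i, D.degreeOf i < p) (S : Fin n → ℕ) (S0 : ℕ)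
    (hcov : ∀ c : Fin n → ZMod p, ∃ (s : Fin n → ℤ) (s0 : ℤ), (∀ j, |s j| ≤ S j) ∧ |s0| ≤ S0 ∧
      ∀ j, (s j : ZMod p) - s0 * b j * (b0 : ZMod p)⁻¹ = c j)
    (hv : ∀ (s : Fin n → ℤ) (s0 : ℤ), (∀ j, |s j| ≤ S j) → |s0| ≤ S0 →
      MvPolynomial.eval (fun j => (s j : ℂ) - s0 * b j / b0) D = 0) : D = 0 := by
  classical
  have hp : p.Prime := Fact.out
  by_contra hD
  obtain ⟨m0, hm0⟩ := MvPolynomial.ne_zero_iff.mp hD
  obtain ⟨φ, hφ⟩ : ∃ φ : Module.Dual ℚ ℂ, φ (D.coeff m0) ≠ 0 := by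
    by_contra h
    push Not at h
    exact hm0 ((Module.forall_dual_apply_eq_zero_iff ℚ _).mp h)
  set T := D.support with hT
  have hm0T : m0 ∈ T := MvPolynomial.mem_support_iff.mpr hm0
  -- integers
  obtain ⟨N, hN, a, ha⟩ : ∃ N : ℕ, N ≠ 0 ∧ ∃ a : (Fin n →₀ ℕ) → ℤ, ∀ m ∈ T, (a m : ℚ) = N * φ (D.coeff m) := by
    refine ⟨∏ m ∈ T, (φ (D.coeff m)).den, Finset.prod_ne_zero_iff.mpr fun m _ => Rat.den_ne_zero _,
      fun m => (φ (D.coeff m)).num * ∏ m' ∈ T.erase m, ((φ (D.coeff m')).den : ℤ), fun m hm => ?_⟩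
    rw [← Finset.mul_prod_erase T _ hm]
    push_cast
    have h1 : (φ (D.coeff m)) * ((φ (D.coeff m)).den : ℚ) = (φ (D.coeff m)).num := Rat.mul_den_eq_num _
    linear_combination (-(∏ m' ∈ T.erase m, ((φ (D.coeff m')).den : ℚ))) * h1
  obtain ⟨a', ha', hgcd⟩ := Finset.extract_gcd (s := T) a ⟨m0, hm0T⟩
  have hg0 : T.gcd a ≠ 0 := by
    intro h
    have := ha m0 hm0T
    rw [ha' m0 hm0T, h, zero_mul, Int.cast_zero] at this
    have hN' : (N : ℚ) ≠ 0 := by exact_mod_cast hN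
    exact (mul_ne_zero hN' hφ) this.symm
  have hb0 : b0 ≠ 0 := by
    rintro rfl
    exact hpb (dvd_zero _)
  have hb0Q : (b0 : ℚ) ≠ 0 := by exact_mod_cast hb0
  have hb0C : (b0 : ℂ) ≠ 0 := by exact_mod_cast hb0
  have hmdeg : ∀ m ∈ T, ∀ j, m j < p := fun m hm j =>
    lt_of_le_of_lt (MvPolynomial.monomial_le_degreeOf j hm) (hdeg j)
  -- rational vanishing
  have hQ : ∀ (s : Fin n → ℤ) (s0 : ℤ), (∀ j, |s j| ≤ S j) → |s0| ≤ S0 →
      ∑ m ∈ T, (a' m : ℚ) * ∏ j, ((s j : ℚ) - s0 * b j / b0) ^ m j = 0 := by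
    intro s s0 h1 h2
    have h3 := hv s s0 h1 h2
    rw [MvPolynomial.eval_eq'] at h3
    have h4 := congrArg φ h3
    rw [map_sum, map_zero] at h4
    have h5 : ∀ m ∈ T, φ (D.coeff m * ∏ j, ((s j : ℂ) - s0 * b j / b0) ^ m j) =
        (∏ j, ((s j : ℚ) - s0 * b j / b0) ^ m j) * φ (D.coeff m) := by
      intro m _
      have : D.coeff m * ∏ j, ((s j : ℂ) - s0 * b j / b0) ^ m j =
          (∏ j, ((s j : ℚ) - s0 * b j / b0) ^ m j) • D.coeff m := by
        rw [Algebra.smul_def, mul_comm]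
        congr 1
        rw [eq_ratCast]
        push_cast
        rfl
      rw [this, map_smul, smul_eq_mul]
    rw [Finset.sum_congr rfl h5] at h4
    have hN' : (N : ℚ) ≠ 0 := by exact_mod_cast hN
    have hg' : ((T.gcd a : ℤ) : ℚ) ≠ 0 := by exact_mod_cast hg0
    have h6 : ((T.gcd a : ℤ) : ℚ) * ∑ m ∈ T, (a' m : ℚ) * ∏ j, ((s j : ℚ) - s0 * b j / b0) ^ m j =
        N * ∑ m ∈ T, (∏ j, ((s j : ℚ) - s0 * b j / b0) ^ m j) * φ (D.coeff m) := by
      rw [Finset.mul_sum, Finset.mul_sum]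
      refine Finset.sum_congr rfl fun m hm => ?_
      have e1 : (a m : ℚ) = ((T.gcd a : ℤ) : ℚ) * a' m := by
        rw [← Int.cast_mul, ← ha' m hm]
      have e2 := ha m hm
      rw [e1] at e2
      linear_combination (∏ j, ((s j : ℚ) - s0 * b j / b0) ^ m j) * e2
    rw [h4, mul_zero] at h6
    exact (mul_eq_zero.mp h6).resolve_left hg'
  -- integral vanishing
  have hZ : ∀ (s : Fin n → ℤ) (s0 : ℤ), (∀ j, |s j| ≤ S j) → |s0| ≤ S0 →
      ∑ m ∈ T, a' m * ∏ j, ((b0 * s j - s0 * b j) ^ m j * b0 ^ (p - m j)) = 0 := by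
    intro s s0 h1 h2
    have h3 := hQ s s0 h1 h2
    have h4 : ((∑ m ∈ T, a' m * ∏ j, ((b0 * s j - s0 * b j) ^ m j * b0 ^ (p - m j)) : ℤ) : ℚ) =
        (∏ _j : Fin n, (b0 : ℚ) ^ p) * ∑ m ∈ T, (a' m : ℚ) * ∏ j, ((s j : ℚ) - s0 * b j / b0) ^ m j := by
      push_cast
      rw [Finset.mul_sum]
      refine Finset.sum_congr rfl fun m hm => ?_
      rw [mul_left_comm, ← Finset.prod_mul_distrib]
      congr 1
      refine Finset.prod_congr rfl fun j _ => ?_
      have e1 : (b0 : ℚ) ^ p = b0 ^ (m j) * b0 ^ (p - m j) := by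
        rw [← pow_add, Nat.add_sub_cancel' (hmdeg m hm j).le]
      have e2 : (b0 : ℚ) * s j - s0 * b j = b0 * ((s j : ℚ) - s0 * b j / b0) := by
        field_simp
      rw [e1, e2, mul_pow]
      ring
    rw [h3, mul_zero] at h4
    exact_mod_cast h4
  -- modulo p
  have hb0p : (b0 : ZMod p) ≠ 0 := by
    intro h
    exact hpb ((ZMod.intCast_zmod_eq_zero_iff_dvd b0 p).mp h)
  set Dp : MvPolynomial (Fin n) (ZMod p) := ∑ m ∈ T, MvPolynomial.monomial m ((a' m : ℤ) : ZMod p) with hDp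
  have heval : ∀ c : Fin n → ZMod p, MvPolynomial.eval c Dp = 0 := by
    intro c
    obtain ⟨s, s0, h1, h2, h3⟩ := hcov c
    have h4 := congrArg (Int.cast : ℤ → ZMod p) (hZ s s0 h1 h2)
    rw [hDp, map_sum]
    have h5 : ((∑ m ∈ T, a' m * ∏ j, ((b0 * s j - s0 * b j) ^ m j * b0 ^ (p - m j)) : ℤ) : ZMod p) =
        (∏ _j : Fin n, (b0 : ZMod p) ^ p) * ∑ m ∈ T, MvPolynomial.eval c (MvPolynomial.monomial m ((a' m : ℤ) : ZMod p)) := by
      push_cast
      rw [Finset.mul_sum]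
      refine Finset.sum_congr rfl fun m hm => ?_
      rw [MvPolynomial.eval_monomial, Finsupp.prod_fintype _ _ (fun j => pow_zero _), mul_left_comm,
        ← Finset.prod_mul_distrib]
      congr 1
      refine Finset.prod_congr rfl fun j _ => ?_
      have e1 : (b0 : ZMod p) ^ p = b0 ^ (m j) * b0 ^ (p - m j) := by
        rw [← pow_add, Nat.add_sub_cancel' (hmdeg m hm j).le]
      have e2 : (b0 : ZMod p) * s j - s0 * b j = b0 * c j := by
        rw [← h3 j]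
        field_simp
      rw [e1, e2, mul_pow]
      ring
    rw [h5, Int.cast_zero] at h4
    exact (mul_eq_zero.mp h4).resolve_left (Finset.prod_ne_zero_iff.mpr fun j _ => pow_ne_zero _ hb0p)
  have hDp0 : Dp = 0 := by
    refine MvPolynomial.eq_zero_of_eval_zero_at_prod_finset Dp (fun _ => (Finset.univ : Finset (ZMod p))) ?_ fun x _ => heval x
    intro i
    rw [Finset.card_univ, ZMod.card, hDp]
    refine lt_of_le_of_lt (MvPolynomial.degreeOf_sum_le i T _) ?_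
    rw [Finset.sup_lt_iff hp.pos]
    intro m hm
    by_cases h0 : ((a' m : ℤ) : ZMod p) = 0
    · rw [h0, MvPolynomial.monomial_zero, MvPolynomial.degreeOf_zero]
      exact hp.pos
    · rw [MvPolynomial.degreeOf_monomial_eq m i h0]
      exact hmdeg m hm i
  have hall : ∀ m ∈ T, (p : ℤ) ∣ a' m := by
    intro m hm
    have h1 := congrArg (MvPolynomial.coeff m) hDp0
    rw [hDp, MvPolynomial.coeff_sum, MvPolynomial.coeff_zero, Finset.sum_eq_single_of_mem m hm] at h1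
    · rw [MvPolynomial.coeff_monomial, if_pos rfl] at h1
      exact (ZMod.intCast_zmod_eq_zero_iff_dvd _ p).mp h1
    · intro m' _ hne
      rw [MvPolynomial.coeff_monomial, if_neg hne]
  have h1 : (p : ℤ) ∣ T.gcd a' := Finset.dvd_gcd hall
  rw [hgcd] at h1
  have := Int.isUnit_iff.mp (isUnit_of_dvd_one h1)
  have hp2 := hp.two_le
  omega

end Pool.Agent.LibST91Z
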