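import Pool.Agent.LibST91.ZECov
import Pool.Agent.LibST91.ZERed
import Pool.Agent.LibST91.ZEElim

/-! # ST91: the two frozen statements of helper91 (ZE7 `zero_estimate`, EL2 `elimination`), by helper74 -/

set_option autoImplicit false

namespace Pool.Agent.LibST91Z

open Finset MvPolynomial

/-- choice of the prime -/
theorem prime_choice {ι : Type} [Fintype ι] (i0 : ι) (Q P1 M : ℕ) (hM1 : 1 ≤ M) (b : ι → ℤ) (hb : b i0 ≠ 0) (X : ι → ℕ)
    (hM : ∀ χ : ι → ℤ, (∀ i, |χ i| ≤ X i) → |∑ i, χ i * b i| ≤ M)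
    (hP : (b i0).natAbs * M ^ (∏ i, (2 * X i + 1)) < ∏ p ∈ (Finset.Ioc Q P1).filter Nat.Prime, p)
    (hno : ∀ χ : ι → ℤ, χ ≠ 0 → (∀ i, |χ i| ≤ X i) → ∑ i, χ i * b i ≠ 0) :
    ∃ p : ℕ, p.Prime ∧ Q < p ∧ p ≤ P1 ∧ ¬ (p : ℤ) ∣ b i0 ∧
      ∀ χ : ι → ℤ, χ ≠ 0 → (∀ i, |χ i| ≤ X i) → ¬ (p : ℤ) ∣ ∑ i, χ i * b i := by
  classical
  by_contra hcon
  push Not at hcon
  set Bx : Finset (ι → ℤ) := Fintype.piFinset fun i => Finset.Icc (-(X i : ℤ)) (X i) with hBx
  have hmem : ∀ χ : ι → ℤ, χ ∈ Bx ↔ ∀ i, |χ i| ≤ X i := by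
    intro χ
    rw [hBx, Fintype.mem_piFinset]
    exact forall_congr' fun i => by rw [Finset.mem_Icc, abs_le]
  have hcard : Bx.card = ∏ i, (2 * X i + 1) := by
    rw [hBx, Fintype.card_piFinset]
    refine Finset.prod_congr rfl fun i _ => ?_
    rw [Int.card_Icc]
    omega
  set R : ℕ := (b i0).natAbs * ∏ χ ∈ Bx.erase 0, (∑ i, χ i * b i).natAbs with hR
  have hR0 : R ≠ 0 := by
    rw [hR]
    refine mul_ne_zero (Int.natAbs_ne_zero.mpr hb) (Finset.prod_ne_zero_iff.mpr fun χ hχ => ?_)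
    rw [Finset.mem_erase] at hχ
    exact Int.natAbs_ne_zero.mpr (hno χ hχ.1 ((hmem χ).mp hχ.2))
  have hdvd : (∏ p ∈ (Finset.Ioc Q P1).filter Nat.Prime, p) ∣ R := by
    refine Finset.prod_primes_dvd R (fun p hp => (Finset.mem_filter.mp hp).2.prime) fun p hp => ?_
    rw [Finset.mem_filter, Finset.mem_Ioc] at hp
    by_cases h : (p : ℤ) ∣ b i0
    · rw [hR]
      exact Dvd.dvd.mul_right (Int.natCast_dvd.mp h) _
    · obtain ⟨χ, h1, h2, h3⟩ := hcon p hp.2 hp.1.1 hp.1.2 h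
      rw [hR]
      refine Dvd.dvd.mul_left ?_ _
      refine (Int.natCast_dvd.mp h3).trans (Finset.dvd_prod_of_mem (fun χ : ι → ℤ => (∑ i, χ i * b i).natAbs) ?_)
      rw [Finset.mem_erase]
      exact ⟨h1, (hmem χ).mpr h2⟩
  have hle : R ≤ (b i0).natAbs * M ^ (∏ i, (2 * X i + 1)) := by
    rw [hR]
    refine Nat.mul_le_mul_left _ ?_
    calc ∏ χ ∈ Bx.erase 0, (∑ i, χ i * b i).natAbs ≤ ∏ _χ ∈ Bx.erase 0, M := by
          refine Finset.prod_le_prod' fun χ hχ => ?_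
          rw [Finset.mem_erase] at hχ
          have h1 := hM χ ((hmem χ).mp hχ.2)
          have h2 : (((∑ i, χ i * b i).natAbs : ℕ) : ℤ) ≤ M := by rw [Int.natCast_natAbs]; exact h1
          exact_mod_cast h2
      _ = M ^ (Bx.erase 0).card := by rw [Finset.prod_const]
      _ ≤ M ^ Bx.card := Nat.pow_le_pow_right hM1 (Finset.card_le_card (Finset.erase_subset _ _))
      _ = M ^ (∏ i, (2 * X i + 1)) := by rw [hcard]
  have := Nat.le_of_dvd (Nat.pos_of_ne_zero hR0) hdvd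
  omega

/-- many primes in `(P, 8P]` -/
theorem theta_diff : ∃ P₁ : ℕ, 2 ≤ P₁ ∧ ∀ P : ℕ, P₁ ≤ P →
    (P : ℝ) ≤ ∑ p ∈ (Finset.Ioc P (8 * P)).filter Nat.Prime, Real.log p := by
  refine ⟨2 ^ 21, by norm_num, fun P hP => ?_⟩
  have hP0 : (2 : ℝ) ^ 21 ≤ P := by exact_mod_cast hP
  have hPpos : (0 : ℝ) < P := lt_of_lt_of_le (by positivity) hP0
  have h1 := Chebyshev.theta_ge (8 * P)
  have h2 := Chebyshev.theta_le_log4_mul_x (x := (P : ℝ)) (by positivity)
  have h3 : Chebyshev.theta ((8 * P : ℕ) : ℝ) = Chebyshev.theta (P : ℝ) + ∑ p ∈ (Finset.Ioc P (8 * P)).filter Nat.Prime, Real.log p := by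
    unfold Chebyshev.theta
    rw [Nat.floor_natCast, Nat.floor_natCast, Finset.sum_filter, Finset.sum_filter, Finset.sum_filter,
      ← Finset.sum_Ioc_consecutive (fun p : ℕ => if p.Prime then Real.log p else 0) (Nat.zero_le P) (by omega : P ≤ 8 * P)]
  have h4 : Real.log 4 = 2 * Real.log 2 := by
    rw [show (4 : ℝ) = 2 ^ 2 by norm_num, Real.log_pow]
    push_cast
    ring
  rw [h4] at h2
  push_cast at h1 h3
  rw [h3] at h1
  have hl2 := Real.log_two_gt_d9
  -- the square root part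
  have h5 : 2 * √(8 * (P : ℝ)) * Real.log (8 * P) ≤ P := by
    have hx : (0 : ℝ) ≤ 8 * P := by positivity
    have h6 := Real.log_le_rpow_div hx (show (0 : ℝ) < 1 / 4 by norm_num)
    have h7 : √(8 * (P : ℝ)) = (8 * (P : ℝ)) ^ ((1 : ℝ) / 4) * (8 * (P : ℝ)) ^ ((1 : ℝ) / 4) := by
      rw [Real.sqrt_eq_rpow, ← Real.rpow_add (by positivity)]
      norm_num
    have h8 : (8 * (P : ℝ)) ^ ((1 : ℝ) / 4) * (8 * (P : ℝ)) ^ ((1 : ℝ) / 4) * ((8 * (P : ℝ)) ^ ((1 : ℝ) / 4) * (8 * (P : ℝ)) ^ ((1 : ℝ) / 4)) = 8 * P := by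
      rw [← Real.rpow_add (by positivity), ← Real.rpow_add (by positivity)]
      norm_num
    have h9 : (64 : ℝ) ≤ (8 * (P : ℝ)) ^ ((1 : ℝ) / 4) := by
      have : (64 : ℝ) = ((2 : ℝ) ^ 24) ^ ((1 : ℝ) / 4) := by
        rw [← Real.rpow_natCast, ← Real.rpow_mul (by norm_num)]
        norm_num
      rw [this]
      exact Real.rpow_le_rpow (by positivity) (by linarith) (by norm_num)
    set u := (8 * (P : ℝ)) ^ ((1 : ℝ) / 4) with hu
    have hu0 : 0 ≤ u := by positivity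
    rw [h7]
    have h10 : 2 * (u * u) * Real.log (8 * P) ≤ 2 * (u * u) * (u / (1 / 4)) := by
      have : 0 ≤ 2 * (u * u) := by positivity
      exact mul_le_mul_of_nonneg_left h6 this
    have h11 : 8 * (u * u * u) * 64 ≤ 8 * (u * u * u) * u := mul_le_mul_of_nonneg_left h9 (by positivity)
    nlinarith
  have h6 : Real.log (8 * P + 1) ≤ 2 * P := by
    rw [Real.log_le_iff_le_exp (by positivity)]
    have := Real.quadratic_le_exp_of_nonneg (show (0 : ℝ) ≤ 2 * P by positivity)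
    nlinarith
  nlinarith

/-- the good prime (general index set) -/
theorem good_prime {ι : Type} [Fintype ι] [DecidableEq ι] [Nonempty ι] : ∃ M : ℝ, 1 ≤ M ∧ ∀ (b : ι → ℤ) (B : ℝ) (P : ℕ)
    (S : ι → ℕ) (i₀ : ι), 1 ≤ B → (∀ i, |(b i : ℝ)| ≤ B) → b i₀ ≠ 0 → (∀ i, 1 ≤ S i) →
    (∀ χ : ι → ℤ, χ ≠ 0 → ∑ i, χ i * b i = 0 → ∃ i, M * (P / S i) < |(χ i : ℝ)|) →
    M * (∏ i, max 1 ((P : ℝ) / S i)) * Real.log (P * B + 2) ≤ P →
    ∃ p : ℕ, p.Prime ∧ P < p ∧ ¬ (p : ℤ) ∣ b i₀ ∧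
      ∀ g : ι → ZMod p, ∃ (s : ι → ℤ) (c : ZMod p), (∀ i, |s i| < (S i : ℤ)) ∧
        ∀ i, ((s i : ℤ) : ZMod p) = g i + c * (b i : ZMod p) := by
  classical
  obtain ⟨P₁, hP₁2, hP₁⟩ := theta_diff
  set N := Fintype.card ι with hN
  have hN1 : 1 ≤ N := Fintype.card_pos
  have hN1' : (1 : ℝ) ≤ N := by exact_mod_cast hN1
  set c₀ : ℝ := 8 * 3 ^ N with hc₀
  have hc₀1 : 1 ≤ c₀ := by
    have : (1 : ℝ) ≤ 3 ^ N := one_le_pow₀ (by norm_num)
    rw [hc₀]
    linarith
  have hl2 : 0 < Real.log 2 := Real.log_pos (by norm_num)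
  have hlN : 0 ≤ Real.log (N * c₀) := Real.log_nonneg (by nlinarith)
  set c₁ : ℝ := 1 + (2 * c₀ + 1) ^ N * (1 + Real.log (N * c₀) / Real.log 2) with hc₁
  have hc₁1 : 1 ≤ c₁ := by
    rw [hc₁]
    have : 0 ≤ (2 * c₀ + 1) ^ N * (1 + Real.log (N * c₀) / Real.log 2) := by positivity
    linarith
  refine ⟨c₁ + 1 + c₀ + P₁ / Real.log 2, ?_, ?_⟩
  · have : 0 ≤ (P₁ : ℝ) / Real.log 2 := by positivity
    linarith
  intro b B P S i₀ hB hb hb0 hS hrel hsize
  set M := c₁ + 1 + c₀ + P₁ / Real.log 2 with hM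
  have hP₁l : 0 ≤ (P₁ : ℝ) / Real.log 2 := by positivity
  have hS' : ∀ i, (1 : ℝ) ≤ S i := fun i => by exact_mod_cast hS i
  set Pm := ∏ i, max 1 ((P : ℝ) / S i) with hPi
  have hPi1 : 1 ≤ Pm := by
    rw [hPi]
    calc (1 : ℝ) = ∏ _i : ι, (1 : ℝ) := by simp
      _ ≤ ∏ i, max 1 ((P : ℝ) / S i) := Finset.prod_le_prod (fun _ _ => zero_le_one) fun i _ => le_max_left _ _
  set l := Real.log (P * B + 2) with hl
  have hPB : (0 : ℝ) ≤ P * B := by positivity
  have hl1 : Real.log 2 ≤ l := Real.log_le_log (by norm_num) (by linarith)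
  have hl0 : 0 < l := lt_of_lt_of_le hl2 hl1
  have hMpos : 0 < M := by rw [hM]; linarith
  -- P is large
  have hPP₁ : P₁ ≤ P := by
    have h1 : (P₁ : ℝ) / Real.log 2 ≤ M * Pm := by
      have : M * 1 ≤ M * Pm := mul_le_mul_of_nonneg_left hPi1 hMpos.le
      rw [hM] at this ⊢
      linarith
    have h2 : (P₁ : ℝ) / Real.log 2 * Real.log 2 ≤ M * Pm * l := mul_le_mul h1 hl1 hl2.le (by positivity)
    rw [div_mul_cancel₀ _ hl2.ne'] at h2
    exact_mod_cast h2.trans hsize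
  have hP1 : (1 : ℝ) ≤ P := by
    have : 1 ≤ P := le_trans (by omega) hPP₁
    exact_mod_cast this
  -- the data for `prime_choice`
  set X : ι → ℕ := fun i => ⌊c₀ * P / S i⌋₊ with hX
  have hXle : ∀ i, (X i : ℝ) ≤ c₀ * P / S i := fun i => Nat.floor_le (by positivity)
  have hXle' : ∀ i, (X i : ℝ) ≤ c₀ * P := fun i => (hXle i).trans (div_le_self (by positivity) (hS' i))
  set M' : ℕ := ⌊N * c₀ * P * B⌋₊ with hM'
  have hNcPB : 1 ≤ N * c₀ * P * B := by
    have h1 : 1 ≤ N * c₀ := by nlinarith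
    have h2 : 1 ≤ N * c₀ * P := by nlinarith
    nlinarith
  have hM'1 : 1 ≤ M' := Nat.le_floor (by exact_mod_cast hNcPB)
  have hM'le : (M' : ℝ) ≤ N * c₀ * P * B := Nat.floor_le (by positivity)
  have hM'b : ∀ χ : ι → ℤ, (∀ i, |χ i| ≤ X i) → |∑ i, χ i * b i| ≤ M' := by
    intro χ hχ
    have h1 : (|∑ i, (χ i : ℝ) * b i|) ≤ N * c₀ * P * B := by
      calc |∑ i, (χ i : ℝ) * b i| ≤ ∑ i, |(χ i : ℝ) * b i| := Finset.abs_sum_le_sum_abs _ _
        _ ≤ ∑ _i : ι, c₀ * P * B := by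
            refine Finset.sum_le_sum fun i _ => ?_
            rw [abs_mul]
            refine mul_le_mul ?_ (hb i) (abs_nonneg _) (by positivity)
            refine le_trans ?_ (hXle' i)
            have := hχ i
            rw [← Int.cast_abs]
            exact_mod_cast this
        _ = N * c₀ * P * B := by
            rw [Finset.sum_const, Finset.card_univ, nsmul_eq_mul]
            ring
    have h2 : |∑ i, χ i * b i| ≤ (⌊(N * c₀ * P * B : ℝ)⌋ : ℤ) := by
      rw [Int.le_floor]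
      push_cast
      exact h1
    rw [hM', ← Int.natCast_floor_eq_floor (by positivity)] at *
    exact h2
  have hno : ∀ χ : ι → ℤ, χ ≠ 0 → (∀ i, |χ i| ≤ X i) → ∑ i, χ i * b i ≠ 0 := by
    intro χ h1 h2 h3
    obtain ⟨i, hi⟩ := hrel χ h1 h3
    have h4 : (|(χ i : ℝ)|) ≤ X i := by
      have := h2 i
      rw [← Int.cast_abs]
      exact_mod_cast this
    have h5 : c₀ * P / S i ≤ M * (P / S i) := by
      rw [mul_div_assoc]
      refine mul_le_mul_of_nonneg_right ?_ (by positivity)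
      rw [hM]
      linarith
    have := hXle i
    linarith
  have hprod : (b i₀).natAbs * M' ^ (∏ i, (2 * X i + 1)) < ∏ p ∈ (Finset.Ioc P (8 * P)).filter Nat.Prime, p := by
    have h1 := hP₁ P hPP₁
    have hppos : ∀ p ∈ (Finset.Ioc P (8 * P)).filter Nat.Prime, (0 : ℝ) < p := by
      intro p hp
      exact_mod_cast (Finset.mem_filter.mp hp).2.pos
    have h2 : ∑ p ∈ (Finset.Ioc P (8 * P)).filter Nat.Prime, Real.log p =
        Real.log (∏ p ∈ (Finset.Ioc P (8 * P)).filter Nat.Prime, (p : ℝ)) :=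
      (Real.log_prod fun p hp => (hppos p hp).ne').symm
    have hbpos : (0 : ℝ) < |(b i₀ : ℝ)| := by
      rw [abs_pos]
      exact_mod_cast hb0
    have hM'pos : (0 : ℝ) < M' := by exact_mod_cast hM'1
    have h3 : Real.log (|(b i₀ : ℝ)| * (M' : ℝ) ^ (∏ i, (2 * X i + 1))) < P := by
      rw [Real.log_mul hbpos.ne' (by positivity), Real.log_pow]
      have h4 : Real.log |(b i₀ : ℝ)| ≤ l := by
        rw [hl]
        refine Real.log_le_log hbpos ((hb i₀).trans ?_)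
        nlinarith
      have h5 : Real.log M' ≤ (1 + Real.log (N * c₀) / Real.log 2) * l := by
        have h6 : Real.log M' ≤ Real.log (N * c₀) + l := by
          rw [hl, ← Real.log_mul (by positivity) (by positivity)]
          refine Real.log_le_log hM'pos (hM'le.trans ?_)
          have : 0 ≤ N * c₀ := by positivity
          nlinarith
        have h7 : Real.log (N * c₀) ≤ Real.log (N * c₀) / Real.log 2 * l := by
          rw [div_mul_eq_mul_div, le_div_iff₀ hl2]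
          exact mul_le_mul_of_nonneg_left hl1 hlN
        linarith
      have h6 : ((∏ i, (2 * X i + 1) : ℕ) : ℝ) ≤ (2 * c₀ + 1) ^ N * Pm := by
        push_cast
        rw [hPi, hN, ← Finset.card_univ, ← Finset.prod_const, ← Finset.prod_mul_distrib]
        refine Finset.prod_le_prod (fun i _ => by positivity) fun i _ => ?_
        have h7 := hXle i
        have h8 : (P : ℝ) / S i ≤ max 1 ((P : ℝ) / S i) := le_max_right _ _
        have h9 : (1 : ℝ) ≤ max 1 ((P : ℝ) / S i) := le_max_left _ _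
        rw [mul_div_assoc] at h7
        have h10 : c₀ * ((P : ℝ) / S i) ≤ c₀ * max 1 ((P : ℝ) / S i) := mul_le_mul_of_nonneg_left h8 (by positivity)
        linarith
      have h7 : ((∏ i, (2 * X i + 1) : ℕ) : ℝ) * Real.log M' ≤
          (2 * c₀ + 1) ^ N * Pm * ((1 + Real.log (N * c₀) / Real.log 2) * l) :=
        mul_le_mul h6 h5 (Real.log_nonneg (by exact_mod_cast hM'1)) (by positivity)
      have h8 : l ≤ Pm * l := by nlinarith
      have h9 : Real.log |(b i₀ : ℝ)| + ((∏ i, (2 * X i + 1) : ℕ) : ℝ) * Real.log M' ≤ c₁ * Pm * l := by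
        rw [hc₁]
        nlinarith
      have h10 : c₁ * Pm * l < M * Pm * l := by
        have h11 : 0 < Pm * l := by positivity
        have h12 : c₁ < M := by rw [hM]; linarith
        nlinarith
      linarith
    have h4 : |(b i₀ : ℝ)| * (M' : ℝ) ^ (∏ i, (2 * X i + 1)) < ∏ p ∈ (Finset.Ioc P (8 * P)).filter Nat.Prime, (p : ℝ) := by
      rw [← Real.log_lt_log_iff (by positivity) (Finset.prod_pos hppos), ← h2]
      exact lt_of_lt_of_le h3 h1
    have h5 : (((b i₀).natAbs * M' ^ (∏ i, (2 * X i + 1)) : ℕ) : ℝ) = |(b i₀ : ℝ)| * (M' : ℝ) ^ (∏ i, (2 * X i + 1)) := by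
      push_cast
      rw [Nat.cast_natAbs, Int.cast_abs]
    have h6 : ((∏ p ∈ (Finset.Ioc P (8 * P)).filter Nat.Prime, p : ℕ) : ℝ) = ∏ p ∈ (Finset.Ioc P (8 * P)).filter Nat.Prime, (p : ℝ) := by
      push_cast
      rfl
    rw [← h5, ← h6] at h4
    exact_mod_cast h4
  obtain ⟨p, hp, hPp, hp8, hpb, hpχ⟩ := prime_choice i₀ P (8 * P) M' hM'1 b hb0 X hM'b hprod hno
  refine ⟨p, hp, hPp, hpb, fun g => ?_⟩
  have : Fact p.Prime := ⟨hp⟩
  have hp8' : (p : ℝ) ≤ 8 * P := by exact_mod_cast hp8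
  obtain ⟨s, hs, t, ht⟩ := cover p (fun i => ((b i : ℤ) : ZMod p)) (fun i => S i - 1) (by
    intro χ hχ hχb
    by_contra hall
    push Not at hall
    refine hpχ (fun i => (χ i).valMinAbs) ?_ ?_ ?_
    · intro h
      apply hχ
      funext i
      have := congrFun h i
      simp only [Pi.zero_apply] at this
      rwa [ZMod.valMinAbs_eq_zero] at this
    · intro i
      have h1 := hall i
      have hSi : ((S i - 1 : ℕ) : ℝ) + 1 = S i := by
        rw [Nat.cast_sub (hS i)]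
        push_cast
        ring
      rw [hSi] at h1
      have h2 : (3 : ℝ) ^ N * p / S i ≤ c₀ * P / S i := by
        have : (3 : ℝ) ^ N * p ≤ c₀ * P := by
          rw [hc₀]
          have : (3 : ℝ) ^ N * p ≤ 3 ^ N * (8 * P) := mul_le_mul_of_nonneg_left hp8' (by positivity)
          linarith
        exact div_le_div_of_nonneg_right this (by positivity)
      have h3 := h1.trans h2
      have h4 : |(χ i).valMinAbs| ≤ ((⌊c₀ * P / S i⌋ : ℤ)) := by
        rw [Int.le_floor, Int.cast_abs]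
        exact h3
      rw [hX]
      simp only
      rw [Int.natCast_floor_eq_floor (by positivity)]
      exact h4
    · rw [← ZMod.intCast_zmod_eq_zero_iff_dvd]
      push_cast
      rw [← hχb]) g
  refine ⟨s, t, fun i => ?_, ht⟩
  have h1 := hs i
  have h2 := hS i
  omega

/-- **ZE7 of helper91** -/
theorem zero_estimate_fro (n : ℕ) : ∃ M : ℝ, 1 ≤ M ∧ ∀ (b : Fin (n + 1) → ℤ) (B : ℝ) (P : ℕ)
    (S : Fin (n + 1) → ℕ), 1 ≤ B → (∀ i, |(b i : ℝ)| ≤ B) → b (Fin.last n) ≠ 0 →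
    (∀ i, 1 ≤ S i) →
    (∀ χ : Fin (n + 1) → ℤ, χ ≠ 0 → ∑ i, χ i * b i = 0 → ∃ i, M * (P / S i) < |(χ i : ℝ)|) →
    M * (∏ i, max 1 ((P : ℝ) / S i)) * Real.log (P * B + 2) ≤ P →
    ∀ Δ : MvPolynomial (Fin n) ℂ, Δ ≠ 0 → Δ.totalDegree ≤ P →
      ∃ s : Fin (n + 1) → ℤ, (∀ i, |s i| < (S i : ℤ)) ∧
        eval (fun i : Fin n => (s i.castSucc : ℂ) - (s (Fin.last n) : ℂ) * (b i.castSucc : ℂ) / (b (Fin.last n) : ℂ)) Δ ≠ 0 := by
  obtain ⟨M, hM, h⟩ := good_prime (ι := Fin (n + 1))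
  refine ⟨M, hM, fun b B P S hB hb hb0 hS hrel hsize Δ hΔ hdeg => ?_⟩
  obtain ⟨p, hp, hPp, hpb, hcl⟩ := h b B P S (Fin.last n) hB hb hb0 hS hrel hsize
  have : Fact p.Prime := ⟨hp⟩
  by_contra hcon
  push Not at hcon
  apply hΔ
  have hb0p : ((b (Fin.last n) : ℤ) : ZMod p) ≠ 0 := fun h => hpb ((ZMod.intCast_zmod_eq_zero_iff_dvd _ p).mp h)
  refine red p (fun j => b j.castSucc) (b (Fin.last n)) hpb Δ
    (fun i => lt_of_le_of_lt ((MvPolynomial.degreeOf_le_totalDegree _ _).trans hdeg) hPp)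
    (fun j => S j.castSucc - 1) (S (Fin.last n) - 1) ?_ ?_
  · intro c
    obtain ⟨s, t, h1, h2⟩ := hcl (Fin.snoc c 0)
    refine ⟨fun j => s j.castSucc, s (Fin.last n), fun j => ?_, ?_, fun j => ?_⟩
    · have h3 := h1 j.castSucc
      have h4 := hS j.castSucc
      change |s j.castSucc| ≤ ((S j.castSucc - 1 : ℕ) : ℤ)
      omega
    · have h3 := h1 (Fin.last n)
      have h4 := hS (Fin.last n)
      omega
    · have h3 := h2 (Fin.last n)
      have h4 := h2 j.castSucc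
      rw [Fin.snoc_last, zero_add] at h3
      rw [Fin.snoc_castSucc] at h4
      rw [h4, h3]
      have h5 : t * ((b (Fin.last n) : ℤ) : ZMod p) * ((b j.castSucc : ℤ) : ZMod p) * ((b (Fin.last n) : ℤ) : ZMod p)⁻¹ =
          t * ((b j.castSucc : ℤ) : ZMod p) := by
        calc _ = t * ((b j.castSucc : ℤ) : ZMod p) * (((b (Fin.last n) : ℤ) : ZMod p) * ((b (Fin.last n) : ℤ) : ZMod p)⁻¹) := by ring
          _ = _ := by rw [mul_inv_cancel₀ hb0p, mul_one]
      rw [h5, add_sub_cancel_right]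
  · intro s s0 hs hs0
    have h1 := hcon (Fin.snoc s s0) (fun i => by
      refine Fin.lastCases ?_ (fun j => ?_) i
      · rw [Fin.snoc_last]
        have h3 := hS (Fin.last n)
        omega
      · rw [Fin.snoc_castSucc]
        have h3 := hs j
        have h4 := hS j.castSucc
        omega)
    simp only [Fin.snoc_last, Fin.snoc_castSucc] at h1
    exact h1

/-- **EL2 of helper91** -/
theorem elimination_fro {n L D : ℕ} (P : Fin L → MvPolynomial (Fin n) ℂ) (hP : ∃ l, P l ≠ 0)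
    (hD : ∀ l, (P l).totalDegree ≤ D) (ζ : Fin n → ℂ) (β : ℂ) (hβ0 : β ≠ 0)
    (hβ : ∀ m : ℕ, 0 < m → β ^ m ≠ 1) :
    ∃ Δ : MvPolynomial (Fin n) ℂ, Δ ≠ 0 ∧ Δ.totalDegree ≤ L * D ∧
      ∀ (z : Fin n → ℂ) (y : ℂ), y ≠ 0 →
        (∀ j : ℕ, j < L → ∑ l, eval (fun i => z i + j * ζ i) (P l) * (β ^ j * y) ^ (l : ℕ) = 0) →
        eval z Δ = 0 := by
  classical
  obtain ⟨l₀, hl₀⟩ := hP
  have hL : 1 ≤ L := by have := l₀.2; omega
  set Q : (Fin n → Fin (D + 1)) → Fin L → ℂ := fun k l => (P l).coeff (Finsupp.equivFunOnFinite.symm fun i => (k i : ℕ)) with hQ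
  -- degrees
  have hdeg : ∀ l, ∀ m ∈ (P l).support, ∀ i, m i ≤ D := by
    intro l m hm i
    have h1 := MvPolynomial.le_totalDegree hm
    have h2 : m i ≤ m.sum fun _ e => e := by
      by_cases h : m i = 0
      · omega
      · exact Finset.single_le_sum (f := fun i => m i) (fun _ _ => Nat.zero_le _) (Finsupp.mem_support_iff.mpr h)
    exact h2.trans (h1.trans (hD l))
  have heval : ∀ l (x : Fin n → ℂ), eval x (P l) = ∑ k : Fin n → Fin (D + 1), Q k l * ∏ i, x i ^ (k i : ℕ) := by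
    intro l x
    rw [MvPolynomial.eval_eq']
    symm
    refine Finset.sum_bij_ne_zero (fun k _ _ => Finsupp.equivFunOnFinite.symm fun i => (k i : ℕ)) ?_ ?_ ?_ ?_
    · intro k _ hk
      rw [MvPolynomial.mem_support_iff]
      intro h
      apply hk
      simp only [hQ]
      rw [h, zero_mul]
    · intro k _ _ k' _ _ h
      funext i
      have := congrArg (fun f : Fin n →₀ ℕ => f i) h
      simp only [Finsupp.equivFunOnFinite_symm_apply_apply] at this
      exact Fin.ext this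
    · intro m hm hm'
      refine ⟨fun i => ⟨m i, Nat.lt_succ_of_le (hdeg l m hm i)⟩, Finset.mem_univ _, ?_, ?_⟩
      · have h1 : (Finsupp.equivFunOnFinite.symm fun i => m i : Fin n →₀ ℕ) = m := by
          ext i
          simp
        simp only [hQ]
        rw [h1]
        exact hm'
      · ext i
        simp
    · intro k _ _
      simp only [hQ]
      congr 1
  have hQ0 : ∃ k l, Q k l ≠ 0 := by
    obtain ⟨m, hm⟩ := MvPolynomial.ne_zero_iff.mp hl₀
    refine ⟨fun i => ⟨m i, Nat.lt_succ_of_le (hdeg l₀ m (MvPolynomial.mem_support_iff.mpr hm) i)⟩, l₀, ?_⟩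
    have h1 : (Finsupp.equivFunOnFinite.symm fun i => m i : Fin n →₀ ℕ) = m := by
      ext i
      simp
    simp only [hQ]
    rw [h1]
    exact hm
  have hinj : ∀ a c : ℕ, a < L → c < L → β ^ a = β ^ c → a = c := by
    intro a c _ _ h
    by_contra hne
    rcases lt_or_gt_of_ne hne with h1 | h1
    · refine hβ (c - a) (by omega) ?_
      have h2 : β ^ a * β ^ (c - a) = β ^ a * 1 := by
        rw [← pow_add, mul_one, h]
        congr 1
        omega
      exact mul_left_cancel₀ (pow_ne_zero _ hβ0) h2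
    · refine hβ (a - c) (by omega) ?_
      have h2 : β ^ c * β ^ (a - c) = β ^ c * 1 := by
        rw [← pow_add, mul_one, ← h]
        congr 1
        omega
      exact mul_left_cancel₀ (pow_ne_zero _ hβ0) h2
  obtain ⟨Δ, h1, _, h2, h3⟩ := elim (K := D + 1) (by omega) hL Q hQ0 β hinj ζ
  refine ⟨Δ, h1, h2 D ?_, ?_⟩
  · intro k l hkl
    have h4 := MvPolynomial.le_totalDegree (MvPolynomial.mem_support_iff.mpr hkl)
    rw [Finsupp.sum_fintype _ _ (fun _ => rfl)] at h4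
    exact h4.trans (hD l)
  · intro z y hy hz
    refine h3 z y hy fun j hj => ?_
    rw [← hz j hj, Finset.sum_comm]
    refine Finset.sum_congr rfl fun l _ => ?_
    rw [heval, Finset.sum_mul]
    refine Finset.sum_congr rfl fun k _ => ?_
    rw [mul_comm y]

end Pool.Agent.LibST91Z
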