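import Pool.Agent.LibST91.Defs
import Pool.Agent.LibST91.ZEFro

/-!
# The zero estimate
-/

set_option autoImplicit false

namespace Pool.Agent.LibST91

open MvPolynomial

theorem zero_estimate (n : ℕ) : ∃ M : ℝ, 1 ≤ M ∧ ∀ (b : Fin (n + 1) → ℤ) (B : ℝ) (P : ℕ)
    (S : Fin (n + 1) → ℕ), 1 ≤ B → (∀ i, |(b i : ℝ)| ≤ B) → b (Fin.last n) ≠ 0 →
    (∀ i, 1 ≤ S i) →
    (∀ χ : Fin (n + 1) → ℤ, χ ≠ 0 → ∑ i, χ i * b i = 0 → ∃ i, M * (P / S i) < |(χ i : ℝ)|) →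
    M * (∏ i, max 1 ((P : ℝ) / S i)) * Real.log (P * B + 2) ≤ P →
    ∀ Δ : MvPolynomial (Fin n) ℂ, Δ ≠ 0 → Δ.totalDegree ≤ P →
      ∃ s : Fin (n + 1) → ℤ, (∀ i, |s i| < (S i : ℤ)) ∧ eval (zpt ℂ b s) Δ ≠ 0 :=
  Pool.Agent.LibST91Z.zero_estimate_fro n

end Pool.Agent.LibST91
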