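import Pool.Agent.LibST91.BX8
import Pool.Agent.LibST91.EL2
import Pool.Agent.LibST91.ZE7

/-! # The nondegenerate case (for given parameters) -/

set_option autoImplicit false

namespace Pool.Agent.LibST91

open MvPolynomial

/-- the polynomial in front of `Y^l` -/
noncomputable def ndP {n K L : ℕ} (p : Idx n K L → ℤ) (l : Fin L) : MvPolynomial (Fin n) ℂ :=
  ∑ k : Fin n → Fin K, monomial (Finsupp.equivFunOnFinite.symm fun i => (k i : ℕ)) ((p (k, l) : ℤ) : ℂ)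

theorem ndP_eval {n K L : ℕ} (p : Idx n K L → ℤ) (l : Fin L) (x : Fin n → ℂ) :
    eval x (ndP p l) = ∑ k : Fin n → Fin K, ((p (k, l) : ℤ) : ℂ) * ∏ i, x i ^ (k i : ℕ) := by
  unfold ndP
  rw [map_sum]
  refine Finset.sum_congr rfl fun k _ => ?_
  rw [MvPolynomial.eval_monomial, Finsupp.prod_fintype _ _ (fun i => pow_zero _)]
  rfl

theorem ndP_deg {n K L : ℕ} (p : Idx n K L → ℤ) (l : Fin L) : (ndP p l).totalDegree ≤ n * K := by
  unfold ndP
  refine MvPolynomial.totalDegree_finsetSum_le fun k _ => ?_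
  refine (MvPolynomial.totalDegree_monomial_le _ _).trans ?_
  rw [Finsupp.sum_fintype _ _ (fun _ => rfl)]
  calc ∑ i, (Finsupp.equivFunOnFinite.symm fun i => (k i : ℕ) : Fin n →₀ ℕ) i ≤ ∑ _i : Fin n, K :=
        Finset.sum_le_sum fun i _ => (k i).2.le
    _ = n * K := by rw [Finset.sum_const, Finset.card_univ, Fintype.card_fin, smul_eq_mul]

theorem ndP_ne {n K L : ℕ} (p : Idx n K L → ℤ) (hp : p ≠ 0) : ∃ l, ndP p l ≠ 0 := by
  classical
  obtain ⟨⟨k, l⟩, hkl⟩ := Function.ne_iff.mp hp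
  refine ⟨l, fun h => ?_⟩
  have h1 := congrArg (MvPolynomial.coeff (Finsupp.equivFunOnFinite.symm fun i => (k i : ℕ))) h
  unfold ndP at h1
  rw [MvPolynomial.coeff_sum, MvPolynomial.coeff_zero, Finset.sum_eq_single k] at h1
  · rw [MvPolynomial.coeff_monomial, if_pos rfl] at h1
    exact hkl (by exact_mod_cast h1)
  · intro k' _ hk'
    rw [MvPolynomial.coeff_monomial, if_neg]
    intro h2
    apply hk'
    funext i
    have := congrArg (fun f : Fin n →₀ ℕ => f i) h2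
    simp only [Finsupp.equivFunOnFinite_symm_apply_apply] at this
    exact Fin.ext this
  · intro h2
    exact absurd (Finset.mem_univ k) h2

theorem map_auxA {n K L : ℕ} {F : Type} [Field F] (σ : F →+* ℂ) (α : Fin (n + 1) → F)
    (b : Fin (n + 1) → ℤ) (p : Idx n K L → ℤ) (s : Fin (n + 1) → ℤ) :
    σ (auxA α b p s) = ∑ l, eval (zpt ℂ b s) (ndP p l) * (∏ i, σ (α i) ^ s i) ^ (l : ℕ) := by
  unfold auxA
  rw [map_sum, Fintype.sum_prod_type, Finset.sum_comm]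
  refine Finset.sum_congr rfl fun l _ => ?_
  rw [ndP_eval, Finset.sum_mul]
  refine Finset.sum_congr rfl fun k _ => ?_
  rw [map_mul, map_mul, map_intCast, map_prod, map_pow, map_prod]
  congr 1
  · congr 1
    refine Finset.prod_congr rfl fun i _ => ?_
    rw [map_pow]
    congr 1
    unfold zpt
    rw [map_sub, map_div₀, map_mul, map_intCast, map_intCast, map_intCast, map_intCast]
  · congr 1
    refine Finset.prod_congr rfl fun i _ => ?_
    rw [map_zpow₀]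

theorem zpt_add {n : ℕ} (b s : Fin (n + 1) → ℤ) (i₀ : Fin (n + 1)) (j : ℕ) (i : Fin n) :
    zpt ℂ b (fun i => s i + if i = i₀ then (j : ℤ) else 0) i =
      zpt ℂ b s i + j * zpt ℂ b (fun i => if i = i₀ then 1 else 0) i := by
  unfold zpt
  have h1 : ∀ i : Fin (n + 1), ((if i = i₀ then (j : ℤ) else 0 : ℤ) : ℂ) = j * ((if i = i₀ then 1 else 0 : ℤ) : ℂ) := by
    intro i
    split_ifs
    · push_cast
      ring
    · push_cast
      ring
  rw [Int.cast_add, Int.cast_add, h1, h1]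
  ring

theorem nondeg_param (n d : ℕ) : ∃ A M : ℝ, 1 ≤ A ∧ 1 ≤ M ∧ ∀ (L' : Type) [Field L'] [NumberField L'],
    Module.finrank ℚ L' ≤ d → ∀ (σ₀ : L' →+* ℂ) (α : Fin (n + 1) → L') (ℓ : Fin (n + 1) → ℂ)
    (h : Fin (n + 1) → ℝ), (∀ i, Adm σ₀ (α i) (ℓ i) (h i)) →
    (∃ i, ∀ m : ℕ, 0 < m → σ₀ (α i) ^ m ≠ 1) →
    ∀ (b : Fin (n + 1) → ℤ) (B ρ U : ℝ) (K L : ℕ), b (Fin.last n) ≠ 0 → 1 ≤ B →
    (∀ i, |(b i : ℝ)| ≤ B) →
    (∀ i, |(b i : ℝ)| * h i ≤ |(b (Fin.last n) : ℝ)| * h (Fin.last n)) →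
    (∀ i, 2 * L * h i ≤ ρ) → (∀ i, 2 * h i ≤ ρ) → 1 ≤ U → 1 ≤ K → (K : ℝ) ≤ U → 1 ≤ L →
    (K : ℝ) ^ n * L ≤ Real.exp U →
    (2 * ρ) ^ (n * K) ≤ Real.exp U → B ^ (n * K) ≤ Real.exp U → L * ρ ≤ U →
    A * U ^ n ≤ (K : ℝ) ^ n * L →
    (∀ χ : Fin (n + 1) → ℤ, χ ≠ 0 → ∑ i, χ i * b i = 0 →
      ∃ i, M * ((L * (n * K) : ℕ) / (⌊ρ / (2 * h i)⌋₊ : ℝ)) < |(χ i : ℝ)|) →
    M * (∏ i, max 1 (((L * (n * K) : ℕ) : ℝ) / (⌊ρ / (2 * h i)⌋₊ : ℝ))) *
      Real.log ((L * (n * K) : ℕ) * B + 2) ≤ (L * (n * K) : ℕ) →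
    Real.exp (-(A * U)) ≤ ‖∑ i, (b i : ℂ) * ℓ i‖ := by
  classical
  obtain ⟨A, hA, hvan⟩ := vanish n d
  obtain ⟨M, hM, hzero⟩ := zero_estimate n
  refine ⟨A, M, hA, hM, ?_⟩
  intro L' _ _ hfin σ₀ α ℓ h hAdm hroot b B ρ U K L hb0 hB hb hdom hρL hρ2 hU hK1 hKU hL1 hKL hρK hBK hLρ hAU hrel hsize
  by_contra hcon
  push Not at hcon
  have hh1 : ∀ i, 1 ≤ h i := fun i => (hAdm i).one_le
  obtain ⟨p, hp0, hp⟩ := hvan L' hfin σ₀ α ℓ h hAdm b B ρ U K L hb0 (hb _) hdom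
    (fun i => by have := hρ2 i; have := hh1 i; linarith) hU hK1 hKU hL1 hKL hρK hBK hLρ hAU hcon.le
  obtain ⟨i₀, hi₀⟩ := hroot
  have hα0 : ∀ i, σ₀ (α i) ≠ 0 := fun i => by
    rw [Ne, map_eq_zero]
    exact (hAdm i).ne
  obtain ⟨Δ, hΔ0, hΔdeg, hΔ⟩ := elimination (D := n * K) (ndP p) (ndP_ne p hp0) (ndP_deg p)
    (zpt ℂ b (fun i => if i = i₀ then 1 else 0)) (σ₀ (α i₀)) (hα0 i₀) hi₀
  obtain ⟨s, hs, hsΔ⟩ := hzero b B (L * (n * K)) (fun i => ⌊ρ / (2 * h i)⌋₊) hB hb hb0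
    (fun i => by
      have h1 := hh1 i
      rw [Nat.one_le_floor_iff, le_div_iff₀ (by positivity)]
      have := hρ2 i
      linarith) hrel hsize Δ hΔ0 hΔdeg
  apply hsΔ
  refine hΔ _ (∏ i, σ₀ (α i) ^ s i) (Finset.prod_ne_zero_iff.mpr fun i _ => zpow_ne_zero _ (hα0 i)) ?_
  intro j hj
  have h1 := hp (fun i => s i + if i = i₀ then (j : ℤ) else 0) (by
    intro i
    have h2 := hh1 i
    have h3 : |(s i : ℝ)| ≤ ρ / (2 * h i) := by
      have h4 : (|s i| : ℤ) < (⌊ρ / (2 * h i)⌋₊ : ℤ) := hs i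
      have h5 : (|(s i : ℝ)|) < (⌊ρ / (2 * h i)⌋₊ : ℝ) := by
        rw [← Int.cast_abs]
        exact_mod_cast h4
      have hρ0 : 0 ≤ ρ := by have := hρ2 i; linarith
      exact h5.le.trans (Nat.floor_le (by positivity))
    have h4 : |(s i : ℝ)| * h i ≤ ρ / 2 := by
      calc |(s i : ℝ)| * h i ≤ ρ / (2 * h i) * h i := mul_le_mul_of_nonneg_right h3 (by linarith)
        _ = ρ / 2 := by field_simp
    have h5 : |((if i = i₀ then (j : ℤ) else 0 : ℤ) : ℝ)| ≤ L := by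
      split_ifs
      · rw [Int.cast_natCast, Nat.abs_cast]
        exact_mod_cast hj.le
      · simp
    have h6 := hρL i
    rw [Int.cast_add]
    calc |(s i : ℝ) + ((if i = i₀ then (j : ℤ) else 0 : ℤ) : ℝ)| * h i ≤ (|(s i : ℝ)| + L) * h i :=
          mul_le_mul_of_nonneg_right ((abs_add_le _ _).trans (add_le_add le_rfl h5)) (by linarith)
      _ ≤ ρ := by nlinarith)
  have h2 := congrArg σ₀ h1
  rw [map_zero, map_auxA] at h2
  rw [← h2]
  refine Finset.sum_congr rfl fun l _ => ?_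
  congr 1
  · congr 2
    funext i
    exact (zpt_add b s i₀ j i).symm
  · congr 1
    have h3 : ∀ i : Fin (n + 1), σ₀ (α i) ^ (s i + if i = i₀ then (j : ℤ) else 0) =
        σ₀ (α i) ^ s i * (if i = i₀ then σ₀ (α i) ^ j else 1) := by
      intro i
      split_ifs
      · rw [zpow_add₀ (hα0 i), zpow_natCast]
      · rw [add_zero, mul_one]
    simp_rw [h3]
    rw [Finset.prod_mul_distrib, Finset.prod_ite_eq' Finset.univ i₀, if_pos (Finset.mem_univ i₀), mul_comm]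

end Pool.Agent.LibST91
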