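import Mathlib

/-!
[ST NF1] ONLY MATHLIB. The number of ideals of norm at most `X` in the ring of integers.
Rankin's method with `s = 1 + 1/(1 + log X)` and the finite Euler product.
-/

set_option autoImplicit false

namespace Pool.Agent.LibST91

open NumberField

/-- The completely multiplicative function `n ↦ n ^ (-s)`. -/
noncomputable def nfPow (s : ℝ) : ℕ →* ℝ where
  toFun n := (n : ℝ) ^ (-s)
  map_one' := by simp
  map_mul' m n := by
    push_cast
    exact Real.mul_rpow (Nat.cast_nonneg _) (Nat.cast_nonneg _)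

theorem nf_sum_le (s : ℝ) (hs : 1 < s) (N : ℕ) :
    ∑ n ∈ Finset.range (N + 1), ((n : ℝ) + 1) ^ (-s) ≤
      1 + (1 - ((N : ℝ) + 1) ^ (1 - s)) / (s - 1) := by
  have hs1 : 0 < s - 1 := by linarith
  induction N with
  | zero => simp
  | succ N ih =>
    rw [Finset.sum_range_succ]
    have hN : (0 : ℝ) < (N : ℝ) + 1 := by positivity
    have hN2 : (0 : ℝ) < (N : ℝ) + 2 := by positivity
    have key : (((N : ℝ) + 1) + 1) ^ (-s) ≤
        (((N : ℝ) + 1) ^ (1 - s) - ((N : ℝ) + 1 + 1) ^ (1 - s)) / (s - 1) := by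
      rw [le_div_iff₀ hs1]
      have e2 : ((N : ℝ) + 1 + 1) = (N : ℝ) + 2 := by ring
      rw [e2]
      have e1 : ((N : ℝ) + 1) ^ (1 - s) =
          ((N : ℝ) + 2) ^ (1 - s) * (1 - 1 / ((N : ℝ) + 2)) ^ (1 - s) := by
        rw [← Real.mul_rpow hN2.le (by
          rw [sub_nonneg, div_le_one hN2]; linarith)]
        congr 1
        field_simp
        ring
      have hx : (0 : ℝ) < 1 - 1 / ((N : ℝ) + 2) := by
        rw [sub_pos, div_lt_one hN2]; linarith
      have e3 : 1 + (s - 1) / ((N : ℝ) + 2) ≤ (1 - 1 / ((N : ℝ) + 2)) ^ (1 - s) := by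
        rw [Real.rpow_def_of_pos hx]
        have h1 : Real.log (1 - 1 / ((N : ℝ) + 2)) ≤ -(1 / ((N : ℝ) + 2)) := by
          have := Real.log_le_sub_one_of_pos hx
          linarith
        have h2 : (s - 1) / ((N : ℝ) + 2) ≤ Real.log (1 - 1 / ((N : ℝ) + 2)) * (1 - s) := by
          have : (s - 1) * (1 / ((N : ℝ) + 2)) ≤
              (s - 1) * (-Real.log (1 - 1 / ((N : ℝ) + 2))) :=
            mul_le_mul_of_nonneg_left (by linarith) hs1.le
          calc (s - 1) / ((N : ℝ) + 2) = (s - 1) * (1 / ((N : ℝ) + 2)) := by ring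
            _ ≤ (s - 1) * (-Real.log (1 - 1 / ((N : ℝ) + 2))) := this
            _ = _ := by ring
        have h3 := Real.add_one_le_exp (Real.log (1 - 1 / ((N : ℝ) + 2)) * (1 - s))
        linarith
      have e4 : ((N : ℝ) + 2) ^ (-s) = ((N : ℝ) + 2) ^ (1 - s) / ((N : ℝ) + 2) := by
        rw [eq_div_iff hN2.ne', ← Real.rpow_add_one hN2.ne']
        congr 1
        ring
      rw [e1, e4]
      have h5 : 0 < ((N : ℝ) + 2) ^ (1 - s) := Real.rpow_pos_of_pos hN2 _
      have h6 : ((N : ℝ) + 2) ^ (1 - s) * (1 + (s - 1) / ((N : ℝ) + 2)) ≤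
          ((N : ℝ) + 2) ^ (1 - s) * (1 - 1 / ((N : ℝ) + 2)) ^ (1 - s) :=
        mul_le_mul_of_nonneg_left e3 h5.le
      have h7 : ((N : ℝ) + 2) ^ (1 - s) / ((N : ℝ) + 2) * (s - 1) =
          ((N : ℝ) + 2) ^ (1 - s) * (1 + (s - 1) / ((N : ℝ) + 2)) - ((N : ℝ) + 2) ^ (1 - s) := by
        ring
      rw [h7]
      linarith
    push_cast
    have : (1 - ((N : ℝ) + 1 + 1) ^ (1 - s)) / (s - 1) =
        (1 - ((N : ℝ) + 1) ^ (1 - s)) / (s - 1) +
        (((N : ℝ) + 1) ^ (1 - s) - ((N : ℝ) + 1 + 1) ^ (1 - s)) / (s - 1) := by ring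
    rw [this]
    linarith

theorem nf_euler (s : ℝ) (hs : 1 < s) (N : ℕ) :
    ∏ p ∈ N.primesBelow, (1 - (p : ℝ) ^ (-s))⁻¹ ≤ s / (s - 1) := by
  have hs1 : 0 < s - 1 := by linarith
  have hsum : Summable (nfPow s) := by
    have := (Real.summable_nat_rpow (p := -s)).2 (by linarith)
    exact this
  have h1 := EulerProduct.prod_primesBelow_geometric_eq_tsum_smoothNumbers hsum N
  have h1' : ∏ p ∈ N.primesBelow, (1 - (p : ℝ) ^ (-s))⁻¹ =
      ∑' m : N.smoothNumbers, nfPow s m := h1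
  rw [h1']
  have hnn : ∀ n : ℕ, 0 ≤ nfPow s n := fun n => Real.rpow_nonneg (Nat.cast_nonneg _) _
  have h2 : ∑' m : N.smoothNumbers, nfPow s m ≤ ∑' n : ℕ, nfPow s n :=
    hsum.tsum_subtype_le _ _ hnn
  refine h2.trans ?_
  have h3 : ∑' n : ℕ, nfPow s n = nfPow s 0 + ∑' n : ℕ, nfPow s (n + 1) :=
    hsum.tsum_eq_zero_add
  have h0 : nfPow s 0 = 0 := by
    change ((0 : ℕ) : ℝ) ^ (-s) = 0
    rw [Nat.cast_zero]
    exact Real.zero_rpow (by linarith)
  rw [h3, h0, zero_add]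
  refine Real.tsum_le_of_sum_range_le (fun n => hnn _) (fun n => ?_)
  have h4 : ∑ i ∈ Finset.range n, nfPow s (i + 1) ≤
      ∑ i ∈ Finset.range (n + 1), ((i : ℝ) + 1) ^ (-s) := by
    have e : ∀ i : ℕ, nfPow s (i + 1) = ((i : ℝ) + 1) ^ (-s) := by
      intro i
      change ((i + 1 : ℕ) : ℝ) ^ (-s) = _
      push_cast
      rfl
    simp_rw [e]
    refine Finset.sum_le_sum_of_subset_of_nonneg (Finset.range_subset_range.2 (Nat.le_succ n)) ?_
    intro i _ _
    positivity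
  refine h4.trans ((nf_sum_le s hs n).trans ?_)
  have h5 : 0 ≤ ((n : ℝ) + 1) ^ (1 - s) := by positivity
  have h6 : (1 - ((n : ℝ) + 1) ^ (1 - s)) / (s - 1) ≤ 1 / (s - 1) := by
    apply div_le_div_of_nonneg_right _ hs1.le
    linarith
  have h7 : s / (s - 1) = 1 + 1 / (s - 1) := by
    field_simp
    ring
  rw [h7]
  linarith

section
variable {K : Type} [Field K] [NumberField K]

/-- The rational prime below. -/
noncomputable def nfBelow (P : Ideal (𝓞 K)) : ℕ := Ideal.absNorm (Ideal.under ℤ P)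

open UniqueFactorizationMonoid in
open Classical in
theorem nf_factor (X : ℝ) (PP : Finset (Ideal (𝓞 K)))
    (hPP : ∀ P : Ideal (𝓞 K), P ∈ PP ↔ P.IsPrime ∧ P ≠ ⊥ ∧ (Ideal.absNorm P : ℝ) ≤ X)
    (I : Ideal (𝓞 K)) (hI : I ≠ ⊥) (hIX : (Ideal.absNorm I : ℝ) ≤ X) :
    I = ∏ P ∈ PP, P ^ (normalizedFactors I).count P := by
  have h1 : (normalizedFactors I).prod = I := Ideal.prod_normalizedFactors_eq_self hI
  have hI0 : Ideal.absNorm I ≠ 0 := by
    rw [Ne, Ideal.absNorm_eq_zero_iff]; exact hI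
  conv_lhs => rw [← h1, Finset.prod_multiset_count]
  refine Finset.prod_subset ?_ ?_
  · intro P hP
    rw [Multiset.mem_toFinset] at hP
    have hpr := prime_of_normalized_factor P hP
    have hd := dvd_of_mem_normalizedFactors hP
    rw [hPP]
    refine ⟨Ideal.isPrime_of_prime hpr, hpr.ne_zero, ?_⟩
    have h2 : Ideal.absNorm P ∣ Ideal.absNorm I := map_dvd Ideal.absNorm hd
    have h3 := Nat.le_of_dvd (Nat.pos_of_ne_zero hI0) h2
    exact le_trans (by exact_mod_cast h3) hIX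
  · intro P _ hP
    rw [Multiset.mem_toFinset] at hP
    rw [Multiset.count_eq_zero_of_notMem hP, pow_zero]

theorem nf_fibre (d : ℕ) (hd : Module.finrank ℚ K = d) (PP : Finset (Ideal (𝓞 K)))
    (hPP : ∀ P ∈ PP, P.IsPrime ∧ P ≠ ⊥) (p : ℕ) (hp : p.Prime) :
    (PP.filter (fun P => nfBelow P = p)).card ≤ d := by
  have hp0 : (Ideal.span {(p : ℤ)}) ≠ ⊥ := by
    rw [Ne, Ideal.span_singleton_eq_bot]
    exact_mod_cast hp.ne_zero
  have hpp : (Ideal.span {(p : ℤ)}).IsPrime := by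
    rw [Ideal.span_singleton_prime (by exact_mod_cast hp.ne_zero)]
    exact Nat.prime_iff_prime_int.mp hp
  haveI : (Ideal.span {(p : ℤ)}).IsMaximal := hpp.isMaximal hp0
  have h1 := Ideal.card_primesOverFinset_le_finrank (S := 𝓞 K) ℚ K hp0
  rw [hd] at h1
  refine le_trans (Finset.card_le_card ?_) h1
  intro P hP
  rw [Finset.mem_filter] at hP
  rw [IsDedekindDomain.mem_primesOverFinset_iff hp0]
  refine ⟨(hPP P hP.1).1, ?_⟩
  have := Int.liesOver_span_absNorm P
  rw [← hP.2]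
  exact this

end

open UniqueFactorizationMonoid in
open Classical in
theorem ideal_count (d : ℕ) : ∃ C : ℝ, 1 ≤ C ∧ ∃ κ : ℕ, ∀ (K : Type) [Field K] [NumberField K],
    Module.finrank ℚ K = d → ∀ X : ℝ, 1 ≤ X →
      {I : Ideal (𝓞 K) | I ≠ ⊥ ∧ (Ideal.absNorm I : ℝ) ≤ X}.Finite ∧
      ({I : Ideal (𝓞 K) | I ≠ ⊥ ∧ (Ideal.absNorm I : ℝ) ≤ X}.ncard : ℝ) ≤
        C * X * (1 + Real.log X) ^ κ := by
  refine ⟨Real.exp 1 * 2 ^ d, ?_, d, ?_⟩
  · have h1 : (1 : ℝ) ≤ Real.exp 1 := Real.one_le_exp (by norm_num)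
    have h2 : (1 : ℝ) ≤ 2 ^ d := one_le_pow₀ (by norm_num)
    nlinarith
  intro K _ _ hd X hX
  have hfin : {I : Ideal (𝓞 K) | I ≠ ⊥ ∧ (Ideal.absNorm I : ℝ) ≤ X}.Finite := by
    refine (Ideal.finite_setOfPred_absNorm_le (S := 𝓞 K) ⌊X⌋₊).subset ?_
    intro I hI
    exact Nat.le_floor hI.2
  refine ⟨hfin, ?_⟩
  set S : Finset (Ideal (𝓞 K)) := hfin.toFinset with hS
  have hmS : ∀ I, I ∈ S ↔ I ≠ ⊥ ∧ (Ideal.absNorm I : ℝ) ≤ X := by
    intro I
    rw [hS, Set.Finite.mem_toFinset]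
    rfl
  rw [Set.ncard_eq_toFinset_card _ hfin, ← hS]
  set PP : Finset (Ideal (𝓞 K)) := S.filter (fun P => P.IsPrime) with hPPd
  have hPP : ∀ P : Ideal (𝓞 K), P ∈ PP ↔ P.IsPrime ∧ P ≠ ⊥ ∧ (Ideal.absNorm P : ℝ) ≤ X := by
    intro P
    rw [hPPd, Finset.mem_filter, hmS]
    tauto
  set M := ⌊X⌋₊ with hM
  set L := 1 + Real.log X with hL
  have hL1 : 1 ≤ L := by
    have := Real.log_nonneg hX
    linarith
  have hL0 : 0 < L := by linarith
  set s := 1 + 1 / L with hs
  have hs1 : 1 < s := by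
    have : 0 < 1 / L := by positivity
    linarith
  have hX0 : 0 < X := by linarith
  -- norms
  have hN1 : ∀ P ∈ PP, 2 ≤ nfBelow P ∧ (nfBelow P).Prime ∧ nfBelow P ≤ Ideal.absNorm P := by
    intro P hP
    rw [hPP] at hP
    haveI := hP.1
    haveI : NeZero P := ⟨hP.2.1⟩
    have h1 : (nfBelow P).Prime := Nat.absNorm_under_prime P
    refine ⟨h1.two_le, h1, ?_⟩
    refine Nat.le_of_dvd (Nat.pos_of_ne_zero ?_) (Int.absNorm_under_dvd_absNorm P)
    rw [Ne, Ideal.absNorm_eq_zero_iff]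
    exact hP.2.1
  set w : Ideal (𝓞 K) → ℝ := fun P => (Ideal.absNorm P : ℝ) ^ (-s) with hw
  have hw0 : ∀ P, 0 ≤ w P := fun P => Real.rpow_nonneg (Nat.cast_nonneg _) _
  have hpw : ∀ p : ℕ, 2 ≤ p → (p : ℝ) ^ (-s) < 1 := by
    intro p hp
    apply Real.rpow_lt_one_of_one_lt_of_neg
    · exact_mod_cast (by omega : 1 < p)
    · linarith
  have hwp : ∀ P ∈ PP, w P ≤ (nfBelow P : ℝ) ^ (-s) := by
    intro P hP
    obtain ⟨h1, h2, h3⟩ := hN1 P hP
    apply Real.rpow_le_rpow_of_nonpos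
    · exact_mod_cast (by omega : 0 < nfBelow P)
    · exact_mod_cast h3
    · linarith
  -- factorisation
  have hfac : ∀ I ∈ S, I = ∏ P ∈ PP, P ^ (normalizedFactors I).count P := by
    intro I hI
    rw [hmS] at hI
    exact nf_factor X PP hPP I hI.1 hI.2
  have hnorm : ∀ I ∈ S, (Ideal.absNorm I : ℝ) ^ (-s) =
      ∏ P ∈ PP, w P ^ (normalizedFactors I).count P := by
    intro I hI
    conv_lhs => rw [hfac I hI, map_prod]
    push_cast
    rw [← Real.finset_prod_rpow _ _ (fun P _ => by positivity)]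
    refine Finset.prod_congr rfl (fun P _ => ?_)
    rw [map_pow, Nat.cast_pow, hw]
    simp only
    rw [← Real.rpow_natCast, ← Real.rpow_natCast, ← Real.rpow_mul (Nat.cast_nonneg _),
      ← Real.rpow_mul (Nat.cast_nonneg _), mul_comm]
  have hcount : ∀ I ∈ S, ∀ P ∈ PP, (normalizedFactors I).count P < M + 1 := by
    intro I hI P hP
    have hI' := (hmS I).1 hI
    have hI0 : Ideal.absNorm I ≠ 0 := by
      rw [Ne, Ideal.absNorm_eq_zero_iff]; exact hI'.1
    have h1 : P ^ (normalizedFactors I).count P ∣ I := by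
      conv_rhs => rw [hfac I hI]
      exact Finset.dvd_prod_of_mem (fun P => P ^ (normalizedFactors I).count P) hP
    have h2 : Ideal.absNorm P ^ (normalizedFactors I).count P ∣ Ideal.absNorm I := by
      rw [← map_pow]
      exact map_dvd Ideal.absNorm h1
    have h3 := Nat.le_of_dvd (Nat.pos_of_ne_zero hI0) h2
    have h4 : 2 ≤ Ideal.absNorm P := (hN1 P hP).1.trans (hN1 P hP).2.2
    have h5 : 2 ^ (normalizedFactors I).count P ≤ Ideal.absNorm P ^ (normalizedFactors I).count P :=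
      Nat.pow_le_pow_left h4 _
    have h6 : Ideal.absNorm I ≤ M := Nat.le_floor hI'.2
    have h7 := Nat.lt_two_pow_self (n := (normalizedFactors I).count P)
    omega
  -- the sum over ideals
  have hsumI : ∑ I ∈ S, (Ideal.absNorm I : ℝ) ^ (-s) ≤
      ∏ P ∈ PP, ∑ k ∈ Finset.range (M + 1), w P ^ k := by
    rw [← Finset.prod_coe_sort PP (fun P => ∑ k ∈ Finset.range (M + 1), w P ^ k),
      Finset.prod_univ_sum]
    set φ : Ideal (𝓞 K) → ({x // x ∈ PP} → ℕ) :=
      fun I P => (normalizedFactors I).count (P : Ideal (𝓞 K)) with hφ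
    have hinj : Set.InjOn φ (S : Set (Ideal (𝓞 K))) := by
      intro I hI J hJ hIJ
      rw [Finset.mem_coe] at hI hJ
      rw [hfac I hI, hfac J hJ]
      refine Finset.prod_congr rfl (fun P hP => ?_)
      have := congrFun hIJ ⟨P, hP⟩
      simp only [hφ] at this
      rw [this]
    have e1 : ∑ I ∈ S, (Ideal.absNorm I : ℝ) ^ (-s) =
        ∑ g ∈ S.image φ, ∏ P : {x // x ∈ PP}, w (P : Ideal (𝓞 K)) ^ g P := by
      rw [Finset.sum_image hinj]
      refine Finset.sum_congr rfl (fun I hI => ?_)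
      rw [hnorm I hI]
      exact (Finset.prod_coe_sort PP (fun P => w P ^ (normalizedFactors I).count P)).symm
    rw [e1]
    refine Finset.sum_le_sum_of_subset_of_nonneg ?_ ?_
    · intro g hg
      rw [Finset.mem_image] at hg
      obtain ⟨I, hI, rfl⟩ := hg
      rw [Fintype.mem_piFinset]
      intro P
      rw [Finset.mem_range]
      exact hcount I hI P.1 P.2
    · intro g _ _
      exact Finset.prod_nonneg (fun P _ => pow_nonneg (hw0 _) _)
  have hgeom : ∀ P ∈ PP, ∑ k ∈ Finset.range (M + 1), w P ^ k ≤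
      (1 - (nfBelow P : ℝ) ^ (-s))⁻¹ := by
    intro P hP
    have h1 := hwp P hP
    have h2 := hpw (nfBelow P) (hN1 P hP).1
    have h3 : 0 < 1 - w P := by linarith
    have h4 : ∑ k ∈ Finset.range (M + 1), w P ^ k ≤ (1 - w P)⁻¹ := by
      rw [← one_div, le_div_iff₀ h3, geom_sum_mul_neg]
      have := pow_nonneg (hw0 P) (M + 1)
      linarith
    refine h4.trans ?_
    apply inv_anti₀
    · linarith
    · linarith
  have hprod : ∏ P ∈ PP, ∑ k ∈ Finset.range (M + 1), w P ^ k ≤ (s / (s - 1)) ^ d := by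
    calc ∏ P ∈ PP, ∑ k ∈ Finset.range (M + 1), w P ^ k
        ≤ ∏ P ∈ PP, (1 - (nfBelow P : ℝ) ^ (-s))⁻¹ := by
          refine Finset.prod_le_prod (fun P _ => ?_) hgeom
          exact Finset.sum_nonneg (fun k _ => pow_nonneg (hw0 P) k)
      _ = ∏ p ∈ (M + 1).primesBelow, ∏ P ∈ PP with nfBelow P = p,
            (1 - (nfBelow P : ℝ) ^ (-s))⁻¹ := by
          refine (Finset.prod_fiberwise_of_maps_to (fun P hP => ?_) _).symm
          rw [Nat.mem_primesBelow]
          refine ⟨?_, (hN1 P hP).2.1⟩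
          have h1 := (hN1 P hP).2.2
          have h2 : Ideal.absNorm P ≤ M := Nat.le_floor ((hPP P).1 hP).2.2
          omega
      _ ≤ ∏ p ∈ (M + 1).primesBelow, ((1 - (p : ℝ) ^ (-s))⁻¹) ^ d := by
          refine Finset.prod_le_prod (fun p hp => ?_) (fun p hp => ?_)
          · refine Finset.prod_nonneg (fun P hP => ?_)
            rw [Finset.mem_filter] at hP
            have h2 := hpw (nfBelow P) (hN1 P hP.1).1
            exact inv_nonneg.2 (by linarith)
          · rw [Nat.mem_primesBelow] at hp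
            have h2 := hpw p hp.2.two_le
            have h3 : 0 ≤ (p : ℝ) ^ (-s) := Real.rpow_nonneg (Nat.cast_nonneg _) _
            have h4 : 1 ≤ (1 - (p : ℝ) ^ (-s))⁻¹ := by
              rw [one_le_inv₀ (by linarith)]
              linarith
            have h5 : ∏ P ∈ PP with nfBelow P = p, (1 - (nfBelow P : ℝ) ^ (-s))⁻¹ =
                ((1 - (p : ℝ) ^ (-s))⁻¹) ^ (PP.filter (fun P => nfBelow P = p)).card := by
              rw [← Finset.prod_const]
              refine Finset.prod_congr rfl (fun P hP => ?_)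
              rw [Finset.mem_filter] at hP
              rw [hP.2]
            rw [h5]
            exact pow_le_pow_right₀ h4 (nf_fibre d hd PP
              (fun P hP => ⟨((hPP P).1 hP).1, ((hPP P).1 hP).2.1⟩) p hp.2)
      _ = (∏ p ∈ (M + 1).primesBelow, (1 - (p : ℝ) ^ (-s))⁻¹) ^ d := by
          rw [Finset.prod_pow]
      _ ≤ (s / (s - 1)) ^ d := by
          refine pow_le_pow_left₀ (Finset.prod_nonneg (fun p hp => ?_)) (nf_euler s hs1 (M + 1)) d
          rw [Nat.mem_primesBelow] at hp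
          have h2 := hpw p hp.2.two_le
          exact inv_nonneg.2 (by linarith)
  -- conclusion
  have hcard : (S.card : ℝ) ≤ X ^ s * ∑ I ∈ S, (Ideal.absNorm I : ℝ) ^ (-s) := by
    rw [Finset.mul_sum, Finset.card_eq_sum_ones]
    push_cast
    refine Finset.sum_le_sum (fun I hI => ?_)
    have hI' := (hmS I).1 hI
    have hI0 : 0 < (Ideal.absNorm I : ℝ) := by
      have : Ideal.absNorm I ≠ 0 := by
        rw [Ne, Ideal.absNorm_eq_zero_iff]; exact hI'.1
      exact_mod_cast Nat.pos_of_ne_zero this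
    rw [Real.rpow_neg hI0.le, ← div_eq_mul_inv, le_div_iff₀ (Real.rpow_pos_of_pos hI0 _), one_mul]
    exact Real.rpow_le_rpow hI0.le hI'.2 (by linarith)
  have hXs : X ^ s ≤ Real.exp 1 * X := by
    rw [hs, Real.rpow_add hX0, Real.rpow_one, mul_comm]
    refine mul_le_mul_of_nonneg_right ?_ hX0.le
    rw [Real.rpow_def_of_pos hX0]
    apply Real.exp_le_exp.2
    rw [mul_one_div, div_le_one hL0]
    linarith
  have hss : s / (s - 1) ≤ 2 * L := by
    have : s / (s - 1) = L + 1 := by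
      rw [hs]
      field_simp
      ring
    rw [this]
    linarith
  have hss0 : 0 ≤ s / (s - 1) := by
    apply div_nonneg <;> linarith
  calc (S.card : ℝ) ≤ X ^ s * ∑ I ∈ S, (Ideal.absNorm I : ℝ) ^ (-s) := hcard
    _ ≤ X ^ s * (s / (s - 1)) ^ d :=
        mul_le_mul_of_nonneg_left (hsumI.trans hprod) (Real.rpow_nonneg hX0.le _)
    _ ≤ (Real.exp 1 * X) * (2 * L) ^ d :=
        mul_le_mul hXs (pow_le_pow_left₀ hss0 hss d) (pow_nonneg hss0 d) (by positivity)
    _ = Real.exp 1 * 2 ^ d * X * L ^ d := by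
        rw [mul_pow]
        ring

end Pool.Agent.LibST91
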