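import Pool.Agent.LibST91.NFDefs

/-!
[ST NF2] Small elements with prescribed absolute values (Minkowski).

PLAN. `mink`: `NumberField.mixedEmbedding.exists_ne_zero_mem_ringOfIntegers_lt` (or the version for ideals with the
ideal `1`): `minkowskiBound K 1 = 2^(-r₂) √|D| 2^d` (`volume_fundamentalDomain_latticeBasis`), the volume
of the body is `2^(r₁) π^(r₂) ∏ f_v^(mult v)` (`convexBodyLT_volume`, `convexBodyLTFactor`); the condition is
`(2/π)^(r₂) √|D| < ∏ f^mult`, implied by the hypothesis.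
`small_rep`: `c = (2√|D|)^(1/d)`, `f_v = c * exp (t v) * v(η)^(-j)`; `∏ f^mult = c^d exp (∑ mult t) |N η|^(-j)
= 2√|D|` (`InfinitePlace.prod_eq_abs_norm`). `mink` gives `y`; `|N y| = ∏ v(y)^mult ≤ 2√|D|`
(`Ideal.absNorm_span_singleton`). Since `1 ≤ |N y|` and `v(y) < f_v` for all `v`: `v(y)^(mult v) ≥ f_v^(mult v)/(2√|D|)`, so
`log v(y) ≥ log f_v - log (2√|D|)`. With `x = y η^j`: `log v(x) - t_v ∈ [log c - log (2√|D|), log c]`,
and `0 ≤ log c ≤ log (2√|D|) ≤ log (3 |D|)` (`|D| ≥ 1`).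
-/

set_option autoImplicit false

namespace Pool.Agent.LibST91

open NumberField

theorem mink (K : Type) [Field K] [NumberField K] (f : InfinitePlace K → ℝ) (hf : ∀ v, 0 < f v)
    (h : √|(discr K : ℝ)| < ∏ v, f v ^ v.mult) :
    ∃ y : 𝓞 K, y ≠ 0 ∧ ∀ v : InfinitePlace K, v (y : K) < f v := by
  classical
  set g : InfinitePlace K → NNReal := fun v => ⟨f v, (hf v).le⟩ with hg
  have key : mixedEmbedding.minkowskiBound K 1 <
      MeasureTheory.volume (mixedEmbedding.convexBodyLT K g) := by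
    rw [mixedEmbedding.convexBodyLT_volume]
    have h1 : mixedEmbedding.minkowskiBound K 1 =
        (((2⁻¹ : NNReal) ^ InfinitePlace.nrComplexPlaces K * NNReal.sqrt ‖discr K‖₊ *
          2 ^ Module.finrank ℚ K : NNReal) : ENNReal) := by
      unfold mixedEmbedding.minkowskiBound
      rw [mixedEmbedding.volume_fundamentalDomain_fractionalIdealLatticeBasis,
        mixedEmbedding.volume_fundamentalDomain_latticeBasis, mixedEmbedding.finrank]
      simp [ENNReal.inv_pow]
    rw [h1, ← ENNReal.coe_mul, ENNReal.coe_lt_coe, ← NNReal.coe_lt_coe]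
    have hrank := InfinitePlace.card_add_two_mul_card_eq_rank K
    have hprod : ((∏ w, g w ^ w.mult : NNReal) : ℝ) = ∏ v, f v ^ v.mult := by
      push_cast
      rfl
    have hsq : ((NNReal.sqrt ‖discr K‖₊ : NNReal) : ℝ) = √|(discr K : ℝ)| := by
      rw [Real.coe_sqrt]
      congr 1
    have hπ : (2 : ℝ) ≤ Real.pi := Real.two_le_pi
    set r1 := InfinitePlace.nrRealPlaces K with hr1
    set r2 := InfinitePlace.nrComplexPlaces K with hr2
    rw [NNReal.coe_mul, NNReal.coe_mul, NNReal.coe_mul, hprod, hsq, ← hrank]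
    have hL : ((((2⁻¹ : NNReal) ^ r2 : NNReal)) : ℝ) = (2⁻¹ : ℝ) ^ r2 := by push_cast; rfl
    have hL2 : ((((2 : NNReal) ^ (r1 + 2 * r2) : NNReal)) : ℝ) = (2 : ℝ) ^ (r1 + 2 * r2) := by
      push_cast; rfl
    have hF : ((mixedEmbedding.convexBodyLTFactor K : NNReal) : ℝ) =
        (2 : ℝ) ^ r1 * Real.pi ^ r2 := by
      unfold mixedEmbedding.convexBodyLTFactor
      push_cast
      rfl
    rw [hL, hL2, hF]
    have e1 : (2⁻¹ : ℝ) ^ r2 * √|(discr K : ℝ)| * 2 ^ (r1 + 2 * r2) =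
        2 ^ r1 * 2 ^ r2 * √|(discr K : ℝ)| := by
      rw [pow_add, two_mul, pow_add]
      have : (2⁻¹ : ℝ) ^ r2 * 2 ^ r2 = 1 := by
        rw [← mul_pow]; norm_num
      calc (2⁻¹ : ℝ) ^ r2 * √|(discr K : ℝ)| * (2 ^ r1 * (2 ^ r2 * 2 ^ r2))
          = ((2⁻¹ : ℝ) ^ r2 * 2 ^ r2) * (2 ^ r1 * 2 ^ r2 * √|(discr K : ℝ)|) := by ring
        _ = _ := by rw [this, one_mul]
    rw [e1]
    have h2 : (2 : ℝ) ^ r1 * 2 ^ r2 ≤ 2 ^ r1 * Real.pi ^ r2 :=
      mul_le_mul_of_nonneg_left (pow_le_pow_left₀ (by norm_num) hπ _) (by positivity)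
    have h0 : 0 < (2 : ℝ) ^ r1 * 2 ^ r2 := by positivity
    calc (2 : ℝ) ^ r1 * 2 ^ r2 * √|(discr K : ℝ)|
        < 2 ^ r1 * 2 ^ r2 * ∏ v, f v ^ v.mult := mul_lt_mul_of_pos_left h h0
      _ ≤ 2 ^ r1 * Real.pi ^ r2 * ∏ v, f v ^ v.mult :=
        mul_le_mul_of_nonneg_right h2 (Finset.prod_nonneg fun v _ => pow_nonneg (hf v).le _)
  obtain ⟨a, ha, hlt⟩ := mixedEmbedding.exists_ne_zero_mem_ringOfIntegers_lt K key
  exact ⟨a, ha, fun v => hlt v⟩

theorem small_rep (K : Type) [Field K] [NumberField K] (η : 𝓞 K) (hη : η ≠ 0) (j : ℤ)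
    (t : InfinitePlace K → ℝ)
    (ht : ∑ v, (v.mult : ℝ) * t v = j * Real.log |((Algebra.norm ℤ η : ℤ) : ℝ)|) :
    ∃ y : 𝓞 K, y ≠ 0 ∧ (Ideal.absNorm (Ideal.span {y}) : ℝ) ≤ 2 * √|(discr K : ℝ)| ∧
      ∀ v : InfinitePlace K, |Real.log (v ((y : K) * (η : K) ^ j)) - t v| ≤
        Real.log (3 * |(discr K : ℝ)|) := by
  classical
  -- the norm as a product
  have hN : ∀ x : 𝓞 K, x ≠ 0 → ∑ v : InfinitePlace K, (v.mult : ℝ) * Real.log (v (x : K)) =
      Real.log |((Algebra.norm ℤ x : ℤ) : ℝ)| := by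
    intro x hx
    have hx' : (x : K) ≠ 0 := by exact_mod_cast hx
    have h1 := InfinitePlace.prod_eq_abs_norm (K := K) (x : K)
    have h2 : ((|(Algebra.norm ℚ) (x : K)| : ℚ) : ℝ) = |((Algebra.norm ℤ x : ℤ) : ℝ)| := by
      rw [← Algebra.coe_norm_int]
      push_cast
      rfl
    rw [h2] at h1
    rw [← h1, Real.log_prod]
    · apply Finset.sum_congr rfl
      intro v _
      rw [Real.log_pow]
    · intro v _
      exact pow_ne_zero _ ((InfinitePlace.pos_iff).2 hx').ne'
  set D : ℝ := |(discr K : ℝ)| with hD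
  have hD1 : 1 ≤ D := by
    rw [hD]
    have : (1 : ℤ) ≤ |discr K| := Int.one_le_abs (discr_ne_zero K)
    exact_mod_cast this
  have hs1 : 1 ≤ √D := by
    rw [← Real.sqrt_one]
    exact Real.sqrt_le_sqrt hD1
  have hsD : √D ≤ D := by
    have h1 : √D * √D = D := Real.mul_self_sqrt (by linarith)
    nlinarith
  set P : ℝ := 2 * √D with hP
  have hP1 : 1 ≤ P := by linarith
  have hP0 : 0 < P := by linarith
  have hlP : 0 ≤ Real.log P := Real.log_nonneg hP1
  have hd : (0 : ℝ) < Module.finrank ℚ K := by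
    exact_mod_cast Module.finrank_pos (R := ℚ) (M := K)
  have hd1 : (1 : ℝ) ≤ Module.finrank ℚ K := by
    exact_mod_cast Module.finrank_pos (R := ℚ) (M := K)
  set s : ℝ := Real.log P / Module.finrank ℚ K with hs
  have hs0 : 0 ≤ s := div_nonneg hlP hd.le
  have hsP : s ≤ Real.log P := div_le_self hlP hd1
  set f : InfinitePlace K → ℝ := fun v => Real.exp (s + t v - j * Real.log (v (η : K))) with hf
  have hf0 : ∀ v, 0 < f v := fun v => Real.exp_pos _
  have hmult : ∑ v : InfinitePlace K, (v.mult : ℝ) = Module.finrank ℚ K := by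
    rw [← InfinitePlace.sum_mult_eq (K := K)]
    push_cast
    rfl
  have hsum : ∑ v : InfinitePlace K, (v.mult : ℝ) * (s + t v - j * Real.log (v (η : K))) =
      Real.log P := by
    have e : ∀ v : InfinitePlace K, (v.mult : ℝ) * (s + t v - j * Real.log (v (η : K))) =
        s * (v.mult : ℝ) + (v.mult : ℝ) * t v - j * ((v.mult : ℝ) * Real.log (v (η : K))) := by
      intro v; ring
    rw [Finset.sum_congr rfl fun v _ => e v, Finset.sum_sub_distrib, Finset.sum_add_distrib,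
      ← Finset.mul_sum, ← Finset.mul_sum, hmult, ht, hN η hη, hs]
    field_simp
    ring
  have hprod : ∏ v, f v ^ v.mult = P := by
    have e : ∀ v : InfinitePlace K, f v ^ v.mult =
        Real.exp ((v.mult : ℝ) * (s + t v - j * Real.log (v (η : K)))) := by
      intro v
      rw [hf, ← Real.exp_nat_mul]
    rw [Finset.prod_congr rfl fun v _ => e v, ← Real.exp_sum, hsum, Real.exp_log hP0]
  obtain ⟨y, hy, hlt⟩ := mink K f hf0 (by rw [hprod, hP]; linarith)
  have hy' : (y : K) ≠ 0 := by exact_mod_cast hy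
  have hη' : (η : K) ≠ 0 := by exact_mod_cast hη
  have hyN := hN y hy
  have hNy : (1 : ℝ) ≤ |((Algebra.norm ℤ y : ℤ) : ℝ)| := by
    have h0 : Algebra.norm ℤ y ≠ 0 := by
      rw [Ne, Algebra.norm_eq_zero_iff]
      exact hy
    have := Int.one_le_abs h0
    exact_mod_cast this
  have hlogN : 0 ≤ Real.log |((Algebra.norm ℤ y : ℤ) : ℝ)| := Real.log_nonneg hNy
  -- the gaps
  set a : InfinitePlace K → ℝ := fun v =>
    (s + t v - j * Real.log (v (η : K))) - Real.log (v (y : K)) with ha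
  have hapos : ∀ v, 0 ≤ a v := by
    intro v
    have h1 : 0 < v (y : K) := (InfinitePlace.pos_iff).2 hy'
    have h2 := Real.log_le_log h1 (hlt v).le
    rw [hf] at h2
    simp only [Real.log_exp] at h2
    rw [ha]
    simp only
    linarith
  have hasum : ∑ v : InfinitePlace K, (v.mult : ℝ) * a v =
      Real.log P - Real.log |((Algebra.norm ℤ y : ℤ) : ℝ)| := by
    rw [← hsum, ← hyN, ← Finset.sum_sub_distrib]
    apply Finset.sum_congr rfl
    intro v _
    rw [ha]
    ring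
  have hale : ∀ v, a v ≤ Real.log P := by
    intro v
    have h1 : (v.mult : ℝ) * a v ≤ ∑ v : InfinitePlace K, (v.mult : ℝ) * a v :=
      Finset.single_le_sum (f := fun v : InfinitePlace K => (v.mult : ℝ) * a v)
        (fun w _ => mul_nonneg (Nat.cast_nonneg _) (hapos w)) (Finset.mem_univ v)
    have h2 : (1 : ℝ) ≤ v.mult := by exact_mod_cast (InfinitePlace.mult_pos (w := v))
    have h3 : a v ≤ (v.mult : ℝ) * a v := le_mul_of_one_le_left (hapos v) h2
    linarith
  refine ⟨y, hy, ?_, ?_⟩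
  · rw [Ideal.absNorm_span_singleton, Nat.cast_natAbs]
    push_cast
    have h0 : 0 ≤ ∑ v : InfinitePlace K, (v.mult : ℝ) * a v :=
      Finset.sum_nonneg fun v _ => mul_nonneg (Nat.cast_nonneg _) (hapos v)
    have h1 : Real.log |((Algebra.norm ℤ y : ℤ) : ℝ)| ≤ Real.log P := by linarith
    exact (Real.log_le_log_iff (by linarith) hP0).1 h1
  · intro v
    have h1 : v ((y : K) * (η : K) ^ j) = v (y : K) * v (η : K) ^ j := by
      rw [map_mul, map_zpow₀]
    have hvη : 0 < v (η : K) := (InfinitePlace.pos_iff).2 hη'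
    have hvy : 0 < v (y : K) := (InfinitePlace.pos_iff).2 hy'
    have h2 : Real.log (v ((y : K) * (η : K) ^ j)) =
        Real.log (v (y : K)) + j * Real.log (v (η : K)) := by
      rw [h1, Real.log_mul hvy.ne' (zpow_ne_zero _ hvη.ne'), Real.log_zpow]
    have h3 : Real.log (v ((y : K) * (η : K) ^ j)) - t v = s - a v := by
      rw [h2, ha]
      ring
    have h4 : Real.log P ≤ Real.log (3 * D) := Real.log_le_log hP0 (by linarith)
    rw [h3, abs_le]
    constructor
    · have := hale v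
      linarith
    · have := hapos v
      linarith

end Pool.Agent.LibST91
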