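import Pool.Agent.LibST91.NF1
import Pool.Agent.LibST91.NF2

/-!
[ST NF3] Lower bound for the number of elements of `Gam`.

PLAN. `G = log (3|D|) ≥ 1` (`log 3 > 1`), `g = gη η ≥ 1`, `s` = number of infinite places, `v₀` one place. For a real
`R ≥ 1` take the pairs `(j, m)`, `0 ≤ j ≤ J = ⌊R/g⌋`, `m_v ∈ {0, .., ⌊R/(3G)⌋}` for `v ≠ v₀`, and `t_v = 3 G m_v` for `v ≠ v₀`,
`t_{v₀}` determined by `∑ mult t = j log |Nη|` (so `∑ |t_v| ≤ 4 d R`, as `|log |Nη|| ≤ g`, `log|Nη| ≥ 0`). `small_rep` gives `y(j,m)`; its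
ideal is one of at most `N₀ = C 2√|D| (1 + log (2√|D|))^κ` ideals (NF1). Some ideal is taken at least
`(J+1)(⌊R/(3G)⌋+1)^(s-1)/N₀ ≥ (R/g)(R/(3G))^(s-1)/N₀` times. Fix one pair `(j₀, m₀)` of this class; for the
others `y = u y₀` with a unit `u`, so `x/x₀ = u η^(j - j₀)` where `x = y η^j`, and
`a = (log (x/x₀), j - j₀) ∈ Gam`, `gnorm a ≤ ∑ (|t_v| + |t₀_v| + 2G) + J g ≤ c (R + G)`, `c = c(d)`. Different pairs
give different `a`: `j` from the second component, `m_v` since `|log_v x - t_v| ≤ G` and the `t_v` are multiples of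
`3G`. So for `ρ ≥ 2 c G` (take `R = ρ/(2c)`) the count is `≥ (ρ/2c)^s/(g (3G)^(s-1) N₀)`, and for
`1 ≤ ρ < 2 c G` it is `≥ 1 ≥ ρ^s/(2cG)^s`. Both are `≥ ρ^s / (C √|D| G^κ g)`.
-/

set_option autoImplicit false

namespace Pool.Agent.LibST91

open NumberField

private theorem NF3_one_le_mult {K : Type} [Field K] [NumberField K] (v : InfinitePlace K) :
    (1 : ℝ) ≤ v.mult := by
  have : 1 ≤ v.mult := InfinitePlace.mult_pos
  exact_mod_cast this

private theorem NF3_mult_le_two {K : Type} [Field K] [NumberField K] (v : InfinitePlace K) :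
    (v.mult : ℝ) ≤ 2 := by
  unfold InfinitePlace.mult
  split_ifs <;> norm_num

private theorem NF3_card_le (K : Type) [Field K] [NumberField K] (d : ℕ)
    (hd : Module.finrank ℚ K = d) : Fintype.card (InfinitePlace K) ≤ d := by
  have h := InfinitePlace.sum_mult_eq (K := K)
  calc Fintype.card (InfinitePlace K) = ∑ _v : InfinitePlace K, 1 := by simp
    _ ≤ ∑ v : InfinitePlace K, v.mult :=
        Finset.sum_le_sum (fun v _ => InfinitePlace.mult_pos)
    _ = d := by rw [h, hd]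

private theorem NF3_one_le_D (K : Type) [Field K] [NumberField K] : 1 ≤ |(discr K : ℝ)| := by
  have h : discr K ≠ 0 := NumberField.discr_ne_zero K
  have h1 : (1 : ℤ) ≤ |discr K| := Int.one_le_abs h
  have h2 : ((1 : ℤ) : ℝ) ≤ ((|discr K| : ℤ) : ℝ) := by exact_mod_cast h1
  simpa using h2

private theorem NF3_one_le_G (K : Type) [Field K] [NumberField K] :
    1 ≤ Real.log (3 * |(discr K : ℝ)|) := by
  have h := NF3_one_le_D K
  rw [Real.le_log_iff_exp_le (by positivity)]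
  have := Real.exp_one_lt_d9
  linarith

open Classical in
private noncomputable def NF3_t {K : Type} [Field K] [NumberField K] (v₀ : InfinitePlace K)
    (G Lη : ℝ) (j : ℕ) (m : InfinitePlace K → ℕ) : InfinitePlace K → ℝ :=
  fun v => if v = v₀ then ((j : ℝ) * Lη - ∑ w ∈ Finset.univ.erase v₀, (w.mult : ℝ) * (3 * G * m w)) /
    v₀.mult else 3 * G * m v

private theorem NF3_t_of_ne {K : Type} [Field K] [NumberField K] (v₀ : InfinitePlace K)
    (G Lη : ℝ) (j : ℕ) (m : InfinitePlace K → ℕ) (v : InfinitePlace K) (h : v ≠ v₀) :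
    NF3_t v₀ G Lη j m v = 3 * G * m v := by
  simp [NF3_t, h]

private theorem NF3_t_sum {K : Type} [Field K] [NumberField K] (v₀ : InfinitePlace K)
    (G Lη : ℝ) (j : ℕ) (m : InfinitePlace K → ℕ) :
    ∑ v, (v.mult : ℝ) * NF3_t v₀ G Lη j m v = j * Lη := by
  classical
  have h0 : (v₀.mult : ℝ) ≠ 0 := by
    have := NF3_one_le_mult v₀
    positivity
  rw [← Finset.add_sum_erase _ _ (Finset.mem_univ v₀)]
  have h1 : ∑ v ∈ Finset.univ.erase v₀, (v.mult : ℝ) * NF3_t v₀ G Lη j m v =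
      ∑ w ∈ Finset.univ.erase v₀, (w.mult : ℝ) * (3 * G * m w) :=
    Finset.sum_congr rfl (fun v hv => by rw [NF3_t_of_ne v₀ G Lη j m v (Finset.ne_of_mem_erase hv)])
  rw [h1]
  have h2 : NF3_t v₀ G Lη j m v₀ = ((j : ℝ) * Lη -
      ∑ w ∈ Finset.univ.erase v₀, (w.mult : ℝ) * (3 * G * m w)) / v₀.mult := by
    simp only [NF3_t, if_true]
  rw [h2, mul_div_cancel₀ _ h0]
  ring

private theorem NF3_t_abs {K : Type} [Field K] [NumberField K] (v₀ : InfinitePlace K)
    (G Lη R : ℝ) (hG : 0 ≤ G) (hR : 0 ≤ R) (hL : 0 ≤ Lη) (j : ℕ) (m : InfinitePlace K → ℕ)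
    (hj : (j : ℝ) * Lη ≤ R) (hm : ∀ v, v ≠ v₀ → 3 * G * m v ≤ R) (d : ℕ) (hd : 1 ≤ d)
    (hs : Fintype.card (InfinitePlace K) ≤ d) (v : InfinitePlace K) :
    |NF3_t v₀ G Lη j m v| ≤ 2 * d * R := by
  classical
  have hd' : (1 : ℝ) ≤ d := by exact_mod_cast hd
  by_cases hv : v = v₀
  · subst hv
    have h2 : NF3_t v G Lη j m v = ((j : ℝ) * Lη -
        ∑ w ∈ Finset.univ.erase v, (w.mult : ℝ) * (3 * G * m w)) / v.mult := by
      simp only [NF3_t, if_true]
    have hS0 : 0 ≤ ∑ w ∈ Finset.univ.erase v, (w.mult : ℝ) * (3 * G * m w) :=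
      Finset.sum_nonneg (fun w _ => by positivity)
    have hS1 : ∑ w ∈ Finset.univ.erase v, (w.mult : ℝ) * (3 * G * m w) ≤ 2 * d * R := by
      calc ∑ w ∈ Finset.univ.erase v, (w.mult : ℝ) * (3 * G * m w)
          ≤ ∑ w ∈ Finset.univ.erase v, 2 * R := by
            refine Finset.sum_le_sum (fun w hw => ?_)
            have h3 := hm w (Finset.ne_of_mem_erase hw)
            have h4 := NF3_mult_le_two w
            exact mul_le_mul h4 h3 (by positivity) (by norm_num)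
        _ = ((Finset.univ.erase v).card : ℝ) * (2 * R) := by
            rw [Finset.sum_const, nsmul_eq_mul]
        _ ≤ (d : ℝ) * (2 * R) := by
            refine mul_le_mul_of_nonneg_right ?_ (by positivity)
            have h5 : (Finset.univ.erase v).card ≤ d := (Finset.card_erase_le).trans (by
              rw [Finset.card_univ]; exact hs)
            exact_mod_cast h5
        _ = 2 * d * R := by ring
    have hj0 : 0 ≤ (j : ℝ) * Lη := by positivity
    have h6 : |(j : ℝ) * Lη - ∑ w ∈ Finset.univ.erase v, (w.mult : ℝ) * (3 * G * m w)| ≤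
        2 * d * R := by
      have : R ≤ 2 * d * R := by nlinarith
      rw [abs_le]
      constructor <;> linarith
    have h7 := NF3_one_le_mult v
    rw [h2, abs_div, abs_of_pos (by positivity : (0 : ℝ) < v.mult)]
    exact (div_le_self (abs_nonneg _) h7).trans h6
  · rw [NF3_t_of_ne v₀ G Lη j m v hv, abs_of_nonneg (by positivity)]
    have := hm v hv
    nlinarith

private theorem NF3_el {K : Type} [Field K] [NumberField K] (η : 𝓞 K) (hη : η ≠ 0) (y y₀ : 𝓞 K)
    (hy : y ≠ 0) (hy₀ : y₀ ≠ 0) (hs : Ideal.span {y} = Ideal.span {y₀}) (j j₀ : ℤ) :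
    ∃ a : Gam η hη, (a : (InfinitePlace K → ℝ) × ℤ).2 = j - j₀ ∧
      ∀ v, (a : (InfinitePlace K → ℝ) × ℤ).1 v =
        Real.log (v ((y : K) * (η : K) ^ j)) - Real.log (v ((y₀ : K) * (η : K) ^ j₀)) := by
  obtain ⟨u, hu⟩ := (Ideal.span_singleton_eq_span_singleton.1 hs.symm)
  have hη' : ((η : 𝓞 K) : K) ≠ 0 := by simpa using hη
  have hy' : ((y : 𝓞 K) : K) ≠ 0 := by simpa using hy
  have hy₀' : ((y₀ : 𝓞 K) : K) ≠ 0 := by simpa using hy₀
  refine ⟨⟨(logv (gel η u (j - j₀)), j - j₀), ⟨u, rfl⟩⟩, rfl, fun v => ?_⟩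
  have h1 : v ((y : K) * (η : K) ^ j) ≠ 0 := by
    rw [map_ne_zero]
    exact mul_ne_zero hy' (zpow_ne_zero _ hη')
  have h2 : v ((y₀ : K) * (η : K) ^ j₀) ≠ 0 := by
    rw [map_ne_zero]
    exact mul_ne_zero hy₀' (zpow_ne_zero _ hη')
  show Real.log (v (gel η u (j - j₀))) = _
  rw [← Real.log_div h1 h2, ← map_div₀]
  congr 2
  have h3 : (y : K) = (y₀ : K) * ((u : 𝓞 K) : K) := by
    rw [← map_mul, hu]
  rw [h3, gel, zpow_sub₀ hη']
  field_simp

private theorem NF3_big (K : Type) [Field K] [NumberField K] (d : ℕ)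
    (hd : Module.finrank ℚ K = d) (hd1 : 1 ≤ d) (η : 𝓞 K) (hη : η ≠ 0)
    (hfin : ∀ ρ : ℝ, {a : Gam η hη | gnorm a ≤ ρ}.Finite) (S : Finset (Ideal (𝓞 K)))
    (hS : ∀ y : 𝓞 K, y ≠ 0 → (Ideal.absNorm (Ideal.span {y}) : ℝ) ≤ 2 * √|(discr K : ℝ)| →
      Ideal.span {y} ∈ S) (R : ℝ) (hR : Real.log (3 * |(discr K : ℝ)|) ≤ R) :
    (R / gη η) * (R / (3 * Real.log (3 * |(discr K : ℝ)|))) ^
      (Fintype.card (InfinitePlace K) - 1) ≤
      ({a : Gam η hη | gnorm a ≤ 10 * d ^ 2 * R}.ncard : ℝ) * (S.card : ℝ) := by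
  classical
  obtain ⟨v₀⟩ : Nonempty (InfinitePlace K) := inferInstance
  set G : ℝ := Real.log (3 * |(discr K : ℝ)|) with hGdef
  have hG1 : 1 ≤ G := NF3_one_le_G K
  have hR1 : 1 ≤ R := hG1.trans hR
  have hd' : (1 : ℝ) ≤ d := by exact_mod_cast hd1
  set Lη : ℝ := Real.log |((Algebra.norm ℤ η : ℤ) : ℝ)| with hLdef
  have hL0 : 0 ≤ Lη := by
    have h1 : Algebra.norm ℤ η ≠ 0 := Algebra.norm_ne_zero_iff.2 hη
    have h2 : (1 : ℤ) ≤ |Algebra.norm ℤ η| := Int.one_le_abs h1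
    have h3 : ((1 : ℤ) : ℝ) ≤ ((|Algebra.norm ℤ η| : ℤ) : ℝ) := by exact_mod_cast h2
    exact Real.log_nonneg (by simpa using h3)
  have hg1 : 1 ≤ gη η := le_max_left _ _
  have hLg : Lη ≤ gη η := le_max_right _ _
  have hg0 : 0 < gη η := by linarith
  have hscard := NF3_card_le K d hd
  have h3G : 0 < 3 * G := by linarith
  -- the indices
  set J : ℕ := ⌊R / gη η⌋₊ with hJ
  set M : ℕ := ⌊R / (3 * G)⌋₊ with hM
  have hJle : (J : ℝ) * gη η ≤ R := by
    have := Nat.floor_le (by positivity : 0 ≤ R / gη η)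
    rwa [le_div_iff₀ hg0] at this
  have hMle : (M : ℝ) * (3 * G) ≤ R := by
    have := Nat.floor_le (by positivity : 0 ≤ R / (3 * G))
    rwa [le_div_iff₀ h3G] at this
  set P : Finset (ℕ × (InfinitePlace K → ℕ)) := Finset.range (J + 1) ×ˢ
    Fintype.piFinset (fun v => if v = v₀ then ({0} : Finset ℕ) else Finset.range (M + 1)) with hP
  have hPmem : ∀ p ∈ P, p.1 ≤ J ∧ p.2 v₀ = 0 ∧ ∀ v, v ≠ v₀ → p.2 v ≤ M := by
    intro p hp
    rw [hP, Finset.mem_product, Fintype.mem_piFinset] at hp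
    refine ⟨by have := Finset.mem_range.1 hp.1; omega, ?_, fun v hv => ?_⟩
    · have := hp.2 v₀
      simpa using this
    · have := hp.2 v
      rw [if_neg hv, Finset.mem_range] at this
      omega
  have hPcard : (R / gη η) * (R / (3 * G)) ^ (Fintype.card (InfinitePlace K) - 1) ≤ (P.card : ℝ) := by
    have h1 : P.card = (J + 1) * (M + 1) ^ (Fintype.card (InfinitePlace K) - 1) := by
      rw [hP, Finset.card_product, Fintype.card_piFinset, Finset.card_range]
      congr 1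
      rw [← Finset.mul_prod_erase _ _ (Finset.mem_univ v₀)]
      rw [if_pos rfl, Finset.card_singleton, one_mul]
      rw [Finset.prod_congr rfl (fun v hv => by
        rw [if_neg (Finset.ne_of_mem_erase hv), Finset.card_range] :
        ∀ v ∈ Finset.univ.erase v₀, _ = M + 1)]
      rw [Finset.prod_const, Finset.card_erase_of_mem (Finset.mem_univ v₀), Finset.card_univ]
    rw [h1]
    push_cast
    have h2 : R / gη η ≤ (J : ℝ) + 1 := (Nat.lt_floor_add_one _).le
    have h3 : R / (3 * G) ≤ (M : ℝ) + 1 := (Nat.lt_floor_add_one _).le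
    exact mul_le_mul h2 (pow_le_pow_left₀ (by positivity) h3 _) (by positivity) (by positivity)
  -- the elements
  have hy : ∀ p : ℕ × (InfinitePlace K → ℕ), ∃ y : 𝓞 K, y ≠ 0 ∧
      (Ideal.absNorm (Ideal.span {y}) : ℝ) ≤ 2 * √|(discr K : ℝ)| ∧
      ∀ v : InfinitePlace K, |Real.log (v ((y : K) * (η : K) ^ (p.1 : ℤ))) -
        NF3_t v₀ G Lη p.1 p.2 v| ≤ G := by
    intro p
    refine small_rep K η hη p.1 _ ?_
    rw [NF3_t_sum]
    push_cast
    rfl
  choose y hy0 hyN hyL using hy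
  refine hPcard.trans ?_
  have hcount : P.card ≤ {a : Gam η hη | gnorm a ≤ 10 * d ^ 2 * R}.ncard * S.card := by
    refine Finset.card_le_mul_card_image_of_maps_to (f := fun p => Ideal.span {y p})
      (fun p _ => hS (y p) (hy0 p) (hyN p)) _ (fun I _ => ?_)
    rcases (P.filter (fun p => Ideal.span {y p} = I)).eq_empty_or_nonempty with he | ⟨p₀, hp₀⟩
    · rw [he]
      simp
    · rw [Finset.mem_filter] at hp₀
      have hel : ∀ p : ℕ × (InfinitePlace K → ℕ), ∃ a : Gam η hη,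
          Ideal.span {y p} = I →
          ((a : (InfinitePlace K → ℝ) × ℤ).2 = (p.1 : ℤ) - (p₀.1 : ℤ) ∧
          ∀ v, (a : (InfinitePlace K → ℝ) × ℤ).1 v =
            Real.log (v ((y p : K) * (η : K) ^ (p.1 : ℤ))) -
              Real.log (v ((y p₀ : K) * (η : K) ^ (p₀.1 : ℤ)))) := by
        intro p
        by_cases h : Ideal.span {y p} = I
        · obtain ⟨a, ha1, ha2⟩ := NF3_el η hη (y p) (y p₀) (hy0 p) (hy0 p₀) (h.trans hp₀.2.symm)
            p.1 p₀.1
          exact ⟨a, fun _ => ⟨ha1, ha2⟩⟩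
        · exact ⟨0, fun h' => absurd h' h⟩
      choose a ha using hel
      rw [Set.ncard_eq_toFinset_card _ (hfin _)]
      refine Finset.card_le_card_of_injOn a (fun p hp => ?_) (fun p hp p' hp' hpp => ?_)
      · have hp := Finset.mem_filter.1 (Finset.mem_coe.1 hp)
        obtain ⟨h1, h2⟩ := ha p hp.2
        obtain ⟨hp1, hp2, hp3⟩ := hPmem p hp.1
        obtain ⟨hq1, hq2, hq3⟩ := hPmem p₀ hp₀.1
        rw [Finset.mem_coe, Set.Finite.mem_toFinset, Set.mem_ofPred_eq, gnorm]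
        have habs : ∀ q ∈ P, ∀ v, |NF3_t v₀ G Lη q.1 q.2 v| ≤ 2 * d * R := by
          intro q hq v
          obtain ⟨hq1, hq2, hq3⟩ := hPmem q hq
          refine NF3_t_abs v₀ G Lη R (by linarith) (by linarith) hL0 q.1 q.2 ?_ ?_ d hd1 hscard v
          · have h3 : (q.1 : ℝ) ≤ J := by exact_mod_cast hq1
            calc (q.1 : ℝ) * Lη ≤ J * gη η := mul_le_mul h3 hLg hL0 (by positivity)
              _ ≤ R := hJle
          · intro v hv
            have h3 : (q.2 v : ℝ) ≤ M := by exact_mod_cast hq3 v hv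
            calc 3 * G * (q.2 v : ℝ) ≤ 3 * G * M := by
                  exact mul_le_mul_of_nonneg_left h3 h3G.le
              _ ≤ R := by rw [mul_comm]; exact hMle
        have hv : ∀ v, |(a p : (InfinitePlace K → ℝ) × ℤ).1 v| ≤ 4 * d * R + 2 * R := by
          intro v
          rw [h2 v]
          have h3 := hyL p v
          have h4 := hyL p₀ v
          have h5 := habs p hp.1 v
          have h6 := habs p₀ hp₀.1 v
          rw [abs_le] at h3 h4 h5 h6 ⊢
          constructor <;> linarith [h3.1, h3.2, h4.1, h4.2, h5.1, h5.2, h6.1, h6.2]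
        have hj : |(((a p : (InfinitePlace K → ℝ) × ℤ).2 : ℤ) : ℝ)| * gη η ≤ R := by
          rw [h1]
          push_cast
          have h3 : (p.1 : ℝ) ≤ J := by exact_mod_cast hp1
          have h4 : (p₀.1 : ℝ) ≤ J := by exact_mod_cast hq1
          have h5 : |(p.1 : ℝ) - (p₀.1 : ℝ)| ≤ J := by
            have h6 : (0 : ℝ) ≤ p.1 := Nat.cast_nonneg _
            have h7 : (0 : ℝ) ≤ p₀.1 := Nat.cast_nonneg _
            rw [abs_le]
            constructor <;> linarith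
          exact (mul_le_mul_of_nonneg_right h5 hg0.le).trans hJle
        have hsum : ∑ v : InfinitePlace K, |(a p : (InfinitePlace K → ℝ) × ℤ).1 v| ≤
            d * (4 * d * R + 2 * R) := by
          calc ∑ v : InfinitePlace K, |(a p : (InfinitePlace K → ℝ) × ℤ).1 v|
              ≤ ∑ _v : InfinitePlace K, (4 * d * R + 2 * R) := Finset.sum_le_sum (fun v _ => hv v)
            _ = (Fintype.card (InfinitePlace K) : ℝ) * (4 * d * R + 2 * R) := by
                rw [Finset.sum_const, Finset.card_univ, nsmul_eq_mul]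
            _ ≤ d * (4 * d * R + 2 * R) := by
                refine mul_le_mul_of_nonneg_right ?_ (by positivity)
                exact_mod_cast hscard
        have h8 : (d : ℝ) ≤ d ^ 2 := by nlinarith
        have h9 : (1 : ℝ) ≤ d ^ 2 := by nlinarith
        have h10 : (d : ℝ) * R ≤ d ^ 2 * R := mul_le_mul_of_nonneg_right h8 (by linarith)
        have h11 : 1 * R ≤ (d : ℝ) ^ 2 * R := mul_le_mul_of_nonneg_right h9 (by linarith)
        nlinarith
      · have hp := Finset.mem_filter.1 (Finset.mem_coe.1 hp)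
        have hp' := Finset.mem_filter.1 (Finset.mem_coe.1 hp')
        obtain ⟨h1, h2⟩ := ha p hp.2
        obtain ⟨h1', h2'⟩ := ha p' hp'.2
        obtain ⟨hp1, hp2, hp3⟩ := hPmem p hp.1
        obtain ⟨hq1, hq2, hq3⟩ := hPmem p' hp'.1
        rw [← hpp] at h1' h2'
        have h3 : p.1 = p'.1 := by
          have : (p.1 : ℤ) - (p₀.1 : ℤ) = (p'.1 : ℤ) - (p₀.1 : ℤ) := h1.symm.trans h1'
          omega
        refine Prod.ext h3 (funext fun v => ?_)
        by_cases hv : v = v₀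
        · subst hv
          rw [hp2, hq2]
        · have h4 := (h2 v).symm.trans (h2' v)
          have h5 := hyL p v
          have h6 := hyL p' v
          rw [NF3_t_of_ne _ _ _ _ _ _ hv, abs_le] at h5 h6
          have h7 : 3 * G * ((p.2 v : ℝ) - p'.2 v) ≤ 2 * G := by
            linarith [h5.1, h5.2, h6.1, h6.2]
          have h8 : -(2 * G) ≤ 3 * G * ((p.2 v : ℝ) - p'.2 v) := by
            linarith [h5.1, h5.2, h6.1, h6.2]
          have hG0 : 0 < G := by linarith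
          by_contra hne
          rcases Nat.lt_or_gt_of_ne hne with h | h
          · have h9 : (p.2 v : ℝ) + 1 ≤ p'.2 v := by exact_mod_cast h
            nlinarith
          · have h9 : (p'.2 v : ℝ) + 1 ≤ p.2 v := by exact_mod_cast h
            nlinarith
  exact_mod_cast hcount

theorem count_lower (d : ℕ) : ∃ C : ℝ, 1 ≤ C ∧ ∃ κ : ℕ, ∀ (K : Type) [Field K] [NumberField K],
    Module.finrank ℚ K = d → ∀ (η : 𝓞 K) (hη : η ≠ 0),
    {a : Gam η hη | gnorm a ≤ 1}.Finite → (∀ ρ : ℝ, {a : Gam η hη | gnorm a ≤ ρ}.Finite) →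
    ∀ ρ : ℝ, 1 ≤ ρ →
      ρ ^ (Fintype.card (InfinitePlace K)) /
        (C * √|(discr K : ℝ)| * Real.log (3 * |(discr K : ℝ)|) ^ κ * gη η) ≤
        ({a : Gam η hη | gnorm a ≤ ρ}.ncard : ℝ) := by
  obtain ⟨C₁, hC₁, κ₁, hI⟩ := ideal_count d
  set c : ℝ := 10 * (max d 1 : ℕ) ^ 2 with hc
  have hmax1 : (1 : ℝ) ≤ ((max d 1 : ℕ) : ℝ) := by exact_mod_cast le_max_right d 1
  have hc1 : 1 ≤ c := by nlinarith
  refine ⟨(3 * c) ^ d * 2 ^ (κ₁ + 1) * C₁, ?_, d + κ₁, ?_⟩
  · have h1 : (1 : ℝ) ≤ (3 * c) ^ d := one_le_pow₀ (by linarith)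
    have h2 : (1 : ℝ) ≤ 2 ^ (κ₁ + 1) := one_le_pow₀ (by norm_num)
    exact one_le_mul_of_one_le_of_one_le (one_le_mul_of_one_le_of_one_le h1 h2) hC₁
  intro K _ _ hd η hη _ hfin ρ hρ
  have hd1 : 1 ≤ d := by
    rw [← hd]
    exact Module.finrank_pos
  have hmax : max d 1 = d := max_eq_left hd1
  rw [hmax] at hc hmax1
  have hD1 := NF3_one_le_D K
  have hG1 := NF3_one_le_G K
  set G : ℝ := Real.log (3 * |(discr K : ℝ)|) with hG
  set D : ℝ := |(discr K : ℝ)| with hD
  set s : ℕ := Fintype.card (InfinitePlace K) with hs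
  have hs1 : 1 ≤ s := Fintype.card_pos
  have hsd : s ≤ d := NF3_card_le K d hd
  have hsq1 : 1 ≤ √D := Real.one_le_sqrt.2 hD1
  have hg1 : 1 ≤ gη η := le_max_left _ _
  have hρ0 : 0 < ρ := by linarith
  rw [div_le_iff₀ (by positivity)]
  by_cases hcase : ρ < c * G
  · -- only zero
    have h1 : (1 : ℝ) ≤ ({a : Gam η hη | gnorm a ≤ ρ}.ncard : ℝ) := by
      have h2 : 0 < {a : Gam η hη | gnorm a ≤ ρ}.ncard := by
        rw [Set.ncard_pos (hfin ρ)]
        refine ⟨0, ?_⟩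
        simp only [Set.mem_ofPred_eq, gnorm]
        simp
        exact hρ0.le
      exact_mod_cast h2
    have h3 : ρ ^ s ≤ (c * G) ^ d := by
      calc ρ ^ s ≤ ρ ^ d := pow_le_pow_right₀ hρ hsd
        _ ≤ (c * G) ^ d := pow_le_pow_left₀ hρ0.le hcase.le _
    have h4 : (c * G) ^ d ≤ (3 * c) ^ d * 2 ^ (κ₁ + 1) * C₁ * √D * G ^ (d + κ₁) * gη η := by
      have h5 : (c : ℝ) ^ d ≤ (3 * c) ^ d := pow_le_pow_left₀ (by linarith) (by linarith) _
      have h6 : (1 : ℝ) ≤ 2 ^ (κ₁ + 1) := one_le_pow₀ (by norm_num)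
      have h7 : (G : ℝ) ^ d ≤ G ^ (d + κ₁) := pow_le_pow_right₀ hG1 (by omega)
      calc (c * G) ^ d = c ^ d * 1 * 1 * 1 * G ^ d * 1 := by rw [mul_pow]; ring
        _ ≤ (3 * c) ^ d * 2 ^ (κ₁ + 1) * C₁ * √D * G ^ (d + κ₁) * gη η := by gcongr
    calc ρ ^ s ≤ (3 * c) ^ d * 2 ^ (κ₁ + 1) * C₁ * √D * G ^ (d + κ₁) * gη η := h3.trans h4
      _ = 1 * ((3 * c) ^ d * 2 ^ (κ₁ + 1) * C₁ * √D * G ^ (d + κ₁) * gη η) := by ring
      _ ≤ _ := mul_le_mul_of_nonneg_right h1 (by positivity)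
  · have hcase := not_lt.1 hcase
    have hX1 : 1 ≤ 2 * √D := by linarith
    obtain ⟨hIfin, hIcard⟩ := hI K hd (2 * √D) hX1
    have hlog : 1 + Real.log (2 * √D) ≤ 2 * G := by
      have h1 : Real.log (2 * √D) ≤ G := by
        refine Real.log_le_log (by positivity) ?_
        have h2 : √D ≤ D := by
          rw [Real.sqrt_le_left (by linarith)]
          nlinarith
        linarith
      linarith
    have hlog0 : 0 ≤ Real.log (2 * √D) := Real.log_nonneg hX1
    set S : Finset (Ideal (𝓞 K)) := hIfin.toFinset with hSdef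
    have hScard : (S.card : ℝ) ≤ 2 ^ (κ₁ + 1) * C₁ * √D * G ^ κ₁ := by
      rw [hSdef, ← Set.ncard_eq_toFinset_card _ hIfin]
      refine hIcard.trans ?_
      calc C₁ * (2 * √D) * (1 + Real.log (2 * √D)) ^ κ₁ ≤ C₁ * (2 * √D) * (2 * G) ^ κ₁ := by
            gcongr
        _ = 2 ^ (κ₁ + 1) * C₁ * √D * G ^ κ₁ := by rw [mul_pow, pow_succ]; ring
    have hbig := NF3_big K d hd hd1 η hη hfin S (fun y hy hyN => by
      rw [hSdef, Set.Finite.mem_toFinset]
      refine ⟨?_, hyN⟩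
      rwa [Ne, Ideal.span_singleton_eq_bot]) (ρ / c) (by
        rw [le_div_iff₀ (by linarith)]
        linarith)
    have hcR : 10 * (d : ℝ) ^ 2 * (ρ / c) = ρ := by
      rw [← hc]
      field_simp
    rw [hcR] at hbig
    have h1 : (ρ / c / gη η) * (ρ / c / (3 * G)) ^ (s - 1) ≤
        ({a : Gam η hη | gnorm a ≤ ρ}.ncard : ℝ) * (2 ^ (κ₁ + 1) * C₁ * √D * G ^ κ₁) :=
      hbig.trans (mul_le_mul_of_nonneg_left hScard (by positivity))
    have h2 : ρ ^ s ≤ ((ρ / c / gη η) * (ρ / c / (3 * G)) ^ (s - 1)) *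
        ((3 * c) ^ d * G ^ d * gη η) := by
      have h3 : ((ρ / c / gη η) * (ρ / c / (3 * G)) ^ (s - 1)) * (c * (3 * c * G) ^ (s - 1) * gη η) =
          ρ ^ s := by
        have h4 : (ρ / c / (3 * G)) ^ (s - 1) * (3 * c * G) ^ (s - 1) = ρ ^ (s - 1) := by
          rw [← mul_pow]
          congr 1
          field_simp
        have h5 : (ρ / c / gη η) * (c * gη η) = ρ := by
          field_simp
        calc ((ρ / c / gη η) * (ρ / c / (3 * G)) ^ (s - 1)) * (c * (3 * c * G) ^ (s - 1) * gη η)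
            = ((ρ / c / gη η) * (c * gη η)) *
              ((ρ / c / (3 * G)) ^ (s - 1) * (3 * c * G) ^ (s - 1)) := by ring
          _ = ρ * ρ ^ (s - 1) := by rw [h4, h5]
          _ = ρ ^ s := by rw [← pow_succ']; congr 1; omega
      rw [← h3]
      refine mul_le_mul_of_nonneg_left ?_ (by positivity)
      refine mul_le_mul_of_nonneg_right ?_ (by linarith)
      calc c * (3 * c * G) ^ (s - 1) ≤ (3 * c * G) * (3 * c * G) ^ (s - 1) := by
            refine mul_le_mul_of_nonneg_right ?_ (by positivity)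
            nlinarith
        _ = (3 * c * G) ^ s := by rw [← pow_succ']; congr 1; omega
        _ ≤ (3 * c * G) ^ d := pow_le_pow_right₀ (by nlinarith) hsd
        _ = (3 * c) ^ d * G ^ d := by rw [mul_pow]
    calc ρ ^ s ≤ ((ρ / c / gη η) * (ρ / c / (3 * G)) ^ (s - 1)) *
        ((3 * c) ^ d * G ^ d * gη η) := h2
      _ ≤ (({a : Gam η hη | gnorm a ≤ ρ}.ncard : ℝ) * (2 ^ (κ₁ + 1) * C₁ * √D * G ^ κ₁)) *
        ((3 * c) ^ d * G ^ d * gη η) := mul_le_mul_of_nonneg_right h1 (by positivity)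
      _ = _ := by rw [pow_add G d κ₁]; ring

end Pool.Agent.LibST91
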