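import Pool.Agent.LibST91.Defs

/-!
# Definitions of the number field block
-/

set_option autoImplicit false

namespace Pool.Agent.LibST91

open NumberField

/-- `max 1 (log |N η|)`. -/
noncomputable def gη {K : Type} [Field K] [NumberField K] (η : 𝓞 K) : ℝ :=
  max 1 (Real.log |((Algebra.norm ℤ η : ℤ) : ℝ)|)

/-- The element `u * η^j`. -/
noncomputable def gel {K : Type} [Field K] [NumberField K] (η : 𝓞 K) (u : (𝓞 K)ˣ) (j : ℤ) : K :=
  ((u : 𝓞 K) : K) * ((η : 𝓞 K) : K) ^ j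

/-- The vector of logarithms. -/
noncomputable def logv {K : Type} [Field K] [NumberField K] (x : K) : InfinitePlace K → ℝ :=
  fun v => Real.log (v x)

/-- The size `∑ |log |η|_v| + max 1 (log |N η|)`. -/
noncomputable def Gη {K : Type} [Field K] [NumberField K] (η : 𝓞 K) : ℝ :=
  ∑ v : InfinitePlace K, |Real.log (v (η : K))| + gη η

/-- The additive group of the pairs (logarithms of `u * η^j`, `j`). -/
def Gam {K : Type} [Field K] [NumberField K] (η : 𝓞 K) (hη : η ≠ 0) :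
    AddSubgroup ((InfinitePlace K → ℝ) × ℤ) where
  carrier := {a | ∃ u : (𝓞 K)ˣ, a.1 = logv (gel η u a.2)}
  zero_mem' := by
    refine ⟨1, ?_⟩
    funext v
    simp [logv, gel]
  add_mem' := by
    rintro ⟨x, j⟩ ⟨y, k⟩ ⟨u, hu⟩ ⟨w, hw⟩
    refine ⟨u * w, ?_⟩
    have hη' : ((η : 𝓞 K) : K) ≠ 0 := by simpa using hη
    funext v
    have h1 : v (((u : 𝓞 K) : K) * ((η : 𝓞 K) : K) ^ j) ≠ 0 := by
      rw [map_ne_zero]
      exact mul_ne_zero (by simp) (zpow_ne_zero _ hη')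
    have h2 : v (((w : 𝓞 K) : K) * ((η : 𝓞 K) : K) ^ k) ≠ 0 := by
      rw [map_ne_zero]
      exact mul_ne_zero (by simp) (zpow_ne_zero _ hη')
    have hu' := congrFun hu v
    have hw' := congrFun hw v
    simp only [logv, gel] at hu' hw' ⊢
    simp only [Prod.mk_add_mk, Pi.add_apply]
    rw [hu', hw', ← Real.log_mul h1 h2, ← map_mul]
    congr 2
    rw [Units.val_mul, zpow_add₀ hη']
    push_cast
    ring
  neg_mem' := by
    rintro ⟨x, j⟩ ⟨u, hu⟩
    refine ⟨u⁻¹, ?_⟩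
    have hη' : ((η : 𝓞 K) : K) ≠ 0 := by simpa using hη
    funext v
    have hu' := congrFun hu v
    simp only [logv, gel] at hu' ⊢
    simp only [Prod.neg_mk, Pi.neg_apply]
    rw [hu', ← Real.log_inv, ← map_inv₀]
    congr 2
    rw [mul_inv, zpow_neg]
    congr 1
    have : (((u⁻¹ : (𝓞 K)ˣ) : 𝓞 K) : K) * (((u : (𝓞 K)ˣ) : 𝓞 K) : K) = 1 := by
      rw [← map_mul, ← Units.val_mul, inv_mul_cancel]
      simp
    exact (eq_inv_of_mul_eq_one_left this).symm

/-- The norm on the group. -/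
noncomputable def gnorm {K : Type} [Field K] [NumberField K] {η : 𝓞 K} {hη : η ≠ 0}
    (a : Gam η hη) : ℝ := ∑ v : InfinitePlace K, |(a : (InfinitePlace K → ℝ) × ℤ).1 v| +
      |(((a : (InfinitePlace K → ℝ) × ℤ).2 : ℤ) : ℝ)| * gη η

end Pool.Agent.LibST91
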