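import Mathlib

/-! # ST91, zero estimate: a box covers every class modulo `p` and `b` (helper74) -/

set_option autoImplicit false

namespace Pool.Agent.LibST91Z

open Finset

/-- The index of the cell. -/
def ca (m : ℤ) : ℕ := if 0 ≤ m then m.toNat else (-m - 1).toNat

/-- The weight of the cell. -/
noncomputable def cw (lam : ℝ) (m : ℤ) : ℝ := if ca m = 0 then 1 else 1 / (lam * ca m) ^ 2

/-- geometric sums of additive characters -/
theorem geo_char (p : ℕ) [NeZero p] (x : ZMod p) (hx : x ≠ 0) (S : ℕ) :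
    ‖∑ j ∈ Finset.range (S + 1), (ZMod.stdAddChar (x * (j : ZMod p)) : ℂ)‖ ≤ p / (2 * |(x.valMinAbs : ℝ)|) := by
  have hp0 : (0 : ℝ) < p := by exact_mod_cast (NeZero.pos p)
  set v : ℤ := x.valMinAbs with hv
  have hvx : ((v : ℤ) : ZMod p) = x := ZMod.coe_valMinAbs x
  have hv0 : v ≠ 0 := by
    intro h
    apply hx
    rw [← hvx, h, Int.cast_zero]
  have hvabs : 0 < |(v : ℝ)| := abs_pos.mpr (by exact_mod_cast hv0)
  have hvle : |(v : ℝ)| ≤ p / 2 := by
    have h1 : v.natAbs ≤ p / 2 := ZMod.natAbs_valMinAbs_le x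
    have h2 : ((v.natAbs : ℕ) : ℝ) ≤ ((p / 2 : ℕ) : ℝ) := by exact_mod_cast h1
    have h3 : ((v.natAbs : ℕ) : ℝ) = |(v : ℝ)| := by rw [Nat.cast_natAbs, Int.cast_abs]
    rw [← h3]
    exact h2.trans Nat.cast_div_le
  set z : ℂ := ZMod.stdAddChar x with hz
  have hpow : ∀ j : ℕ, (ZMod.stdAddChar (x * (j : ZMod p)) : ℂ) = z ^ j := by
    intro j
    rw [hz, ← AddChar.map_nsmul_eq_pow, nsmul_eq_mul, mul_comm]
  simp_rw [hpow]
  have hz1 : z = Complex.exp (Complex.I * ((2 * Real.pi * v / p : ℝ) : ℂ)) := by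
    rw [hz, ← hvx, ZMod.stdAddChar_coe]
    congr 1
    push_cast
    ring
  have hnorm : 4 * |(v : ℝ)| / p ≤ ‖z - 1‖ := by
    rw [hz1, Complex.norm_exp_I_mul_ofReal_sub_one, norm_mul, Real.norm_eq_abs, Real.norm_eq_abs, abs_two]
    have e1 : |Real.sin (2 * Real.pi * v / p / 2)| = Real.sin (Real.pi * |(v : ℝ)| / p) := by
      have h1 : 2 * Real.pi * v / p / 2 = Real.pi * v / p := by ring
      rw [h1]
      have hnn : 0 ≤ Real.sin (Real.pi * |(v : ℝ)| / p) := by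
        apply Real.sin_nonneg_of_nonneg_of_le_pi
        · positivity
        · rw [div_le_iff₀ hp0]
          have := Real.pi_pos
          nlinarith
      rcases abs_cases (v : ℝ) with ⟨h2, _⟩ | ⟨h2, _⟩
      · rw [h2] at hnn ⊢
        exact abs_of_nonneg hnn
      · rw [h2] at hnn ⊢
        have h3 : Real.pi * v / p = -(Real.pi * -v / p) := by ring
        rw [h3, Real.sin_neg, abs_neg, abs_of_nonneg hnn]
    rw [e1]
    have e2 := Real.mul_le_sin (x := Real.pi * |(v : ℝ)| / p) (by positivity) (by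
      rw [div_le_div_iff₀ hp0 two_pos]
      have := Real.pi_pos
      nlinarith)
    have e3 : 2 / Real.pi * (Real.pi * |(v : ℝ)| / p) = 2 * |(v : ℝ)| / p := by
      have := Real.pi_pos.ne'
      field_simp
    rw [e3] at e2
    calc 4 * |(v : ℝ)| / p = 2 * (2 * |(v : ℝ)| / p) := by ring
      _ ≤ _ := by gcongr
  have hz1' : z - 1 ≠ 0 := by
    intro h
    rw [h, norm_zero] at hnorm
    have : 0 < 4 * |(v : ℝ)| / p := by positivity
    linarith
  have hne : z ≠ 1 := fun h => hz1' (by rw [h, sub_self])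
  rw [geom_sum_eq hne, norm_div]
  have hnz : ‖z‖ = 1 := AddChar.norm_apply _ _
  have hnum : ‖z ^ (S + 1) - 1‖ ≤ 2 := by
    calc ‖z ^ (S + 1) - 1‖ ≤ ‖z ^ (S + 1)‖ + ‖(1 : ℂ)‖ := norm_sub_le _ _
      _ = 2 := by rw [norm_pow, hnz, one_pow, norm_one]; norm_num
  have hpos : 0 < 4 * |(v : ℝ)| / p := by positivity
  calc ‖z ^ (S + 1) - 1‖ / ‖z - 1‖ ≤ 2 / (4 * |(v : ℝ)| / p) := by gcongr
    _ = p / (2 * |(v : ℝ)|) := by
      field_simp
      norm_num

theorem trivial_char (p : ℕ) [NeZero p] (x : ZMod p) (S : ℕ) :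
    ‖∑ j ∈ Finset.range (S + 1), (ZMod.stdAddChar (x * (j : ZMod p)) : ℂ)‖ ≤ S + 1 := by
  refine (norm_sum_le _ _).trans ?_
  have : ∀ j ∈ Finset.range (S + 1), ‖(ZMod.stdAddChar (x * (j : ZMod p)) : ℂ)‖ ≤ 1 := by
    intro j _
    exact (AddChar.norm_apply _ _).le
  refine (Finset.sum_le_card_nsmul _ _ _ this).trans ?_
  simp

/-- the weight bounds the square of the geometric sum -/
theorem char_le (p : ℕ) [NeZero p] (x : ZMod p) (S : ℕ) (lam : ℝ) (hl : 0 < lam) :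
    ‖∑ j ∈ Finset.range (S + 1), (ZMod.stdAddChar (x * (j : ZMod p)) : ℂ)‖ ^ 2 ≤
      ((S : ℝ) + 1) ^ 2 * cw lam ⌊(x.valMinAbs : ℝ) / (lam * (p / (2 * (S + 1))))⌋ := by
  have hp0 : (0 : ℝ) < p := by exact_mod_cast (NeZero.pos p)
  set Y : ℝ := lam * (p / (2 * (S + 1))) with hY
  have hY0 : 0 < Y := by positivity
  set m : ℤ := ⌊(x.valMinAbs : ℝ) / Y⌋ with hm
  unfold cw
  by_cases hc : ca m = 0
  · rw [if_pos hc, mul_one]
    exact pow_le_pow_left₀ (norm_nonneg _) (trivial_char p x S) 2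
  · rw [if_neg hc]
    have hx : x ≠ 0 := by
      intro h
      apply hc
      have : m = 0 := by
        rw [hm, h]
        simp
      rw [this]
      rfl
    have hca : 0 < ca m := Nat.pos_of_ne_zero hc
    -- `|x| ≥ Y * ca m`
    have hge : Y * ca m ≤ |(x.valMinAbs : ℝ)| := by
      have f1 : (m : ℝ) ≤ (x.valMinAbs : ℝ) / Y := Int.floor_le _
      have f2 : (x.valMinAbs : ℝ) / Y < m + 1 := Int.lt_floor_add_one _
      unfold ca
      by_cases h0 : 0 ≤ m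
      · rw [if_pos h0]
        have : ((m.toNat : ℕ) : ℝ) = m := by
          have := Int.toNat_of_nonneg h0
          exact_mod_cast this
        rw [this]
        rw [le_div_iff₀ hY0] at f1
        exact le_trans (by linarith) (le_abs_self _)
      · rw [if_neg h0]
        have h1 : 0 ≤ -m - 1 := by omega
        have : (((-m - 1).toNat : ℕ) : ℝ) = -m - 1 := by
          have := Int.toNat_of_nonneg h1
          exact_mod_cast this
        rw [this]
        rw [div_lt_iff₀ hY0] at f2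
        refine le_trans ?_ (neg_le_abs _)
        nlinarith
    have hcaR : (0 : ℝ) < ca m := by exact_mod_cast hca
    have h1 := geo_char p x hx S
    have h2 : (p : ℝ) / (2 * |(x.valMinAbs : ℝ)|) ≤ (S + 1) / (lam * ca m) := by
      have h3 : 0 < Y * ca m := by positivity
      calc (p : ℝ) / (2 * |(x.valMinAbs : ℝ)|) ≤ p / (2 * (Y * ca m)) := by gcongr
        _ = (S + 1) / (lam * ca m) := by
          rw [hY]
          field_simp
    calc ‖∑ j ∈ Finset.range (S + 1), (ZMod.stdAddChar (x * (j : ZMod p)) : ℂ)‖ ^ 2 ≤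
        ((S + 1) / (lam * ca m)) ^ 2 := pow_le_pow_left₀ (norm_nonneg _) (h1.trans h2) 2
      _ = ((S : ℝ) + 1) ^ 2 * (1 / (lam * ca m) ^ 2) := by
        rw [div_pow]
        ring

/-- the sum of the weights over an interval -/
theorem cw_sum (lam : ℝ) (hl : 0 < lam) (T : ℕ) :
    ∑ m ∈ Finset.Icc (-(T : ℤ)) T, cw lam m ≤ 2 + 4 / lam ^ 2 := by
  -- split by the sign
  have hnn : ∀ m : ℤ, 0 ≤ cw lam m := by
    intro m
    unfold cw
    split_ifs
    · exact zero_le_one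
    · positivity
  have hsub : Finset.Icc (-(T : ℤ)) T ⊆ (Finset.range (T + 1)).image (fun k : ℕ => (k : ℤ)) ∪
      (Finset.range (T + 1)).image (fun k : ℕ => (-(k : ℤ) - 1)) := by
    intro m hm
    rw [Finset.mem_Icc] at hm
    rw [Finset.mem_union, Finset.mem_image, Finset.mem_image]
    by_cases h : 0 ≤ m
    · left
      exact ⟨m.toNat, by rw [Finset.mem_range]; omega, by omega⟩
    · right
      exact ⟨(-m - 1).toNat, by rw [Finset.mem_range]; omega, by omega⟩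
  have hone : ∑ k ∈ Finset.range (T + 1), (if k = 0 then (1 : ℝ) else 1 / (lam * k) ^ 2) ≤ 1 + 2 / lam ^ 2 := by
    rw [Finset.sum_range_succ']
    have h0 : (if (0 : ℕ) = 0 then (1 : ℝ) else 1 / (lam * (0 : ℕ)) ^ 2) = 1 := if_pos rfl
    rw [h0]
    have h1 : ∀ k ∈ Finset.range T, (if k + 1 = 0 then (1 : ℝ) else 1 / (lam * ((k + 1 : ℕ) : ℝ)) ^ 2) =
        1 / lam ^ 2 * (1 / ((k : ℝ) + 1) ^ 2) := by
      intro k _
      rw [if_neg (by omega)]
      push_cast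
      rw [mul_pow]
      field_simp
    rw [Finset.sum_congr rfl h1, ← Finset.mul_sum]
    have h2 : ∀ U : ℕ, ∑ k ∈ Finset.range (U + 1), 1 / ((k : ℝ) + 1) ^ 2 ≤ 2 - 1 / ((U : ℝ) + 1) := by
      intro U
      induction U with
      | zero => norm_num
      | succ U ih =>
        rw [Finset.sum_range_succ]
        have h3 : 1 / (((U + 1 : ℕ) : ℝ) + 1) ^ 2 ≤ 1 / ((U : ℝ) + 1) - 1 / (((U + 1 : ℕ) : ℝ) + 1) := by
          push_cast
          rw [div_sub_div _ _ (by positivity) (by positivity), div_le_div_iff₀ (by positivity) (by positivity)]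
          nlinarith [Nat.cast_nonneg (α := ℝ) U]
        linarith
    have h3 : ∑ k ∈ Finset.range T, 1 / ((k : ℝ) + 1) ^ 2 ≤ 2 := by
      have h4 := h2 T
      rw [Finset.sum_range_succ] at h4
      have h5 : (0 : ℝ) ≤ 1 / ((T : ℝ) + 1) ^ 2 := by positivity
      have h6 : (0 : ℝ) ≤ 1 / ((T : ℝ) + 1) := by positivity
      linarith
    have h4 : 1 / lam ^ 2 * ∑ k ∈ Finset.range T, 1 / ((k : ℝ) + 1) ^ 2 ≤ 1 / lam ^ 2 * 2 := by gcongr
    calc _ ≤ 1 / lam ^ 2 * 2 + 1 := by linarith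
      _ = 1 + 2 / lam ^ 2 := by ring
  calc ∑ m ∈ Finset.Icc (-(T : ℤ)) T, cw lam m ≤ ∑ m ∈ (Finset.range (T + 1)).image (fun k : ℕ => (k : ℤ)) ∪
      (Finset.range (T + 1)).image (fun k : ℕ => (-(k : ℤ) - 1)), cw lam m :=
        Finset.sum_le_sum_of_subset_of_nonneg hsub fun m _ _ => hnn m
    _ ≤ ∑ m ∈ (Finset.range (T + 1)).image (fun k : ℕ => (k : ℤ)), cw lam m +
        ∑ m ∈ (Finset.range (T + 1)).image (fun k : ℕ => (-(k : ℤ) - 1)), cw lam m := by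
        rw [← Finset.sum_union_inter]
        have : 0 ≤ ∑ m ∈ (Finset.range (T + 1)).image (fun k : ℕ => (k : ℤ)) ∩
          (Finset.range (T + 1)).image (fun k : ℕ => (-(k : ℤ) - 1)), cw lam m := Finset.sum_nonneg fun m _ => hnn m
        linarith
    _ ≤ (1 + 2 / lam ^ 2) + (1 + 2 / lam ^ 2) := by
        refine add_le_add ?_ ?_
        · rw [Finset.sum_image (fun x _ y _ h => by exact_mod_cast h)]
          refine le_trans (le_of_eq ?_) hone
          refine Finset.sum_congr rfl fun k _ => ?_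
          unfold cw ca
          rw [if_pos (by positivity : (0 : ℤ) ≤ (k : ℤ)), Int.toNat_natCast]
        · rw [Finset.sum_image (fun x _ y _ h => by omega)]
          refine le_trans (le_of_eq ?_) hone
          refine Finset.sum_congr rfl fun k _ => ?_
          unfold cw ca
          rw [if_neg (by omega : ¬ (0 : ℤ) ≤ (-(k : ℤ) - 1)), show (-(-(k : ℤ) - 1) - 1) = (k : ℤ) by ring,
            Int.toNat_natCast]
    _ = 2 + 4 / lam ^ 2 := by ring

theorem cw_nonneg (lam : ℝ) (m : ℤ) : 0 ≤ cw lam m := by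
  unfold cw
  split_ifs
  · exact zero_le_one
  · positivity

theorem bern (N : ℕ) (x : ℝ) (h0 : 0 ≤ x) (h1 : x ≤ 1) : (1 + x) ^ N ≤ 1 + (2 ^ N - 1) * x := by
  induction N with
  | zero => simp
  | succ N ih =>
    have h2 : (1 : ℝ) ≤ 2 ^ N := one_le_pow₀ (by norm_num)
    calc (1 + x) ^ (N + 1) = (1 + x) ^ N * (1 + x) := pow_succ _ _
      _ ≤ (1 + (2 ^ N - 1) * x) * (1 + x) := by gcongr
      _ = 1 + 2 ^ N * x + (2 ^ N - 1) * x ^ 2 := by ring
      _ ≤ 1 + 2 ^ N * x + (2 ^ N - 1) * x := by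
          have : x ^ 2 ≤ x := by nlinarith
          have h3 : (0 : ℝ) ≤ 2 ^ N - 1 := by linarith
          nlinarith
      _ = 1 + (2 ^ (N + 1) - 1) * x := by rw [pow_succ]; ring


section cover

theorem char_sum {ι : Type} (p : ℕ) [NeZero p] (s : Finset ι) (f : ι → ZMod p) :
    (ZMod.stdAddChar (∑ i ∈ s, f i) : ℂ) = ∏ i ∈ s, (ZMod.stdAddChar (f i) : ℂ) := by
  classical
  induction s using Finset.induction_on with
  | empty => rw [Finset.sum_empty, Finset.prod_empty, AddChar.map_zero_eq_one]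
  | insert a s ha ih => rw [Finset.sum_insert ha, Finset.prod_insert ha, AddChar.map_add_eq_mul, ih]

variable {ι : Type} [Fintype ι] [DecidableEq ι]

/-- the exponential sum over the box -/
noncomputable def EE (p : ℕ) [NeZero p] (S : ι → ℕ) (χ : ι → ZMod p) : ℂ :=
  ∏ i, ∑ j ∈ Finset.range (S i + 1), (ZMod.stdAddChar (χ i * (j : ZMod p)) : ℂ)

theorem EE_eq (p : ℕ) [NeZero p] (S : ι → ℕ) (χ : ι → ZMod p) :
    EE p S χ = ∑ j ∈ Fintype.piFinset (fun i => Finset.range (S i + 1)),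
      (ZMod.stdAddChar (∑ i, χ i * (j i : ZMod p)) : ℂ) := by
  unfold EE
  rw [Finset.prod_univ_sum]
  refine Finset.sum_congr rfl fun j _ => ?_
  rw [char_sum]

theorem orth (p : ℕ) [Fact p.Prime] (g : ι → ZMod p) (hg : g ≠ 0) :
    ∑ χ : ι → ZMod p, (ZMod.stdAddChar (∑ i, χ i * g i) : ℂ) = 0 := by
  have h1 : ∀ χ : ι → ZMod p, (ZMod.stdAddChar (∑ i, χ i * g i) : ℂ) = ∏ i, (ZMod.stdAddChar (χ i * g i) : ℂ) := by
    intro χ
    rw [char_sum]
  simp_rw [h1]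
  have h2 := Finset.prod_univ_sum (fun _ : ι => (Finset.univ : Finset (ZMod p)))
    (fun i x => (ZMod.stdAddChar (x * g i) : ℂ))
  rw [Fintype.piFinset_univ] at h2
  rw [← h2]
  obtain ⟨i, hi⟩ : ∃ i, g i ≠ 0 := by
    by_contra h
    push Not at h
    exact hg (funext h)
  refine Finset.prod_eq_zero (Finset.mem_univ i) ?_
  rw [AddChar.sum_mulShift (g i) (ZMod.isPrimitive_stdAddChar p), if_neg hi, Nat.cast_zero]

theorem cover_le (p : ℕ) [Fact p.Prime] (b : ι → ZMod p) (S : ι → ℕ)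
    (hH : ∀ χ : ι → ZMod p, χ ≠ 0 → ∑ i, χ i * b i = 0 →
      ∃ i, (3 : ℝ) ^ Fintype.card ι * p / (S i + 1) < |((χ i).valMinAbs : ℝ)|) :
    ∑ χ ∈ (Finset.univ : Finset (ι → ZMod p)).filter (fun χ => χ ≠ 0 ∧ ∑ i, χ i * b i = 0), ‖EE p S χ‖ ^ 2 <
      ∏ i, ((S i : ℝ) + 1) ^ 2 := by
  classical
  have hp0 : (0 : ℝ) < p := by exact_mod_cast (Fact.out : p.Prime).pos
  set N := Fintype.card ι with hN
  set lam : ℝ := 2 * 3 ^ N with hlam
  have hl : 0 < lam := by positivity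
  set m : (ι → ZMod p) → ι → ℤ := fun χ i => ⌊((χ i).valMinAbs : ℝ) / (lam * (p / (2 * (S i + 1))))⌋ with hm
  have hY : ∀ i, lam * (p / (2 * ((S i : ℝ) + 1))) = (3 : ℝ) ^ N * p / (S i + 1) := by
    intro i
    rw [hlam]
    field_simp
  have hYpos : ∀ i, 0 < (3 : ℝ) ^ N * p / (S i + 1) := fun i => by positivity
  set H := (Finset.univ : Finset (ι → ZMod p)).filter (fun χ => χ ≠ 0 ∧ ∑ i, χ i * b i = 0) with hHdef
  have hbound : ∀ χ ∈ H, ‖EE p S χ‖ ^ 2 ≤ (∏ i, ((S i : ℝ) + 1) ^ 2) * ∏ i, cw lam (m χ i) := by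
    intro χ _
    unfold EE
    rw [norm_prod, ← Finset.prod_pow, ← Finset.prod_mul_distrib]
    refine Finset.prod_le_prod (fun i _ => by positivity) fun i _ => ?_
    exact char_le p (χ i) (S i) lam hl
  -- the cells
  set T : ℕ := (Finset.univ : Finset ((ι → ZMod p) × ι)).sup (fun q => (m q.1 q.2).natAbs) + 1 with hT
  have hTle : ∀ χ i, m χ i ∈ Finset.Icc (-(T : ℤ)) T := by
    intro χ i
    have : (m χ i).natAbs ≤ (Finset.univ : Finset ((ι → ZMod p) × ι)).sup (fun q => (m q.1 q.2).natAbs) :=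
      Finset.le_sup (f := fun q : (ι → ZMod p) × ι => (m q.1 q.2).natAbs) (Finset.mem_univ (χ, i))
    rw [Finset.mem_Icc]
    omega
  have hinj : Set.InjOn m H := by
    intro χ hχ χ' hχ' h
    by_contra hne
    rw [Finset.mem_coe, hHdef, Finset.mem_filter] at hχ hχ'
    obtain ⟨i, hi⟩ := hH (χ - χ') (sub_ne_zero.mpr hne) (by
      simp only [Pi.sub_apply, sub_mul, Finset.sum_sub_distrib]
      rw [hχ.2.2, hχ'.2.2, sub_zero])
    have h1 : m χ i = m χ' i := congrFun h i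
    have h2 := Int.abs_sub_lt_one_of_floor_eq_floor h1
    rw [← sub_div, hY, abs_div, abs_of_pos (hYpos i), div_lt_one (hYpos i)] at h2
    have h3 : |(((χ - χ') i).valMinAbs : ℝ)| ≤ |((χ i).valMinAbs : ℝ) - ((χ' i).valMinAbs : ℝ)| := by
      have h4 : (((χ - χ') i).valMinAbs).natAbs ≤ ((χ i).valMinAbs - (χ' i).valMinAbs).natAbs := by
        refine ZMod.natAbs_min_of_le_div_two p _ _ ?_ (ZMod.natAbs_valMinAbs_le _)
        rw [ZMod.coe_valMinAbs, Int.cast_sub, ZMod.coe_valMinAbs, ZMod.coe_valMinAbs, Pi.sub_apply]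
      have h5 : (((((χ - χ') i).valMinAbs).natAbs : ℕ) : ℝ) ≤ ((((χ i).valMinAbs - (χ' i).valMinAbs).natAbs : ℕ) : ℝ) := by
        exact_mod_cast h4
      rw [Nat.cast_natAbs, Nat.cast_natAbs, Int.cast_abs, Int.cast_abs, Int.cast_sub] at h5
      exact h5
    linarith
  have hsub : H.image m ⊆ (Fintype.piFinset fun _ : ι => Finset.Icc (-(T : ℤ)) T) \
      (Fintype.piFinset fun _ : ι => Finset.Icc (-1 : ℤ) 0) := by
    intro μ hμ
    rw [Finset.mem_image] at hμ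
    obtain ⟨χ, hχ, rfl⟩ := hμ
    rw [Finset.mem_sdiff, Fintype.mem_piFinset, Fintype.mem_piFinset]
    refine ⟨fun i => hTle χ i, fun hall => ?_⟩
    rw [hHdef, Finset.mem_filter] at hχ
    obtain ⟨i, hi⟩ := hH χ hχ.2.1 hχ.2.2
    have h1 := Finset.mem_Icc.mp (hall i)
    have f1 : (m χ i : ℝ) ≤ ((χ i).valMinAbs : ℝ) / (lam * (p / (2 * (S i + 1)))) := Int.floor_le _
    have f2 : ((χ i).valMinAbs : ℝ) / (lam * (p / (2 * (S i + 1)))) < m χ i + 1 := Int.lt_floor_add_one _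
    rw [hY] at f1 f2
    rw [le_div_iff₀ (hYpos i)] at f1
    rw [div_lt_iff₀ (hYpos i)] at f2
    have g1 : (-1 : ℝ) ≤ m χ i := by exact_mod_cast h1.1
    have g2 : (m χ i : ℝ) ≤ 0 := by exact_mod_cast h1.2
    have hYp := hYpos i
    rcases abs_cases ((χ i).valMinAbs : ℝ) with ⟨h2, _⟩ | ⟨h2, _⟩
    · rw [h2] at hi
      nlinarith
    · rw [h2] at hi
      nlinarith
  have hsum : ∑ χ ∈ H, ∏ i, cw lam (m χ i) ≤ (2 + 4 / lam ^ 2) ^ N - 2 ^ N := by
    have h1 : ∑ χ ∈ H, ∏ i, cw lam (m χ i) = ∑ μ ∈ H.image m, ∏ i, cw lam (μ i) :=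
      (Finset.sum_image (f := fun μ : ι → ℤ => ∏ i, cw lam (μ i)) hinj).symm
    rw [h1]
    have h2 : ∑ μ ∈ H.image m, ∏ i, cw lam (μ i) ≤ ∑ μ ∈ (Fintype.piFinset fun _ : ι => Finset.Icc (-(T : ℤ)) T) \
      (Fintype.piFinset fun _ : ι => Finset.Icc (-1 : ℤ) 0), ∏ i, cw lam (μ i) :=
      Finset.sum_le_sum_of_subset_of_nonneg hsub fun μ _ _ => Finset.prod_nonneg fun i _ => cw_nonneg _ _
    refine h2.trans ?_
    have h3 : (Fintype.piFinset fun _ : ι => Finset.Icc (-1 : ℤ) 0) ⊆ (Fintype.piFinset fun _ : ι => Finset.Icc (-(T : ℤ)) T) := by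
      intro μ hμ
      rw [Fintype.mem_piFinset] at hμ ⊢
      intro i
      have := Finset.mem_Icc.mp (hμ i)
      rw [Finset.mem_Icc]
      omega
    have h4 := Finset.sum_sdiff (f := fun μ : ι → ℤ => ∏ i, cw lam (μ i)) h3
    have h5 : ∑ μ ∈ (Fintype.piFinset fun _ : ι => Finset.Icc (-(T : ℤ)) T), ∏ i, cw lam (μ i) ≤ (2 + 4 / lam ^ 2) ^ N := by
      rw [← Finset.prod_univ_sum (fun _ : ι => Finset.Icc (-(T : ℤ)) T) (fun _ x => cw lam x), Finset.prod_const,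
        Finset.card_univ]
      exact pow_le_pow_left₀ (Finset.sum_nonneg fun x _ => cw_nonneg _ _) (cw_sum lam hl T) N
    have h6 : ∑ μ ∈ (Fintype.piFinset fun _ : ι => Finset.Icc (-1 : ℤ) 0), ∏ i, cw lam (μ i) = 2 ^ N := by
      rw [← Finset.prod_univ_sum (fun _ : ι => Finset.Icc (-1 : ℤ) 0) (fun _ x => cw lam x), Finset.prod_const,
        Finset.card_univ]
      congr 1
      have : Finset.Icc (-1 : ℤ) 0 = {-1, 0} := by decide
      rw [this, Finset.sum_pair (by norm_num)]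
      unfold cw ca
      norm_num
    linarith
  have hfin : (2 + 4 / lam ^ 2) ^ N - 2 ^ N < 1 := by
    have h9 : (0 : ℝ) < 9 ^ N := by positivity
    have hx : 4 / lam ^ 2 = 2 * (1 / (2 * 9 ^ N)) := by
      rw [hlam, mul_pow, ← pow_mul, mul_comm N 2, pow_mul]
      norm_num
      field_simp
    set x : ℝ := 1 / (2 * 9 ^ N) with hxdef
    have hx0 : 0 ≤ x := by positivity
    have h91 : (1 : ℝ) ≤ 9 ^ N := one_le_pow₀ (by norm_num)
    have hx1 : x ≤ 1 := by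
      rw [hxdef, div_le_one (by positivity)]
      linarith
    rw [hx, show 2 + 2 * x = 2 * (1 + x) by ring, mul_pow]
    have h1 := bern N x hx0 hx1
    have h2 : (2 : ℝ) ^ N * (2 ^ N * x) < 1 := by
      have h3 : (2 : ℝ) ^ N * 2 ^ N ≤ 9 ^ N := by
        rw [← mul_pow]
        exact pow_le_pow_left₀ (by norm_num) (by norm_num) N
      calc (2 : ℝ) ^ N * (2 ^ N * x) = (2 ^ N * 2 ^ N) * x := by ring
        _ ≤ 9 ^ N * x := by gcongr
        _ = 1 / 2 := by rw [hxdef]; field_simp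
        _ < 1 := by norm_num
    have h2N : (0 : ℝ) < 2 ^ N := by positivity
    calc (2 : ℝ) ^ N * (1 + x) ^ N - 2 ^ N ≤ 2 ^ N * (1 + (2 ^ N - 1) * x) - 2 ^ N := by gcongr
      _ = 2 ^ N * (2 ^ N * x) - 2 ^ N * x := by ring
      _ < 1 := by
        have : 0 ≤ (2 : ℝ) ^ N * x := by positivity
        linarith
  have hprod : 0 < ∏ i, ((S i : ℝ) + 1) ^ 2 := Finset.prod_pos fun i _ => by positivity
  calc ∑ χ ∈ H, ‖EE p S χ‖ ^ 2 ≤ ∑ χ ∈ H, (∏ i, ((S i : ℝ) + 1) ^ 2) * ∏ i, cw lam (m χ i) := Finset.sum_le_sum hbound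
    _ = (∏ i, ((S i : ℝ) + 1) ^ 2) * ∑ χ ∈ H, ∏ i, cw lam (m χ i) := by rw [Finset.mul_sum]
    _ < (∏ i, ((S i : ℝ) + 1) ^ 2) * 1 := by
        refine mul_lt_mul_of_pos_left (lt_of_le_of_lt hsum hfin) hprod
    _ = _ := mul_one _

/-- **Coverage**: a box meets every class modulo `p` and `b` if the orthogonal of `b` has no short vector. -/
theorem cover (p : ℕ) [Fact p.Prime] (b : ι → ZMod p) (S : ι → ℕ)
    (hH : ∀ χ : ι → ZMod p, χ ≠ 0 → ∑ i, χ i * b i = 0 →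
      ∃ i, (3 : ℝ) ^ Fintype.card ι * p / (S i + 1) < |((χ i).valMinAbs : ℝ)|) (c : ι → ZMod p) :
    ∃ s : ι → ℤ, (∀ i, |s i| ≤ S i) ∧ ∃ t : ZMod p, ∀ i, ((s i : ℤ) : ZMod p) = c i + t * b i := by
  classical
  by_contra hcon
  push Not at hcon
  set Bx := Fintype.piFinset (fun i => Finset.range (S i + 1)) with hBx
  -- no triple
  have hno : ∀ j ∈ Bx, ∀ j' ∈ Bx, ∀ t : ZMod p, (fun i => (j i : ZMod p) - (j' i : ZMod p) - c i - t * b i) ≠ 0 := by
    intro j hj j' hj' t h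
    rw [hBx, Fintype.mem_piFinset] at hj hj'
    obtain ⟨i, hi⟩ := hcon (fun i => (j i : ℤ) - (j' i : ℤ)) (fun i => by
      have h1 := Finset.mem_range.mp (hj i)
      have h2 := Finset.mem_range.mp (hj' i)
      rw [abs_le]
      omega) t
    apply hi
    have := congrFun h i
    simp only [Pi.zero_apply] at this
    push_cast
    linear_combination this
  -- the sum
  have hzero : ∑ j ∈ Bx, ∑ j' ∈ Bx, ∑ t : ZMod p, ∑ χ : ι → ZMod p,
      (ZMod.stdAddChar (∑ i, χ i * ((j i : ZMod p) - (j' i : ZMod p) - c i - t * b i)) : ℂ) = 0 := by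
    refine Finset.sum_eq_zero fun j hj => Finset.sum_eq_zero fun j' hj' => Finset.sum_eq_zero fun t _ => ?_
    exact orth p _ (hno j hj j' hj' t)
  have hswap : ∑ j ∈ Bx, ∑ j' ∈ Bx, ∑ t : ZMod p, ∑ χ : ι → ZMod p,
      (ZMod.stdAddChar (∑ i, χ i * ((j i : ZMod p) - (j' i : ZMod p) - c i - t * b i)) : ℂ) =
      ∑ χ : ι → ZMod p, (EE p S χ * (starRingEnd ℂ) (EE p S χ)) * (ZMod.stdAddChar (-∑ i, χ i * c i) : ℂ) *
        ∑ t : ZMod p, (ZMod.stdAddChar (t * (-∑ i, χ i * b i)) : ℂ) := by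
    have h0 : ∀ j j' : ι → ℕ, ∀ t : ZMod p, ∀ χ : ι → ZMod p,
        (ZMod.stdAddChar (∑ i, χ i * ((j i : ZMod p) - (j' i : ZMod p) - c i - t * b i)) : ℂ) =
        (ZMod.stdAddChar (∑ i, χ i * (j i : ZMod p)) : ℂ) * (starRingEnd ℂ) (ZMod.stdAddChar (∑ i, χ i * (j' i : ZMod p)) : ℂ) *
          (ZMod.stdAddChar (-∑ i, χ i * c i) : ℂ) * (ZMod.stdAddChar (t * (-∑ i, χ i * b i)) : ℂ) := by
      intro j j' t χ
      rw [← AddChar.map_neg_eq_conj, ← AddChar.map_add_eq_mul, ← AddChar.map_add_eq_mul, ← AddChar.map_add_eq_mul]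
      congr 1
      rw [← Finset.sum_neg_distrib, ← Finset.sum_neg_distrib, ← Finset.sum_neg_distrib, Finset.mul_sum,
        ← Finset.sum_add_distrib, ← Finset.sum_add_distrib, ← Finset.sum_add_distrib]
      refine Finset.sum_congr rfl fun i _ => ?_
      ring
    simp_rw [h0]
    calc ∑ j ∈ Bx, ∑ j' ∈ Bx, ∑ t : ZMod p, ∑ χ : ι → ZMod p,
        (ZMod.stdAddChar (∑ i, χ i * (j i : ZMod p)) : ℂ) * (starRingEnd ℂ) (ZMod.stdAddChar (∑ i, χ i * (j' i : ZMod p)) : ℂ) *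
          (ZMod.stdAddChar (-∑ i, χ i * c i) : ℂ) * (ZMod.stdAddChar (t * (-∑ i, χ i * b i)) : ℂ)
        = ∑ j ∈ Bx, ∑ j' ∈ Bx, ∑ χ : ι → ZMod p, ∑ t : ZMod p,
        (ZMod.stdAddChar (∑ i, χ i * (j i : ZMod p)) : ℂ) * (starRingEnd ℂ) (ZMod.stdAddChar (∑ i, χ i * (j' i : ZMod p)) : ℂ) *
          (ZMod.stdAddChar (-∑ i, χ i * c i) : ℂ) * (ZMod.stdAddChar (t * (-∑ i, χ i * b i)) : ℂ) := by
          refine Finset.sum_congr rfl fun j _ => Finset.sum_congr rfl fun j' _ => Finset.sum_comm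
      _ = ∑ j ∈ Bx, ∑ χ : ι → ZMod p, ∑ j' ∈ Bx, ∑ t : ZMod p,
        (ZMod.stdAddChar (∑ i, χ i * (j i : ZMod p)) : ℂ) * (starRingEnd ℂ) (ZMod.stdAddChar (∑ i, χ i * (j' i : ZMod p)) : ℂ) *
          (ZMod.stdAddChar (-∑ i, χ i * c i) : ℂ) * (ZMod.stdAddChar (t * (-∑ i, χ i * b i)) : ℂ) := by
          refine Finset.sum_congr rfl fun j _ => Finset.sum_comm
      _ = ∑ χ : ι → ZMod p, ∑ j ∈ Bx, ∑ j' ∈ Bx, ∑ t : ZMod p,
        (ZMod.stdAddChar (∑ i, χ i * (j i : ZMod p)) : ℂ) * (starRingEnd ℂ) (ZMod.stdAddChar (∑ i, χ i * (j' i : ZMod p)) : ℂ) *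
          (ZMod.stdAddChar (-∑ i, χ i * c i) : ℂ) * (ZMod.stdAddChar (t * (-∑ i, χ i * b i)) : ℂ) := Finset.sum_comm
      _ = _ := by
          refine Finset.sum_congr rfl fun χ _ => ?_
          rw [EE_eq, map_sum, Finset.sum_mul_sum, Finset.sum_mul, Finset.sum_mul]
          refine Finset.sum_congr rfl fun j _ => ?_
          rw [Finset.sum_mul, Finset.sum_mul]
          refine Finset.sum_congr rfl fun j' _ => ?_
          rw [Finset.mul_sum]
  rw [hswap] at hzero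
  have hp0 : (0 : ℝ) < p := by exact_mod_cast (Fact.out : p.Prime).pos
  have hpC : (p : ℂ) ≠ 0 := by exact_mod_cast (Fact.out : p.Prime).ne_zero
  have ht : ∀ χ : ι → ZMod p, ∑ t : ZMod p, (ZMod.stdAddChar (t * (-∑ i, χ i * b i)) : ℂ) =
      if ∑ i, χ i * b i = 0 then (p : ℂ) else 0 := by
    intro χ
    rw [AddChar.sum_mulShift _ (ZMod.isPrimitive_stdAddChar p), ZMod.card]
    by_cases h : ∑ i, χ i * b i = 0
    · rw [if_pos h, if_pos (by rw [h, neg_zero])]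
    · rw [if_neg h, if_neg (by rwa [neg_eq_zero]), Nat.cast_zero]
  simp_rw [ht] at hzero
  have hz2 : ∑ χ ∈ (Finset.univ : Finset (ι → ZMod p)).filter (fun χ => ∑ i, χ i * b i = 0),
      ((‖EE p S χ‖ ^ 2 : ℝ) : ℂ) * (ZMod.stdAddChar (-∑ i, χ i * c i) : ℂ) = 0 := by
    have h1 : ∑ χ : ι → ZMod p, (EE p S χ * (starRingEnd ℂ) (EE p S χ)) * (ZMod.stdAddChar (-∑ i, χ i * c i) : ℂ) *
        (if ∑ i, χ i * b i = 0 then (p : ℂ) else 0) =
        (∑ χ ∈ (Finset.univ : Finset (ι → ZMod p)).filter (fun χ => ∑ i, χ i * b i = 0),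
      ((‖EE p S χ‖ ^ 2 : ℝ) : ℂ) * (ZMod.stdAddChar (-∑ i, χ i * c i) : ℂ)) * p := by
      rw [Finset.sum_filter, Finset.sum_mul]
      refine Finset.sum_congr rfl fun χ _ => ?_
      rw [Complex.mul_conj']
      split_ifs
      · push_cast
        ring
      · ring
    rw [h1] at hzero
    exact (mul_eq_zero.mp hzero).resolve_right hpC
  -- isolate `χ = 0`
  have hmem0 : (0 : ι → ZMod p) ∈ (Finset.univ : Finset (ι → ZMod p)).filter (fun χ => ∑ i, χ i * b i = 0) := by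
    rw [Finset.mem_filter]
    exact ⟨Finset.mem_univ _, by simp⟩
  rw [← Finset.add_sum_erase _ _ hmem0] at hz2
  have hE0 : EE p S 0 = ((∏ i, ((S i : ℝ) + 1) : ℝ) : ℂ) := by
    unfold EE
    push_cast
    refine Finset.prod_congr rfl fun i _ => ?_
    simp
  have hset : ((Finset.univ : Finset (ι → ZMod p)).filter (fun χ => ∑ i, χ i * b i = 0)).erase 0 =
      (Finset.univ : Finset (ι → ZMod p)).filter (fun χ => χ ≠ 0 ∧ ∑ i, χ i * b i = 0) := by
    ext χ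
    rw [Finset.mem_erase, Finset.mem_filter, Finset.mem_filter]
    tauto
  rw [hset] at hz2
  have h1 : ((‖EE p S 0‖ ^ 2 : ℝ) : ℂ) * (ZMod.stdAddChar (-∑ i, (0 : ι → ZMod p) i * c i) : ℂ) =
      ((∏ i, ((S i : ℝ) + 1) ^ 2 : ℝ) : ℂ) := by
    have : -∑ i, (0 : ι → ZMod p) i * c i = 0 := by simp
    rw [this, AddChar.map_zero_eq_one, mul_one, hE0, Complex.norm_real, Real.norm_eq_abs, sq_abs, Finset.prod_pow]
  rw [h1] at hz2
  have h2 : ((∏ i, ((S i : ℝ) + 1) ^ 2 : ℝ) : ℂ) =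
      -∑ χ ∈ (Finset.univ : Finset (ι → ZMod p)).filter (fun χ => χ ≠ 0 ∧ ∑ i, χ i * b i = 0),
        ((‖EE p S χ‖ ^ 2 : ℝ) : ℂ) * (ZMod.stdAddChar (-∑ i, χ i * c i) : ℂ) := by
    linear_combination hz2
  have h3 := congrArg norm h2
  rw [norm_neg, Complex.norm_real, Real.norm_eq_abs, abs_of_nonneg (Finset.prod_nonneg fun i _ => by positivity)] at h3
  have h4 : ‖∑ χ ∈ (Finset.univ : Finset (ι → ZMod p)).filter (fun χ => χ ≠ 0 ∧ ∑ i, χ i * b i = 0),
        ((‖EE p S χ‖ ^ 2 : ℝ) : ℂ) * (ZMod.stdAddChar (-∑ i, χ i * c i) : ℂ)‖ ≤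
      ∑ χ ∈ (Finset.univ : Finset (ι → ZMod p)).filter (fun χ => χ ≠ 0 ∧ ∑ i, χ i * b i = 0), ‖EE p S χ‖ ^ 2 := by
    refine (norm_sum_le _ _).trans (Finset.sum_le_sum fun χ _ => ?_)
    rw [norm_mul, AddChar.norm_apply, mul_one, Complex.norm_real, Real.norm_eq_abs, abs_of_nonneg (by positivity)]
  have h5 := cover_le p b S hH
  linarith

end cover

end Pool.Agent.LibST91Z
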